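import Pool.Agent.J4.H80.IB.IBas

set_option autoImplicit false

open Complex Metric Set Filter Topology MeasureTheory
open scoped ComplexConjugate ENNReal

namespace Pool.Agent.J4.H80.IB

lemma dist_lb {t : ℝ} (h0 : 1 / 2 ≤ t) {α : ℝ} (ha : 0 ≤ α)
    (ha2 : α ≤ 2 * Real.pi) :
    min α (2 * Real.pi - α) / Real.pi ≤ ‖1 - (t : ℂ) * e α‖ := by
  have hpi := Real.pi_pos
  have hs : min α (2 * Real.pi - α) / Real.pi ≤ Real.sin (α / 2) := by
    rcases le_total α Real.pi with h | h
    · have h3 := Real.mul_le_sin (x := α / 2) (by linarith) (by linarith)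
      refine le_trans ?_ h3
      rw [show 2 / Real.pi * (α / 2) = α / Real.pi by ring]
      gcongr
      exact min_le_left _ _
    · have h3 := Real.mul_le_sin (x := Real.pi - α / 2) (by linarith) (by linarith)
      rw [Real.sin_pi_sub] at h3
      refine le_trans ?_ h3
      rw [show 2 / Real.pi * (Real.pi - α / 2) = (2 * Real.pi - α) / Real.pi by ring]
      gcongr
      exact min_le_right _ _
  have h2 : Real.sin (α / 2) ^ 2 ≤ ‖1 - (t : ℂ) * e α‖ ^ 2 := by
    rw [normSq_one_sub]
    have h3 : Real.cos α = 1 - 2 * Real.sin (α / 2) ^ 2 := by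
      have h4 := Real.cos_sq' (α / 2)
      have h5 := Real.cos_two_mul (α / 2)
      rw [show 2 * (α / 2) = α by ring] at h5
      rw [h5, h4]
      ring
    rw [h3]
    nlinarith [sq_nonneg (Real.sin (α / 2)), sq_nonneg (1 - t),
      mul_nonneg (by linarith : (0 : ℝ) ≤ t - 1 / 2) (sq_nonneg (Real.sin (α / 2)))]
  exact hs.trans (abs_le_of_sq_le_sq' h2 (norm_nonneg _)).2

lemma e_shift (α : ℝ) (j : ℕ) : e (α + 2 * Real.pi * j) = e α := by
  induction j with
  | zero => simp
  | succ j ih =>
    rw [← ih, ← e_per (α + 2 * Real.pi * j)]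
    congr 1
    push_cast
    ring

noncomputable def C0 : ℝ := Real.pi ^ (1 / 2 : ℝ) * (4 * (2 * Real.pi) ^ (1 / 2 : ℝ))

lemma C0_pos : 0 < C0 := by
  have := Real.pi_pos
  unfold C0
  positivity

lemma cell_pt {t : ℝ} (h0 : 1 / 2 ≤ t) {α : ℝ} (ha : 0 < α) (ha2 : α < 2 * Real.pi) :
    ‖1 - (t : ℂ) * e α‖ ^ (-(1 / 2) : ℝ) ≤
      Real.pi ^ (1 / 2 : ℝ) * (α ^ (-(1 / 2) : ℝ) + (2 * Real.pi - α) ^ (-(1 / 2) : ℝ)) := by
  have hpi := Real.pi_pos
  have hm : 0 < min α (2 * Real.pi - α) := lt_min ha (by linarith)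
  have h1 := dist_lb h0 ha.le ha2.le
  have h2 : 0 < min α (2 * Real.pi - α) / Real.pi := by positivity
  refine (Real.rpow_le_rpow_of_nonpos h2 h1 (by norm_num)).trans ?_
  rw [Real.div_rpow hm.le hpi.le, Real.rpow_neg hpi.le, div_inv_eq_mul, mul_comm]
  gcongr
  rcases min_choice α (2 * Real.pi - α) with h | h
  · rw [h]
    have : 0 ≤ (2 * Real.pi - α) ^ (-(1 / 2) : ℝ) := Real.rpow_nonneg (by linarith) _
    linarith
  · rw [h]
    have : 0 ≤ α ^ (-(1 / 2) : ℝ) := Real.rpow_nonneg (by linarith) _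
    linarith

lemma cell_int {t : ℝ} (h0 : 1 / 2 ≤ t) {K : ℕ} (hK : 0 < K) (j : ℕ) :
    ∫⁻ θ in Ioc ((j : ℝ) * (2 * Real.pi / K)) (((j : ℝ) + 1) * (2 * Real.pi / K)),
      ENNReal.ofReal (‖1 - (t : ℂ) * e (K * θ)‖ ^ (-(1 / 2) : ℝ)) ≤ ENNReal.ofReal (C0 / K) := by
  have hpi := Real.pi_pos
  have hK' : (0 : ℝ) < K := by exact_mod_cast hK
  set a : ℝ := (j : ℝ) * (2 * Real.pi / K) with ha
  set b : ℝ := ((j : ℝ) + 1) * (2 * Real.pi / K) with hb
  have hKa : (K : ℝ) * a = 2 * Real.pi * j := by rw [ha]; field_simp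
  have hKb : (K : ℝ) * b = 2 * Real.pi * j + 2 * Real.pi := by rw [hb]; field_simp
  have hab : a ≤ b := by
    rw [ha, hb]
    gcongr
    linarith
  let g : ℝ → ℝ := fun x => x ^ (-(1 / 2) : ℝ)
  have hg : ∀ c d : ℝ, IntervalIntegrable g volume c d := fun c d =>
    intervalIntegral.intervalIntegrable_rpow' (by norm_num)
  have hgi : ∫ x in (0 : ℝ)..2 * Real.pi, g x = 2 * (2 * Real.pi) ^ (1 / 2 : ℝ) := by
    simp only [g]
    rw [integral_rpow (Or.inl (by norm_num))]
    rw [show (-(1 / 2) + 1 : ℝ) = 1 / 2 by norm_num, Real.zero_rpow (by norm_num)]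
    ring
  have i1 : IntervalIntegrable (fun θ => g (K * θ - 2 * Real.pi * j)) volume a b := by
    have h1 := ((hg 0 (2 * Real.pi)).comp_sub_right (2 * Real.pi * j)).comp_mul_left
      (c := (K : ℝ))
    convert h1 using 1
    · rw [ha]; field_simp; ring
    · rw [hb]; field_simp; ring
  have i2 : IntervalIntegrable (fun θ => g (2 * Real.pi * j + 2 * Real.pi - K * θ))
      volume a b := by
    have h1 := ((hg (2 * Real.pi) 0).comp_sub_left (2 * Real.pi * j + 2 * Real.pi)).comp_mul_left
      (c := (K : ℝ))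
    convert h1 using 1
    · rw [ha]; field_simp; ring
    · rw [hb]; field_simp; ring
  have e1 : ∫ θ in a..b, g (K * θ - 2 * Real.pi * j) =
      (K : ℝ)⁻¹ * (2 * (2 * Real.pi) ^ (1 / 2 : ℝ)) := by
    rw [intervalIntegral.integral_comp_mul_sub _ hK'.ne', hKa, hKb, smul_eq_mul, sub_self,
      add_sub_cancel_left, hgi]
  have e2 : ∫ θ in a..b, g (2 * Real.pi * j + 2 * Real.pi - K * θ) =
      (K : ℝ)⁻¹ * (2 * (2 * Real.pi) ^ (1 / 2 : ℝ)) := by
    rw [intervalIntegral.integral_comp_sub_mul _ hK'.ne', hKa, hKb, smul_eq_mul, sub_self,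
      add_sub_cancel_left, hgi]
  let G : ℝ → ℝ := fun θ => Real.pi ^ (1 / 2 : ℝ) *
    (g (K * θ - 2 * Real.pi * j) + g (2 * Real.pi * j + 2 * Real.pi - K * θ))
  have hG : IntervalIntegrable G volume a b := (i1.add i2).const_mul _
  have hGi : ∫ θ in a..b, G θ = C0 / K := by
    simp only [G]
    rw [intervalIntegral.integral_const_mul, intervalIntegral.integral_add i1 i2, e1, e2]
    unfold C0
    field_simp
    ring
  rw [← setLIntegral_congr Ioo_ae_eq_Ioc]
  calc ∫⁻ θ in Ioo a b, ENNReal.ofReal (‖1 - (t : ℂ) * e (K * θ)‖ ^ (-(1 / 2) : ℝ))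
      ≤ ∫⁻ θ in Ioo a b, ENNReal.ofReal (G θ) := by
        refine setLIntegral_mono' measurableSet_Ioo fun θ hθ => ENNReal.ofReal_le_ofReal ?_
        have h1 : 0 < K * θ - 2 * Real.pi * j := by
          have := mul_lt_mul_of_pos_left hθ.1 hK'
          linarith
        have h2 : K * θ - 2 * Real.pi * j < 2 * Real.pi := by
          have := mul_lt_mul_of_pos_left hθ.2 hK'
          linarith
        have h3 := cell_pt h0 h1 h2
        rw [← e_shift _ j, sub_add_cancel] at h3
        refine h3.trans (le_of_eq ?_)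
        simp only [G, g]
        congr 3
        ring
    _ = ∫⁻ θ in Ioc a b, ENNReal.ofReal (G θ) := setLIntegral_congr Ioo_ae_eq_Ioc
    _ = ENNReal.ofReal (∫ θ in Ioc a b, G θ) := by
        rw [ofReal_integral_eq_lintegral_ofReal]
        · exact hG.1
        · rw [← restrict_Ioo_eq_restrict_Ioc]
          filter_upwards [ae_restrict_mem measurableSet_Ioo] with θ hθ
          have h1 : 0 < K * θ - 2 * Real.pi * j := by
            have := mul_lt_mul_of_pos_left hθ.1 hK'
            linarith
          have h2 : K * θ - 2 * Real.pi * j < 2 * Real.pi := by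
            have := mul_lt_mul_of_pos_left hθ.2 hK'
            linarith
          simp only [G, g, Pi.zero_apply]
          have h3 : 0 ≤ (K * θ - 2 * Real.pi * j) ^ (-(1 / 2) : ℝ) := Real.rpow_nonneg h1.le _
          have h4 : 0 ≤ (2 * Real.pi * j + 2 * Real.pi - K * θ) ^ (-(1 / 2) : ℝ) :=
            Real.rpow_nonneg (by linarith) _
          positivity
    _ = ENNReal.ofReal (C0 / K) := by
        rw [← intervalIntegral.integral_of_le hab, hGi]

/-- decomposition into cells -/
lemma cells (μ : Measure ℝ) {h : ℝ} (hh : 0 ≤ h) (n : ℕ) :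
    μ (Ioc 0 ((n : ℝ) * h)) ≤
      ∑ j ∈ Finset.range n, μ (Ioc ((j : ℝ) * h) (((j : ℝ) + 1) * h)) := by
  induction n with
  | zero => simp
  | succ n ih =>
    rw [Finset.sum_range_succ]
    have h1 : Ioc 0 (((n + 1 : ℕ) : ℝ) * h) =
        Ioc 0 ((n : ℝ) * h) ∪ Ioc ((n : ℝ) * h) (((n : ℝ) + 1) * h) := by
      rw [Ioc_union_Ioc_eq_Ioc]
      · push_cast; rfl
      · positivity
      · nlinarith
    rw [h1]
    exact (measure_union_le _ _).trans (by gcongr)

theorem avg_holds : S_AVG := by
  have hpi := Real.pi_pos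
  have hC0 := C0_pos
  refine ⟨C0 * (2 * Real.pi) + 2 * Real.pi, by positivity, ?_, ?_⟩
  · intro W l hW hper hl t ht0 ht1 K hK
    have hK' : (0 : ℝ) < K := by exact_mod_cast hK
    have hl0 : 0 ≤ l := by
      have := hl 1 0
      simp only [sub_zero, abs_one, mul_one] at this
      exact (abs_nonneg _).trans this
    have hWc : Continuous W := by
      have : LipschitzWith (Real.toNNReal l) W := by
        refine LipschitzWith.of_dist_le_mul fun a b => ?_
        rw [Real.dist_eq, Real.dist_eq, Real.coe_toNNReal l hl0]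
        exact hl a b
      exact this.continuous
    set h : ℝ := 2 * Real.pi / K with hh
    have hhpos : 0 < h := by rw [hh]; positivity
    have hKh : (K : ℝ) * h = 2 * Real.pi := by rw [hh]; field_simp
    let M : ℕ → ℝ := fun j => h⁻¹ * (∫ x in ((j : ℝ) * h)..(((j + 1 : ℕ) : ℝ) * h), W x) + l * h
    have hMW : ∀ j : ℕ, ∀ θ ∈ Ioc ((j : ℝ) * h) (((j : ℝ) + 1) * h), W θ ≤ M j := by
      intro j θ hθ
      have hle : (j : ℝ) * h ≤ ((j + 1 : ℕ) : ℝ) * h := by
        push_cast
        nlinarith
      have h1 : ∫ x in ((j : ℝ) * h)..(((j + 1 : ℕ) : ℝ) * h), (W θ - l * h) ≤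
          ∫ x in ((j : ℝ) * h)..(((j + 1 : ℕ) : ℝ) * h), W x := by
        refine intervalIntegral.integral_mono_on hle (continuous_const.intervalIntegrable _ _)
          (hWc.intervalIntegrable _ _) fun x hx => ?_
        have h2 := (abs_le.1 (hl θ x)).2
        have h3 : |θ - x| ≤ h := by
          rw [abs_le]
          have h4 := hx.2
          push_cast at h4
          constructor
          · have := hθ.1
            linarith
          · have := hθ.2
            linarith [hx.1]
        nlinarith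
      rw [intervalIntegral.integral_const, smul_eq_mul] at h1
      have h5 : ((j + 1 : ℕ) : ℝ) * h - (j : ℝ) * h = h := by push_cast; ring
      rw [h5] at h1
      have h6 : W θ - l * h ≤ h⁻¹ * ∫ x in ((j : ℝ) * h)..(((j + 1 : ℕ) : ℝ) * h), W x := by
        rw [← div_eq_inv_mul, le_div_iff₀ hhpos]
        linarith
      simp only [M]
      linarith
    have hM0 : ∀ j, 0 ≤ M j := fun j => by
      have hj := hMW j (((j : ℝ) + 1) * h) ⟨by nlinarith, le_rfl⟩
      exact (hW _).trans hj
    have hcell : ∀ j : ℕ, ∫⁻ θ in Ioc ((j : ℝ) * h) (((j : ℝ) + 1) * h),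
        ENNReal.ofReal (W θ * ‖1 - (t : ℂ) * e (K * θ)‖ ^ (-(1 / 2) : ℝ)) ≤
        ENNReal.ofReal (M j * (C0 / K)) := by
      intro j
      calc ∫⁻ θ in Ioc ((j : ℝ) * h) (((j : ℝ) + 1) * h),
          ENNReal.ofReal (W θ * ‖1 - (t : ℂ) * e (K * θ)‖ ^ (-(1 / 2) : ℝ))
          ≤ ∫⁻ θ in Ioc ((j : ℝ) * h) (((j : ℝ) + 1) * h), ENNReal.ofReal (M j) *
            ENNReal.ofReal (‖1 - (t : ℂ) * e (K * θ)‖ ^ (-(1 / 2) : ℝ)) := by
            refine setLIntegral_mono' measurableSet_Ioc fun θ hθ => ?_
            rw [← ENNReal.ofReal_mul (hM0 j)]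
            refine ENNReal.ofReal_le_ofReal ?_
            have := hMW j θ hθ
            have h2 : 0 ≤ ‖1 - (t : ℂ) * e (K * θ)‖ ^ (-(1 / 2) : ℝ) :=
              Real.rpow_nonneg (norm_nonneg _) _
            gcongr
        _ = ENNReal.ofReal (M j) * ∫⁻ θ in Ioc ((j : ℝ) * h) (((j : ℝ) + 1) * h),
            ENNReal.ofReal (‖1 - (t : ℂ) * e (K * θ)‖ ^ (-(1 / 2) : ℝ)) :=
            lintegral_const_mul' _ _ ENNReal.ofReal_ne_top
        _ ≤ ENNReal.ofReal (M j) * ENNReal.ofReal (C0 / K) := by
            gcongr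
            exact cell_int ht0 hK j
        _ = _ := (ENNReal.ofReal_mul (hM0 j)).symm
    have hdec := cells ((volume : Measure ℝ).withDensity fun θ =>
      ENNReal.ofReal (W θ * ‖1 - (t : ℂ) * e (K * θ)‖ ^ (-(1 / 2) : ℝ))) hhpos.le K
    simp only [withDensity_apply _ measurableSet_Ioc] at hdec
    rw [hKh] at hdec
    refine hdec.trans ?_
    calc ∑ j ∈ Finset.range K, ∫⁻ θ in Ioc ((j : ℝ) * h) (((j : ℝ) + 1) * h),
        ENNReal.ofReal (W θ * ‖1 - (t : ℂ) * e (K * θ)‖ ^ (-(1 / 2) : ℝ))
        ≤ ∑ j ∈ Finset.range K, ENNReal.ofReal (M j * (C0 / K)) :=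
          Finset.sum_le_sum fun j _ => hcell j
      _ = ENNReal.ofReal (∑ j ∈ Finset.range K, M j * (C0 / K)) :=
          (ENNReal.ofReal_sum_of_nonneg fun j _ => mul_nonneg (hM0 j) (by positivity)).symm
      _ ≤ _ := by
          refine ENNReal.ofReal_le_ofReal ?_
          rw [← Finset.sum_mul]
          simp only [M]
          rw [Finset.sum_add_distrib, ← Finset.mul_sum]
          have hadj := intervalIntegral.sum_integral_adjacent_intervals (μ := volume) (f := W)
            (a := fun j : ℕ => (j : ℝ) * h) (n := K)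
            (fun j _ => hWc.intervalIntegrable _ _)
          rw [hadj, Finset.sum_const, Finset.card_range, nsmul_eq_mul, hKh]
          simp only [Nat.cast_zero, zero_mul]
          have hI : 0 ≤ ∫ θ in (0 : ℝ)..2 * Real.pi, W θ :=
            intervalIntegral.integral_nonneg (by positivity) fun x _ => hW x
          set I := ∫ θ in (0 : ℝ)..2 * Real.pi, W θ
          have h1 : (h⁻¹ * I + K * (l * h)) * (C0 / K) =
              C0 / (2 * Real.pi) * I + C0 * (2 * Real.pi) * (l / K) := by
            rw [hh]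
            field_simp
          rw [h1]
          have h2 : C0 / (2 * Real.pi) * I ≤ (C0 * (2 * Real.pi) + 2 * Real.pi) * I := by
            gcongr
            rw [div_le_iff₀ (by positivity)]
            have h3 := Real.pi_gt_three
            nlinarith [mul_pos hC0 hpi, mul_pos hpi hpi, mul_pos hC0 (mul_pos hpi hpi)]
          have h3 : C0 * (2 * Real.pi) * (l / K) ≤
              (C0 * (2 * Real.pi) + 2 * Real.pi) * (l / K) := by
            have : 0 ≤ l / K := by positivity
            gcongr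
            linarith
          linarith
  · intro t ht0 ht1 K hK δ hδ
    have hK' : (0 : ℝ) < K := by exact_mod_cast hK
    set h : ℝ := 2 * Real.pi / K with hh
    have hhpos : 0 < h := by rw [hh]; positivity
    have hKh : (K : ℝ) * h = 2 * Real.pi := by rw [hh]; field_simp
    let S : Set ℝ := {θ | ‖1 - (t : ℂ) * e (K * θ)‖ ≤ δ}
    have hSm : MeasurableSet S := by
      refine measurableSet_le ?_ measurable_const
      refine (Continuous.norm ?_).measurable
      exact continuous_const.sub (continuous_const.mul (e_cont.comp (continuous_const.mul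
        continuous_id)))
    have hcell : ∀ j : ℕ, (volume.restrict S) (Ioc ((j : ℝ) * h) (((j : ℝ) + 1) * h)) ≤
        ENNReal.ofReal (2 * Real.pi * δ / K) := by
      intro j
      rw [Measure.restrict_apply measurableSet_Ioc]
      have hsub : Ioc ((j : ℝ) * h) (((j : ℝ) + 1) * h) ∩ S ⊆
          Icc ((j : ℝ) * h) ((j : ℝ) * h + Real.pi * δ / K) ∪
          Icc (((j : ℝ) + 1) * h - Real.pi * δ / K) (((j : ℝ) + 1) * h) := by
        rintro θ ⟨hθ, hθS⟩
        have hKa : (K : ℝ) * ((j : ℝ) * h) = 2 * Real.pi * j := by rw [hh]; field_simp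
        have hKb : (K : ℝ) * (((j : ℝ) + 1) * h) = 2 * Real.pi * j + 2 * Real.pi := by
          rw [hh]; field_simp
        have h1 : 0 < K * θ - 2 * Real.pi * j := by
          have := mul_lt_mul_of_pos_left hθ.1 hK'
          linarith
        have h2 : K * θ - 2 * Real.pi * j ≤ 2 * Real.pi := by
          have := mul_le_mul_of_nonneg_left hθ.2 hK'.le
          linarith
        have h3 := dist_lb ht0 h1.le h2
        rw [← e_shift _ j, sub_add_cancel] at h3
        have h4 := h3.trans hθS
        rw [div_le_iff₀ hpi] at h4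
        rcases min_le_iff.1 h4 with h5 | h5
        · left
          refine ⟨hθ.1.le, ?_⟩
          have h6 : (K : ℝ) * (θ - (j : ℝ) * h) ≤ δ * Real.pi := by
            rw [mul_sub, hKa]
            exact h5
          have h7 : θ - (j : ℝ) * h ≤ Real.pi * δ / K := by
            rw [le_div_iff₀ hK']
            linarith
          linarith
        · right
          refine ⟨?_, hθ.2⟩
          have h6 : (K : ℝ) * (((j : ℝ) + 1) * h - θ) ≤ δ * Real.pi := by
            rw [mul_sub, hKb]
            linarith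
          have h7 : ((j : ℝ) + 1) * h - θ ≤ Real.pi * δ / K := by
            rw [le_div_iff₀ hK']
            linarith
          linarith
      refine (measure_mono hsub).trans ((measure_union_le _ _).trans ?_)
      rw [Real.volume_Icc, Real.volume_Icc, ← ENNReal.ofReal_add]
      · refine ENNReal.ofReal_le_ofReal (le_of_eq ?_)
        ring
      · have : 0 ≤ Real.pi * δ / K := by positivity
        linarith
      · have : 0 ≤ Real.pi * δ / K := by positivity
        linarith
    have hdec := cells (volume.restrict S) hhpos.le K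
    rw [hKh, Measure.restrict_apply measurableSet_Ioc] at hdec
    refine hdec.trans ?_
    calc ∑ j ∈ Finset.range K, (volume.restrict S) (Ioc ((j : ℝ) * h) (((j : ℝ) + 1) * h))
        ≤ ∑ j ∈ Finset.range K, ENNReal.ofReal (2 * Real.pi * δ / K) :=
          Finset.sum_le_sum fun j _ => hcell j
      _ = ENNReal.ofReal (2 * Real.pi * δ) := by
          rw [← ENNReal.ofReal_sum_of_nonneg fun j _ => by positivity, Finset.sum_const,
            Finset.card_range, nsmul_eq_mul]
          congr 1
          field_simp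
      _ ≤ _ := by
          refine ENNReal.ofReal_le_ofReal ?_
          have : 0 < C0 * (2 * Real.pi) := by positivity
          gcongr
          linarith

end Pool.Agent.J4.H80.IB
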