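import Pool.Agent.J4.H80.IB.IDef

/-!
# Logarithmic integrals over almost straight arcs, covering lemma, sublevel sets (piece F)
-/

set_option autoImplicit false

open Complex Metric Set Filter Topology MeasureTheory
open scoped ComplexConjugate ENNReal

namespace Pool.Agent.J4.H80.IB

/-- an almost straight arc moves away from any point at least linearly -/
theorem arc_lower (γ γ' : ℝ → ℂ) (a s : ℝ) (hs : 0 < s)
    (hd : ∀ θ ∈ Icc (a - s) (a + s), HasDerivAt γ (γ' θ) θ) (h0 : γ' a ≠ 0)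
    (hc : ∀ θ ∈ Icc (a - s) (a + s), ‖γ' θ - γ' a‖ ≤ ‖γ' a‖ / 2) (w : ℂ) :
    ∃ b : ℝ, ∀ θ ∈ Icc (a - s) (a + s), ‖γ' a‖ / 2 * |θ - b| ≤ ‖γ θ - w‖ := by
  have hn : 0 < ‖γ' a‖ := norm_pos_iff.mpr h0
  obtain ⟨v, hv1, hva⟩ : ∃ v : ℂ, ‖v‖ = 1 ∧ v * γ' a = (‖γ' a‖ : ℂ) := by
    refine ⟨conj (γ' a) / ‖γ' a‖, ?_, ?_⟩
    · rw [norm_div, RCLike.norm_conj, Complex.norm_real, Real.norm_eq_abs, abs_of_pos hn]
      exact div_self hn.ne'
    · rw [div_mul_eq_mul_div, Complex.conj_mul']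
      have : (‖γ' a‖ : ℂ) ≠ 0 := by exact_mod_cast hn.ne'
      field_simp
  set l : ℝ → ℝ := fun θ => (v * (γ θ - w)).re with hl
  have hl' : ∀ θ ∈ Icc (a - s) (a + s), HasDerivAt l ((v * γ' θ).re) θ := by
    intro θ hθ
    have h1 : HasDerivAt (fun θ => v * (γ θ - w)) (v * γ' θ) θ :=
      ((hd θ hθ).sub_const w).const_mul v
    have h2 := (Complex.reCLM.hasFDerivAt (x := v * (γ θ - w))).comp_hasDerivAt θ h1
    exact h2
  have hge : ∀ θ ∈ Icc (a - s) (a + s), ‖γ' a‖ / 2 ≤ (v * γ' θ).re := by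
    intro θ hθ
    have h1 : (v * γ' θ).re = ‖γ' a‖ + (v * (γ' θ - γ' a)).re := by
      rw [mul_sub, hva, Complex.sub_re, Complex.ofReal_re]
      ring
    have h2 : |(v * (γ' θ - γ' a)).re| ≤ ‖γ' a‖ / 2 := by
      refine (Complex.abs_re_le_norm _).trans ?_
      rw [norm_mul, hv1, one_mul]
      exact hc θ hθ
    have h3 := (abs_le.mp h2).1
    rw [h1]
    linarith
  have hcont : ContinuousOn l (Icc (a - s) (a + s)) := fun θ hθ =>
    (hl' θ hθ).continuousAt.continuousWithinAt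
  have hmono : ∀ x ∈ Icc (a - s) (a + s), ∀ y ∈ Icc (a - s) (a + s), x ≤ y →
      ‖γ' a‖ / 2 * (y - x) ≤ l y - l x := by
    apply Convex.mul_sub_le_image_sub_of_le_deriv (convex_Icc _ _) hcont
    · intro x hx
      exact (hl' x (interior_subset hx)).differentiableAt.differentiableWithinAt
    · intro x hx
      rw [(hl' x (interior_subset hx)).deriv]
      exact hge x (interior_subset hx)
  have habs : ∀ θ, |l θ| ≤ ‖γ θ - w‖ := by
    intro θ
    refine (Complex.abs_re_le_norm _).trans ?_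
    rw [norm_mul, hv1, one_mul]
  have hL : a - s ∈ Icc (a - s) (a + s) := ⟨le_rfl, by linarith⟩
  have hR : a + s ∈ Icc (a - s) (a + s) := ⟨by linarith, le_rfl⟩
  by_cases c1 : 0 ≤ l (a - s)
  · refine ⟨a - s, fun θ hθ => ?_⟩
    have h1 := hmono _ hL θ hθ hθ.1
    rw [abs_of_nonneg (by linarith [hθ.1] : 0 ≤ θ - (a - s))]
    have h2 := (le_abs_self (l θ)).trans (habs θ)
    linarith
  · push Not at c1
    by_cases c2 : l (a + s) ≤ 0
    · refine ⟨a + s, fun θ hθ => ?_⟩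
      have h1 := hmono θ hθ _ hR hθ.2
      rw [abs_of_nonpos (by linarith [hθ.2] : θ - (a + s) ≤ 0)]
      have h2 := (neg_le_abs (l θ)).trans (habs θ)
      linarith
    · push Not at c2
      obtain ⟨b, hb, hb0⟩ := intermediate_value_Icc (by linarith : a - s ≤ a + s) hcont
        (⟨c1.le, c2.le⟩ : (0 : ℝ) ∈ Icc (l (a - s)) (l (a + s)))
      refine ⟨b, fun θ hθ => ?_⟩
      rcases le_total b θ with h | h
      · have h1 := hmono b hb θ hθ h
        rw [abs_of_nonneg (by linarith : 0 ≤ θ - b)]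
        have h2 := (le_abs_self (l θ)).trans (habs θ)
        rw [hb0] at h1
        linarith
      · have h1 := hmono θ hθ b hb h
        rw [abs_of_nonpos (by linarith : θ - b ≤ 0)]
        have h2 := (neg_le_abs (l θ)).trans (habs θ)
        rw [hb0] at h1
        linarith

/-- third part of `S_1D` -/
theorem arc_volume (γ γ' : ℝ → ℂ) (a s : ℝ) (hs : 0 < s)
    (hd : ∀ θ ∈ Icc (a - s) (a + s), HasDerivAt γ (γ' θ) θ) (h0 : γ' a ≠ 0)
    (hc : ∀ θ ∈ Icc (a - s) (a + s), ‖γ' θ - γ' a‖ ≤ ‖γ' a‖ / 2) (w : ℂ) (κ : ℝ) :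
    volume {θ | θ ∈ Icc (a - s) (a + s) ∧ ‖γ θ - w‖ ≤ κ} ≤ ENNReal.ofReal (4 * κ / ‖γ' a‖) := by
  have hn : 0 < ‖γ' a‖ := norm_pos_iff.mpr h0
  obtain ⟨b, hb⟩ := arc_lower γ γ' a s hs hd h0 hc w
  have hsub : {θ | θ ∈ Icc (a - s) (a + s) ∧ ‖γ θ - w‖ ≤ κ} ⊆
      Icc (b - 2 * κ / ‖γ' a‖) (b + 2 * κ / ‖γ' a‖) := by
    rintro θ ⟨h1, h2⟩
    have h3 := (hb θ h1).trans h2
    have h4 : |θ - b| ≤ 2 * κ / ‖γ' a‖ := by
      rw [le_div_iff₀ hn]
      linarith
    have h5 := abs_le.mp h4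
    exact ⟨by linarith [h5.1], by linarith [h5.2]⟩
  refine (measure_mono hsub).trans ?_
  rw [Real.volume_Icc]
  apply ENNReal.ofReal_le_ofReal
  apply le_of_eq
  ring

theorem arc_meas (γ γ' : ℝ → ℂ) (a s : ℝ)
    (hd : ∀ θ ∈ Icc (a - s) (a + s), HasDerivAt γ (γ' θ) θ) (w : ℂ) (κ : ℝ) :
    AEMeasurable (fun θ => Real.posLog (κ / ‖γ θ - w‖)) (volume.restrict (Icc (a - s) (a + s))) := by
  have h1 : ContinuousOn (fun θ => ‖γ θ - w‖) (Icc (a - s) (a + s)) := fun θ hθ =>
    ((hd θ hθ).continuousAt.sub continuousAt_const).norm.continuousWithinAt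
  have h2 : AEMeasurable (fun θ => ‖γ θ - w‖) (volume.restrict (Icc (a - s) (a + s))) :=
    h1.aemeasurable measurableSet_Icc
  have h3 : Measurable (fun x : ℝ => Real.posLog (κ / x)) := by
    unfold Real.posLog
    exact (measurable_const.max ((Real.measurable_log).comp (measurable_const.div measurable_id)))
  exact h3.comp_aemeasurable h2

/-- distribution function of the logarithm -/
theorem arc_dist (γ γ' : ℝ → ℂ) (a s : ℝ) (hs : 0 < s)
    (hd : ∀ θ ∈ Icc (a - s) (a + s), HasDerivAt γ (γ' θ) θ) (h0 : γ' a ≠ 0)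
    (hc : ∀ θ ∈ Icc (a - s) (a + s), ‖γ' θ - γ' a‖ ≤ ‖γ' a‖ / 2) (w : ℂ) (κ : ℝ) (hκ : 0 < κ)
    (t : ℝ) (ht : 0 < t) :
    (volume.restrict (Icc (a - s) (a + s))) {θ | t < Real.posLog (κ / ‖γ θ - w‖)} ≤
      ENNReal.ofReal (4 * κ / ‖γ' a‖ * Real.exp (-t)) := by
  rw [Measure.restrict_apply' measurableSet_Icc]
  have hsub : {θ | t < Real.posLog (κ / ‖γ θ - w‖)} ∩ Icc (a - s) (a + s) ⊆
      {θ | θ ∈ Icc (a - s) (a + s) ∧ ‖γ θ - w‖ ≤ κ * Real.exp (-t)} := by
    rintro θ ⟨h1, h2⟩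
    refine ⟨h2, ?_⟩
    simp only [mem_ofPred_eq] at h1
    by_contra h3
    push Not at h3
    have h4 : 0 < κ * Real.exp (-t) := by positivity
    have h5 : κ / ‖γ θ - w‖ ≤ Real.exp t := by
      rw [div_le_iff₀ (h4.trans h3)]
      have : Real.exp t * (κ * Real.exp (-t)) = κ := by
        rw [mul_left_comm, ← Real.exp_add]; simp
      calc κ = Real.exp t * (κ * Real.exp (-t)) := this.symm
        _ ≤ Real.exp t * ‖γ θ - w‖ := by
          apply mul_le_mul_of_nonneg_left h3.le (Real.exp_pos t).le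
    have h6 : Real.posLog (κ / ‖γ θ - w‖) ≤ t := by
      unfold Real.posLog
      apply max_le ht.le
      have h7 : 0 < κ / ‖γ θ - w‖ := div_pos hκ (h4.trans h3)
      rw [Real.log_le_iff_le_exp h7]
      exact h5
    linarith
  refine (measure_mono hsub).trans ((arc_volume γ γ' a s hs hd h0 hc w _).trans ?_)
  apply ENNReal.ofReal_le_ofReal
  apply le_of_eq
  ring

theorem lint_exp (c t0 : ℝ) (hc : 0 ≤ c) :
    ∫⁻ t in Ioi t0, ENNReal.ofReal (c * Real.exp (-t)) = ENNReal.ofReal (c * Real.exp (-t0)) := by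
  have h1 : IntegrableOn (fun t => c * Real.exp (-t)) (Ioi t0) :=
    (integrableOn_exp_neg_Ioi t0).const_mul c
  rw [← ofReal_integral_eq_lintegral_ofReal h1
    (Filter.Eventually.of_forall fun t => by positivity)]
  rw [integral_const_mul, integral_exp_neg_Ioi]

/-- first and second parts of `S_1D` -/
theorem arc_int1 (γ γ' : ℝ → ℂ) (a s : ℝ) (hs : 0 < s)
    (hd : ∀ θ ∈ Icc (a - s) (a + s), HasDerivAt γ (γ' θ) θ) (h0 : γ' a ≠ 0)
    (hc : ∀ θ ∈ Icc (a - s) (a + s), ‖γ' θ - γ' a‖ ≤ ‖γ' a‖ / 2) (w : ℂ) (κ : ℝ) (hκ : 0 < κ) :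
    ∫⁻ θ in Icc (a - s) (a + s), ENNReal.ofReal (Real.posLog (κ / ‖γ θ - w‖)) ≤
      ENNReal.ofReal (4 * κ / ‖γ' a‖) := by
  have hn : 0 < ‖γ' a‖ := norm_pos_iff.mpr h0
  rw [lintegral_eq_lintegral_meas_lt _ (Filter.Eventually.of_forall fun θ => Real.posLog_nonneg)
    (arc_meas γ γ' a s hd w κ)]
  refine (setLIntegral_mono' measurableSet_Ioi fun t ht =>
    arc_dist γ γ' a s hs hd h0 hc w κ hκ t ht).trans ?_
  rw [lint_exp _ _ (by positivity)]
  simp

theorem arc_int2 (γ γ' : ℝ → ℂ) (a s : ℝ) (hs : 0 < s)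
    (hd : ∀ θ ∈ Icc (a - s) (a + s), HasDerivAt γ (γ' θ) θ) (h0 : γ' a ≠ 0)
    (hc : ∀ θ ∈ Icc (a - s) (a + s), ‖γ' θ - γ' a‖ ≤ ‖γ' a‖ / 2) (w : ℂ) (κ : ℝ) (hκ : 0 < κ) :
    ∫⁻ θ in Icc (a - s) (a + s), ENNReal.ofReal (Real.posLog (κ / ‖γ θ - w‖)) ≤
      ENNReal.ofReal (4 * s * (1 + Real.posLog (κ / (‖γ' a‖ * s)))) := by
  have hn : 0 < ‖γ' a‖ := norm_pos_iff.mpr h0
  set t0 := Real.posLog (κ / (‖γ' a‖ * s)) with ht0
  have ht0n : 0 ≤ t0 := Real.posLog_nonneg
  rw [lintegral_eq_lintegral_meas_lt _ (Filter.Eventually.of_forall fun θ => Real.posLog_nonneg)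
    (arc_meas γ γ' a s hd w κ)]
  rw [← Ioc_union_Ioi_eq_Ioi ht0n, lintegral_union measurableSet_Ioi
    (Set.Ioc_disjoint_Ioi le_rfl)]
  have h1 : ∫⁻ t in Ioc 0 t0, (volume.restrict (Icc (a - s) (a + s)))
      {θ | t < Real.posLog (κ / ‖γ θ - w‖)} ≤ ENNReal.ofReal (2 * s * t0) := by
    refine (setLIntegral_mono' (g := fun _ => ENNReal.ofReal (2 * s)) measurableSet_Ioc
      fun t ht => ?_).trans ?_
    · refine (measure_mono (subset_univ _)).trans ?_
      rw [Measure.restrict_apply_univ, Real.volume_Icc]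
      apply ENNReal.ofReal_le_ofReal
      linarith
    · rw [setLIntegral_const, Real.volume_Ioc, sub_zero, ← ENNReal.ofReal_mul (by positivity)]
  have h2 : ∫⁻ t in Ioi t0, (volume.restrict (Icc (a - s) (a + s)))
      {θ | t < Real.posLog (κ / ‖γ θ - w‖)} ≤ ENNReal.ofReal (4 * s) := by
    refine (setLIntegral_mono' measurableSet_Ioi fun t ht =>
      arc_dist γ γ' a s hs hd h0 hc w κ hκ t (lt_of_le_of_lt ht0n ht)).trans ?_
    rw [lint_exp _ _ (by positivity)]
    apply ENNReal.ofReal_le_ofReal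
    have h3 : κ / (‖γ' a‖ * s) ≤ Real.exp t0 := by
      have hp : 0 < κ / (‖γ' a‖ * s) := by positivity
      rw [← Real.log_le_iff_le_exp hp]
      exact le_max_right _ _
    rw [div_le_iff₀ (by positivity)] at h3
    have h4 : κ / ‖γ' a‖ ≤ Real.exp t0 * s := by
      rw [div_le_iff₀ hn]
      linarith
    have h5 : Real.exp t0 * Real.exp (-t0) = 1 := by rw [← Real.exp_add]; simp
    calc 4 * κ / ‖γ' a‖ * Real.exp (-t0) = 4 * (κ / ‖γ' a‖) * Real.exp (-t0) := by ring
      _ ≤ 4 * (Real.exp t0 * s) * Real.exp (-t0) := by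
        apply mul_le_mul_of_nonneg_right _ (Real.exp_pos _).le
        linarith
      _ = 4 * s * (Real.exp t0 * Real.exp (-t0)) := by ring
      _ = 4 * s := by rw [h5, mul_one]
  refine (add_le_add h1 h2).trans ?_
  rw [← ENNReal.ofReal_add (by positivity) (by positivity)]
  apply ENNReal.ofReal_le_ofReal
  nlinarith

theorem oneD_holds : S_1D := by
  refine ⟨4, by norm_num, ?_⟩
  intro γ γ' a s hs hd h0 hc w κ hκ
  exact ⟨arc_int1 γ γ' a s hs hd h0 hc w κ hκ, arc_int2 γ γ' a s hs hd h0 hc w κ hκ,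
    arc_volume γ γ' a s hs hd h0 hc w κ⟩

/-- the covering kernel -/
noncomputable def kern (s : ℝ → ℝ) (θ' θ : ℝ) : ℝ≥0∞ :=
  if |θ' - θ| ≤ s θ then ENNReal.ofReal (1 / s θ) else 0

theorem kern_meas (s : ℝ → ℝ) (hs : Continuous s) : Measurable (Function.uncurry (kern s)) := by
  unfold kern Function.uncurry
  apply Measurable.ite
  · exact measurableSet_le ((measurable_fst.sub measurable_snd).abs) (hs.measurable.comp measurable_snd)
  · exact ENNReal.measurable_ofReal.comp (measurable_const.div (hs.measurable.comp measurable_snd))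
  · exact measurable_const

theorem kern_low (s : ℝ → ℝ) (hs : ∀ θ, 0 < s θ) (hLip : ∀ θ θ', |s θ - s θ'| ≤ |θ - θ'| / 2)
    (θ' : ℝ) : 1 ≤ 2 * ∫⁻ θ, kern s θ' θ := by
  have h1 : ENNReal.ofReal (1 / 2) ≤ ∫⁻ θ, kern s θ' θ := by
    calc ENNReal.ofReal (1 / 2)
        = ∫⁻ θ in Icc (θ' - s θ' / 2) (θ' + s θ' / 2), ENNReal.ofReal (1 / (2 * s θ')) := by
          rw [setLIntegral_const, Real.volume_Icc, ← ENNReal.ofReal_mul (by have := hs θ'; positivity)]
          congr 1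
          have := (hs θ').ne'
          field_simp
          ring
      _ ≤ ∫⁻ θ in Icc (θ' - s θ' / 2) (θ' + s θ' / 2), kern s θ' θ := by
          refine setLIntegral_mono' measurableSet_Icc fun θ hθ => ?_
          have h0 := hs θ'
          have h2 : |θ' - θ| ≤ s θ' / 2 := by
            rw [abs_le]
            exact ⟨by linarith [hθ.2], by linarith [hθ.1]⟩
          have h3 := hLip θ θ'
          rw [abs_sub_comm θ θ'] at h3
          have h4 := abs_le.mp (h3.trans (by linarith : |θ' - θ| / 2 ≤ s θ' / 4))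
          unfold kern
          rw [if_pos (by linarith [h4.1])]
          apply ENNReal.ofReal_le_ofReal
          apply one_div_le_one_div_of_le (hs θ)
          linarith [h4.2]
      _ ≤ ∫⁻ θ, kern s θ' θ := setLIntegral_le_lintegral _ _
  calc (1 : ℝ≥0∞) = 2 * ENNReal.ofReal (1 / 2) := by
        rw [show (2 : ℝ≥0∞) = ENNReal.ofReal 2 by simp, ← ENNReal.ofReal_mul (by norm_num)]
        norm_num
    _ ≤ 2 * ∫⁻ θ, kern s θ' θ := by gcongr

theorem cov_holds (h : S_1D) : S_COV := by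
  obtain ⟨C, hC, h1D⟩ := h
  refine ⟨2 * C, by positivity, ?_⟩
  intro γ γ' s hd hγc hne hs hLip hclose w Z Z' hZ hZ' hZZ
  have hscont : Continuous s := by
    have : LipschitzWith (1 / 2) s := by
      apply LipschitzWith.of_dist_le_mul
      intro x y
      rw [Real.dist_eq, Real.dist_eq]
      have := hLip x y
      simp only [NNReal.coe_div, NNReal.coe_one, NNReal.coe_ofNat]
      linarith
    exact this.continuous
  have hγ : Continuous γ := continuous_iff_continuousAt.mpr fun θ => (hd θ).continuousAt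
  have hFm : Measurable (fun θ => ENNReal.ofReal (Real.posLog (1 / ‖γ θ - w‖))) := by
    apply ENNReal.measurable_ofReal.comp
    have h3 : Measurable (fun x : ℝ => Real.posLog (1 / x)) := by
      unfold Real.posLog
      exact (measurable_const.max ((Real.measurable_log).comp (measurable_const.div measurable_id)))
    exact h3.comp ((hγ.sub continuous_const).norm.measurable)
  have hkm := kern_meas s hscont
  set F : ℝ → ℝ≥0∞ := fun θ => ENNReal.ofReal (Real.posLog (1 / ‖γ θ - w‖)) with hF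
  have hinner : ∀ θ : ℝ, ∫⁻ θ' in Z, kern s θ' θ * F θ' ≤
      Z'.indicator (fun θ => ENNReal.ofReal (C * (1 + Real.posLog (1 / (‖γ' θ‖ * s θ))))) θ := by
    intro θ
    by_cases hθ : θ ∈ Z'
    · rw [indicator_of_mem hθ]
      have h2 := (h1D γ γ' θ (s θ) (hs θ) (fun x _ => hd x) (hne θ)
        (fun x hx => hclose θ x (by
          rw [abs_le]; exact ⟨by linarith [hx.1], by linarith [hx.2]⟩)) w 1 one_pos).2.1
      calc ∫⁻ θ' in Z, kern s θ' θ * F θ' ≤ ∫⁻ θ', kern s θ' θ * F θ' :=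
            setLIntegral_le_lintegral _ _
        _ = ∫⁻ θ', (Icc (θ - s θ) (θ + s θ)).indicator
              (fun θ' => ENNReal.ofReal (1 / s θ) * F θ') θ' := by
            congr 1
            funext θ'
            unfold kern
            by_cases hx : |θ' - θ| ≤ s θ
            · have hx' := abs_le.mp hx
              have hx2 : θ' ∈ Icc (θ - s θ) (θ + s θ) :=
                ⟨by linarith [hx'.1], by linarith [hx'.2]⟩
              rw [if_pos hx, indicator_of_mem hx2]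
            · rw [if_neg hx, indicator_of_notMem, zero_mul]
              intro h3
              apply hx
              rw [abs_le]
              exact ⟨by linarith [h3.1], by linarith [h3.2]⟩
        _ = ∫⁻ θ' in Icc (θ - s θ) (θ + s θ), ENNReal.ofReal (1 / s θ) * F θ' :=
            lintegral_indicator measurableSet_Icc _
        _ = ENNReal.ofReal (1 / s θ) * ∫⁻ θ' in Icc (θ - s θ) (θ + s θ), F θ' :=
            lintegral_const_mul _ hFm
        _ ≤ ENNReal.ofReal (1 / s θ) *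
              ENNReal.ofReal (C * s θ * (1 + Real.posLog (1 / (‖γ' θ‖ * s θ)))) := by
            gcongr
        _ = ENNReal.ofReal (C * (1 + Real.posLog (1 / (‖γ' θ‖ * s θ)))) := by
            rw [← ENNReal.ofReal_mul (by have := hs θ; positivity)]
            congr 1
            have := (hs θ).ne'
            field_simp
    · rw [indicator_of_notMem hθ]
      apply le_of_eq
      rw [← lintegral_zero (μ := volume.restrict Z)]
      apply setLIntegral_congr_fun hZ
      intro θ' hθ'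
      have h4 : kern s θ' θ = 0 := by
        unfold kern
        rw [if_neg (fun h3 => hθ (hZZ θ' hθ' θ h3))]
      show kern s θ' θ * F θ' = 0
      rw [h4, zero_mul]
  calc ∫⁻ θ in Z, F θ
      ≤ ∫⁻ θ' in Z, 2 * ∫⁻ θ, kern s θ' θ * F θ' := by
        refine setLIntegral_mono' hZ fun θ' _ => ?_
        have hkm1 : Measurable (fun θ => kern s θ' θ) :=
          hkm.comp (measurable_const.prodMk measurable_id)
        rw [lintegral_mul_const _ hkm1, ← mul_assoc]
        calc F θ' = 1 * F θ' := (one_mul _).symm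
          _ ≤ 2 * (∫⁻ θ, kern s θ' θ) * F θ' := by
            gcongr
            exact kern_low s hs hLip θ'
    _ = 2 * ∫⁻ θ' in Z, ∫⁻ θ, kern s θ' θ * F θ' := by
        rw [lintegral_const_mul' _ _ (by simp)]
    _ = 2 * ∫⁻ θ, ∫⁻ θ' in Z, kern s θ' θ * F θ' := by
        rw [lintegral_lintegral_swap]
        apply Measurable.aemeasurable
        exact hkm.mul (hFm.comp measurable_fst)
    _ ≤ 2 * ∫⁻ θ, Z'.indicator
          (fun θ => ENNReal.ofReal (C * (1 + Real.posLog (1 / (‖γ' θ‖ * s θ))))) θ := by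
        gcongr with θ
        exact hinner θ
    _ = 2 * ∫⁻ θ in Z', ENNReal.ofReal (C * (1 + Real.posLog (1 / (‖γ' θ‖ * s θ)))) := by
        rw [lintegral_indicator hZ']
    _ = ∫⁻ θ in Z', ENNReal.ofReal (2 * C * (1 + Real.posLog (1 / (‖γ' θ‖ * s θ)))) := by
        rw [← lintegral_const_mul' _ _ (by simp)]
        congr 1
        funext θ
        rw [show (2 : ℝ≥0∞) = ENNReal.ofReal 2 by simp, ← ENNReal.ofReal_mul (by norm_num)]
        congr 1
        ring

theorem e_deriv (θ : ℝ) : HasDerivAt e (I * e θ) θ := by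
  have h1 : HasDerivAt (fun θ : ℝ => (θ : ℂ) * I) (1 * I) θ :=
    (HasDerivAt.ofReal_comp (hasDerivAt_id θ)).mul_const I
  have h2 := h1.cexp
  unfold e
  convert h2 using 1
  ring

theorem e_norm (θ : ℝ) : ‖e θ‖ = 1 := by
  unfold e
  exact Complex.norm_exp_ofReal_mul_I θ

theorem sub_holds (h : S_1D) : S_SUB := by
  obtain ⟨C, hC, h1D⟩ := h
  intro f q R hcls
  have hmem : ∀ θ : ℝ, e θ ∈ ball (0 : ℂ) R := fun θ => by
    rw [mem_ball_zero_iff, e_norm]; exact hcls.hR
  set γ : ℝ → ℂ := fun θ => f (e θ) with hγ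
  set γ' : ℝ → ℂ := fun θ => cexp (q (e θ)) * (I * e θ) with hγ'
  have hec : Continuous e := continuous_iff_continuousAt.mpr fun θ => (e_deriv θ).continuousAt
  have hd : ∀ θ, HasDerivAt γ (γ' θ) θ := fun θ =>
    (hcls.f_der (e θ) (hmem θ)).comp_of_eq θ (e_deriv θ) rfl
  have hcont : Continuous γ' := by
    have h1 : Continuous (fun θ => q (e θ)) :=
      hcls.q_diff.continuousOn.comp_continuous hec hmem
    exact (h1.cexp).mul (continuous_const.mul hec)
  have hne : ∀ θ, γ' θ ≠ 0 := by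
    intro θ
    apply mul_ne_zero (Complex.exp_ne_zero _)
    apply mul_ne_zero I_ne_zero
    exact Complex.exp_ne_zero _
  obtain ⟨x0, -, hmin⟩ := (isCompact_Icc (a := (-20 : ℝ)) (b := 20)).exists_isMinOn
    (nonempty_Icc.mpr (by norm_num)) (hcont.norm.continuousOn)
  set m := ‖γ' x0‖ with hm
  have hm0 : 0 < m := norm_pos_iff.mpr (hne x0)
  have huc := (isCompact_Icc (a := (-20 : ℝ)) (b := 20)).uniformContinuousOn_of_continuous
    hcont.continuousOn
  rw [Metric.uniformContinuousOn_iff] at huc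
  obtain ⟨δ, hδ, huc⟩ := huc (m / 2) (by positivity)
  obtain ⟨s, hs0, hs1, hsδ⟩ : ∃ s : ℝ, 0 < s ∧ s ≤ 1 ∧ s < δ :=
    ⟨min (δ / 2) 1, by positivity, min_le_right _ _, (min_le_left _ _).trans_lt (by linarith)⟩
  set N := ⌈20 / s⌉₊ with hN
  have hN1 : (N : ℝ) * s ≤ 20 + s := by
    have h1 := Nat.ceil_lt_add_one (by positivity : 0 ≤ 20 / s)
    have h2 : (N : ℝ) * s ≤ (20 / s + 1) * s := by gcongr
    have h3 : (20 / s + 1) * s = 20 + s := by field_simp
    linarith
  refine ⟨(N + 1) * (C / m), by positivity, ?_⟩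
  intro w κ hκ
  have hcover : {θ | θ ∈ Icc (-10 : ℝ) 10 ∧ ‖f (e θ) - w‖ ≤ κ} ⊆
      ⋃ j ∈ Finset.range (N + 1), {θ | θ ∈ Icc ((-10 + j * s) - s) ((-10 + j * s) + s) ∧
        ‖γ θ - w‖ ≤ κ} := by
    rintro θ ⟨h1, h2⟩
    have h3 : 0 ≤ (θ + 10) / s := div_nonneg (by linarith [h1.1]) hs0.le
    have h4 := Nat.floor_le h3
    have h5 := Nat.lt_floor_add_one ((θ + 10) / s)
    rw [le_div_iff₀ hs0] at h4
    rw [div_lt_iff₀ hs0] at h5
    have h6 : ⌊(θ + 10) / s⌋₊ ≤ N := by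
      apply Nat.floor_le_of_le
      refine le_trans ?_ (Nat.le_ceil _)
      gcongr
      linarith [h1.2]
    simp only [mem_iUnion, Finset.mem_range]
    refine ⟨⌊(θ + 10) / s⌋₊, Nat.lt_succ_of_le h6, ⟨?_, ?_⟩, h2⟩
    · linarith
    · linarith
  refine (measure_mono hcover).trans ((measure_biUnion_finset_le _ _).trans ?_)
  have hterm : ∀ j ∈ Finset.range (N + 1), volume {θ | θ ∈ Icc ((-10 + (j : ℝ) * s) - s)
      ((-10 + j * s) + s) ∧ ‖γ θ - w‖ ≤ κ} ≤ ENNReal.ofReal (C / m * κ) := by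
    intro j hj
    have hjN : (j : ℝ) ≤ N := by exact_mod_cast Nat.lt_succ_iff.mp (Finset.mem_range.mp hj)
    have hj1 : (j : ℝ) * s ≤ 20 + s := le_trans (by gcongr) hN1
    have hj0 : (0 : ℝ) ≤ j * s := by positivity
    have hmj : m ≤ ‖γ' (-10 + j * s)‖ := hmin ⟨by linarith, by linarith⟩
    refine (h1D γ γ' (-10 + j * s) s hs0 (fun x _ => hd x) (hne _) ?_ w κ hκ).2.2.trans ?_
    · intro x hx
      have h1 := huc x ⟨by linarith [hx.1], by linarith [hx.2]⟩ (-10 + j * s)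
        ⟨by linarith, by linarith⟩ (by
          rw [Real.dist_eq, abs_lt]
          exact ⟨by linarith [hx.1], by linarith [hx.2]⟩)
      rw [dist_eq_norm] at h1
      linarith
    · apply ENNReal.ofReal_le_ofReal
      rw [div_mul_eq_mul_div]
      gcongr
  refine (Finset.sum_le_sum hterm).trans ?_
  rw [Finset.sum_const, Finset.card_range, nsmul_eq_mul,
    show ((N + 1 : ℕ) : ℝ≥0∞) = ENNReal.ofReal ((N : ℝ) + 1) by
      rw [← ENNReal.ofReal_natCast]; push_cast; rfl,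
    ← ENNReal.ofReal_mul (by positivity)]
  apply ENNReal.ofReal_le_ofReal
  apply le_of_eq
  ring

end Pool.Agent.J4.H80.IB
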