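import Pool.Agent.J4.H80.IB.IDef

/-!
# Piece E: the energy (mean of `|f|²` over the circle) increases
-/

set_option autoImplicit false

open Complex Metric Set Filter Topology MeasureTheory
open scoped ComplexConjugate ENNReal

namespace Pool.Agent.J4.H80.IB

lemma en_norm_e (θ : ℝ) : ‖e θ‖ = 1 := Complex.norm_exp_ofReal_mul_I θ

lemma en_cont_e : Continuous e := by
  unfold e
  fun_prop

lemma en_e_eq (θ : ℝ) : e θ = circleMap 0 1 θ := by
  unfold e circleMap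
  simp

lemma en_conj_inv_e (θ : ℝ) : conj ((e θ)⁻¹) = e θ := by
  have h1 : e θ * conj (e θ) = 1 := by
    rw [Complex.mul_conj, Complex.normSq_eq_norm_sq, en_norm_e]
    norm_num
  have h2 : (e θ)⁻¹ = conj (e θ) := inv_eq_of_mul_eq_one_right h1
  rw [h2, Complex.conj_conj]

/-- the mean of `conj f * h` over the unit circle, moved to a smaller circle -/
lemma en_cross {f h : ℂ → ℂ} {R R' r A B : ℝ} (hf : DifferentiableOn ℂ f (ball 0 R))
    (hh : DifferentiableOn ℂ h (ball 0 R')) (hR' : 1 < R') (h0 : 0 < r) (h1 : r < 1) (h2 : r⁻¹ < R)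
    (hA : ∀ z : ℂ, ‖z‖ ≤ r⁻¹ → ‖f z‖ ≤ A) (hB : ∀ z : ℂ, ‖z‖ ≤ r → ‖h z‖ ≤ B) :
    ‖Real.circleAverage (fun z => conj (f (conj z⁻¹)) * h z) 0 1‖ ≤ A * B := by
  have hA0 : 0 ≤ A := (norm_nonneg _).trans (hA 0 (by rw [norm_zero]; positivity))
  have hd : ∀ z : ℂ, r ≤ ‖z‖ → ‖z‖ ≤ 1 → DifferentiableAt ℂ (fun z => conj (f (conj z⁻¹)) * h z) z := by
    intro z hz hz1
    have hz0 : z ≠ 0 := by
      rintro rfl
      rw [norm_zero] at hz
      linarith
    have e1 : DifferentiableAt ℂ h z := (hh z (by rw [mem_ball_zero_iff]; linarith)).differentiableAt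
      (isOpen_ball.mem_nhds (by rw [mem_ball_zero_iff]; linarith))
    have e2 : conj z⁻¹ ∈ ball (0 : ℂ) R := by
      rw [mem_ball_zero_iff, Complex.norm_conj, norm_inv]
      exact lt_of_le_of_lt (inv_anti₀ h0 hz) h2
    have e3 : DifferentiableAt ℂ f (conj z⁻¹) := (hf _ e2).differentiableAt (isOpen_ball.mem_nhds e2)
    have e4 : DifferentiableAt ℂ (fun w => conj (f (conj w))) z⁻¹ := by
      have := DifferentiableAt.conj_conj e3
      rw [Complex.conj_conj] at this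
      exact this
    have e5 : DifferentiableAt ℂ (fun z => conj (f (conj z⁻¹))) z :=
      DifferentiableAt.comp (g := fun w => conj (f (conj w))) z e4 (differentiableAt_inv hz0)
    exact e5.mul e1
  have key : (∮ z in C(0, 1), (z - 0)⁻¹ • (fun z => conj (f (conj z⁻¹)) * h z) z) =
      ∮ z in C(0, r), (z - 0)⁻¹ • (fun z => conj (f (conj z⁻¹)) * h z) z := by
    refine Complex.circleIntegral_sub_center_inv_smul_eq_of_differentiable_on_annulus_off_countable h0 h1.le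
      Set.countable_empty ?_ ?_
    · intro z hz
      rw [Set.mem_sdiff, mem_closedBall_zero_iff, mem_ball_zero_iff, not_lt] at hz
      exact (hd z hz.2 hz.1).continuousAt.continuousWithinAt
    · intro z hz
      rw [sdiff_empty, Set.mem_sdiff, mem_closedBall_zero_iff, mem_ball_zero_iff, not_le] at hz
      exact hd z hz.2.le hz.1.le
  rw [Real.circleAverage_eq_circleIntegral one_ne_zero, key]
  have h3 : ‖∮ z in C(0, r), (z - 0)⁻¹ • (fun z => conj (f (conj z⁻¹)) * h z) z‖ ≤ 2 * Real.pi * r * (r⁻¹ * (A * B)) := by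
    refine circleIntegral.norm_integral_le_of_norm_le_const h0.le fun z hz => ?_
    rw [mem_sphere_zero_iff_norm] at hz
    rw [sub_zero, norm_smul, norm_inv, hz]
    refine mul_le_mul_of_nonneg_left ?_ (by positivity)
    rw [norm_mul, Complex.norm_conj]
    refine mul_le_mul (hA _ ?_) (hB z hz.le) (norm_nonneg _) hA0
    rw [Complex.norm_conj, norm_inv, hz]
  rw [norm_smul]
  have h4 : ‖(2 * (Real.pi : ℂ) * I)⁻¹‖ = (2 * Real.pi)⁻¹ := by
    rw [norm_inv, norm_mul, Complex.norm_I, mul_one, norm_mul, Complex.norm_ofNat, Complex.norm_real,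
      Real.norm_of_nonneg Real.pi_pos.le]
  rw [h4]
  calc (2 * Real.pi)⁻¹ * ‖∮ z in C(0, r), (z - 0)⁻¹ • (fun z => conj (f (conj z⁻¹)) * h z) z‖
      ≤ (2 * Real.pi)⁻¹ * (2 * Real.pi * r * (r⁻¹ * (A * B))) := mul_le_mul_of_nonneg_left h3 (by positivity)
    _ = A * B := by
      have := Real.pi_pos
      field_simp

/-- the Riemann–Lebesgue lemma along `kk n` -/
lemma en_rl {φ : ℝ → ℝ} (hφ : Continuous φ) :
    Tendsto (fun n : ℕ => ∫ θ in (0 : ℝ)..2 * Real.pi, φ θ * Real.cos (kk n * θ)) atTop (𝓝 0) := by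
  have hk : Tendsto (fun n : ℕ => ((kk n : ℕ) : ℝ) / (2 * Real.pi)) atTop atTop := by
    apply Tendsto.atTop_div_const (by positivity)
    refine tendsto_atTop_mono' atTop (f₁ := fun n : ℕ => (n : ℝ) / 2) ?_
      (tendsto_natCast_atTop_atTop.atTop_div_const (by norm_num))
    filter_upwards [eventually_ge_atTop 1] with n hn
    have hn0 : (0 : ℝ) < n := by exact_mod_cast hn
    have h1 := Real.quadratic_le_exp_of_nonneg hn0.le
    have h2 : (n : ℝ) / 2 ≤ Real.exp n / n := by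
      rw [le_div_iff₀ hn0]
      nlinarith
    exact h2.trans (Nat.le_ceil _)
  have h1 := (Real.tendsto_integral_exp_smul_cocompact
    (fun v : ℝ => (Ioc (0 : ℝ) (2 * Real.pi)).indicator (fun v => ((φ v : ℝ) : ℂ)) v)).comp
    (hk.mono_right atTop_le_cocompact)
  have h2 := (Complex.continuous_re.tendsto 0).comp h1
  rw [Complex.zero_re] at h2
  refine h2.congr fun n => ?_
  simp only [Function.comp]
  have e1 : (∫ v : ℝ, Real.fourierChar (-(v * ((kk n : ℝ) / (2 * Real.pi)))) •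
      (Ioc (0 : ℝ) (2 * Real.pi)).indicator (fun v => ((φ v : ℝ) : ℂ)) v) =
      ∫ v in (0 : ℝ)..2 * Real.pi, (φ v : ℂ) * cexp (-((kk n : ℝ) * v : ℝ) * I) := by
    rw [intervalIntegral.integral_of_le (by positivity), ← integral_indicator measurableSet_Ioc]
    congr 1
    funext v
    by_cases hv : v ∈ Ioc (0 : ℝ) (2 * Real.pi)
    · rw [indicator_of_mem hv, indicator_of_mem hv, Circle.smul_def, Real.fourierChar_apply, smul_eq_mul, mul_comm]
      congr 2
      have := Real.pi_pos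
      push_cast
      have hpi : (Real.pi : ℂ) ≠ 0 := by exact_mod_cast this.ne'
      field_simp
    · rw [indicator_of_notMem hv, indicator_of_notMem hv, smul_zero]
  obtain ⟨ψ, hψ⟩ : ∃ ψ : ℝ → ℂ, ψ = fun v : ℝ => (φ v : ℂ) * cexp (-((kk n : ℝ) * v : ℝ) * I) := ⟨_, rfl⟩
  have hψc : Continuous ψ := by
    rw [hψ]
    fun_prop
  have e2 : (∫ v in (0 : ℝ)..2 * Real.pi, (φ v : ℂ) * cexp (-((kk n : ℝ) * v : ℝ) * I)) =
      ∫ v in (0 : ℝ)..2 * Real.pi, ψ v := by rw [hψ]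
  have e3 : ∫ v in (0 : ℝ)..2 * Real.pi, (ψ v).re = (∫ v in (0 : ℝ)..2 * Real.pi, ψ v).re :=
    Complex.reCLM.intervalIntegral_comp_comm (hψc.intervalIntegrable (μ := volume) 0 (2 * Real.pi))
  rw [e1, e2, ← e3]
  refine intervalIntegral.integral_congr fun v _ => ?_
  show (ψ v).re = φ v * Real.cos (kk n * v)
  rw [hψ]
  show ((φ v : ℂ) * cexp (-((kk n : ℝ) * v : ℝ) * I)).re = _
  rw [Complex.re_ofReal_mul, ← Complex.ofReal_neg, Complex.exp_ofReal_mul_I_re, Real.cos_neg]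

/-- a bound for the difference in the disc of radius `r` -/
lemma en_small {f g q : ℂ → ℂ} {p : ℂ → ℂ} {r C δ : ℝ} (hr : 0 < r) (hr1 : r ≤ 1)
    (hf : ∀ z : ℂ, ‖z‖ ≤ r → HasDerivAt f (cexp (q z)) z) (hg : ∀ z : ℂ, ‖z‖ ≤ r → HasDerivAt g (cexp (q z + p z)) z)
    (hfg : g 0 = f 0) (hC : ∀ z : ℂ, ‖z‖ ≤ r → ‖cexp (q z)‖ ≤ C) (hδ1 : δ ≤ 1)
    (hp : ∀ z : ℂ, ‖z‖ ≤ r → ‖p z‖ ≤ δ) (z : ℂ) (hz : ‖z‖ ≤ r) : ‖g z - f z‖ ≤ C * (2 * δ) := by
  have h0 : ‖(0 : ℂ)‖ ≤ r := by rw [norm_zero]; exact hr.le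
  have hC0 : 0 ≤ C := (norm_nonneg _).trans (hC 0 h0)
  have hδ0 : 0 ≤ δ := (norm_nonneg _).trans (hp 0 h0)
  have h1 := Convex.norm_image_sub_le_of_norm_hasDerivWithin_le (f := fun z => g z - f z)
    (f' := fun z => cexp (q z + p z) - cexp (q z)) (C := C * (2 * δ)) (s := closedBall (0 : ℂ) r) (x := 0) (y := z)
    (fun x hx => ((hg x (mem_closedBall_zero_iff.1 hx)).sub (hf x (mem_closedBall_zero_iff.1 hx))).hasDerivWithinAt)
    (fun x hx => by
      have hx' := mem_closedBall_zero_iff.1 hx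
      have e1 : cexp (q x + p x) - cexp (q x) = cexp (q x) * (cexp (p x) - 1) := by
        rw [Complex.exp_add]
        ring
      rw [e1, norm_mul]
      refine mul_le_mul (hC x hx') ?_ (norm_nonneg _) hC0
      refine (Complex.norm_exp_sub_one_le ((hp x hx').trans hδ1)).trans ?_
      linarith [hp x hx'])
    (convex_closedBall 0 r) (mem_closedBall_self hr.le) (mem_closedBall_zero_iff.2 hz)
  simp only [hfg, sub_self, sub_zero] at h1
  refine h1.trans ?_
  exact mul_le_of_le_one_right (by positivity) (hz.trans hr1)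

/-- the pointwise lower bound -/
lemma en_pt {a t u c κ ε : ℝ} (ha : 0 ≤ a) (hu0 : 0 ≤ u) (hlo : u / 16 ≤ t) (hhi : t ≤ 1 / 4) (hc : -1 ≤ c) (hc1 : c ≤ 1)
    (hκ : 0 ≤ κ) (hε : 0 ≤ ε) (h : t * (1 - c) / 2 ≤ a + ε) :
    (κ * (1 - (1 - u) ^ 2) - κ ^ 2) / 1024 - t ^ 2 * c / 2 - ε / 2 ≤ a ^ 2 := by
  have ht : 0 ≤ t := le_trans (by positivity) hlo
  obtain ⟨b, hb⟩ : ∃ b, b = t * (1 - c) / 2 := ⟨_, rfl⟩
  rw [← hb] at h
  have hb0 : 0 ≤ b := by
    rw [hb]
    have : 0 ≤ 1 - c := by linarith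
    positivity
  have hb1 : b ≤ 1 / 4 := by
    rw [hb]
    nlinarith
  have h1 : b ^ 2 - ε / 2 ≤ a ^ 2 := by
    by_cases hbε : b ≤ ε
    · nlinarith [sq_nonneg a]
    · push Not at hbε
      have : b - ε ≤ a := by linarith
      nlinarith [sq_nonneg ε]
  have h2 : t ^ 2 / 4 - t ^ 2 * c / 2 ≤ b ^ 2 := by
    rw [hb]
    nlinarith [mul_nonneg (sq_nonneg t) (sq_nonneg c)]
  have h3 : u ^ 2 / 256 ≤ t ^ 2 := by
    have := pow_le_pow_left₀ (by positivity) hlo 2
    nlinarith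
  have h4 : κ * (1 - (1 - u) ^ 2) - κ ^ 2 ≤ u ^ 2 := by
    nlinarith [sq_nonneg (u - κ), mul_nonneg hκ (sq_nonneg u)]
  linarith

theorem ener_holds (hB : S_EX) (hC : S_EXPD) : S_ENER := by
  intro f q R N P L D ε hε
  obtain ⟨hex, hpp⟩ := hB f q R N P L D
  have hcls := D.cls
  have hR := hcls.hR
  have hpi := Real.pi_pos
  -- continuity of the data on the circle
  have hfd : DifferentiableOn ℂ f (ball 0 R) := fun z hz => (hcls.f_der z hz).differentiableAt.differentiableWithinAt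
  have hball : ∀ {ρ : ℝ}, 1 < ρ → ∀ θ : ℝ, e θ ∈ ball (0 : ℂ) ρ := fun h θ => by
    rw [mem_ball_zero_iff, en_norm_e]
    exact h
  have hcomp : ∀ {φ : ℂ → ℂ} {ρ : ℝ}, 1 < ρ → DifferentiableOn ℂ φ (ball 0 ρ) → Continuous fun θ => φ (e θ) :=
    fun hρ hφ => hφ.continuousOn.comp_continuous en_cont_e (hball hρ)
  have hfc : Continuous fun θ => f (e θ) := hcomp hR hfd
  have hqc : Continuous fun θ => q (e θ) := hcomp hR hcls.q_diff
  have hLc : Continuous L := by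
    have h1 : ∀ θ, L θ = (P (e θ) * conj (e (N * θ))).re := by
      intro θ
      rw [D.P_L, mul_comm (e (N * θ)), mul_assoc, Complex.mul_conj, Complex.normSq_eq_norm_sq, en_norm_e]
      simp
    have h2 : Continuous fun θ : ℝ => (P (e θ) * conj (e (N * θ))).re := by
      have := D.P_diff.continuous
      have := en_cont_e
      fun_prop
    exact (funext h1 : L = _) ▸ h2
  have hτc : Continuous (tau q L) := Real.continuous_exp.comp ((Complex.continuous_re.comp hqc).add hLc)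
  have hfn : Continuous fun θ => ‖f (e θ)‖ ^ 2 := hfc.norm.pow 2
  have hu : ∀ θ : ℝ, ‖f (e θ)‖ < 1 := fun θ => hcls.lt1 _ (en_norm_e θ).le
  -- the number κ
  obtain ⟨κ, hκ⟩ : ∃ κ, κ = (1 - M2 f) / 2 := ⟨_, rfl⟩
  have hκ0 : 0 ≤ κ := by
    have h1 : M2 f ≤ (2 * Real.pi)⁻¹ * ∫ θ in (0 : ℝ)..2 * Real.pi, (1 : ℝ) := by
      unfold M2
      refine mul_le_mul_of_nonneg_left ?_ (by positivity)
      refine intervalIntegral.integral_mono (by positivity) (hfn.intervalIntegrable _ _)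
        (continuous_const.intervalIntegrable _ _) fun θ => ?_
      exact pow_le_one₀ (norm_nonneg _) (hu θ).le
    rw [intervalIntegral.integral_const, sub_zero, smul_eq_mul, mul_one, inv_mul_cancel₀ (by positivity)] at h1
    rw [hκ]
    linarith
  -- the radii
  obtain ⟨r, hr0, hr1, hrR⟩ : ∃ r : ℝ, 0 < r ∧ r < 1 ∧ r⁻¹ < R := by
    obtain ⟨ρ, h1, h2⟩ := exists_between hR
    exact ⟨ρ⁻¹, by positivity, inv_lt_one_of_one_lt₀ h1, by rwa [inv_inv]⟩
  obtain ⟨A, hA⟩ : ∃ A, ∀ z : ℂ, ‖z‖ ≤ r⁻¹ → ‖f z‖ ≤ A := by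
    obtain ⟨A, hA⟩ := (isCompact_closedBall (0 : ℂ) r⁻¹).exists_bound_of_continuousOn (f := f)
      (hfd.continuousOn.mono (closedBall_subset_ball hrR))
    exact ⟨A, fun z hz => hA z (mem_closedBall_zero_iff.2 hz)⟩
  obtain ⟨C, hC1⟩ : ∃ C, ∀ z : ℂ, ‖z‖ ≤ r → ‖cexp (q z)‖ ≤ C := by
    have hq : ContinuousOn (fun z => cexp (q z)) (closedBall 0 r) :=
      (hcls.q_diff.continuousOn.mono (closedBall_subset_ball (hr1.trans hR))).cexp
    obtain ⟨C, hC⟩ := (isCompact_closedBall (0 : ℂ) r).exists_bound_of_continuousOn hq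
    exact ⟨C, fun z hz => hC z (mem_closedBall_zero_iff.2 hz)⟩
  have hA0 : 0 ≤ A := (norm_nonneg _).trans (hA 0 (by rw [norm_zero]; positivity))
  have hC0 : 0 ≤ C := (norm_nonneg _).trans (hC1 0 (by rw [norm_zero]; exact hr0.le))
  -- the size of the perturbation
  obtain ⟨δ, hδ0, hδ1, hδ⟩ : ∃ δ : ℝ, 0 < δ ∧ δ ≤ 1 ∧ 2 * (A * (C * (2 * δ))) ≤ ε / 4 := by
    refine ⟨min 1 (ε / (16 * (A * C + 1))), by positivity, min_le_left _ _, ?_⟩
    have h1 : min 1 (ε / (16 * (A * C + 1))) ≤ ε / (16 * (A * C + 1)) := min_le_right _ _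
    have h2 : 0 ≤ A * C := mul_nonneg hA0 hC0
    calc 2 * (A * (C * (2 * min 1 (ε / (16 * (A * C + 1)))))) = 4 * (A * C) * min 1 (ε / (16 * (A * C + 1))) := by ring
      _ ≤ 4 * (A * C) * (ε / (16 * (A * C + 1))) := mul_le_mul_of_nonneg_left h1 (by positivity)
      _ ≤ 4 * (A * C + 1) * (ε / (16 * (A * C + 1))) := mul_le_mul_of_nonneg_right (by linarith) (by positivity)
      _ = ε / 4 := by
          field_simp
          norm_num
  have hτ2c : Continuous fun θ => tau q L θ ^ 2 := by fun_prop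
  have hrl := en_rl hτ2c
  filter_upwards [hpp r hr1 δ hδ0, hC f q R N P L D (ε / 2) (by positivity),
    (Metric.tendsto_nhds.1 hrl) (ε / 2) (by positivity)] with n hn1 hn2 hn3 g R' G
  rw [dist_zero_right, Real.norm_eq_abs] at hn3
  have hR' := G.hR'
  have hgd : DifferentiableOn ℂ g (ball 0 R') := fun z hz => (G.der z hz).differentiableAt.differentiableWithinAt
  have hgc : Continuous fun θ => g (e θ) := hcomp hR' hgd
  have hhd : DifferentiableOn ℂ (fun z => g z - f z) (ball 0 R') :=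
    hgd.sub (hfd.mono (ball_subset_ball G.hle))
  have hsm : ∀ z : ℂ, ‖z‖ ≤ r → ‖g z - f z‖ ≤ C * (2 * δ) := by
    refine en_small hr0 hr1.le (fun z hz => hcls.f_der z ?_) (fun z hz => G.der z ?_) (by rw [G.g0, hcls.f0]) hC1 hδ1 hn1
    · rw [mem_ball_zero_iff]
      linarith
    · rw [mem_ball_zero_iff]
      linarith
  have hcr := en_cross hfd hhd hR' hr0 hr1 hrR hA hsm
  -- the cross term
  obtain ⟨X, hX⟩ : ∃ X : ℝ, X = (2 * Real.pi)⁻¹ * ∫ θ in (0 : ℝ)..2 * Real.pi, (conj (f (e θ)) * (g (e θ) - f (e θ))).re :=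
    ⟨_, rfl⟩
  have hXle : |X| ≤ A * (C * (2 * δ)) := by
    refine le_trans ?_ hcr
    unfold Real.circleAverage
    have e1 : (∫ θ in (0 : ℝ)..2 * Real.pi, (fun z => conj (f (conj z⁻¹)) * (g z - f z)) (circleMap 0 1 θ)) =
        ∫ θ in (0 : ℝ)..2 * Real.pi, conj (f (e θ)) * (g (e θ) - f (e θ)) := by
      refine intervalIntegral.integral_congr fun θ _ => ?_
      show conj (f (conj (circleMap 0 1 θ)⁻¹)) * (g (circleMap 0 1 θ) - f (circleMap 0 1 θ)) = _
      rw [← en_e_eq, en_conj_inv_e]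
    have e2 : ∫ θ in (0 : ℝ)..2 * Real.pi, (conj (f (e θ)) * (g (e θ) - f (e θ))).re =
        (∫ θ in (0 : ℝ)..2 * Real.pi, conj (f (e θ)) * (g (e θ) - f (e θ))).re :=
      Complex.reCLM.intervalIntegral_comp_comm (Continuous.intervalIntegrable (μ := volume)
        (((Complex.continuous_conj.comp hfc).mul (hgc.sub hfc))) 0 (2 * Real.pi))
    rw [e1, hX, e2, norm_smul, abs_mul, Real.norm_eq_abs]
    exact mul_le_mul_of_nonneg_left (Complex.abs_re_le_norm _) (abs_nonneg _)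
  -- the pointwise inequality
  have hpt : ∀ θ : ℝ, ‖f (e θ)‖ ^ 2 + ((κ * (1 - ‖f (e θ)‖ ^ 2) - κ ^ 2) / 1024 - tau q L θ ^ 2 * Real.cos (kk n * θ) / 2 -
      ε / 4) + 2 * (conj (f (e θ)) * (g (e θ) - f (e θ))).re ≤ ‖g (e θ)‖ ^ 2 := by
    intro θ
    obtain ⟨_, h2⟩ := hn2 g R' G θ
    have hf0 := norm_nonneg (f (e θ))
    have hlo := D.lo θ
    have hhi := D.hi θ
    have h3 := en_pt (a := ‖g (e θ) - f (e θ)‖) (t := tau q L θ) (u := 1 - ‖f (e θ)‖) (c := Real.cos (kk n * θ))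
      (κ := κ) (ε := ε / 2) (norm_nonneg _) (by linarith [hu θ]) hlo (by linarith) (Real.neg_one_le_cos _)
      (Real.cos_le_one _) hκ0 (by positivity) h2
    have h4 : ‖g (e θ)‖ ^ 2 = ‖f (e θ)‖ ^ 2 + ‖g (e θ) - f (e θ)‖ ^ 2 + 2 * (conj (f (e θ)) * (g (e θ) - f (e θ))).re := by
      obtain ⟨h, hh⟩ : ∃ h, h = g (e θ) - f (e θ) := ⟨_, rfl⟩
      rw [← hh]
      have h5 : g (e θ) = f (e θ) + h := by rw [hh]; ring
      rw [h5, ← Complex.normSq_eq_norm_sq, ← Complex.normSq_eq_norm_sq, ← Complex.normSq_eq_norm_sq,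
        Complex.normSq_add]
      have h6 : (f (e θ) * conj h).re = (conj (f (e θ)) * h).re := by
        simp only [Complex.mul_re, Complex.conj_re, Complex.conj_im]
        ring
      rw [h6]
    have h5 : 1 - (1 - ‖f (e θ)‖) = ‖f (e θ)‖ := by ring
    rw [h5] at h3
    linarith
  -- integrate
  have hint : (2 * Real.pi)⁻¹ * (∫ θ in (0 : ℝ)..2 * Real.pi, (‖f (e θ)‖ ^ 2 + ((κ * (1 - ‖f (e θ)‖ ^ 2) - κ ^ 2) / 1024 -
      tau q L θ ^ 2 * Real.cos (kk n * θ) / 2 - ε / 4) + 2 * (conj (f (e θ)) * (g (e θ) - f (e θ))).re)) ≤ M2 g := by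
    unfold M2
    refine mul_le_mul_of_nonneg_left ?_ (by positivity)
    refine intervalIntegral.integral_mono (by positivity) (Continuous.intervalIntegrable ?_ _ _)
      ((hgc.norm.pow 2).intervalIntegrable _ _) hpt
    have h1 : Continuous fun θ => (conj (f (e θ)) * (g (e θ) - f (e θ))).re :=
      Complex.continuous_re.comp ((Complex.continuous_conj.comp hfc).mul (hgc.sub hfc))
    have h2 : Continuous fun θ : ℝ => Real.cos (kk n * θ) := by fun_prop
    exact (hfn.add ((((continuous_const.mul (continuous_const.sub hfn)).sub continuous_const).div_const _).sub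
      ((hτ2c.mul h2).div_const _) |>.sub continuous_const)).add (continuous_const.mul h1)
  have hcalc : (∫ θ in (0 : ℝ)..2 * Real.pi, (‖f (e θ)‖ ^ 2 + ((κ * (1 - ‖f (e θ)‖ ^ 2) - κ ^ 2) / 1024 -
      tau q L θ ^ 2 * Real.cos (kk n * θ) / 2 - ε / 4) + 2 * (conj (f (e θ)) * (g (e θ) - f (e θ))).re)) =
      (1 - κ / 1024) * (∫ θ in (0 : ℝ)..2 * Real.pi, ‖f (e θ)‖ ^ 2) + 2 * Real.pi * ((κ - κ ^ 2) / 1024 - ε / 4) -
      (1 / 2) * (∫ θ in (0 : ℝ)..2 * Real.pi, tau q L θ ^ 2 * Real.cos (kk n * θ)) +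
      2 * ∫ θ in (0 : ℝ)..2 * Real.pi, (conj (f (e θ)) * (g (e θ) - f (e θ))).re := by
    have h1 : Continuous fun θ => (conj (f (e θ)) * (g (e θ) - f (e θ))).re :=
      Complex.continuous_re.comp ((Complex.continuous_conj.comp hfc).mul (hgc.sub hfc))
    have i1 : IntervalIntegrable (fun θ => (1 - κ / 1024) * ‖f (e θ)‖ ^ 2) volume 0 (2 * Real.pi) :=
      (continuous_const.mul hfn).intervalIntegrable _ _
    have i2 : IntervalIntegrable (fun _ : ℝ => ((κ - κ ^ 2) / 1024 - ε / 4)) volume 0 (2 * Real.pi) :=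
      Continuous.intervalIntegrable (by fun_prop) _ _
    have i3 : IntervalIntegrable (fun θ => (1 / 2) * (tau q L θ ^ 2 * Real.cos (kk n * θ))) volume 0 (2 * Real.pi) :=
      Continuous.intervalIntegrable (by fun_prop) _ _
    have i4 : IntervalIntegrable (fun θ => 2 * (conj (f (e θ)) * (g (e θ) - f (e θ))).re) volume 0 (2 * Real.pi) :=
      Continuous.intervalIntegrable (h1.const_mul 2) _ _
    rw [← intervalIntegral.integral_const_mul, ← intervalIntegral.integral_const_mul, ← intervalIntegral.integral_const_mul]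
    have i5 : 2 * Real.pi * ((κ - κ ^ 2) / 1024 - ε / 4) = ∫ _θ in (0 : ℝ)..2 * Real.pi, ((κ - κ ^ 2) / 1024 - ε / 4) := by
      rw [intervalIntegral.integral_const, sub_zero, smul_eq_mul]
    rw [i5, ← intervalIntegral.integral_add i1 i2, ← intervalIntegral.integral_sub (i1.add i2) i3,
      ← intervalIntegral.integral_add ((i1.add i2).sub i3) i4]
    refine intervalIntegral.integral_congr fun θ _ => ?_
    ring
  rw [hcalc] at hint
  have hM : (2 * Real.pi)⁻¹ * (∫ θ in (0 : ℝ)..2 * Real.pi, ‖f (e θ)‖ ^ 2) = M2 f := rfl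
  have e1 : (2 * Real.pi)⁻¹ * ((1 - κ / 1024) * (∫ θ in (0 : ℝ)..2 * Real.pi, ‖f (e θ)‖ ^ 2) +
      2 * Real.pi * ((κ - κ ^ 2) / 1024 - ε / 4) -
      (1 / 2) * (∫ θ in (0 : ℝ)..2 * Real.pi, tau q L θ ^ 2 * Real.cos (kk n * θ)) +
      2 * ∫ θ in (0 : ℝ)..2 * Real.pi, (conj (f (e θ)) * (g (e θ) - f (e θ))).re) =
      (1 - κ / 1024) * M2 f + ((κ - κ ^ 2) / 1024 - ε / 4) -
      (1 / 2) * ((2 * Real.pi)⁻¹ * ∫ θ in (0 : ℝ)..2 * Real.pi, tau q L θ ^ 2 * Real.cos (kk n * θ)) + 2 * X := by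
    rw [← hM, hX]
    field_simp
  rw [e1] at hint
  have e2 : |(2 * Real.pi)⁻¹ * ∫ θ in (0 : ℝ)..2 * Real.pi, tau q L θ ^ 2 * Real.cos (kk n * θ)| ≤ ε / 2 := by
    rw [abs_mul, abs_of_pos (by positivity)]
    have h1 : (2 * Real.pi)⁻¹ ≤ 1 := inv_le_one_of_one_le₀ (by nlinarith [Real.pi_gt_three])
    calc _ ≤ 1 * (ε / 2) := mul_le_mul h1 hn3.le (abs_nonneg _) zero_le_one
      _ = ε / 2 := one_mul _
  have e3 := abs_le.1 e2
  have e4 := abs_le.1 hXle
  have e5 : M2 f = 1 - 2 * κ := by rw [hκ]; ring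
  rw [e5] at hint ⊢
  have e6 : (1 - (1 - 2 * κ)) ^ 2 / 4096 = κ ^ 2 / 1024 := by ring
  rw [e6]
  have e7 : (1 - κ / 1024) * (1 - 2 * κ) + ((κ - κ ^ 2) / 1024 - ε / 4) = 1 - 2 * κ + κ ^ 2 / 1024 - ε / 4 := by ring
  linarith

end Pool.Agent.J4.H80.IB
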