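import Pool.Agent.J4.H80.IB.IBas

/-!
# The perturbed function and one step of the construction (piece B)
-/

set_option autoImplicit false

open Complex Metric Set Filter Topology MeasureTheory
open scoped ComplexConjugate ENNReal

namespace Pool.Agent.J4.H80.IB

lemma pp_diff {P : ℂ → ℂ} (hP : Differentiable ℂ P) (N : ℕ) {n : ℕ} (hn : 2 ≤ n) {R' : ℝ}
    (h : ∀ z ∈ ball (0 : ℂ) R', tt n * ‖z‖ ^ kk n < 1) :
    DifferentiableOn ℂ (pp N P n) (ball 0 R') := by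
  have ht : 0 ≤ tt n := by linarith [tt_ge hn]
  unfold pp
  refine DifferentiableOn.div ?_ ?_ ?_
  · have := hP.differentiableOn (s := ball (0 : ℂ) R')
    fun_prop
  · fun_prop
  · intro z hz h0
    have h1 : (tt n : ℂ) * z ^ kk n = 1 := by linear_combination -h0
    have h2 : ‖(tt n : ℂ) * z ^ kk n‖ = 1 := by rw [h1]; simp
    rw [norm_mul, norm_pow, Complex.norm_real, Real.norm_eq_abs, abs_of_nonneg ht] at h2
    exact absurd (h z hz) (by rw [h2]; exact lt_irrefl _)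

lemma exists_rad {R : ℝ} (hR : 1 < R) {n : ℕ} (hn : 2 ≤ n) :
    ∃ R' : ℝ, 1 < R' ∧ R' ≤ R ∧ ∀ z ∈ ball (0 : ℂ) R', tt n * ‖z‖ ^ kk n < 1 := by
  have ht : 0 ≤ tt n := by linarith [tt_ge hn]
  have hc : Continuous fun x : ℝ => tt n * x ^ kk n := by fun_prop
  have h1 : (fun x : ℝ => tt n * x ^ kk n) 1 < 1 := by
    simpa using tt_lt (by omega : 0 < n)
  have h2 : ∀ᶠ x in 𝓝 (1 : ℝ), tt n * x ^ kk n < 1 :=
    hc.continuousAt.eventually (gt_mem_nhds h1)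
  obtain ⟨ε, hε, h3⟩ := Metric.eventually_nhds_iff.1 h2
  refine ⟨min R (1 + ε / 2), lt_min hR (by linarith), min_le_left _ _, fun z hz => ?_⟩
  have h4 : ‖z‖ ≤ 1 + ε / 2 := (mem_ball_zero_iff.1 hz).le.trans (min_le_right _ _)
  have h5 : tt n * (1 + ε / 2) ^ kk n < 1 := h3 (by
    rw [Real.dist_eq, show (1 + ε / 2 - 1 : ℝ) = ε / 2 by ring, abs_of_pos (by linarith)]
    linarith)
  refine lt_of_le_of_lt ?_ h5
  gcongr

lemma exists_g {q : ℂ → ℂ} {R R' : ℝ} (hq : DifferentiableOn ℂ q (ball 0 R)) (h1 : 1 < R')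
    (h2 : R' ≤ R) {P : ℂ → ℂ} (hP : Differentiable ℂ P) (N : ℕ) {n : ℕ} (hn : 2 ≤ n)
    (h : ∀ z ∈ ball (0 : ℂ) R', tt n * ‖z‖ ^ kk n < 1) : ∃ g, IsG q R N P n g R' := by
  have hd : DifferentiableOn ℂ (fun z => cexp (q z + pp N P n z)) (ball 0 R') :=
    ((hq.mono (ball_subset_ball h2)).add (pp_diff hP N hn h)).cexp
  obtain ⟨g, hg0, hg⟩ := hd.isExactOn_ball.with_val_at 0 0
  exact ⟨g, h1, h2, h, hg, hg0⟩

lemma pp_zero (N : ℕ) (P : ℂ → ℂ) {n : ℕ} (h : N < kk n) : pp N P n 0 = 0 := by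
  unfold pp
  rw [zero_pow (by omega), zero_pow (by omega)]
  simp

lemma n_le_kk : ∀ᶠ n : ℕ in atTop, n ≤ kk n := by
  have h := tendsto_pow_div_kk 1
  filter_upwards [h.eventually (gt_mem_nhds (show (0 : ℝ) < 1 by norm_num)),
    eventually_gt_atTop 0] with n h1 h2
  have hk : (0 : ℝ) < kk n := by exact_mod_cast kk_pos h2
  rw [pow_one, div_lt_one hk] at h1
  exact_mod_cast h1.le

lemma tendsto_bd (N : ℕ) (C : ℝ) {r : ℝ} (h0 : 0 ≤ r) (h1 : r < 1) :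
    Tendsto (fun n : ℕ => 4 * ((n : ℝ) * r ^ kk n + r ^ (kk n - N) * C)) atTop (𝓝 0) := by
  have a1 : Tendsto (fun n : ℕ => (n : ℝ) * r ^ kk n) atTop (𝓝 0) := by
    refine squeeze_zero' (Eventually.of_forall fun n => by positivity) ?_
      (tendsto_self_mul_const_pow_of_lt_one h0 h1)
    filter_upwards [n_le_kk] with n hn
    exact mul_le_mul_of_nonneg_left (pow_le_pow_of_le_one h0 h1.le hn) (by positivity)
  have a2 : Tendsto (fun n : ℕ => r ^ (kk n - N)) atTop (𝓝 0) :=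
    (tendsto_pow_atTop_nhds_zero_of_lt_one h0 h1).comp
      ((tendsto_sub_atTop_nat N).comp tendsto_kk)
  have a3 := (a1.add (a2.mul_const C)).const_mul 4
  simpa using a3

lemma pp_bd {N : ℕ} {P : ℂ → ℂ} {C r : ℝ} (hC : ∀ z : ℂ, ‖z‖ ≤ 1 → ‖P z‖ ≤ C) (h0 : 0 ≤ r)
    (h1 : r < 1) {n : ℕ} (hn : 2 ≤ n) (h2 : r ^ kk n ≤ 1 / 2) {z : ℂ} (hz : ‖z‖ ≤ r) :
    ‖pp N P n z‖ ≤ 4 * ((n : ℝ) * r ^ kk n + r ^ (kk n - N) * C) := by
  have ht : 0 ≤ tt n := by linarith [tt_ge hn]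
  have ht' : tt n ≤ 1 := (tt_lt (by omega)).le
  have hC0 : 0 ≤ C := (norm_nonneg _).trans (hC 0 (by simp))
  have b1 : ‖(tt n : ℂ)‖ ≤ 1 := by
    rw [Complex.norm_real, Real.norm_eq_abs, abs_of_nonneg ht]; exact ht'
  have b2 : ‖z ^ kk n‖ ≤ r ^ kk n := by
    rw [norm_pow]; gcongr
  have b3 : ‖z ^ (kk n - N)‖ ≤ r ^ (kk n - N) := by
    rw [norm_pow]; gcongr
  have b4 : 1 / 2 ≤ ‖1 - (tt n : ℂ) * z ^ kk n‖ := by
    have h := norm_sub_norm_le (1 : ℂ) ((tt n : ℂ) * z ^ kk n)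
    rw [norm_one, norm_mul] at h
    have : ‖(tt n : ℂ)‖ * ‖z ^ kk n‖ ≤ 1 * (1 / 2) := by
      gcongr
      exact b2.trans h2
    linarith
  have b5 : ‖-2 * (tt n : ℂ) * ((n : ℂ) * z ^ kk n + z ^ (kk n - N) * P z)‖ ≤
      2 * ((n : ℝ) * r ^ kk n + r ^ (kk n - N) * C) := by
    rw [norm_mul, norm_mul, norm_neg]
    have c1 : ‖(n : ℂ) * z ^ kk n + z ^ (kk n - N) * P z‖ ≤
        (n : ℝ) * r ^ kk n + r ^ (kk n - N) * C := by
      refine (norm_add_le _ _).trans ?_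
      rw [norm_mul, norm_mul, Complex.norm_natCast]
      have := hC z (hz.trans h1.le)
      gcongr
    have c2 : ‖(2 : ℂ)‖ = 2 := by simp
    rw [c2]
    calc 2 * ‖(tt n : ℂ)‖ * ‖(n : ℂ) * z ^ kk n + z ^ (kk n - N) * P z‖
        ≤ 2 * 1 * ((n : ℝ) * r ^ kk n + r ^ (kk n - N) * C) := by gcongr
      _ = _ := by ring
  unfold pp
  rw [norm_div]
  have hX : 0 ≤ (n : ℝ) * r ^ kk n + r ^ (kk n - N) * C := by positivity
  rw [div_le_iff₀ (by linarith)]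
  refine b5.trans ?_
  nlinarith

theorem ex_holds : S_EX := by
  intro f q R N P L h
  refine ⟨?_, ?_⟩
  · filter_upwards [eventually_ge_atTop 2, tendsto_kk.eventually (eventually_gt_atTop N)]
      with n hn hN
    refine ⟨?_, pp_zero N P hN, fun R' h' => pp_diff h.P_diff N hn h'⟩
    obtain ⟨R', h1, h2, h3⟩ := exists_rad h.cls.hR hn
    obtain ⟨g, hg⟩ := exists_g h.cls.q_diff h1 h2 h.P_diff N hn h3
    exact ⟨g, R', hg⟩
  · intro r hr ε hε
    obtain ⟨C, hC, -, hC2⟩ := lip_of_diff (R := 2) (by norm_num) h.P_diff.differentiableOn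
    have h0 : 0 ≤ max r 0 := le_max_right _ _
    have h1 : max r 0 < 1 := max_lt hr (by norm_num)
    have e1 := (tendsto_bd N C h0 h1).eventually (gt_mem_nhds hε)
    have e2 := ((tendsto_pow_atTop_nhds_zero_of_lt_one h0 h1).comp tendsto_kk).eventually
      (gt_mem_nhds (show (0 : ℝ) < 1 / 2 by norm_num))
    filter_upwards [e1, e2, eventually_ge_atTop 2] with n h2 h3 h4 z hz
    exact (pp_bd hC2 h0 h1 h4 h3.le (hz.trans (le_max_left _ _))).trans h2.le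

lemma mem_circle {z : ℂ} (h : ‖z‖ = 1) : ∃ θ : ℝ, z = e θ := by
  refine ⟨z.arg, ?_⟩
  have := Complex.norm_mul_exp_arg_mul_I z
  rw [h] at this
  simpa [e] using this.symm

theorem step_holds (hA : S_APX) (hB : S_EX) (hC : S_EXPD) (hE : S_ENER) (hG : S_POT) :
    S_STEP := by
  obtain ⟨C, hC0, hG⟩ := hG
  refine ⟨1 / 4096, by norm_num, fun i => C (1 - 1 / ((i : ℝ) + 2)), fun i => hC0 _, ?_⟩
  intro f q R hf r0 hr0 m ε hε
  obtain ⟨N, P, L, hD⟩ := hA f q R hf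
  obtain ⟨δ, hδ, hgap⟩ := exists_gap hf
  obtain ⟨hB1, hB2⟩ := hB f q R N P L hD
  have hG' : ∀ i ∈ Finset.range (m + 1), ∀ᶠ n : ℕ in atTop, ∀ g R', IsG q R N P n g R' →
      ∀ w : ℂ, ‖w‖ ≤ 1 - 1 / ((i : ℝ) + 2) →
        UL (fun θ => g (e θ)) w ≤ ENNReal.ofReal (C (1 - 1 / ((i : ℝ) + 2)) * (1 - M2 f) + ε) := by
    intro i _
    have h1 : (0 : ℝ) < 1 / ((i : ℝ) + 2) := by positivity
    have h2 : 1 / ((i : ℝ) + 2) ≤ 1 := by
      rw [div_le_one (by positivity)]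
      have : (0 : ℝ) ≤ i := by positivity
      linarith
    exact hG (1 - 1 / ((i : ℝ) + 2)) (by linarith) (by linarith) f q R N P L hD ε hε
  have hG'' := (Filter.eventually_all_finset (Finset.range (m + 1))).2 hG'
  obtain ⟨n, ⟨⟨g, R', hg⟩, hp0, hpd⟩, hpb, hexp, hen, hpot⟩ :=
    (hB1.and ((hB2 r0 hr0 ε hε).and ((hC f q R N P L hD (δ / 4) (by linarith)).and
      ((hE f q R N P L hD ε hε).and hG'')))).exists
  have hgd : DifferentiableOn ℂ g (ball 0 R') :=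
    fun z hz => (hg.der z hz).differentiableAt.differentiableWithinAt
  have hcirc : ∀ z : ℂ, ‖z‖ = 1 → ‖g z‖ ≤ 1 - δ / 4 := by
    intro z hz
    obtain ⟨θ, rfl⟩ := mem_circle hz
    have h1 := (hexp g R' hg θ).1
    have h2 := hD.hi θ
    have h3 := hgap (e θ) (norm_e θ).le
    have h4 : ‖g (e θ)‖ ≤ ‖g (e θ) - f (e θ)‖ + ‖f (e θ)‖ := by
      have := norm_add_le (g (e θ) - f (e θ)) (f (e θ))
      simpa using this
    linarith
  have hdisc : ∀ z : ℂ, ‖z‖ ≤ 1 → ‖g z‖ ≤ 1 - δ / 4 := by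
    intro z hz
    have hdc : DiffContOnCl ℂ g (ball 0 1) :=
      hgd.diffContOnCl_ball (closedBall_subset_ball hg.hR')
    refine Complex.norm_le_of_forall_mem_frontier_norm_le (U := ball (0 : ℂ) 1)
      isBounded_ball hdc (fun w hw => ?_) ?_
    · rw [frontier_ball _ one_ne_zero] at hw
      exact hcirc w (mem_sphere_zero_iff_norm.1 hw)
    · rw [closure_ball _ one_ne_zero]
      exact mem_closedBall_zero_iff.2 hz
  refine ⟨g, fun z => q z + pp N P n z, R', ⟨hg.hR', ?_, hg.der, hg.g0, ?_⟩, ?_, ?_, ?_, ?_⟩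
  · exact (hf.q_diff.mono (ball_subset_ball hg.hle)).add (hpd R' hg.ht)
  · intro z hz
    have := hdisc z hz
    linarith
  · simp [hp0]
  · intro z hz
    have := hpb z hz
    simpa using this
  · have := hen g R' hg
    linarith
  · intro i hi w hw
    exact hpot i (Finset.mem_range.2 (by omega)) g R' hg w hw

end Pool.Agent.J4.H80.IB
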