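import Pool.Agent.J4.H80.IB.IBas

/-!
# Piece C: the boundary curve (S_RAD -> S_EXPD)
-/

set_option autoImplicit false

open Complex Metric Set Filter Topology MeasureTheory
open scoped ComplexConjugate ENNReal

namespace Pool.Agent.J4.H80.IB.PC

theorem hasDerivAt_ek (K θ : ℝ) : HasDerivAt (fun x => e (K * x)) (I * K * e (K * θ)) θ := by
  have h1 : HasDerivAt (fun x : ℝ => K * x) (K * 1) θ := (hasDerivAt_id θ).const_mul K
  have h2 := (hasDerivAt_e (K * θ)).scomp θ h1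
  refine h2.congr_deriv ?_
  rw [Complex.real_smul]
  push_cast
  ring

/-- product rule computation -/
theorem core (K : ℂ) (hK : K ≠ 0) (A Λ χ M M1 : ℝ → ℂ) (A' Λ' M2 : ℂ) (θ : ℝ)
    (hA : HasDerivAt A A' θ) (hΛ : HasDerivAt Λ Λ' θ) (hχ : HasDerivAt χ (K / M θ) θ)
    (hM : HasDerivAt M (K * M1 θ) θ) (hM1 : HasDerivAt M1 (K * M2) θ) (hΛ0 : Λ θ ≠ 0)
    (hM0 : M θ ≠ 0) :
    HasDerivAt (fun x => A x * cexp (Λ x * χ x) *
        (M x / (K * Λ x) - M x * M1 x / (K * Λ x ^ 2)))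
      (A θ * cexp (Λ θ * χ θ) + cexp (Λ θ * χ θ) *
        (A' * (M θ * (K * Λ θ)⁻¹ - M θ * M1 θ * ((K * Λ θ)⁻¹ * (Λ θ)⁻¹))
        + A θ * Λ' * (χ θ * M θ) * ((K * Λ θ)⁻¹ - M1 θ * ((K * Λ θ)⁻¹ * (Λ θ)⁻¹))
        - A θ * M θ * Λ' * ((K * Λ θ)⁻¹ * (Λ θ)⁻¹)
        - A θ * (M1 θ ^ 2 + M θ * M2) * ((Λ θ)⁻¹) ^ 2
        + 2 * A θ * M θ * M1 θ * Λ' * ((K * Λ θ)⁻¹ * ((Λ θ)⁻¹) ^ 2))) θ := by
  have h1 : HasDerivAt (fun x => cexp (Λ x * χ x))
      (cexp (Λ θ * χ θ) * (Λ' * χ θ + Λ θ * (K / M θ))) θ := (hΛ.mul hχ).cexp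
  have hKΛ : HasDerivAt (fun x => K * Λ x) (K * Λ') θ := hΛ.const_mul K
  have h2 := hM.div hKΛ (mul_ne_zero hK hΛ0)
  have hKΛ2 : HasDerivAt (fun x => K * Λ x ^ 2) (K * (2 * Λ θ * Λ')) θ := by
    have := (hΛ.pow 2).const_mul K
    refine this.congr_deriv ?_
    norm_num
  have h3 := (hM.mul hM1).div hKΛ2 (mul_ne_zero hK (pow_ne_zero 2 hΛ0))
  have h4 := (hA.mul h1).mul (h2.sub h3)
  refine h4.congr_deriv ?_
  simp only [Pi.mul_apply, Pi.sub_apply, Pi.div_apply]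
  generalize cexp (Λ θ * χ θ) = E
  field_simp
  ring

theorem core_bound (A A' Λ' χM M M1 M2 u v : ℂ) (C U V : ℝ) (hC : 0 ≤ C) (hU : 0 ≤ U)
    (hA : ‖A‖ ≤ C) (hA' : ‖A'‖ ≤ C) (hΛ' : ‖Λ'‖ ≤ C) (hχ : ‖χM‖ ≤ 2) (hM : ‖M‖ ≤ 4)
    (hM1 : ‖M1‖ ≤ 2) (hM2 : ‖M2‖ ≤ 2) (hu : ‖u‖ ≤ U) (hv : ‖v‖ ≤ V) (hV : V ≤ 1) :
    ‖A' * (M * u - M * M1 * (u * v)) + A * Λ' * χM * (u - M1 * (u * v)) - A * M * Λ' * (u * v)
      - A * (M1 ^ 2 + M * M2) * v ^ 2 + 2 * A * M * M1 * Λ' * (u * v ^ 2)‖ ≤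
      (12 * C + 26 * C ^ 2) * U + 12 * C * V ^ 2 := by
  have hV0 : 0 ≤ V := (norm_nonneg _).trans hv
  have huv : ‖u * v‖ ≤ U := by
    rw [norm_mul]
    calc ‖u‖ * ‖v‖ ≤ U * 1 := by gcongr; exact hv.trans hV
      _ = U := mul_one _
  have huv2 : ‖u * v ^ 2‖ ≤ U := by
    rw [norm_mul, norm_pow]
    calc ‖u‖ * ‖v‖ ^ 2 ≤ U * 1 ^ 2 := by gcongr; exact hv.trans hV
      _ = U := by ring
  have T1 : ‖A' * (M * u - M * M1 * (u * v))‖ ≤ C * (4 * U + 4 * 2 * U) := by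
    rw [norm_mul]
    gcongr
    refine (norm_sub_le _ _).trans ?_
    rw [norm_mul M u, norm_mul (M * M1), norm_mul M M1]
    gcongr
  have T2 : ‖A * Λ' * χM * (u - M1 * (u * v))‖ ≤ C * C * 2 * (U + 2 * U) := by
    rw [norm_mul, norm_mul, norm_mul]
    gcongr
    refine (norm_sub_le _ _).trans ?_
    rw [norm_mul M1]
    gcongr
  have T3 : ‖A * M * Λ' * (u * v)‖ ≤ C * 4 * C * U := by
    rw [norm_mul (A * M * Λ'), norm_mul (A * M), norm_mul A]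
    gcongr
  have T4 : ‖A * (M1 ^ 2 + M * M2) * v ^ 2‖ ≤ C * (2 ^ 2 + 4 * 2) * V ^ 2 := by
    rw [norm_mul, norm_mul, norm_pow]
    gcongr
    refine (norm_add_le _ _).trans ?_
    rw [norm_pow, norm_mul]
    gcongr
  have T5 : ‖2 * A * M * M1 * Λ' * (u * v ^ 2)‖ ≤ 2 * C * 4 * 2 * C * U := by
    rw [norm_mul (2 * A * M * M1 * Λ'), norm_mul (2 * A * M * M1), norm_mul (2 * A * M),
      norm_mul (2 * A), norm_mul (2 : ℂ) A]
    rw [show ‖(2 : ℂ)‖ = 2 by simp]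
    gcongr
  refine (norm_add_le _ _).trans ?_
  refine (add_le_add (norm_sub_le _ _) le_rfl).trans ?_
  refine (add_le_add (add_le_add (norm_sub_le _ _) le_rfl) le_rfl).trans ?_
  refine (add_le_add (add_le_add (add_le_add (norm_add_le _ _) le_rfl) le_rfl) le_rfl).trans ?_
  nlinarith [T1, T2, T3, T4, T5]

/-- the functions `χ`, `M` and its derivatives in terms of `ζ` -/
noncomputable def chiz (t : ℝ) (ζ : ℂ) : ℂ := -2 * t * ζ / (1 - t * ζ)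
noncomputable def Mz (t : ℝ) (ζ : ℂ) : ℂ := I / (2 * t) * (ζ⁻¹ - 2 * t + t ^ 2 * ζ)
noncomputable def M1z (t : ℝ) (ζ : ℂ) : ℂ := 1 / (2 * t) * (ζ⁻¹ - t ^ 2 * ζ)
noncomputable def M2z (t : ℝ) (ζ : ℂ) : ℂ := -I / (2 * t) * (ζ⁻¹ + t ^ 2 * ζ)

theorem one_sub_ne (t : ℝ) (ht0 : 0 < t) (ht1 : t < 1) (ζ : ℂ) (hζ : ‖ζ‖ = 1) :
    (1 : ℂ) - t * ζ ≠ 0 := by
  intro h
  have h1 : (t : ℂ) * ζ = 1 := (sub_eq_zero.mp h).symm
  have h2 : ‖(t : ℂ) * ζ‖ = 1 := by rw [h1]; simp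
  rw [norm_mul, hζ, mul_one, Complex.norm_real, Real.norm_of_nonneg ht0.le] at h2
  linarith

theorem Mz_eq (t : ℝ) (ht0 : 0 < t) (ζ : ℂ) (hζ : ‖ζ‖ = 1) :
    Mz t ζ = I * (1 - t * ζ) ^ 2 / (2 * t * ζ) := by
  have h0 : ζ ≠ 0 := by
    intro h; rw [h] at hζ; simp at hζ
  have ht : (t : ℂ) ≠ 0 := by exact_mod_cast ht0.ne'
  unfold Mz
  field_simp
  ring

theorem norm_Mz (t : ℝ) (ht0 : 0 < t) (ζ : ℂ) (hζ : ‖ζ‖ = 1) :
    ‖Mz t ζ‖ = ‖1 - t * ζ‖ ^ 2 / (2 * t) := by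
  rw [Mz_eq t ht0 ζ hζ]
  simp only [norm_div, norm_mul, norm_pow, Complex.norm_I, hζ, one_mul, mul_one,
    Complex.norm_real, Real.norm_of_nonneg ht0.le]
  simp

theorem Mz_ne (t : ℝ) (ht0 : 0 < t) (ht1 : t < 1) (ζ : ℂ) (hζ : ‖ζ‖ = 1) : Mz t ζ ≠ 0 := by
  rw [← norm_pos_iff, norm_Mz t ht0 ζ hζ]
  have := one_sub_ne t ht0 ht1 ζ hζ
  have h2 : 0 < ‖(1 : ℂ) - t * ζ‖ := norm_pos_iff.mpr this
  positivity

theorem norm_one_sub_le (t : ℝ) (ht0 : 0 < t) (ht1 : t < 1) (ζ : ℂ) (hζ : ‖ζ‖ = 1) :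
    ‖(1 : ℂ) - t * ζ‖ ≤ 1 + t := by
  refine (norm_sub_le _ _).trans ?_
  rw [norm_mul, hζ, mul_one, Complex.norm_real, Real.norm_of_nonneg ht0.le]
  simp

theorem norm_chiM (t : ℝ) (ht0 : 0 < t) (ht1 : t < 1) (ζ : ℂ) (hζ : ‖ζ‖ = 1) :
    ‖chiz t ζ * Mz t ζ‖ ≤ 2 := by
  have h0 : ζ ≠ 0 := by
    intro h; rw [h] at hζ; simp at hζ
  have ht : (t : ℂ) ≠ 0 := by exact_mod_cast ht0.ne'
  have h1 := one_sub_ne t ht0 ht1 ζ hζ
  have h2 : chiz t ζ * Mz t ζ = -I * (1 - t * ζ) := by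
    rw [Mz_eq t ht0 ζ hζ]
    unfold chiz
    field_simp
  rw [h2, norm_mul, norm_neg, Complex.norm_I, one_mul]
  linarith [norm_one_sub_le t ht0 ht1 ζ hζ]

theorem norm_Mz_le (t : ℝ) (ht0 : 1 / 2 ≤ t) (ht1 : t < 1) (ζ : ℂ) (hζ : ‖ζ‖ = 1) :
    ‖Mz t ζ‖ ≤ 4 := by
  rw [norm_Mz t (by linarith) ζ hζ, div_le_iff₀ (by linarith)]
  have := norm_one_sub_le t (by linarith) ht1 ζ hζ
  have h0 := norm_nonneg ((1 : ℂ) - t * ζ)
  nlinarith

theorem norm_inv_add (t : ℝ) (ht0 : 0 < t) (ζ : ℂ) (hζ : ‖ζ‖ = 1) (s : ℂ) (hs : ‖s‖ = 1) :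
    ‖ζ⁻¹ + s * (t ^ 2 * ζ)‖ ≤ 1 + t ^ 2 := by
  refine (norm_add_le _ _).trans ?_
  rw [norm_inv, hζ, norm_mul, hs, norm_mul, hζ, norm_pow, Complex.norm_real,
    Real.norm_of_nonneg ht0.le]
  simp

theorem norm_M1z (t : ℝ) (ht0 : 1 / 2 ≤ t) (ht1 : t < 1) (ζ : ℂ) (hζ : ‖ζ‖ = 1) :
    ‖M1z t ζ‖ ≤ 2 := by
  have htp : 0 < t := by linarith
  unfold M1z
  rw [norm_mul]
  have h1 := norm_inv_add t htp ζ hζ (-1) (by simp)
  have h2 : ζ⁻¹ + -1 * ((t : ℂ) ^ 2 * ζ) = ζ⁻¹ - t ^ 2 * ζ := by ring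
  rw [h2] at h1
  have h3 : ‖(1 : ℂ) / (2 * t)‖ = 1 / (2 * t) := by
    rw [norm_div, norm_mul, Complex.norm_real, Real.norm_of_nonneg htp.le]
    simp
  rw [h3, div_mul_eq_mul_div, div_le_iff₀ (by linarith)]
  nlinarith

theorem norm_M2z (t : ℝ) (ht0 : 1 / 2 ≤ t) (ht1 : t < 1) (ζ : ℂ) (hζ : ‖ζ‖ = 1) :
    ‖M2z t ζ‖ ≤ 2 := by
  have htp : 0 < t := by linarith
  unfold M2z
  rw [norm_mul]
  have h1 := norm_inv_add t htp ζ hζ 1 (by simp)
  have h2 : ζ⁻¹ + 1 * ((t : ℂ) ^ 2 * ζ) = ζ⁻¹ + t ^ 2 * ζ := by ring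
  rw [h2] at h1
  have h3 : ‖-I / (2 * (t : ℂ))‖ = 1 / (2 * t) := by
    rw [norm_div, norm_mul, Complex.norm_real, Real.norm_of_nonneg htp.le]
    simp
  rw [h3, div_mul_eq_mul_div, div_le_iff₀ (by linarith)]
  nlinarith

theorem hasDerivAt_chi (K t : ℝ) (ht0 : 0 < t) (ht1 : t < 1) (θ : ℝ) :
    HasDerivAt (fun x => chiz t (e (K * x))) ((K : ℂ) / Mz t (e (K * θ))) θ := by
  have hζ := norm_e (K * θ)
  have h0 := e_ne (K * θ)
  have ht : (t : ℂ) ≠ 0 := by exact_mod_cast ht0.ne'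
  have h1 := one_sub_ne t ht0 ht1 _ hζ
  have hd := hasDerivAt_ek K θ
  have h2 : HasDerivAt (fun x => -2 * (t : ℂ) * e (K * x))
      (-2 * (t : ℂ) * (I * K * e (K * θ))) θ := hd.const_mul _
  have h3 : HasDerivAt (fun x => 1 - (t : ℂ) * e (K * x)) (-((t : ℂ) * (I * K * e (K * θ)))) θ :=
    (hd.const_mul (t : ℂ)).const_sub 1
  have h4 := h2.div h3 h1
  unfold chiz
  refine h4.congr_deriv ?_
  rw [Mz_eq t ht0 _ hζ]
  generalize e (K * θ) = ζ at *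
  field_simp
  ring_nf
  simp only [Complex.I_sq]
  ring

theorem hasDerivAt_einv (K θ : ℝ) :
    HasDerivAt (fun x => (e (K * x))⁻¹) (-(I * K) * (e (K * θ))⁻¹) θ := by
  have h0 := e_ne (K * θ)
  have h := (hasDerivAt_ek K θ).inv h0
  refine h.congr_deriv ?_
  field_simp

theorem hasDerivAt_Mz (K t : ℝ) (ht0 : 0 < t) (θ : ℝ) :
    HasDerivAt (fun x => Mz t (e (K * x))) ((K : ℂ) * M1z t (e (K * θ))) θ := by
  have ht : (t : ℂ) ≠ 0 := by exact_mod_cast ht0.ne'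
  have h := (((hasDerivAt_einv K θ).sub_const (2 * (t : ℂ))).add
    ((hasDerivAt_ek K θ).const_mul ((t : ℂ) ^ 2))).const_mul (I / (2 * (t : ℂ)))
  unfold Mz
  refine h.congr_deriv ?_
  unfold M1z
  have hI : I * I = -1 := Complex.I_mul_I
  have : I / (2 * (t : ℂ)) * (-(I * K) * (e (K * θ))⁻¹ + (t : ℂ) ^ 2 * (I * K * e (K * θ))) =
    (I * I) * (K / (2 * (t : ℂ)) * (-(e (K * θ))⁻¹ + (t : ℂ) ^ 2 * e (K * θ))) := by ring
  rw [this, hI]
  ring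

theorem hasDerivAt_M1z (K t : ℝ) (ht0 : 0 < t) (θ : ℝ) :
    HasDerivAt (fun x => M1z t (e (K * x))) ((K : ℂ) * M2z t (e (K * θ))) θ := by
  have h := ((hasDerivAt_einv K θ).sub
    ((hasDerivAt_ek K θ).const_mul ((t : ℂ) ^ 2))).const_mul (1 / (2 * (t : ℂ)))
  unfold M1z
  refine h.congr_deriv ?_
  unfold M2z
  ring

theorem lip_deriv {F : ℝ → ℂ} {F' : ℂ} {θ C : ℝ} (hC : 0 ≤ C) (h : HasDerivAt F F' θ)
    (hl : ∀ a b, ‖F a - F b‖ ≤ C * |a - b|) : ‖F'‖ ≤ C :=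
  h.le_of_lip' hC (Eventually.of_forall fun x => by
    have := hl x θ
    rwa [Real.norm_eq_abs])

/-- the main term -/
noncomputable def Ph (q : ℂ → ℂ) (L : ℝ → ℝ) (n : ℕ) (θ : ℝ) : ℂ :=
  cexp (q (e θ)) * (e θ * I) * cexp (((n + L θ : ℝ) : ℂ) * chi (tt n) (kk n * θ)) *
    (Mz (tt n) (e (kk n * θ)) / ((kk n : ℝ) * ((n + L θ : ℝ) : ℂ)))

theorem chi_node {t α : ℝ} (h0 : 0 ≤ t) (h1 : t < 1) (h : e α = 1) : (chi t α).re ≤ 0 := by
  rw [chi_re h0 h1, h]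
  have h2 : ‖(1 : ℂ) - t * 1‖ = 1 - t := by
    rw [mul_one, ← Complex.ofReal_one, ← Complex.ofReal_sub, Complex.norm_real,
      Real.norm_of_nonneg (by linarith)]
  rw [h2, sub_nonpos, one_le_div (by nlinarith)]
  nlinarith

theorem main_est {f q : ℂ → ℂ} {R : ℝ} {N : ℕ} {P : ℂ → ℂ} {L : ℝ → ℝ} (D : Dt f q R N P L) :
    ∃ C : ℝ, 1 ≤ C ∧ (∀ a, |L a| ≤ C) ∧ ∀ n : ℕ, 2 ≤ n → 2 * C ≤ n → N ≤ kk n →
      ∀ g R', IsG q R N P n g R' → ∀ θ θ0 : ℝ, e (kk n * θ0) = 1 →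
      |θ - θ0| ≤ 2 * Real.pi / kk n →
      ‖g (e θ) - g (e θ0) - Ph q L n θ‖ ≤ C * (1 / n + 1 / kk n) := by
  obtain ⟨CL, hCL, hL1, hL2⟩ := L_lip D
  have hqd := D.cls.q_diff
  have hFd : DifferentiableOn ℂ (fun z => cexp (q z) * (z * I)) (ball 0 R) :=
    hqd.cexp.mul (differentiableOn_id.mul_const I)
  obtain ⟨CA, hCA, hA1, hA2⟩ := lip_of_diff D.cls.hR hFd
  set C0 : ℝ := CL + CA + 1 with hC0
  have hC0p : 1 ≤ C0 := by linarith
  have hexp : 1 ≤ Real.exp C0 := Real.one_le_exp (by linarith)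
  have hCbig : C0 ≤ 1000 * Real.exp C0 * (C0 + C0 ^ 2) := by nlinarith
  refine ⟨1000 * Real.exp C0 * (C0 + C0 ^ 2), by linarith, fun a => ?_, ?_⟩
  · have := hL2 a
    linarith
  intro n hn2 hnC hN g R' hg θ θ0 hnode hdist
  have hn0 : 0 < n := by omega
  have hnr : (0 : ℝ) < n := by exact_mod_cast hn0
  have hn2' : (2 : ℝ) ≤ n := by exact_mod_cast hn2
  have hK0 : 0 < kk n := kk_pos hn0
  have hKr : (0 : ℝ) < kk n := by exact_mod_cast hK0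
  have ht1 := tt_lt hn0
  have ht2 := tt_ge hn2
  have ht0 : 0 < tt n := by linarith
  have hth : 1 / 2 ≤ tt n := by linarith
  have hnC0 : 2 * C0 ≤ n := by linarith
  set t := tt n with ht
  set K : ℝ := ((kk n : ℕ) : ℝ) with hK
  -- the functions
  set A : ℝ → ℂ := fun x => cexp (q (e x)) * (e x * I) with hA
  set Λ : ℝ → ℂ := fun x => ((n + L x : ℝ) : ℂ) with hΛ
  set χ : ℝ → ℂ := fun x => chiz t (e (K * x)) with hχ
  set M : ℝ → ℂ := fun x => Mz t (e (K * x)) with hM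
  set M1 : ℝ → ℂ := fun x => M1z t (e (K * x)) with hM1
  have hAd : ∀ x, ∃ A', HasDerivAt A A' x ∧ ‖A'‖ ≤ C0 := by
    intro x
    have hx : e x ∈ ball (0 : ℂ) R := by
      rw [mem_ball_zero_iff, norm_e]; exact D.cls.hR
    have h1 := hasDerivAt_comp_e ((hFd.differentiableAt (isOpen_ball.mem_nhds hx)).hasDerivAt)
    refine ⟨_, h1, ?_⟩
    refine (lip_deriv hCA.le h1 (fun a b => ?_)).trans (by linarith)
    refine (hA1 _ _ (norm_e a).le (norm_e b).le).trans ?_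
    gcongr
    exact e_lip a b
  have hLd : ∀ x, ∃ Λ', HasDerivAt Λ Λ' x ∧ ‖Λ'‖ ≤ C0 := by
    intro x
    have hP := hasDerivAt_comp_e (D.P_diff (e x)).hasDerivAt
    have h1 : HasDerivAt (fun y : ℝ => -((N : ℝ) * y)) (-((N : ℝ) * 1)) x :=
      ((hasDerivAt_id x).const_mul (N : ℝ)).neg
    have h2 := ((hasDerivAt_e (-((N : ℝ) * x))).scomp x h1).mul hP
    have h2e : Λ =ᶠ[𝓝 x] fun y => (n : ℂ) + ((e ∘ fun y => -((N : ℝ) * y)) * fun x => P (e x)) y := by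
      refine Eventually.of_forall fun y => ?_
      simp only [hΛ, Pi.mul_apply, Function.comp]
      rw [← L_eq D y]
      push_cast
      ring
    have h3 := (h2.const_add (n : ℂ)).congr_of_eventuallyEq h2e
    refine ⟨_, h3, ?_⟩
    refine (lip_deriv hCL.le h3 (fun a b => ?_)).trans (by linarith)
    have h4 : Λ a - Λ b = ((L a - L b : ℝ) : ℂ) := by
      simp only [hΛ]; push_cast; ring
    rw [h4, Complex.norm_real, Real.norm_eq_abs]
    exact hL1 a b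
  have hΛn : ∀ x, (n : ℝ) / 2 ≤ ‖Λ x‖ := by
    intro x
    simp only [hΛ]
    rw [Complex.norm_real, Real.norm_eq_abs]
    have := abs_le.mp (hL2 x)
    rw [abs_of_nonneg (by linarith)]
    linarith
  have hΛ0 : ∀ x, Λ x ≠ 0 := by
    intro x h
    have := hΛn x
    rw [h, norm_zero] at this
    linarith
  have hζ : ∀ x, ‖e (K * x)‖ = 1 := fun x => norm_e _
  have hKc : (K : ℂ) ≠ 0 := by exact_mod_cast hKr.ne'
  have hAn : ∀ x, ‖A x‖ ≤ C0 := fun x => by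
    have := hA2 (e x) (norm_e x).le
    simp only [hA]
    linarith
  have hu : ∀ x, ‖((K : ℂ) * Λ x)⁻¹‖ ≤ 2 / (K * n) := by
    intro x
    rw [norm_inv, norm_mul, Complex.norm_real, Real.norm_of_nonneg hKr.le]
    have hΛp : 0 < ‖Λ x‖ := by have := hΛn x; linarith
    rw [inv_le_comm₀ (by positivity) (by positivity), inv_div]
    have := hΛn x
    calc K * n / 2 = K * (n / 2) := by ring
      _ ≤ K * ‖Λ x‖ := by gcongr
  have hv : ∀ x, ‖(Λ x)⁻¹‖ ≤ 2 / n := by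
    intro x
    rw [norm_inv]
    have := hΛn x
    rw [inv_le_comm₀ (by linarith) (by positivity), inv_div]
    exact this
  have hV1 : 2 / (n : ℝ) ≤ 1 := by rw [div_le_one hnr]; exact hn2'
  -- size of E
  have hEn : ∀ x, ‖cexp (Λ x * χ x)‖ ≤ Real.exp C0 * (n * K) := by
    intro x
    rw [Complex.norm_exp]
    have h1 : (Λ x * χ x).re = (n + L x) * (chi t (K * x)).re := by
      simp only [hΛ, hχ]
      rw [Complex.re_ofReal_mul]
      rfl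
    have h2 : (chi t (K * x)).re ≤ 1 := by
      rw [chi_re ht0.le ht1]
      have : 0 ≤ (1 - t ^ 2) / ‖1 - (t : ℂ) * e (K * x)‖ ^ 2 := by
        have : 0 ≤ 1 - t ^ 2 := by nlinarith
        positivity
      linarith
    have h3 := abs_le.mp (hL2 x)
    have h4 : (n + L x) * (chi t (K * x)).re ≤ n + C0 := by
      have : (n + L x) * (chi t (K * x)).re ≤ (n + L x) * 1 := by
        apply mul_le_mul_of_nonneg_left h2; linarith
      linarith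
    rw [h1]
    calc Real.exp ((n + L x) * (chi t (K * x)).re) ≤ Real.exp (n + C0) := Real.exp_le_exp.mpr h4
      _ = Real.exp C0 * Real.exp n := by rw [Real.exp_add]; ring
      _ ≤ Real.exp C0 * (n * K) := by gcongr; exact exp_le_kk hn0
  have hE0 : ‖cexp (Λ θ0 * χ θ0)‖ ≤ 1 := by
    rw [Complex.norm_exp]
    have h1 : (Λ θ0 * χ θ0).re = (n + L θ0) * (chi t (K * θ0)).re := by
      simp only [hΛ, hχ]
      rw [Complex.re_ofReal_mul]
      rfl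
    have h3 := abs_le.mp (hL2 θ0)
    rw [h1, Real.exp_le_one_iff]
    apply mul_nonpos_of_nonneg_of_nonpos (by linarith) (chi_node ht0.le ht1 hnode)
  -- the function Φ
  set Φ : ℝ → ℂ := fun x => A x * cexp (Λ x * χ x) *
        (M x / (K * Λ x) - M x * M1 x / (K * Λ x ^ 2)) with hΦ
  have hγ : ∀ x, HasDerivAt (fun y => g (e y)) (A x * cexp (Λ x * χ x)) x := by
    intro x
    have hx : e x ∈ ball (0 : ℂ) R' := by
      rw [mem_ball_zero_iff, norm_e]; exact hg.hR'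
    have h1 := hasDerivAt_comp_e (hg.der (e x) hx)
    refine h1.congr_deriv ?_
    rw [pp_e D hN, Complex.exp_add]
    simp only [hA, hΛ, hχ]
    unfold chi chiz
    ring
  have hder : ∀ x, ∃ d, HasDerivAt (fun y => g (e y) - Φ y) d x ∧
      ‖d‖ ≤ Real.exp C0 * (n * K) * ((12 * C0 + 26 * C0 ^ 2) * (2 / (K * n)) +
        12 * C0 * (2 / n) ^ 2) := by
    intro x
    obtain ⟨A', hA', hA'n⟩ := hAd x
    obtain ⟨Λ', hΛ', hΛ'n⟩ := hLd x
    have h1 := core (K : ℂ) hKc A Λ χ M M1 A' Λ' (M2z t (e (K * x))) x hA' hΛ'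
      (hasDerivAt_chi K t ht0 ht1 x) (hasDerivAt_Mz K t ht0 x) (hasDerivAt_M1z K t ht0 x)
      (hΛ0 x) (Mz_ne t ht0 ht1 _ (hζ x))
    refine ⟨_, (hγ x).sub h1, ?_⟩
    rw [sub_add_cancel_left, norm_neg, norm_mul]
    gcongr
    · exact hEn x
    · exact core_bound (A x) A' Λ' (χ x * M x) (M x) (M1 x) (M2z t (e (K * x))) _ _ C0
        (2 / (K * n)) (2 / n) (by linarith) (by positivity) (hAn x) hA'n hΛ'n
        (norm_chiM t ht0 ht1 _ (hζ x)) (norm_Mz_le t hth ht1 _ (hζ x))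
        (norm_M1z t hth ht1 _ (hζ x)) (norm_M2z t hth ht1 _ (hζ x)) (hu x) (hv x) hV1
  choose d hd1 hd2 using hder
  have hmv := (convex_univ (𝕜 := ℝ) (E := ℝ)).norm_image_sub_le_of_norm_hasDerivWithin_le
    (f := fun y => g (e y) - Φ y) (f' := d)
    (fun x _ => (hd1 x).hasDerivWithinAt) (fun x _ => hd2 x) (mem_univ θ0) (mem_univ θ)
  have hpi : Real.pi ≤ 4 := Real.pi_le_four
  have hB : Real.exp C0 * (n * K) * ((12 * C0 + 26 * C0 ^ 2) * (2 / (K * n)) +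
        12 * C0 * (2 / n) ^ 2) * ‖θ - θ0‖ ≤
      8 * Real.exp C0 * ((24 * C0 + 52 * C0 ^ 2) * (1 / K) + 48 * C0 * (1 / n)) := by
    rw [Real.norm_eq_abs]
    calc Real.exp C0 * (n * K) * ((12 * C0 + 26 * C0 ^ 2) * (2 / (K * n)) +
        12 * C0 * (2 / n) ^ 2) * |θ - θ0| ≤ Real.exp C0 * (n * K) * ((12 * C0 + 26 * C0 ^ 2) * (2 / (K * n)) +
        12 * C0 * (2 / n) ^ 2) * (2 * 4 / K) := by
          gcongr
          exact hdist.trans (by gcongr)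
      _ = _ := by field_simp; ring
  have hΦ0 : ‖Φ θ0‖ ≤ 24 * C0 * (1 / K) := by
    have h1 : Φ θ0 = A θ0 * cexp (Λ θ0 * χ θ0) * (M θ0 * ((K * Λ θ0)⁻¹) -
        M θ0 * M1 θ0 * ((K * Λ θ0)⁻¹ * (Λ θ0)⁻¹)) := by
      simp only [hΦ]
      have := hΛ0 θ0
      field_simp
    rw [h1, norm_mul (A θ0 * cexp (Λ θ0 * χ θ0)), norm_mul (A θ0)]
    have h2 : ‖M θ0 * ((K * Λ θ0)⁻¹) - M θ0 * M1 θ0 * ((K * Λ θ0)⁻¹ * (Λ θ0)⁻¹)‖ ≤
        4 * (2 / (K * n)) + 4 * 2 * ((2 / (K * n)) * 1) := by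
      refine (norm_sub_le _ _).trans ?_
      rw [norm_mul (M θ0), norm_mul (M θ0 * M1 θ0), norm_mul (M θ0), norm_mul (((K : ℂ) * Λ θ0)⁻¹)]
      gcongr
      · exact norm_Mz_le t hth ht1 _ (hζ θ0)
      · exact hu θ0
      · exact norm_Mz_le t hth ht1 _ (hζ θ0)
      · exact norm_M1z t hth ht1 _ (hζ θ0)
      · exact hu θ0
      · exact (hv θ0).trans hV1
    calc ‖A θ0‖ * ‖cexp (Λ θ0 * χ θ0)‖ * _ ≤ C0 * 1 * (4 * (2 / (K * n)) + 4 * 2 * ((2 / (K * n)) * 1)) := by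
          gcongr
          exact hAn θ0
      _ = 24 * C0 * (1 / K) * (1 / n) := by field_simp; ring
      _ ≤ 24 * C0 * (1 / K) * 1 := by
          gcongr
          rw [div_le_one hnr]; linarith
      _ = _ := by ring
  have hΦ1 : ‖Φ θ - Ph q L n θ‖ ≤ 32 * Real.exp C0 * C0 * (1 / n) := by
    have h1 : Φ θ - Ph q L n θ = -(A θ * cexp (Λ θ * χ θ) * (M θ * M1 θ *
        ((K * Λ θ)⁻¹ * (Λ θ)⁻¹))) := by
      simp only [hΦ]
      have h2 : Ph q L n θ = A θ * cexp (Λ θ * χ θ) * (M θ / (K * Λ θ)) := by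
        unfold Ph
        rfl
      rw [h2]
      have := hΛ0 θ
      field_simp
      ring
    rw [h1, norm_neg, norm_mul (A θ * cexp (Λ θ * χ θ)), norm_mul (A θ), norm_mul (M θ * M1 θ),
      norm_mul (M θ), norm_mul (((K : ℂ) * Λ θ)⁻¹)]
    calc ‖A θ‖ * ‖cexp (Λ θ * χ θ)‖ * (‖M θ‖ * ‖M1 θ‖ * (‖(K * Λ θ)⁻¹‖ * ‖(Λ θ)⁻¹‖))
        ≤ C0 * (Real.exp C0 * (n * K)) * (4 * 2 * ((2 / (K * n)) * (2 / n))) := by
          gcongr
          · exact hAn θ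
          · exact hEn θ
          · exact norm_Mz_le t hth ht1 _ (hζ θ)
          · exact norm_M1z t hth ht1 _ (hζ θ)
          · exact hu θ
          · exact hv θ
      _ = _ := by field_simp; ring
  have hfin : g (e θ) - g (e θ0) - Ph q L n θ =
      ((g (e θ) - Φ θ) - (g (e θ0) - Φ θ0)) + (Φ θ - Ph q L n θ) - Φ θ0 := by ring
  rw [hfin]
  refine (norm_sub_le _ _).trans ?_
  refine (add_le_add (norm_add_le _ _) le_rfl).trans ?_
  have h5 := hmv.trans hB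
  have hK1 : 0 < 1 / K := by positivity
  have hn1 : 0 < 1 / (n : ℝ) := by positivity
  have hE1 : 0 < Real.exp C0 := Real.exp_pos _
  have h6 : 24 * C0 * (1 / K) ≤ 24 * C0 * (1 / K) * Real.exp C0 := by
    apply le_mul_of_one_le_right (by positivity) hexp
  have h7 : 0 ≤ Real.exp C0 * C0 * (1 / K) := by positivity
  have h8 : 0 ≤ Real.exp C0 * C0 ^ 2 * (1 / K) := by positivity
  have h9 : 0 ≤ Real.exp C0 * C0 * (1 / n) := by positivity
  have h10 : 0 ≤ Real.exp C0 * C0 ^ 2 * (1 / n) := by positivity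
  nlinarith [h5, hΦ0, hΦ1, h6, h7, h8, h9, h10]

theorem norm_Ph {q : ℂ → ℂ} {L : ℝ → ℝ} {n : ℕ} (hn : 2 ≤ n) (θ : ℝ) (hL : 0 < n + L θ) :
    ‖Ph q L n θ‖ = tau q L θ * (Real.exp n / (kk n * (n + L θ))) *
      (Real.exp (-((n + L θ) * (1 - tt n ^ 2) / ‖1 - (tt n : ℂ) * e (kk n * θ)‖ ^ 2)) *
        ‖1 - (tt n : ℂ) * e (kk n * θ)‖ ^ 2) / (2 * tt n) := by
  have ht2 := tt_ge hn
  have ht1 := tt_lt (n := n) (by omega)
  have hKr : (0 : ℝ) < kk n := by exact_mod_cast kk_pos (n := n) (by omega)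
  unfold Ph
  rw [norm_mul (cexp (q (e θ)) * (e θ * I) * _), norm_mul (cexp (q (e θ)) * (e θ * I)),
    norm_mul (cexp (q (e θ))), norm_mul (e θ), norm_e, Complex.norm_I, mul_one, mul_one,
    norm_div, norm_mul, Complex.norm_real, Complex.norm_real, Real.norm_of_nonneg hKr.le,
    Real.norm_of_nonneg hL.le, norm_Mz _ (by linarith) _ (norm_e _), Complex.norm_exp,
    Complex.norm_exp, Complex.re_ofReal_mul, chi_re (by linarith) ht1]
  unfold tau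
  have h1 : (n + L θ) * (1 - (1 - tt n ^ 2) / ‖1 - (tt n : ℂ) * e (kk n * θ)‖ ^ 2) =
      L θ + n + -((n + L θ) * (1 - tt n ^ 2) / ‖1 - (tt n : ℂ) * e (kk n * θ)‖ ^ 2) := by
    ring
  rw [h1, Real.exp_add, Real.exp_add, Real.exp_add]
  have ht0 : tt n ≠ 0 := by linarith
  have hL' := hL.ne'
  field_simp

theorem Ph_le {f q : ℂ → ℂ} {R : ℝ} {N : ℕ} {P : ℂ → ℂ} {L : ℝ → ℝ} (D : Dt f q R N P L)
    {C : ℝ} (hC : 1 ≤ C) (hL : ∀ a, |L a| ≤ C) {n : ℕ} (hn : 2 ≤ n) (hnC : 2 * C ≤ n) (θ : ℝ) :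
    ‖Ph q L n θ‖ ≤ 2 * tau q L θ + (n / (tt n * (n - C)) - 1) / 2 := by
  have hL1 := abs_le.mp (hL θ)
  have hLp : 0 < n + L θ := by linarith
  have ht2 := tt_ge hn
  have ht1 := tt_lt (n := n) (by omega)
  have hn0 : 0 < n := by omega
  have hnr : (0 : ℝ) < n := by exact_mod_cast hn0
  have hKr : (0 : ℝ) < kk n := by exact_mod_cast kk_pos hn0
  rw [norm_Ph hn θ hLp]
  have hτ0 : 0 < tau q L θ := Real.exp_pos _
  have hτ1 : tau q L θ ≤ 1 / 4 := by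
    have := D.hi θ
    have h2 := norm_nonneg (f (e θ))
    linarith
  set d := ‖1 - (tt n : ℂ) * e (kk n * θ)‖ with hd
  have hd0 : 0 ≤ d := norm_nonneg _
  have hd2 : d ≤ 2 := one_sub_le (by linarith) ht1 _
  have h1 : Real.exp (-((n + L θ) * (1 - tt n ^ 2) / d ^ 2)) * d ^ 2 ≤ 1 * 2 ^ 2 := by
    gcongr
    rw [Real.exp_le_one_iff, neg_nonpos]
    have : 0 ≤ 1 - tt n ^ 2 := by nlinarith
    positivity
  have h2 : Real.exp n / (kk n * (n + L θ)) ≤ n / (n - C) := by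
    have h3 := exp_le_kk hn0
    calc Real.exp n / (kk n * (n + L θ)) ≤ n * kk n / (kk n * (n + L θ)) := by gcongr
      _ = n / (n + L θ) := by field_simp
      _ ≤ n / (n - C) := by
        gcongr
        · linarith
        · linarith
  have hden : 0 < n - C := by linarith
  calc tau q L θ * (Real.exp n / (kk n * (n + L θ))) *
      (Real.exp (-((n + L θ) * (1 - tt n ^ 2) / d ^ 2)) * d ^ 2) / (2 * tt n)
      ≤ tau q L θ * (n / (n - C)) * (1 * 2 ^ 2) / (2 * tt n) := by gcongr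
    _ = 2 * tau q L θ + 2 * tau q L θ * (n / (tt n * (n - C)) - 1) := by field_simp; ring
    _ ≤ 2 * tau q L θ + 2 * (1 / 4) * (n / (tt n * (n - C)) - 1) := by
        gcongr
        rw [sub_nonneg, one_le_div (by positivity)]
        nlinarith
    _ = _ := by ring

theorem Ph_ge {f q : ℂ → ℂ} {R : ℝ} {N : ℕ} {P : ℂ → ℂ} {L : ℝ → ℝ} (D : Dt f q R N P L)
    {C : ℝ} (hC : 1 ≤ C) (hL : ∀ a, |L a| ≤ C) {n : ℕ} (hn : 2 ≤ n) (hnC : 2 * C ≤ n)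
    (hK4 : 4 ≤ kk n) (θ : ℝ) :
    tau q L θ * (1 - Real.cos (kk n * θ)) / 2 - 1 / (n : ℝ) ^ 3 ≤ ‖Ph q L n θ‖ := by
  have hL1 := abs_le.mp (hL θ)
  have hLp : 0 < n + L θ := by linarith
  have ht2 := tt_ge hn
  have ht1 := tt_lt (n := n) (by omega)
  have hn0 : 0 < n := by omega
  have hnr : (0 : ℝ) < n := by exact_mod_cast hn0
  have hKr : (0 : ℝ) < kk n := by exact_mod_cast kk_pos hn0
  have hK4' : (4 : ℝ) ≤ kk n := by exact_mod_cast hK4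
  rw [norm_Ph hn θ hLp]
  have hτ0 : 0 < tau q L θ := Real.exp_pos _
  have hτ1 : tau q L θ ≤ 1 / 4 := by
    have := D.hi θ
    have h2 := norm_nonneg (f (e θ))
    linarith
  have hdsq := normSq_one_sub (tt n) (kk n * θ)
  have hdpos : 0 < ‖1 - (tt n : ℂ) * e (kk n * θ)‖ :=
    norm_pos_iff.mpr (IB.one_sub_ne (by linarith) ht1 _)
  set d := ‖1 - (tt n : ℂ) * e (kk n * θ)‖ with hd
  set X := Real.exp (-((n + L θ) * (1 - tt n ^ 2) / d ^ 2)) * d ^ 2 with hX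
  have hX0 : 0 ≤ X := by positivity
  have hX1 : d ^ 2 - (n + L θ) * (1 - tt n ^ 2) ≤ X := by
    have h1 := Real.add_one_le_exp (-((n + L θ) * (1 - tt n ^ 2) / d ^ 2))
    have h2 : (-((n + L θ) * (1 - tt n ^ 2) / d ^ 2) + 1) * d ^ 2 ≤ X := by
      rw [hX]; gcongr
    have h3 : (-((n + L θ) * (1 - tt n ^ 2) / d ^ 2) + 1) * d ^ 2 =
        d ^ 2 - (n + L θ) * (1 - tt n ^ 2) := by
      field_simp
      ring
    linarith
  have h2 : 1 / 2 ≤ Real.exp n / (kk n * (n + L θ)) := by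
    rw [div_le_div_iff₀ (by norm_num) (by positivity)]
    have h3 := kk_le n
    have h4 : (kk n : ℝ) * n ≤ Real.exp n + n := by
      calc (kk n : ℝ) * n ≤ (Real.exp n / n + 1) * n := by gcongr
        _ = Real.exp n + n := by field_simp
    have h5 : (n : ℝ) * 4 ≤ n * kk n := by gcongr
    have h6 : (kk n : ℝ) * (n + L θ) ≤ kk n * (3 / 2 * n) := by
      gcongr
      linarith
    nlinarith
  have h7 : 1 - tt n ^ 2 ≤ 2 / (n : ℝ) ^ 4 := by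
    have h8 := one_sub_tt n
    have h9 : 1 - tt n ^ 2 = (1 - tt n) * (1 + tt n) := by ring
    rw [h9, h8]
    have h10 : 0 < 1 / (n : ℝ) ^ 4 := by positivity
    calc 1 / (n : ℝ) ^ 4 * (1 + tt n) ≤ 1 / (n : ℝ) ^ 4 * 2 := by gcongr; linarith
      _ = 2 / (n : ℝ) ^ 4 := by ring
  have h8 : (n + L θ) * (1 - tt n ^ 2) ≤ 4 / (n : ℝ) ^ 3 := by
    have h80 : 0 ≤ 1 - tt n ^ 2 := by nlinarith
    calc (n + L θ) * (1 - tt n ^ 2) ≤ (2 * n) * (2 / (n : ℝ) ^ 4) := by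
          apply mul_le_mul _ h7 h80 (by positivity)
          linarith
      _ = 4 / (n : ℝ) ^ 3 := by field_simp; ring
  have h9 : 2 * tt n * (1 - Real.cos (kk n * θ)) ≤ d ^ 2 := by
    rw [hdsq]
    nlinarith [sq_nonneg (1 - tt n)]
  have h10 : 2 * tt n * (1 - Real.cos (kk n * θ)) - 4 / (n : ℝ) ^ 3 ≤ X := by linarith
  have h11 : tau q L θ * (1 / 2) * X / (2 * tt n) ≤ tau q L θ * (Real.exp n / (kk n * (n + L θ))) *
      X / (2 * tt n) := by gcongr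
  refine le_trans ?_ h11
  have h12 : tau q L θ * (1 / 2) * (2 * tt n * (1 - Real.cos (kk n * θ)) - 4 / (n : ℝ) ^ 3) /
      (2 * tt n) ≤ tau q L θ * (1 / 2) * X / (2 * tt n) := by gcongr
  refine le_trans ?_ h12
  have h13 : tau q L θ * (1 / 2) * (2 * tt n * (1 - Real.cos (kk n * θ)) - 4 / (n : ℝ) ^ 3) /
      (2 * tt n) = tau q L θ * (1 - Real.cos (kk n * θ)) / 2 -
        tau q L θ / tt n * (1 / (n : ℝ) ^ 3) := by
    have : tt n ≠ 0 := by linarith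
    field_simp
    ring
  rw [h13]
  have h14 : tau q L θ / tt n ≤ 1 := by
    rw [div_le_one (by linarith)]; linarith
  have h15 : tau q L θ / tt n * (1 / (n : ℝ) ^ 3) ≤ 1 * (1 / (n : ℝ) ^ 3) := by gcongr
  linarith

theorem exists_node (K : ℕ) (hK : 0 < K) (θ : ℝ) :
    ∃ θ0 : ℝ, e (K * θ0) = 1 ∧ |θ - θ0| ≤ 2 * Real.pi / K := by
  have hKr : (0 : ℝ) < K := by exact_mod_cast hK
  have hpi := Real.pi_pos
  set j : ℤ := ⌊K * θ / (2 * Real.pi)⌋ with hj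
  refine ⟨2 * Real.pi * j / K, ?_, ?_⟩
  · have h1 : (K : ℝ) * (2 * Real.pi * j / K) = j * (2 * Real.pi) := by field_simp
    rw [h1]
    unfold e
    push_cast
    rw [show (j : ℂ) * (2 * (Real.pi : ℂ)) * I = j * (2 * (Real.pi : ℂ) * I) by ring]
    exact Complex.exp_int_mul_two_pi_mul_I j
  · have h2 : (j : ℝ) ≤ K * θ / (2 * Real.pi) := Int.floor_le _
    have h3 : K * θ / (2 * Real.pi) < j + 1 := Int.lt_floor_add_one _
    rw [le_div_iff₀ (by positivity)] at h2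
    rw [div_lt_iff₀ (by positivity)] at h3
    have h4 : θ - 2 * Real.pi * j / K = (K * θ - j * (2 * Real.pi)) / K := by
      field_simp
    rw [h4, abs_div, abs_of_nonneg (by linarith : 0 ≤ K * θ - j * (2 * Real.pi)),
      abs_of_nonneg hKr.le]
    gcongr
    linarith

end Pool.Agent.J4.H80.IB.PC

namespace Pool.Agent.J4.H80.IB

/-- PIECE C -/
theorem expd_holds (h : S_RAD) : S_EXPD := by
  intro f q R N P L D ε hε
  obtain ⟨C, hC1, hCL, hmain⟩ := PC.main_est D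
  obtain ⟨CR, hCR, hrad⟩ := h f q R N P L D
  obtain ⟨Cf, hCf, hf1, -⟩ := lip_of_diff D.cls.hR (f_diff D.cls)
  -- limits
  have hn : Tendsto (fun n : ℕ => (n : ℝ)) atTop atTop := tendsto_natCast_atTop_atTop
  have hinv : Tendsto (fun n : ℕ => 1 / (n : ℝ)) atTop (𝓝 0) := tendsto_one_div_atTop_nhds_zero_nat
  have hkinv := tendsto_pow_div_kk 0
  have hk6 := tendsto_pow_div_kk 6
  simp only [pow_zero] at hkinv
  have hη : Tendsto (fun n : ℕ => C * (1 / n + 1 / kk n) + CR * ((n : ℝ) ^ 6 / kk n) +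
      Cf * (2 * Real.pi * (1 / kk n))) atTop (𝓝 0) := by
    have := ((hinv.add hkinv).const_mul C).add (hk6.const_mul CR) |>.add
      ((hkinv.const_mul (2 * Real.pi)).const_mul Cf)
    simpa using this
  have ht : Tendsto (fun n : ℕ => tt n) atTop (𝓝 1) := by
    have h1 : Tendsto (fun n : ℕ => 1 - (1 / (n : ℝ)) ^ 4) atTop (𝓝 (1 - 0 ^ 4)) :=
      tendsto_const_nhds.sub (hinv.pow 4)
    refine (h1.congr fun n => ?_).trans (by norm_num)
    unfold tt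
    rw [one_div_pow]
  have hup : Tendsto (fun n : ℕ => ((n : ℝ) / (tt n * (n - C)) - 1) / 2) atTop (𝓝 0) := by
    have h1 : Tendsto (fun n : ℕ => 1 / (tt n * (1 - C * (1 / (n : ℝ))))) atTop
        (𝓝 (1 / (1 * (1 - C * 0)))) := by
      refine tendsto_const_nhds.div (ht.mul (tendsto_const_nhds.sub (hinv.const_mul C))) ?_
      norm_num
    have h2 : Tendsto (fun n : ℕ => (n : ℝ) / (tt n * (n - C))) atTop (𝓝 1) := by
      have h3 : (1 : ℝ) / (1 * (1 - C * 0)) = 1 := by norm_num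
      rw [h3] at h1
      refine h1.congr' ?_
      filter_upwards [eventually_gt_atTop 0] with n hn0
      have hnr : (0 : ℝ) < n := by exact_mod_cast hn0
      have h4 : (1 - C * (1 / (n : ℝ))) = (n - C) / n := by field_simp
      rw [h4, mul_div_assoc', one_div_div]
    have h5 := (h2.sub_const 1).div_const 2
    simpa using h5
  have hlow : Tendsto (fun n : ℕ => 1 / (n : ℝ) ^ 3) atTop (𝓝 0) := by
    have := hinv.pow 3
    refine (this.congr fun n => ?_).trans (by norm_num)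
    rw [one_div_pow]
  have hε2 : (0 : ℝ) < ε / 2 := by positivity
  filter_upwards [eventually_ge_atTop 2, hn.eventually_ge_atTop (2 * C),
    tendsto_kk.eventually_ge_atTop N, tendsto_kk.eventually_ge_atTop 4, hrad,
    hη.eventually (gt_mem_nhds hε2), hup.eventually (gt_mem_nhds hε2),
    hlow.eventually (gt_mem_nhds hε2)] with n hn2 hnC hN hK4 hr h1 h2 h3
  intro g R' hg θ
  have hn0 : 0 < n := by omega
  have hKr : (0 : ℝ) < kk n := by exact_mod_cast kk_pos hn0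
  obtain ⟨θ0, hθ0, hd⟩ := PC.exists_node (kk n) (kk_pos hn0) θ
  have e1 := hmain n hn2 hnC hN g R' hg θ θ0 hθ0 hd
  have e2 := hr g R' hg θ0 hθ0
  have e3 : ‖f (e θ) - f (e θ0)‖ ≤ Cf * (2 * Real.pi * (1 / kk n)) := by
    refine (hf1 _ _ (norm_e θ).le (norm_e θ0).le).trans ?_
    gcongr
    refine (e_lip θ θ0).trans (hd.trans (le_of_eq ?_))
    ring
  have e4 : ‖(g (e θ) - f (e θ)) - PC.Ph q L n θ‖ ≤ ε / 2 := by
    have h5 : (g (e θ) - f (e θ)) - PC.Ph q L n θ =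
        (g (e θ) - g (e θ0) - PC.Ph q L n θ) + (g (e θ0) - f (e θ0)) - (f (e θ) - f (e θ0)) := by
      ring
    rw [h5]
    refine (norm_sub_le _ _).trans ?_
    refine (add_le_add (norm_add_le _ _) le_rfl).trans ?_
    rw [mul_div_assoc] at e2
    linarith
  have e5 := PC.Ph_le D hC1 hCL hn2 hnC θ
  have e6 := PC.Ph_ge D hC1 hCL hn2 hnC hK4 θ
  have e7 := norm_sub_norm_le (g (e θ) - f (e θ)) (PC.Ph q L n θ)
  have e8 := norm_sub_norm_le (PC.Ph q L n θ) (g (e θ) - f (e θ))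
  rw [norm_sub_rev (PC.Ph q L n θ) (g (e θ) - f (e θ))] at e8
  constructor
  · linarith
  · linarith

end Pool.Agent.J4.H80.IB
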