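import Pool.Agent.J4.H80.IB.IDef

/-!
# Piece I (by helper97): the limit function
-/

set_option autoImplicit false

open Complex Metric Set Filter Topology MeasureTheory
open scoped ComplexConjugate ENNReal

namespace Pool.Agent.J4.H80.IB

namespace ILim

theorem norm_e (θ : ℝ) : ‖e θ‖ = 1 := by
  unfold e
  exact Complex.norm_exp_ofReal_mul_I θ

theorem M2_le {f q : ℂ → ℂ} {R : ℝ} (h : Cls f q R) : M2 f ≤ 1 := by
  unfold M2
  have hpi := Real.pi_pos
  have h1 : ‖∫ θ in (0 : ℝ)..2 * Real.pi, ‖f (e θ)‖ ^ 2‖ ≤ 1 * |2 * Real.pi - 0| := by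
    apply intervalIntegral.norm_integral_le_of_norm_le_const
    intro θ _
    rw [Real.norm_of_nonneg (by positivity)]
    have := h.lt1 (e θ) (norm_e θ).le
    have h0 := norm_nonneg (f (e θ))
    nlinarith
  rw [sub_zero, abs_of_pos (by positivity), one_mul] at h1
  have h2 := (le_abs_self _).trans h1
  rw [inv_mul_le_iff₀ (by positivity), mul_one]
  exact h2

/-- the states of the recursion -/
structure St where
  f : ℂ → ℂ
  q : ℂ → ℂ
  R : ℝ
  d : ℝ
  s : ℝ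
  cls : Cls f q R
  hd : 0 < d
  hs : s < 1

/-- the steps of the recursion -/
structure Nx (c0 : ℝ) (C : ℕ → ℝ) (k : ℕ) (x y : St) : Prop where
  s_mono : x.s ≤ y.s
  s_lo : 1 - 1 / ((k : ℝ) + 2) ≤ y.s
  d_le : y.d ≤ x.d / 2
  q_near : ∀ z : ℂ, ‖z‖ ≤ y.s → ‖y.q z - x.q z‖ ≤ y.d / 2
  q0 : y.q 0 = x.q 0
  m2 : M2 x.f + c0 * (1 - M2 x.f) ^ 2 - y.d / 2 ≤ M2 y.f
  pot : ∀ i ≤ k, ∀ w : ℂ, ‖w‖ ≤ 1 - 1 / ((i : ℝ) + 2) →
    UL (fun θ => y.f (e θ)) w ≤ ENNReal.ofReal (C i * (1 - M2 x.f) + y.d / 2)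
  stab : ∃ r : ℝ, 0 < r ∧ 1 - 1 / ((k : ℝ) + 2) < r ∧ r < 1 ∧
    ∀ g qg : ℂ → ℂ, (∀ z ∈ ball (0 : ℂ) 1, HasDerivAt g (cexp (qg z)) z) → g 0 = 0 →
      DifferentiableOn ℂ qg (ball 0 1) → (∀ z ∈ ball (0 : ℂ) 1, ‖g z‖ ≤ 1) →
      (∀ z : ℂ, ‖z‖ ≤ y.s → ‖qg z - x.q z‖ ≤ y.d) → ∀ w : ℂ, ‖w‖ ≤ 1 - 1 / ((k : ℝ) + 2) →
      UL (fun θ => g (r * e θ)) w ≤
        UL (fun θ => x.f (e θ)) w + ENNReal.ofReal (1 / ((k : ℝ) + 1))

theorem exists_next (h2 : S_STAB) {c0 : ℝ} {C : ℕ → ℝ}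
    (h1 : ∀ (f q : ℂ → ℂ) (R : ℝ), Cls f q R → ∀ r0 : ℝ, r0 < 1 → ∀ m : ℕ, ∀ ε : ℝ, 0 < ε →
      ∃ (g qg : ℂ → ℂ) (Rg : ℝ), Cls g qg Rg ∧ qg 0 = q 0 ∧
        (∀ z : ℂ, ‖z‖ ≤ r0 → ‖qg z - q z‖ ≤ ε) ∧
        M2 f + c0 * (1 - M2 f) ^ 2 - ε ≤ M2 g ∧
        ∀ i ≤ m, ∀ w : ℂ, ‖w‖ ≤ 1 - 1 / ((i : ℝ) + 2) →
          UL (fun θ => g (e θ)) w ≤ ENNReal.ofReal (C i * (1 - M2 f) + ε))
    (k : ℕ) (x : St) : ∃ y : St, Nx c0 C k x y := by
  have hk : (0 : ℝ) < (k : ℝ) + 2 := by positivity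
  have hk1 : 1 - 1 / ((k : ℝ) + 2) < 1 := by
    have : 0 < 1 / ((k : ℝ) + 2) := by positivity
    linarith
  obtain ⟨r, r', δ, hr0, hr1, hrr', hr'1, hδ, hst⟩ := h2 x.f x.q x.R x.cls (1 / ((k : ℝ) + 1))
    (by positivity) (1 - 1 / ((k : ℝ) + 2)) hk1 (1 - 1 / ((k : ℝ) + 2)) hk1
  obtain ⟨d, hd⟩ : ∃ d, d = min (x.d / 2) δ := ⟨_, rfl⟩
  obtain ⟨s, hs⟩ : ∃ s, s = max x.s (max r' (1 - 1 / ((k : ℝ) + 2))) := ⟨_, rfl⟩
  have hd0 : 0 < d := by
    rw [hd]
    exact lt_min (half_pos x.hd) hδ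
  have hs1 : s < 1 := by
    rw [hs]
    exact max_lt x.hs (max_lt hr'1 hk1)
  obtain ⟨g, qg, Rg, hg, hq0, hqn, hm, hp⟩ := h1 x.f x.q x.R x.cls s hs1 k (d / 2) (half_pos hd0)
  refine ⟨⟨g, qg, Rg, d, s, hg, hd0, hs1⟩, ?_⟩
  refine ⟨?_, ?_, ?_, hqn, hq0, hm, hp, r, hr0, hr1, hrr'.trans hr'1, ?_⟩
  · show x.s ≤ s
    rw [hs]; exact le_max_left _ _
  · show _ ≤ s
    rw [hs]; exact (le_max_right _ _).trans (le_max_right _ _)
  · show d ≤ _
    rw [hd]; exact min_le_left _ _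
  · intro g' qg' a1 a2 a3 a4 a5 w hw
    refine hst g' qg' a1 a2 a3 a4 (fun z hz => ?_) w hw
    have hzs : ‖z‖ ≤ s := by
      rw [hs]
      exact hz.trans ((le_max_left _ _).trans (le_max_right _ _))
    have hdδ : d ≤ δ := by rw [hd]; exact min_le_right _ _
    exact (a5 z hzs).trans hdδ

section seq

variable {c0 : ℝ} {C : ℕ → ℝ} {x : ℕ → St} (hx : ∀ k, Nx c0 C k (x k) (x (k + 1)))

include hx

theorem s_mono {k n : ℕ} (h : k ≤ n) : (x (k + 1)).s ≤ (x (n + 1)).s := by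
  induction n, h using Nat.le_induction with
  | base => exact le_rfl
  | succ n _ ih => exact ih.trans (hx (n + 1)).s_mono

theorem near {k n : ℕ} (h : k ≤ n) (z : ℂ) (hz : ‖z‖ ≤ (x (k + 1)).s) :
    ‖(x n).q z - (x k).q z‖ ≤ (x (k + 1)).d - (x (n + 1)).d := by
  induction n, h using Nat.le_induction with
  | base => simp
  | succ n hn ih =>
    have h1 := (hx n).q_near z (hz.trans (s_mono hx hn))
    have h2 := (hx (n + 1)).d_le
    have h3 : (x (n + 1)).q z - (x k).q z =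
        ((x (n + 1)).q z - (x n).q z) + ((x n).q z - (x k).q z) := by ring
    rw [h3]
    have h4 := norm_add_le ((x (n + 1)).q z - (x n).q z) ((x n).q z - (x k).q z)
    have h5 : (x (n + 1 + 1)).d ≤ (x (n + 1)).d / 2 := h2
    linarith

theorem d_pow (k : ℕ) : (x k).d ≤ (x 0).d * (1 / 2) ^ k := by
  induction k with
  | zero => simp
  | succ k ih =>
    have h1 := (hx k).d_le
    rw [pow_succ]
    linarith

theorem d_tendsto : Tendsto (fun k => (x (k + 1)).d) atTop (𝓝 0) := by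
  have h1 : Tendsto (fun k : ℕ => (x 0).d * (1 / 2 : ℝ) ^ (k + 1)) atTop (𝓝 0) := by
    have h2 := (tendsto_pow_atTop_nhds_zero_of_lt_one (r := (1 / 2 : ℝ)) (by norm_num)
      (by norm_num)).const_mul ((x 0).d)
    rw [mul_zero] at h2
    exact h2.comp (tendsto_add_atTop_nat 1)
  exact squeeze_zero (fun k => (x (k + 1)).hd.le) (fun k => d_pow hx (k + 1)) h1

omit hx in
theorem exists_k {c : ℝ} (hc : c < 1) : ∃ K : ℕ, ∀ k : ℕ, K ≤ k → c < 1 - 1 / ((k : ℝ) + 2) := by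
  obtain ⟨K, hK⟩ := exists_nat_gt (1 / (1 - c))
  refine ⟨K, fun k hk => ?_⟩
  have h1 : 0 < 1 - c := by linarith
  have h2 : (K : ℝ) ≤ k := by exact_mod_cast hk
  have h3 : 1 / ((k : ℝ) + 2) < 1 - c := by
    rw [div_lt_iff₀ (by positivity)]
    rw [div_lt_iff₀ h1] at hK
    nlinarith
  linarith

theorem exists_lim (z : ℂ) (hz : ‖z‖ < 1) :
    ∃ l, Tendsto (fun n => (x n).q z) atTop (𝓝 l) := by
  obtain ⟨K, hK⟩ := exists_k hz
  have hS : ∀ k, K ≤ k → ‖z‖ ≤ (x (k + 1)).s := fun k hk =>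
    (hK k hk).le.trans (hx k).s_lo
  have hC : CauchySeq (fun n => (x (n + K)).q z) := by
    refine cauchySeq_of_le_tendsto_0 (fun N => 2 * (x (N + K + 1)).d) ?_ ?_
    · intro n m N hn hm
      have h1 := near hx (k := N + K) (n := n + K) (by omega) z (hS _ (by omega))
      have h2 := near hx (k := N + K) (n := m + K) (by omega) z (hS _ (by omega))
      have h3 := (x (n + K + 1)).hd
      have h4 := (x (m + K + 1)).hd
      rw [dist_eq_norm]
      have h5 : (x (n + K)).q z - (x (m + K)).q z =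
          ((x (n + K)).q z - (x (N + K)).q z) - ((x (m + K)).q z - (x (N + K)).q z) := by ring
      rw [h5]
      have h6 := norm_sub_le ((x (n + K)).q z - (x (N + K)).q z)
        ((x (m + K)).q z - (x (N + K)).q z)
      linarith
    · have h1 := ((d_tendsto hx).const_mul 2).comp (tendsto_add_atTop_nat K)
      rw [mul_zero] at h1
      exact h1
  obtain ⟨l, hl⟩ := cauchySeq_tendsto_of_complete hC
  exact ⟨l, (tendsto_add_atTop_iff_nat K).mp hl⟩

theorem lim_near {qB : ℂ → ℂ} (hq : ∀ z : ℂ, ‖z‖ < 1 → Tendsto (fun n => (x n).q z) atTop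
    (𝓝 (qB z))) (k : ℕ) (z : ℂ) (hz : ‖z‖ ≤ (x (k + 1)).s) :
    ‖qB z - (x k).q z‖ ≤ (x (k + 1)).d := by
  have h1 := ((hq z (hz.trans_lt (x (k + 1)).hs)).sub_const ((x k).q z)).norm
  refine le_of_tendsto h1 ?_
  filter_upwards [eventually_ge_atTop k] with n hn
  have h2 := near hx hn z hz
  have h3 := (x (n + 1)).hd
  linarith

theorem lim_diff {qB : ℂ → ℂ} (hq : ∀ z : ℂ, ‖z‖ < 1 → Tendsto (fun n => (x n).q z) atTop
    (𝓝 (qB z))) : DifferentiableOn ℂ qB (ball 0 1) := by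
  have h1 : TendstoLocallyUniformlyOn (fun n => (x n).q) qB atTop (ball (0 : ℂ) 1) := by
    rw [Metric.tendstoLocallyUniformlyOn_iff]
    intro ε hε z hz
    rw [mem_ball_zero_iff] at hz
    obtain ⟨K, hK⟩ := exists_k hz
    refine ⟨ball 0 (1 - 1 / ((K : ℝ) + 2)), mem_nhdsWithin_of_mem_nhds
      (isOpen_ball.mem_nhds (mem_ball_zero_iff.mpr (hK K le_rfl))), ?_⟩
    have h2 := (d_tendsto hx).eventually (gt_mem_nhds hε)
    filter_upwards [eventually_ge_atTop K, h2] with n hn hd y hy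
    rw [mem_ball_zero_iff] at hy
    rw [dist_eq_norm]
    refine (lim_near hx hq n y ?_).trans_lt hd
    exact (hy.le.trans (hx K).s_lo).trans (s_mono hx hn)
  refine h1.differentiableOn ?_ isOpen_ball
  refine Eventually.of_forall fun n => (x n).cls.q_diff.mono ?_
  exact ball_subset_ball (x n).cls.hR.le

theorem lim_le {qB B : ℂ → ℂ} (hq : ∀ z : ℂ, ‖z‖ < 1 → Tendsto (fun n => (x n).q z) atTop
    (𝓝 (qB z))) (hB : ∀ z ∈ ball (0 : ℂ) 1, HasDerivAt B (cexp (qB z)) z) (hB0 : B 0 = 0)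
    (z : ℂ) (hz : ‖z‖ < 1) : ‖B z‖ ≤ 1 := by
  have hcl : closedBall (0 : ℂ) ‖z‖ ⊆ ball 0 1 := closedBall_subset_ball hz
  obtain ⟨M, hM⟩ := (isCompact_closedBall (0 : ℂ) ‖z‖).exists_bound_of_continuousOn
    ((lim_diff hx hq).continuousOn.mono hcl)
  obtain ⟨K, hK⟩ := exists_k hz
  have h1 : Tendsto (fun n => 1 + 2 * Real.exp M * (x (n + 1)).d) atTop (𝓝 1) := by
    have h2 := ((d_tendsto hx).const_mul (2 * Real.exp M)).const_add 1
    rwa [mul_zero, add_zero] at h2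
  refine ge_of_tendsto h1 ?_
  have h3 := (d_tendsto hx).eventually (gt_mem_nhds (zero_lt_one' ℝ))
  filter_upwards [eventually_ge_atTop K, h3] with n hn hd
  have h4 : ∀ y ∈ closedBall (0 : ℂ) ‖z‖, HasDerivWithinAt (fun y => (x n).f y - B y)
      (cexp ((x n).q y) - cexp (qB y)) (closedBall 0 ‖z‖) y := by
    intro y hy
    have hy1 := hcl hy
    have hyR : y ∈ ball (0 : ℂ) (x n).R := ball_subset_ball (x n).cls.hR.le hy1
    exact (((x n).cls.f_der y hyR).sub (hB y hy1)).hasDerivWithinAt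
  have h5 : ∀ y ∈ closedBall (0 : ℂ) ‖z‖, ‖cexp ((x n).q y) - cexp (qB y)‖ ≤
      2 * Real.exp M * (x (n + 1)).d := by
    intro y hy
    have hyn : ‖y‖ ≤ ‖z‖ := mem_closedBall_zero_iff.mp hy
    have h6 := lim_near hx hq n y (((hyn.trans (hK K le_rfl).le).trans (hx K).s_lo).trans
      (s_mono hx hn))
    rw [norm_sub_rev] at h6
    have h7 : cexp ((x n).q y) - cexp (qB y) =
        cexp (qB y) * (cexp ((x n).q y - qB y) - 1) := by
      rw [mul_sub, ← Complex.exp_add, mul_one]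
      congr 2
      ring
    rw [h7, norm_mul]
    have h8 := Complex.norm_exp_sub_one_le (h6.trans hd.le)
    have h9 : ‖cexp (qB y)‖ ≤ Real.exp M :=
      (Complex.norm_exp_le_exp_norm _).trans (Real.exp_le_exp.mpr (hM y hy))
    calc ‖cexp (qB y)‖ * ‖cexp ((x n).q y - qB y) - 1‖ ≤ Real.exp M * (2 * (x (n + 1)).d) :=
          mul_le_mul h9 (h8.trans (by linarith)) (norm_nonneg _) (Real.exp_pos M).le
      _ = 2 * Real.exp M * (x (n + 1)).d := by ring
  have h10 := (convex_closedBall (0 : ℂ) ‖z‖).norm_image_sub_le_of_norm_hasDerivWithin_le h4 h5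
    (mem_closedBall_self (norm_nonneg z)) (mem_closedBall_zero_iff.mpr le_rfl)
  rw [(x n).cls.f0, hB0, sub_zero, sub_zero, sub_zero] at h10
  have h11 : ‖(x n).f z‖ ≤ 1 := ((x n).cls.lt1 z hz.le).le
  have h12 : ‖B z‖ ≤ ‖(x n).f z‖ + ‖(x n).f z - B z‖ := by
    have := norm_sub_le ((x n).f z) ((x n).f z - B z)
    rwa [sub_sub_cancel] at this
  have h13 : 0 ≤ 2 * Real.exp M * (x (n + 1)).d := by
    have := (x (n + 1)).hd
    positivity
  have h14 : 2 * Real.exp M * (x (n + 1)).d * ‖z‖ ≤ 2 * Real.exp M * (x (n + 1)).d * 1 :=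
    mul_le_mul_of_nonneg_left hz.le h13
  linarith

theorem small (hc0 : 0 < c0) (η : ℝ) (hη : 0 < η) (K : ℕ) :
    ∃ k, K ≤ k ∧ 1 - M2 (x k).f ≤ η := by
  by_contra hcon
  push Not at hcon
  have h1 : ∀ n : ℕ, (1 - M2 (x (K + n)).f) + (x (K + n + 1)).d ≤
      (1 - M2 (x K).f) + (x (K + 1)).d - n * (c0 * η ^ 2) := by
    intro n
    induction n with
    | zero => simp
    | succ n ih =>
      have h2 := (hx (K + n)).m2
      have h3 := (hx (K + n + 1)).d_le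
      have h4 := hcon (K + n) (by omega)
      have h5 : η ^ 2 ≤ (1 - M2 (x (K + n)).f) ^ 2 := by
        apply pow_le_pow_left₀ hη.le h4.le
      have h6 := mul_le_mul_of_nonneg_left h5 hc0.le
      have e1 : K + (n + 1) = K + n + 1 := by omega
      rw [e1]
      push_cast
      linarith
  obtain ⟨n, hn⟩ := exists_nat_gt (((1 - M2 (x K).f) + (x (K + 1)).d) / (c0 * η ^ 2))
  rw [div_lt_iff₀ (by positivity)] at hn
  have h2 := h1 n
  have h3 := M2_le (x (K + n)).cls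
  have h4 := (x (K + n + 1)).hd
  linarith

end seq

/-- the initial state -/
noncomputable def x0 : St where
  f := fun z => (1 / 2 : ℂ) * z
  q := fun _ => Complex.log (1 / 2)
  R := 3 / 2
  d := 1
  s := 0
  cls := by
    refine ⟨by norm_num, differentiableOn_const _, ?_, by simp, ?_⟩
    · intro z _
      rw [Complex.exp_log (by norm_num)]
      simpa using (hasDerivAt_id z).const_mul (1 / 2 : ℂ)
    · intro z hz
      rw [norm_mul]
      have : ‖(1 / 2 : ℂ)‖ = 1 / 2 := by norm_num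
      rw [this]
      linarith
  hd := one_pos
  hs := zero_lt_one

end ILim

open ILim in
/-- **Piece I** -/
theorem lim_holds (h1 : S_STEP) (h2 : S_STAB) : S_LIM := by
  obtain ⟨c0, hc0, C, hC, hstep⟩ := h1
  choose F hF using fun k x => exists_next (C := C) h2 hstep k x
  obtain ⟨x, hx0, hxs⟩ : ∃ x : ℕ → St, x 0 = x0 ∧ ∀ k, x (k + 1) = F k (x k) :=
    ⟨fun n => Nat.rec x0 (fun k y => F k y) n, rfl, fun _ => rfl⟩
  have hx : ∀ k, Nx c0 C k (x k) (x (k + 1)) := fun k => by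
    rw [hxs]
    exact hF k (x k)
  have hlim : ∀ z : ℂ, ∃ l, ‖z‖ < 1 → Tendsto (fun n => (x n).q z) atTop (𝓝 l) := by
    intro z
    by_cases hz : ‖z‖ < 1
    · obtain ⟨l, hl⟩ := exists_lim hx z hz
      exact ⟨l, fun _ => hl⟩
    · exact ⟨0, fun h => absurd h hz⟩
  choose qB hqB using hlim
  have hqd := lim_diff hx hqB
  obtain ⟨B, hB0, hB⟩ := ((hqd.cexp).isExactOn_ball).with_val_at 0 0
  have hq0 : ∀ n, (x n).q 0 = Complex.log (1 / 2) := by
    intro n
    induction n with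
    | zero => rw [hx0]; rfl
    | succ n ih => rw [(hx n).q0, ih]
  have hqB0 : qB 0 = Complex.log (1 / 2) := by
    have h3 := hqB 0 (by simp)
    simp only [hq0] at h3
    exact tendsto_nhds_unique h3 tendsto_const_nhds
  have hBle : ∀ z ∈ ball (0 : ℂ) 1, ‖B z‖ ≤ 1 := fun z hz =>
    lim_le hx hqB hB hB0 z (mem_ball_zero_iff.mp hz)
  refine ⟨B, qB, hB, hB0, ?_, ?_, ?_⟩
  · rw [hqB0, Complex.exp_log (by norm_num)]
    norm_num
  · intro z hz
    refine lt_of_le_of_ne (hBle z hz) fun h3 => ?_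
    have hBd : DifferentiableOn ℂ B (ball 0 1) := fun y hy =>
      (hB y hy).differentiableAt.differentiableWithinAt
    have h4 := Complex.eqOn_of_isPreconnected_of_isMaxOn_norm
      (convex_ball (0 : ℂ) 1).isPreconnected isOpen_ball hBd hz (fun y hy => by
        show ‖B y‖ ≤ ‖B z‖
        rw [h3]
        exact hBle y hy)
    have h5 := h4 (mem_ball_self one_pos)
    rw [hB0] at h5
    have h6 : B z = 0 := h5.symm
    rw [h6, norm_zero] at h3
    exact zero_ne_one h3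
  · intro w hw ε hε r1 hr1
    rw [mem_ball_zero_iff] at hw
    obtain ⟨i, hi⟩ := exists_k hw
    obtain ⟨K1, hK1⟩ := exists_k hr1
    obtain ⟨K2, hK2⟩ := exists_k (show 1 - ε / 3 < 1 by linarith)
    have h3 := (d_tendsto hx).eventually (gt_mem_nhds (show 0 < ε / 3 by linarith))
    obtain ⟨K3, hK3⟩ := eventually_atTop.mp h3
    obtain ⟨k, hk, hkη⟩ := small hx hc0 (ε / 3 / (C i + 1))
      (div_pos (by linarith) (by linarith [hC i])) (i + K1 + K2 + K3)
    obtain ⟨r, hr0, hr1', hr2, hr⟩ := (hx (k + 1)).stab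
    have hcast : ((k + 1 : ℕ) : ℝ) = (k : ℝ) + 1 := by push_cast; ring
    refine ⟨r, hr0, (hK1 (k + 1) (by omega)).trans hr1', hr2, ?_⟩
    have h4 := hr B qB hB hB0 hqd hBle (fun z hz => lim_near hx hqB (k + 1) z hz) w
      (hi (k + 1) (by omega)).le
    have h5 := (hx k).pot i (by omega) w (hi i le_rfl).le
    have hd3 := hK3 k (by omega)
    have hd0 := (x (k + 1)).hd
    have h6 : C i * (1 - M2 (x k).f) ≤ ε / 3 := by
      have h7 : 0 ≤ 1 - M2 (x k).f := by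
        have := M2_le (x k).cls
        linarith
      calc C i * (1 - M2 (x k).f) ≤ (C i + 1) * (1 - M2 (x k).f) :=
            mul_le_mul_of_nonneg_right (by linarith) h7
        _ ≤ (C i + 1) * (ε / 3 / (C i + 1)) :=
            mul_le_mul_of_nonneg_left hkη (by linarith [hC i])
        _ = ε / 3 := by
            have : C i + 1 ≠ 0 := by linarith [hC i]
            field_simp
    have h8 : 1 / (((k + 1 : ℕ) : ℝ) + 1) < ε / 3 := by
      have h9 := hK2 k (by omega)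
      rw [hcast]
      have e1 : (k : ℝ) + 1 + 1 = (k : ℝ) + 2 := by ring
      rw [e1]
      linarith
    refine (h4.trans (add_le_add_left h5 _)).trans ?_
    rw [← ENNReal.ofReal_add]
    · apply ENNReal.ofReal_le_ofReal
      linarith
    · have h7 : 0 ≤ 1 - M2 (x k).f := by
        have := M2_le (x k).cls
        linarith
      have := mul_nonneg (hC i) h7
      linarith
    · positivity

end Pool.Agent.J4.H80.IB
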