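import Pool.Agent.J4.H80.IB.IPot3

set_option autoImplicit false

open Complex Metric Set Filter Topology MeasureTheory
open scoped ComplexConjugate ENNReal

namespace Pool.Agent.J4.H80.IB

section

variable {f q : ℂ → ℂ} {R : ℝ} {N : ℕ} {P : ℂ → ℂ} {L : ℝ → ℝ} (h : Dt f q R N P L)

include h

lemma pot_n {n : ℕ} (hn : 2 ≤ n) (hN : N ≤ kk n) {g : ℂ → ℂ} {R' : ℝ} (hG : IsG q R N P n g R')
    {w : ℂ} {ρ : ℝ} (hρ0 : 0 ≤ ρ) (hρ : ρ < 1)
    (hw : ‖w‖ ≤ ρ) {ε' : ℝ} (hε0 : 0 < ε') (hε' : ε' ≤ (1 - ρ) ^ 2 / 8)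
    (hE1 : ∀ θ, ‖g (e θ) - f (e θ)‖ ≤ 2 * tau q L θ + ε') {CN : ℝ} (hCN : 0 < CN)
    (hE2 : ∀ θ, dd n θ ^ 2 ≤ 1 - tt n ^ 2 → ‖g (e θ) - f (e θ)‖ ≤ CN * (n : ℝ) ^ 6 / kk n)
    (hg1 : ∀ θ, ‖g (e θ)‖ ≤ 1)
    (hE3 : ∀ θ θ' : ℝ, |θ' - θ| ≤ sc n θ →
      ‖gp q N P n θ' - gp q N P n θ‖ ≤ ‖gp q N P n θ‖ / 2 ∧
      dd n θ ≤ 2 * dd n θ' ∧ dd n θ' ≤ 3 / 2 * dd n θ)
    {Cf : ℝ} (hCf : 0 < Cf) (hf : ∀ z w : ℂ, ‖z‖ ≤ 1 → ‖w‖ ≤ 1 → ‖f z - f w‖ ≤ Cf * ‖z - w‖)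
    (hCfn : Cf ≤ n) (hCfn2 : Cf / n ≤ (1 - ρ) ^ 2 / 32) (hL : ∀ θ, |L θ| ≤ n)
    {mf : ℝ} (hmf : 0 < mf) (hmf2 : ∀ θ, mf ≤ 1 - ‖f (e θ)‖)
    {CV : ℝ} (hCV : 0 < CV) (hV : ∀ (γ γ' : ℝ → ℂ) (s : ℝ → ℝ),
      (∀ θ, HasDerivAt γ (γ' θ) θ) → Continuous γ' → (∀ θ, γ' θ ≠ 0) → (∀ θ, 0 < s θ) →
      (∀ θ θ', |s θ - s θ'| ≤ |θ - θ'| / 2) →
      (∀ θ θ', |θ' - θ| ≤ s θ → ‖γ' θ' - γ' θ‖ ≤ ‖γ' θ‖ / 2) →
      ∀ (w : ℂ) (Z Z' : Set ℝ), MeasurableSet Z → MeasurableSet Z' →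
      (∀ θ' ∈ Z, ∀ θ, |θ' - θ| ≤ s θ → θ ∈ Z') →
      ∫⁻ θ in Z, ENNReal.ofReal (Real.posLog (1 / ‖γ θ - w‖)) ≤
        ∫⁻ θ in Z', ENNReal.ofReal (CV * (1 + Real.posLog (1 / (‖γ' θ‖ * s θ)))))
    {CA : ℝ} (hCA : 0 < CA)
    (hA1 : ∀ (W : ℝ → ℝ) (l : ℝ), (∀ θ, 0 ≤ W θ) → (∀ θ, W (θ + 2 * Real.pi) = W θ) →
      (∀ a b, |W a - W b| ≤ l * |a - b|) → ∀ t : ℝ, 1 / 2 ≤ t → t < 1 → ∀ K : ℕ, 0 < K →
      ∫⁻ θ in Ioc (0 : ℝ) (2 * Real.pi),
        ENNReal.ofReal (W θ * ‖1 - (t : ℂ) * e (K * θ)‖ ^ (-(1 / 2) : ℝ)) ≤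
        ENNReal.ofReal (CA * ((∫ θ in (0 : ℝ)..2 * Real.pi, W θ) + l / K)))
    (hA2 : ∀ t : ℝ, 1 / 2 ≤ t → t < 1 → ∀ K : ℕ, 0 < K → ∀ δ : ℝ, 0 < δ →
      volume {θ | θ ∈ Ioc (0 : ℝ) (2 * Real.pi) ∧ ‖1 - (t : ℂ) * e (K * θ)‖ ≤ δ} ≤
        ENNReal.ofReal (CA * δ))
    {CS : ℝ} (hCS : 0 < CS) (hS : ∀ (w : ℂ) (κ : ℝ), 0 < κ →
      volume {θ | θ ∈ Icc (-10 : ℝ) 10 ∧ ‖f (e θ) - w‖ ≤ κ} ≤ ENNReal.ofReal (CS * κ)) :
    UL (fun θ => g (e θ)) w ≤ ENNReal.ofReal (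
      (2 * Real.pi * (3 / (1 - ρ) ^ 2 + Real.log 2 / ((1 - ρ) ^ 2 / 16) +
        3 * (CV * (14 + 2 * Real.posLog (4096 / ((1 - ρ) ^ 2 / 16)))) * CA *
          (2 / ((1 - ρ) ^ 2 / 16)))) * (1 - M2 f) +
      (2 / (1 - ρ) ^ 2 * (2 * Real.pi * ε') + (n + 2) * (CA * (2 / (n : ℝ) ^ 2)) +
        3 * (CV * (14 + 2 * Real.posLog (4096 / ((1 - ρ) ^ 2 / 16)))) * CA *
          (2 / ((1 - ρ) ^ 2 / 16) * Cf / kk n) +
        CV * (13 + Real.posLog (2048 / mf)) * (n : ℝ) ^ 5 *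
          (CS * ((CN + 2) * (n : ℝ) ^ 6 / kk n)))) := by
  have h1ρ : 0 < 1 - ρ := by linarith
  have hpi := Real.pi_pos
  have hk : (0 : ℝ) < kk n := by exact_mod_cast kk_pos (by omega : 0 < n)
  have hk1 : (1 : ℝ) ≤ kk n := by exact_mod_cast kk_pos (by omega : 0 < n)
  have hn0 : (2 : ℝ) ≤ n := by exact_mod_cast hn
  have ht := tt_ge hn
  have ht1 := tt_lt (by omega : 0 < n)
  obtain ⟨m1, hm1⟩ : ∃ m1 : ℝ, m1 = (1 - ρ) ^ 2 / 16 := ⟨_, rfl⟩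
  rw [← hm1]
  have hm10 : 0 < m1 := by rw [hm1]; positivity
  have hc := fe_cont h.cls
  have hfle : ∀ θ, 0 ≤ 1 - ‖f (e θ)‖ := fun θ => by
    have := h.cls.lt1 _ (norm_e θ).le
    linarith
  have hl2 : 0 < Real.log 2 := Real.log_pos (by norm_num)
  obtain ⟨A, hA⟩ : ∃ A, A = CV * (14 + 2 * Real.posLog (4096 / m1)) := ⟨_, rfl⟩
  rw [← hA]
  have hA0 : 0 < A := by
    rw [hA]
    have : 0 ≤ Real.posLog (4096 / m1) := Real.posLog_nonneg
    positivity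
  obtain ⟨κ, hκ⟩ : ∃ κ, κ = (CN + 1) * (n : ℝ) ^ 6 / kk n := ⟨_, rfl⟩
  obtain ⟨κ', hκ'⟩ : ∃ κ', κ' = (CN + 2) * (n : ℝ) ^ 6 / kk n := ⟨_, rfl⟩
  have hκκ : κ + 1 / kk n ≤ κ' := by
    rw [hκ, hκ']
    have : (1 : ℝ) / kk n ≤ (n : ℝ) ^ 6 / kk n := by
      gcongr
      exact one_le_pow₀ (by linarith)
    have e1 : (CN + 2) * (n : ℝ) ^ 6 / kk n = (CN + 1) * (n : ℝ) ^ 6 / kk n +
      (n : ℝ) ^ 6 / kk n := by ring
    linarith
  have hκ'0 : 0 < κ' := by rw [hκ']; positivity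
  -- the integral of the gap
  obtain ⟨Δ, hΔ⟩ : ∃ Δ, Δ = ∫ θ in (0 : ℝ)..2 * Real.pi, (1 - ‖f (e θ)‖) := ⟨_, rfl⟩
  have hΔ2 : Δ ≤ 2 * Real.pi * (1 - M2 f) := hΔ ▸ int_gap h.cls
  have hΔ0 : 0 ≤ Δ := by
    rw [hΔ]
    exact intervalIntegral.integral_nonneg (by positivity) fun θ _ => hfle θ
  -- step 1
  have s1 : UL (fun θ => g (e θ)) w ≤
      (∫⁻ θ in Ioc (0 : ℝ) (2 * Real.pi),
        ENNReal.ofReal (2 / (1 - ρ) ^ 2 * (3 / 2 * (1 - ‖f (e θ)‖) + ε') +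
          Real.log 2 * ((1 - ‖f (e θ)‖) / m1))) +
      (∫⁻ θ in Ioc (0 : ℝ) (2 * Real.pi), (BS n).indicator (fun _ => ENNReal.ofReal (n + 2)) θ) +
      (∫⁻ θ in Ioc (0 : ℝ) (2 * Real.pi), (ZN f n w (1 - m1) κ).indicator
        (fun θ => ENNReal.ofReal (Real.posLog (1 / ‖g (e θ) - w‖))) θ) := by
    unfold UL
    have hmF : Measurable fun θ : ℝ =>
        ENNReal.ofReal (2 / (1 - ρ) ^ 2 * (3 / 2 * (1 - ‖f (e θ)‖) + ε') +
          Real.log 2 * ((1 - ‖f (e θ)‖) / m1)) := by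
      have : Continuous fun θ : ℝ => 2 / (1 - ρ) ^ 2 * (3 / 2 * (1 - ‖f (e θ)‖) + ε') +
          Real.log 2 * ((1 - ‖f (e θ)‖) / m1) := by
        have := hc.norm
        fun_prop
      exact this.measurable.ennreal_ofReal
    have hmB : Measurable ((BS n).indicator (fun _ : ℝ => ENNReal.ofReal ((n : ℝ) + 2))) :=
      measurable_const.indicator (BS_meas n)
    have hmFB : Measurable fun θ : ℝ =>
        ENNReal.ofReal (2 / (1 - ρ) ^ 2 * (3 / 2 * (1 - ‖f (e θ)‖) + ε') +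
          Real.log 2 * ((1 - ‖f (e θ)‖) / m1)) +
        (BS n).indicator (fun _ : ℝ => ENNReal.ofReal ((n : ℝ) + 2)) θ := hmF.add hmB
    rw [← lintegral_add_left hmF, ← lintegral_add_left hmFB]
    refine setLIntegral_mono' measurableSet_Ioc fun θ hθ => ?_
    have := pointwise h hn hρ0 hρ hw hε0 hε' hE1 hCN hE2 hg1 hθ
    rw [← hm1, ← hκ] at this
    exact this
  -- step 2
  have s2 : (∫⁻ θ in Ioc (0 : ℝ) (2 * Real.pi),
      ENNReal.ofReal (2 / (1 - ρ) ^ 2 * (3 / 2 * (1 - ‖f (e θ)‖) + ε') +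
          Real.log 2 * ((1 - ‖f (e θ)‖) / m1))) =
      ENNReal.ofReal (2 / (1 - ρ) ^ 2 * (3 / 2 * Δ + 2 * Real.pi * ε') + Real.log 2 * (Δ / m1)) := by
    rw [lintegral_of_cont]
    · congr 1
      have e1 : (fun θ : ℝ => 2 / (1 - ρ) ^ 2 * (3 / 2 * (1 - ‖f (e θ)‖) + ε') +
          Real.log 2 * ((1 - ‖f (e θ)‖) / m1)) = fun θ : ℝ =>
          (2 / (1 - ρ) ^ 2 * (3 / 2) + Real.log 2 / m1) * (1 - ‖f (e θ)‖) +
            2 / (1 - ρ) ^ 2 * ε' := by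
        funext θ
        ring
      have hi : IntervalIntegrable (fun θ : ℝ => 1 - ‖f (e θ)‖) volume 0 (2 * Real.pi) :=
        (continuous_const.sub hc.norm).intervalIntegrable _ _
      rw [e1, intervalIntegral.integral_add (hi.const_mul _) (by simp),
        intervalIntegral.integral_const_mul, ← hΔ]
      simp only [intervalIntegral.integral_const, smul_eq_mul, sub_zero]
      ring
    · have := hc.norm
      fun_prop
    · intro θ
      have := hfle θ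
      positivity
  -- step 3
  have s3 : (∫⁻ θ in Ioc (0 : ℝ) (2 * Real.pi),
      (BS n).indicator (fun _ => ENNReal.ofReal ((n : ℝ) + 2)) θ) ≤
      ENNReal.ofReal ((n + 2) * (CA * (2 / (n : ℝ) ^ 2))) := by
    calc (∫⁻ θ in Ioc (0 : ℝ) (2 * Real.pi),
        (BS n).indicator (fun _ => ENNReal.ofReal ((n : ℝ) + 2)) θ)
        ≤ ∫⁻ θ, (BS n).indicator (fun _ => ENNReal.ofReal ((n : ℝ) + 2)) θ :=
          setLIntegral_le_lintegral _ _
      _ = ENNReal.ofReal ((n : ℝ) + 2) * volume (BS n) := by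
          rw [lintegral_indicator (BS_meas n), setLIntegral_const]
      _ ≤ ENNReal.ofReal ((n : ℝ) + 2) * ENNReal.ofReal (CA * (2 / (n : ℝ) ^ 2)) := by
          gcongr
          exact hA2 (tt n) (by linarith) ht1 (kk n) (kk_pos (by omega)) _ (by positivity)
      _ = _ := by rw [← ENNReal.ofReal_mul (by positivity)]
  -- step 4: covering lemma
  have s4 : (∫⁻ θ in Ioc (0 : ℝ) (2 * Real.pi), (ZN f n w (1 - m1) κ).indicator
        (fun θ => ENNReal.ofReal (Real.posLog (1 / ‖g (e θ) - w‖))) θ) ≤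
      ∫⁻ θ in Z1 f n (1 - m1 / 2) ∪ Z3 f w κ',
        ENNReal.ofReal (CV * (1 + Real.posLog (1 / (‖gp q N P n θ‖ * sc n θ)))) := by
    refine (setLIntegral_le_lintegral _ _).trans ?_
    rw [lintegral_indicator (ZN_meas h n w (1 - m1) κ)]
    refine hV (fun θ => g (e θ)) (gp q N P n) (sc n) (fun θ => gp_hasDeriv hG θ)
      (gp_cont h hn hN) (fun θ => gp_ne q N P n θ) (fun θ => sc_pos hn θ)
      (fun θ θ' => sc_lip hn θ θ') (fun θ θ' hθ => (hE3 θ θ' hθ).1) w _ _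
      (ZN_meas h n w (1 - m1) κ) ((Z1_meas h n _).union (Z3_meas h w κ')) ?_
    rintro θ' ⟨hθ1, hθ2, hθ3⟩ θ hθ
    have hsc := sc_le hn θ
    have hsc1 : sc n θ ≤ 1 / (16 * (kk n * n)) := hsc
    have hsmall : (1 : ℝ) / (16 * (kk n * n)) ≤ 1 / 32 := by
      have : (2 : ℝ) ≤ kk n * n := by nlinarith
      gcongr
      linarith
    have hdist : |θ' - θ| ≤ 1 / 32 := hθ.trans (hsc.trans hsmall)
    have habs := abs_le.1 hdist
    have hff : ‖f (e θ) - f (e θ')‖ ≤ Cf * (1 / (16 * (kk n * n))) := by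
      refine (hf _ _ (norm_e _).le (norm_e _).le).trans ?_
      gcongr
      refine (e_lip _ _).trans ?_
      rw [abs_sub_comm]
      exact hθ.trans hsc
    have hff1 : Cf * (1 / (16 * (kk n * n))) ≤ 1 / kk n := by
      rw [mul_one_div, div_le_div_iff₀ (by positivity) hk]
      nlinarith [mul_nonneg hk.le (sub_nonneg.2 hCfn), mul_nonneg hk.le (by linarith : (0:ℝ) ≤ n)]
    have hff2 : Cf * (1 / (16 * (kk n * n))) ≤ m1 / 2 := by
      have e1 : Cf * (1 / (16 * (kk n * n))) = (Cf / n) * (1 / (16 * kk n)) := by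
        field_simp
      rw [e1]
      have e2 : (1 : ℝ) / (16 * kk n) ≤ 1 := by
        rw [div_le_one (by positivity)]
        linarith
      have e3 : (0 : ℝ) ≤ Cf / n := by positivity
      calc Cf / n * (1 / (16 * kk n)) ≤ Cf / n * 1 := by gcongr
        _ ≤ m1 / 2 := by rw [hm1]; linarith
    rcases hθ3 with h3 | h3
    · left
      refine ⟨⟨?_, ?_⟩, ?_, ?_⟩
      · have := hθ1.1
        have := Real.pi_gt_three
        linarith [habs.2]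
      · have := hθ1.2
        have := Real.pi_gt_three
        linarith [habs.1]
      · have : ‖f (e θ)‖ ≤ ‖f (e θ')‖ + ‖f (e θ) - f (e θ')‖ := by
          have := norm_add_le (f (e θ')) (f (e θ) - f (e θ'))
          rwa [add_sub_cancel] at this
        linarith
      · have h4 := (hE3 θ θ' hθ).2.2
        have h5 := (dd_pos hn θ').le
        have h6 := (dd_pos hn θ).le
        nlinarith
    · right
      refine ⟨⟨?_, ?_⟩, ?_⟩
      · have := hθ1.1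
        linarith [habs.2]
      · have := hθ1.2
        have := Real.pi_lt_d2
        linarith [habs.1]
      · have : ‖f (e θ) - w‖ ≤ ‖f (e θ') - w‖ + ‖f (e θ) - f (e θ')‖ := by
          have := norm_add_le (f (e θ') - w) (f (e θ) - f (e θ'))
          rwa [show f (e θ') - w + (f (e θ) - f (e θ')) = f (e θ) - w by ring] at this
        linarith
  -- step 5: regular part
  have s5 : (∫⁻ θ in Z1 f n (1 - m1 / 2),
        ENNReal.ofReal (CV * (1 + Real.posLog (1 / (‖gp q N P n θ‖ * sc n θ))))) ≤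
      ENNReal.ofReal (3 * A * CA * (2 / m1 * Δ + 2 / m1 * Cf / kk n)) := by
    have hW : ∀ a b : ℝ, |2 / m1 * (1 - ‖f (e a)‖) - 2 / m1 * (1 - ‖f (e b)‖)| ≤
        2 / m1 * Cf * |a - b| := by
      intro a b
      rw [← mul_sub, abs_mul, abs_of_pos (by positivity : 0 < 2 / m1), mul_assoc]
      gcongr
      have e1 : (1 - ‖f (e a)‖) - (1 - ‖f (e b)‖) = ‖f (e b)‖ - ‖f (e a)‖ := by ring
      rw [e1]
      refine (abs_norm_sub_norm_le _ _).trans ?_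
      refine (hf _ _ (norm_e _).le (norm_e _).le).trans ?_
      gcongr
      refine (e_lip _ _).trans ?_
      rw [abs_sub_comm]
    have hav := hA1 (fun θ => 2 / m1 * (1 - ‖f (e θ)‖)) (2 / m1 * Cf)
      (fun θ => by have := hfle θ; positivity) (fun θ => by rw [e_per]) hW (tt n) (by linarith)
      ht1 (kk n) (kk_pos (by omega))
    rw [intervalIntegral.integral_const_mul, ← hΔ] at hav
    have hdd : ∀ θ : ℝ, ‖1 - (tt n : ℂ) * e (kk n * θ)‖ = dd n θ := fun θ => rfl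
    simp only [hdd] at hav
    calc (∫⁻ θ in Z1 f n (1 - m1 / 2),
        ENNReal.ofReal (CV * (1 + Real.posLog (1 / (‖gp q N P n θ‖ * sc n θ)))))
        ≤ ∫⁻ θ in Z1 f n (1 - m1 / 2), ENNReal.ofReal A *
            ENNReal.ofReal (2 / m1 * (1 - ‖f (e θ)‖) * dd n θ ^ (-(1 / 2) : ℝ)) := by
          refine setLIntegral_mono' (Z1_meas h n _) fun θ hθ => ?_
          rw [← ENNReal.ofReal_mul hA0.le]
          apply ENNReal.ofReal_le_ofReal
          have h4 := cost1 h hn hN hm10 (hL θ) hθ.2.1 hθ.2.2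
          have h5 : 1 ≤ 2 / m1 * (1 - ‖f (e θ)‖) := by
            have := hθ.2.1
            rw [div_mul_eq_mul_div, one_le_div hm10]
            linarith
          have h6 : 0 < dd n θ ^ (-(1 / 2) : ℝ) := Real.rpow_pos_of_pos (dd_pos hn θ) _
          calc CV * (1 + Real.posLog (1 / (‖gp q N P n θ‖ * sc n θ)))
              ≤ CV * ((14 + 2 * Real.posLog (4096 / m1)) * dd n θ ^ (-(1 / 2) : ℝ)) := by gcongr
            _ = A * (1 * dd n θ ^ (-(1 / 2) : ℝ)) := by rw [hA]; ring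
            _ ≤ _ := by gcongr
      _ ≤ ∫⁻ θ in Ioc (-(2 * Real.pi)) (4 * Real.pi), ENNReal.ofReal A *
            ENNReal.ofReal (2 / m1 * (1 - ‖f (e θ)‖) * dd n θ ^ (-(1 / 2) : ℝ)) :=
          lintegral_mono_set fun θ hθ => hθ.1
      _ ≤ 3 * ∫⁻ θ in Ioc (0 : ℝ) (2 * Real.pi), ENNReal.ofReal A *
            ENNReal.ofReal (2 / m1 * (1 - ‖f (e θ)‖) * dd n θ ^ (-(1 / 2) : ℝ)) := by
          refine lintegral_three fun θ => ?_
          rw [e_per, dd_per]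
      _ = 3 * (ENNReal.ofReal A * ∫⁻ θ in Ioc (0 : ℝ) (2 * Real.pi),
            ENNReal.ofReal (2 / m1 * (1 - ‖f (e θ)‖) * dd n θ ^ (-(1 / 2) : ℝ))) := by
          rw [lintegral_const_mul' _ _ ENNReal.ofReal_ne_top]
      _ ≤ 3 * (ENNReal.ofReal A * ENNReal.ofReal (CA * (2 / m1 * Δ + 2 / m1 * Cf / kk n))) := by
          gcongr
      _ = _ := by
          rw [← ENNReal.ofReal_mul hA0.le, show (3 : ℝ≥0∞) = ENNReal.ofReal 3 by norm_num,
            ← ENNReal.ofReal_mul (by norm_num)]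
          congr 1
          ring
  -- step 6: exceptional part
  have s6 : (∫⁻ θ in Z3 f w κ',
        ENNReal.ofReal (CV * (1 + Real.posLog (1 / (‖gp q N P n θ‖ * sc n θ))))) ≤
      ENNReal.ofReal (CV * (13 + Real.posLog (2048 / mf)) * (n : ℝ) ^ 5 * (CS * κ')) := by
    have hp0 : 0 ≤ Real.posLog (2048 / mf) := Real.posLog_nonneg
    calc (∫⁻ θ in Z3 f w κ',
        ENNReal.ofReal (CV * (1 + Real.posLog (1 / (‖gp q N P n θ‖ * sc n θ)))))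
        ≤ ∫⁻ _ in Z3 f w κ', ENNReal.ofReal (CV * (13 + Real.posLog (2048 / mf)) * (n : ℝ) ^ 5) := by
          refine lintegral_mono fun θ => ENNReal.ofReal_le_ofReal ?_
          rw [mul_assoc]
          have := cost3 h hn hN hmf (hL θ) (hmf2 θ)
          gcongr
      _ = ENNReal.ofReal (CV * (13 + Real.posLog (2048 / mf)) * (n : ℝ) ^ 5) *
            volume (Z3 f w κ') := setLIntegral_const _ _
      _ ≤ ENNReal.ofReal (CV * (13 + Real.posLog (2048 / mf)) * (n : ℝ) ^ 5) *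
            ENNReal.ofReal (CS * κ') := by
          gcongr
          exact hS w κ' hκ'0
      _ = _ := by rw [← ENNReal.ofReal_mul (by positivity)]
  have s7 : (∫⁻ θ in Z1 f n (1 - m1 / 2) ∪ Z3 f w κ',
        ENNReal.ofReal (CV * (1 + Real.posLog (1 / (‖gp q N P n θ‖ * sc n θ))))) ≤
      (∫⁻ θ in Z1 f n (1 - m1 / 2),
        ENNReal.ofReal (CV * (1 + Real.posLog (1 / (‖gp q N P n θ‖ * sc n θ))))) +
      (∫⁻ θ in Z3 f w κ',
        ENNReal.ofReal (CV * (1 + Real.posLog (1 / (‖gp q N P n θ‖ * sc n θ))))) :=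
    lintegral_union_le _ _ _
  calc UL (fun θ => g (e θ)) w
      ≤ ENNReal.ofReal (2 / (1 - ρ) ^ 2 * (3 / 2 * Δ + 2 * Real.pi * ε') + Real.log 2 * (Δ / m1)) +
        ENNReal.ofReal ((n + 2) * (CA * (2 / (n : ℝ) ^ 2))) +
        (ENNReal.ofReal (3 * A * CA * (2 / m1 * Δ + 2 / m1 * Cf / kk n)) +
        ENNReal.ofReal (CV * (13 + Real.posLog (2048 / mf)) * (n : ℝ) ^ 5 * (CS * κ'))) := by
        refine s1.trans ?_
        rw [s2]
        gcongr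
        exact s4.trans (s7.trans (add_le_add s5 s6))
    _ = ENNReal.ofReal ((2 / (1 - ρ) ^ 2 * (3 / 2 * Δ + 2 * Real.pi * ε') +
        Real.log 2 * (Δ / m1)) + (n + 2) * (CA * (2 / (n : ℝ) ^ 2)) +
        (3 * A * CA * (2 / m1 * Δ + 2 / m1 * Cf / kk n) +
        CV * (13 + Real.posLog (2048 / mf)) * (n : ℝ) ^ 5 * (CS * κ'))) := by
        have hp0 : 0 ≤ Real.posLog (2048 / mf) := Real.posLog_nonneg
        rw [← ENNReal.ofReal_add (by positivity) (by positivity),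
          ← ENNReal.ofReal_add (by positivity) (by positivity),
          ← ENNReal.ofReal_add (by positivity) (by positivity)]
    _ ≤ _ := by
        apply ENNReal.ofReal_le_ofReal
        rw [hκ']
        have e1 : (2 / (1 - ρ) ^ 2 * (3 / 2 * Δ + 2 * Real.pi * ε') + Real.log 2 * (Δ / m1)) +
            3 * A * CA * (2 / m1 * Δ) =
            (3 / (1 - ρ) ^ 2 + Real.log 2 / m1 + 3 * A * CA * (2 / m1)) * Δ +
            2 / (1 - ρ) ^ 2 * (2 * Real.pi * ε') := by ring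
        have e2 : (3 / (1 - ρ) ^ 2 + Real.log 2 / m1 + 3 * A * CA * (2 / m1)) * Δ ≤
            (3 / (1 - ρ) ^ 2 + Real.log 2 / m1 + 3 * A * CA * (2 / m1)) *
              (2 * Real.pi * (1 - M2 f)) := by gcongr
        have e3 : 3 * A * CA * (2 / m1 * Δ + 2 / m1 * Cf / kk n) = 3 * A * CA * (2 / m1 * Δ) +
            3 * A * CA * (2 / m1 * Cf / kk n) := by ring
        linarith

end

theorem pot_holds (hC : S_EXPD) (hNd : S_NODE) (hV : S_COV) (hS : S_SUB) (hK : S_AVG) :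
    S_POT := by
  obtain ⟨CV, hCV, hV⟩ := hV
  obtain ⟨CA, hCA, hA1, hA2⟩ := hK
  refine ⟨fun ρ => if ρ < 1 then (2 * Real.pi * (3 / (1 - ρ) ^ 2 + Real.log 2 / ((1 - ρ) ^ 2 / 16) +
        3 * (CV * (14 + 2 * Real.posLog (4096 / ((1 - ρ) ^ 2 / 16)))) * CA *
          (2 / ((1 - ρ) ^ 2 / 16)))) else 0, ?_, ?_⟩
  · intro ρ
    show 0 ≤ ite _ _ _
    split_ifs with h
    · have hp0 : 0 ≤ Real.posLog (4096 / ((1 - ρ) ^ 2 / 16)) := Real.posLog_nonneg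
      have hl2 : 0 < Real.log 2 := Real.log_pos (by norm_num)
      have h1 : 0 < 1 - ρ := by linarith
      positivity
    · exact le_rfl
  intro ρ hρ0 hρ f q R N P L h ε hε
  simp only [if_pos hρ]
  have h1ρ : 0 < 1 - ρ := by linarith
  have hpi := Real.pi_pos
  obtain ⟨CN, hCN, hE2⟩ := hNd f q R N P L h
  obtain ⟨CS, hCS, hS⟩ := hS f q R h.cls
  obtain ⟨Cf, hCf, hf, -⟩ := lip_of_diff h.cls.hR (f_diff h.cls)
  obtain ⟨CL, hCL, -, hL2⟩ := L_lip h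
  obtain ⟨mf, hmf, hmf2⟩ := exists_gap h.cls
  -- ε'
  obtain ⟨ε', hε0, hε1, hε2, hε3⟩ : ∃ ε' : ℝ, 0 < ε' ∧ ε' ≤ (1 - ρ) ^ 2 / 8 ∧ ε' ≤ mf / 4 ∧
      2 / (1 - ρ) ^ 2 * (2 * Real.pi * ε') ≤ ε / 4 := by
    refine ⟨min (min ((1 - ρ) ^ 2 / 8) (mf / 4)) (ε / 4 / (2 / (1 - ρ) ^ 2 * (2 * Real.pi))),
      by positivity, (min_le_left _ _).trans (min_le_left _ _),
      (min_le_left _ _).trans (min_le_right _ _), ?_⟩
    calc _ ≤ 2 / (1 - ρ) ^ 2 * (2 * Real.pi *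
          (ε / 4 / (2 / (1 - ρ) ^ 2 * (2 * Real.pi)))) := by
          gcongr
          exact min_le_right _ _
      _ = ε / 4 := by field_simp
  have t1 : Tendsto (fun n : ℕ => ((n : ℝ) + 2) * (CA * (2 / (n : ℝ) ^ 2))) atTop (𝓝 0) := by
    have a1 : Tendsto (fun n : ℕ => (1 : ℝ) / n) atTop (𝓝 0) := tendsto_one_div_atTop_nhds_zero_nat
    have a2 : Tendsto (fun n : ℕ => 2 * CA * ((1 : ℝ) / n + 2 * ((1 : ℝ) / n * ((1 : ℝ) / n)))) atTop
        (𝓝 (2 * CA * (0 + 2 * (0 * 0)))) := ((a1.add ((a1.mul a1).const_mul 2)).const_mul _)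
    have a3 : 2 * CA * ((0 : ℝ) + 2 * (0 * 0)) = 0 := by ring
    rw [a3] at a2
    refine a2.congr' ?_
    filter_upwards [eventually_gt_atTop 0] with n hn
    have hn' : (n : ℝ) ≠ 0 := by exact_mod_cast hn.ne'
    field_simp
  have t2 : Tendsto (fun n : ℕ => 3 * (CV * (14 + 2 * Real.posLog (4096 / ((1 - ρ) ^ 2 / 16)))) *
      CA * (2 / ((1 - ρ) ^ 2 / 16) * Cf / kk n)) atTop (𝓝 0) := by
    have a1 := tendsto_pow_div_kk 0
    have a2 := a1.const_mul (3 * (CV * (14 + 2 * Real.posLog (4096 / ((1 - ρ) ^ 2 / 16)))) *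
      CA * (2 / ((1 - ρ) ^ 2 / 16) * Cf))
    rw [mul_zero] at a2
    refine a2.congr fun n => ?_
    simp only [pow_zero]
    ring
  have t3 : Tendsto (fun n : ℕ => CV * (13 + Real.posLog (2048 / mf)) * (n : ℝ) ^ 5 *
          (CS * ((CN + 2) * (n : ℝ) ^ 6 / kk n))) atTop (𝓝 0) := by
    have a1 := tendsto_pow_div_kk 11
    have a2 := a1.const_mul (CV * (13 + Real.posLog (2048 / mf)) * (CS * (CN + 2)))
    rw [mul_zero] at a2
    refine a2.congr fun n => ?_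
    ring
  have t4 : ∀ᶠ n : ℕ in atTop, Cf ≤ n ∧ CL ≤ n ∧ Cf / n ≤ (1 - ρ) ^ 2 / 32 := by
    have a1 := (tendsto_natCast_atTop_atTop (R := ℝ)).eventually_ge_atTop Cf
    have a2 := (tendsto_natCast_atTop_atTop (R := ℝ)).eventually_ge_atTop CL
    have a3 : Tendsto (fun n : ℕ => Cf / (n : ℝ)) atTop (𝓝 0) :=
      tendsto_const_div_atTop_nhds_zero_nat Cf
    have a4 := a3.eventually (ge_mem_nhds (by positivity : (0 : ℝ) < (1 - ρ) ^ 2 / 32))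
    filter_upwards [a1, a2, a4] with n h1 h2 h3
    exact ⟨h1, h2, h3⟩
  have hpos : 0 < ε / 4 := by positivity
  filter_upwards [hC f q R N P L h ε' hε0, hE2, gp_var h, eventually_ge_atTop 2,
    tendsto_kk.eventually_ge_atTop N, t1.eventually (ge_mem_nhds hpos),
    t2.eventually (ge_mem_nhds hpos), t3.eventually (ge_mem_nhds hpos), t4]
    with n b1 b2 b3 hn hN b4 b5 b6 b7
  intro g R' hG w hw
  have hE1 := fun θ => (b1 g R' hG θ).1
  have hg1 : ∀ θ, ‖g (e θ)‖ ≤ 1 := by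
    intro θ
    have h3 := hE1 θ
    have h4 := h.hi θ
    have h5 := hmf2 (e θ) (norm_e θ).le
    have h6 : ‖g (e θ)‖ ≤ ‖f (e θ)‖ + ‖g (e θ) - f (e θ)‖ := by
      have := norm_add_le (f (e θ)) (g (e θ) - f (e θ))
      rwa [add_sub_cancel] at this
    linarith
  have hmain := pot_n h hn hN hG hρ0 hρ hw hε0 hε1 hE1 hCN (fun θ hθ => b2 g R' hG θ hθ) hg1
    (fun θ θ' hθ => b3 θ θ' hθ) hCf hf b7.1 b7.2.2 (fun θ => (hL2 θ).trans b7.2.1) hmf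
    (fun θ => hmf2 _ (norm_e θ).le) hCV hV hCA hA1 hA2 hCS hS
  refine hmain.trans (ENNReal.ofReal_le_ofReal ?_)
  linarith

end Pool.Agent.J4.H80.IB
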