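import Pool.Agent.J4.H80.IB.IBas

/-!
# Piece D: closeness at and near the nodes
-/

set_option autoImplicit false

open Complex Metric Set Filter Topology MeasureTheory
open scoped ComplexConjugate ENNReal

namespace Pool.Agent.J4.H80.IB

/-- `|exp p - 1|` in terms of the real part -/
lemma rad_exp_sub_one (p : ℂ) (c : ℝ) (hc : 0 ≤ c) (h : p.re ≤ c) :
    ‖cexp p - 1‖ ≤ Real.exp c * ‖p‖ := by
  have h1 := Convex.norm_image_sub_le_of_norm_deriv_le (f := cexp) (C := Real.exp c)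
    (s := {z : ℂ | z.re ≤ c}) (x := 0) (y := p)
    (fun x _ => Complex.differentiable_exp.differentiableAt)
    (fun x hx => by
      rw [Complex.deriv_exp, Complex.norm_exp]
      exact Real.exp_le_exp.2 hx)
    (convex_halfSpace_re_le c) (by simpa using hc) h
  simpa using h1

/-- the perturbation on a ray through a node -/
lemma rad_pp {N : ℕ} {P : ℂ → ℂ} {n : ℕ} {θ : ℝ} (hK : e (kk n * θ) = 1) (hN : N ≤ kk n)
    (x : ℝ) :
    pp N P n (x * e θ) = ((-2 * tt n : ℝ) : ℂ) *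
      (((n * x ^ kk n : ℝ) : ℂ) + ((x ^ (kk n - N) : ℝ) : ℂ) * (e (-(N * θ)) * P (x * e θ))) /
      ((1 - tt n * x ^ kk n : ℝ) : ℂ) := by
  have h1 : e θ ^ kk n = 1 := by rw [← e_nat, hK]
  have h2 : e θ ^ (kk n - N) = e (-(N * θ)) := by
    have h3 : e θ ^ (kk n - N) * e θ ^ N = 1 := by
      rw [← pow_add, Nat.sub_add_cancel hN, h1]
    have h4 : e (-(N * θ)) * e θ ^ N = 1 := by
      rw [← e_nat, ← e_add]
      simp [e_zero]
    have h5 : e θ ^ N ≠ 0 := pow_ne_zero _ (e_ne θ)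
    exact mul_right_cancel₀ h5 (h3.trans h4.symm)
  unfold pp
  rw [mul_pow, mul_pow, h1, h2]
  push_cast
  ring

/-- bounds for the perturbation on a ray through a node -/
lemma rad_bounds {f q : ℂ → ℂ} {R : ℝ} {N : ℕ} {P : ℂ → ℂ} {L : ℝ → ℝ} (h : Dt f q R N P L)
    {C : ℝ} (hC : 0 < C) (hP1 : ∀ z w : ℂ, ‖z‖ ≤ 1 → ‖w‖ ≤ 1 → ‖P z - P w‖ ≤ C * ‖z - w‖)
    (hP2 : ∀ z : ℂ, ‖z‖ ≤ 1 → ‖P z‖ ≤ C) {n : ℕ} (hn : 2 ≤ n) (hn1 : C * 2 ^ N ≤ n)
    (hN : N < kk n) (hK1 : 4 * (n + C) ≤ (kk n - N : ℕ)) {θ : ℝ} (hK : e (kk n * θ) = 1)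
    {x : ℝ} (hx0 : 0 ≤ x) (hx1 : x ≤ 1) :
    (pp N P n (x * e θ)).re ≤ 2 * C + 1 ∧
      ‖pp N P n (x * e θ)‖ ≤ 2 * (n + C) * (n : ℝ) ^ 4 * x ^ (kk n - N) := by
  have ht0 : 0 < tt n := by linarith [tt_ge hn]
  have ht1 : tt n < 1 := tt_lt (by omega)
  have hn' : (2 : ℝ) ≤ n := by exact_mod_cast hn
  set Q : ℂ := e (-(N * θ)) * P (x * e θ) with hQ
  set K := kk n with hKdef
  set t := tt n with ht
  set v : ℝ := x ^ (K - N) with hv
  set u : ℝ := x ^ K with hu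
  have hv0 : 0 ≤ v := pow_nonneg hx0 _
  have hv1 : v ≤ 1 := pow_le_one₀ hx0 hx1
  have hu0 : 0 ≤ u := pow_nonneg hx0 _
  have huv : u ≤ v := pow_le_pow_of_le_one hx0 hx1 (Nat.sub_le _ _)
  have hux : u ≤ x := by
    have := pow_le_pow_of_le_one hx0 hx1 (show 1 ≤ K by omega)
    simpa using this
  have hu1 : u ≤ 1 := hux.trans hx1
  have hnx : ‖(x : ℂ) * e θ‖ ≤ 1 := by
    rw [norm_mul, norm_e, mul_one, Complex.norm_real, Real.norm_eq_abs, abs_of_nonneg hx0]
    exact hx1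
  have hQn : ‖Q‖ ≤ C := by
    rw [hQ, norm_mul, norm_e, one_mul]
    exact hP2 _ hnx
  have hQL : ‖Q - (L θ : ℂ)‖ ≤ C * (1 - x) := by
    rw [hQ, L_eq h θ, ← mul_sub, norm_mul, norm_e, one_mul]
    refine (hP1 _ _ hnx (norm_e θ).le).trans ?_
    have h1 : (x : ℂ) * e θ - e θ = ((x - 1 : ℝ) : ℂ) * e θ := by push_cast; ring
    rw [h1, norm_mul, norm_e, mul_one, Complex.norm_real, Real.norm_eq_abs, abs_sub_comm,
      abs_of_nonneg (by linarith : 0 ≤ 1 - x)]
  have hLn : |L θ| ≤ C := by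
    have h1 : ‖(L θ : ℂ)‖ ≤ C := by
      rw [L_eq h θ, norm_mul, norm_e, one_mul]
      exact hP2 _ (norm_e θ).le
    rwa [Complex.norm_real, Real.norm_eq_abs] at h1
  have hre : L θ - C * (1 - x) ≤ Q.re := by
    have h1 := Complex.abs_re_le_norm (Q - (L θ : ℂ))
    rw [Complex.sub_re, Complex.ofReal_re] at h1
    have h2 := (abs_le.1 (h1.trans hQL)).1
    linarith
  have hD : 1 - t ≤ 1 - t * u := by nlinarith
  have hD' : 1 - x ≤ 1 - t * u := by nlinarith
  have hDpos : 0 < 1 - t * u := by linarith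
  have hpp := rad_pp (N := N) (P := P) hK hN.le x
  rw [← hKdef, ← ht, ← hv, ← hu, ← hQ] at hpp
  have hpre : (pp N P n (x * e θ)).re = -2 * t * (n * u + v * Q.re) / (1 - t * u) := by
    rw [hpp, Complex.div_ofReal_re, Complex.re_ofReal_mul, Complex.add_re, Complex.ofReal_re,
      Complex.re_ofReal_mul]
  have hpn : ‖pp N P n (x * e θ)‖ ≤ 2 * (n + C) * v / (1 - t * u) := by
    rw [hpp, norm_div, Complex.norm_real (1 - t * u), Real.norm_eq_abs, abs_of_pos hDpos,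
      norm_mul, Complex.norm_real, Real.norm_eq_abs, abs_mul, abs_neg, abs_of_pos ht0]
    have h1 : ‖((n * u : ℝ) : ℂ) + (v : ℂ) * Q‖ ≤ n * u + v * C := by
      have a1 : ‖((n * u : ℝ) : ℂ)‖ = n * u := by
        rw [Complex.norm_real, Real.norm_eq_abs, abs_of_nonneg (by positivity)]
      have a2 : ‖(v : ℂ) * Q‖ = v * ‖Q‖ := by
        rw [norm_mul, Complex.norm_real, Real.norm_eq_abs, abs_of_nonneg hv0]
      refine (norm_add_le _ _).trans ?_
      rw [a1, a2]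
      gcongr
    have h2 : ‖((n * u : ℝ) : ℂ) + (v : ℂ) * Q‖ ≤ (n + C) * v := by
      refine h1.trans ?_
      have : n * u ≤ n * v := by gcongr
      linarith
    have h3 : |(2 : ℝ)| * t * ‖((n * u : ℝ) : ℂ) + (v : ℂ) * Q‖ ≤ 2 * (n + C) * v := by
      rw [abs_of_pos (by norm_num : (0 : ℝ) < 2)]
      have h4 : 2 * t * ‖((n * u : ℝ) : ℂ) + (v : ℂ) * Q‖ ≤
          2 * 1 * ((n + C) * v) := by
        gcongr
      linarith
    gcongr
  constructor
  · by_cases hx2 : 1 / 2 ≤ x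
    · rw [hpre, div_le_iff₀ hDpos]
      have hvN : u = v * x ^ N := by
        rw [hv, hu, ← pow_add, Nat.sub_add_cancel hN.le]
      have h1 : (1 / 2 : ℝ) ^ N ≤ x ^ N := by gcongr
      have h2 : C ≤ n * x ^ N := by
        have h3 : C * 2 ^ N * (1 / 2) ^ N = C := by
          rw [mul_assoc, ← mul_pow]
          norm_num
        calc C = C * 2 ^ N * (1 / 2) ^ N := h3.symm
          _ ≤ n * x ^ N := by gcongr
      have h3 : 0 ≤ n * x ^ N + L θ := by
        have := (abs_le.1 hLn).1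
        linarith
      have h4 : -(v * (C * (1 - x))) ≤ n * u + v * Q.re := by
        have h5 : n * u + v * Q.re = v * (n * x ^ N + Q.re) := by rw [hvN]; ring
        rw [h5]
        have h6 : -(C * (1 - x)) ≤ n * x ^ N + Q.re := by linarith
        nlinarith
      have h5 : v * (C * (1 - x)) ≤ C * (1 - x) := by
        have : 0 ≤ C * (1 - x) := by
          have : 0 ≤ 1 - x := by linarith
          positivity
        nlinarith
      have h6 : C * (1 - x) ≤ C * (1 - t * u) := by gcongr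
      have h7 : -2 * t * (n * u + v * Q.re) ≤ 2 * t * (C * (1 - t * u)) := by
        nlinarith
      have h8 : 2 * t * (C * (1 - t * u)) ≤ 2 * 1 * (C * (1 - t * u)) := by
        gcongr
      nlinarith
    · push_neg at hx2
      have h1 : 1 / 2 ≤ 1 - t * u := by linarith
      have h2 : v ≤ (1 / 2) ^ (K - N) := by rw [hv]; gcongr
      have hm : (0 : ℝ) < 2 ^ (K - N) := by positivity
      have h3 : ((K - N : ℕ) : ℝ) ≤ 2 ^ (K - N) := by
        exact_mod_cast (Nat.lt_two_pow_self (n := K - N)).le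
      have h4 : 4 * (n + C) * v ≤ 1 := by
        calc 4 * (n + C) * v ≤ 2 ^ (K - N) * (1 / 2) ^ (K - N) := by
              gcongr
              exact hK1.trans h3
          _ = 1 := by rw [← mul_pow]; norm_num
      have h5 : ‖pp N P n (x * e θ)‖ ≤ 1 := by
        refine hpn.trans ?_
        rw [div_le_one hDpos]
        linarith
      have h6 := (Complex.re_le_norm (pp N P n (x * e θ))).trans h5
      linarith
  · refine hpn.trans ?_
    rw [div_le_iff₀ hDpos]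
    have h1 : 1 - t = 1 / (n : ℝ) ^ 4 := one_sub_tt n
    have h2 : 1 ≤ (n : ℝ) ^ 4 * (1 - t * u) := by
      calc (1 : ℝ) = (n : ℝ) ^ 4 * (1 / (n : ℝ) ^ 4) := by field_simp
        _ ≤ (n : ℝ) ^ 4 * (1 - t * u) := by gcongr; linarith
    have h3 : 0 ≤ 2 * (n + C) * v := by positivity
    calc 2 * (n + C) * v = 2 * (n + C) * v * 1 := by ring
      _ ≤ 2 * (n + C) * v * ((n : ℝ) ^ 4 * (1 - t * u)) := by gcongr
      _ = 2 * (n + C) * (n : ℝ) ^ 4 * v * (1 - t * u) := by ring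

/-- derivative along a ray -/
lemma rad_hasDerivAt {g : ℂ → ℂ} {g' : ℂ} {θ x : ℝ} (h : HasDerivAt g g' (x * e θ)) :
    HasDerivAt (fun y : ℝ => g (y * e θ)) (g' * e θ) x := by
  have h1 : HasDerivAt (fun y : ℝ => (y : ℂ) * e θ) (1 * e θ) x :=
    (Complex.ofRealCLM.hasDerivAt (x := x)).mul_const (e θ)
  rw [one_mul] at h1
  exact h.comp_of_eq x h1 rfl

lemma eventually_kk (N : ℕ) (C : ℝ) : ∀ᶠ n : ℕ in atTop, 2 * N < kk n ∧
    4 * (n + C) ≤ (kk n - N : ℕ) := by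
  have h1 : ∀ᶠ n : ℕ in atTop, (n : ℝ) ^ 1 / kk n < 1 / 10 :=
    (tendsto_pow_div_kk 1).eventually (gt_mem_nhds (by norm_num))
  have h2 : ∀ᶠ n : ℕ in atTop, 4 * C + 2 * N + 1 ≤ (n : ℝ) :=
    tendsto_natCast_atTop_atTop.eventually_ge_atTop _
  filter_upwards [h1, h2, eventually_gt_atTop 0,
    tendsto_natCast_atTop_atTop.eventually_ge_atTop ((2 * N + 1 : ℝ))] with n h1 h2 hn h3
  have hk : (0 : ℝ) < kk n := by exact_mod_cast kk_pos hn
  rw [pow_one, div_lt_iff₀ hk] at h1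
  have h4 : (2 * N : ℝ) < kk n := by
    have : (0 : ℝ) < n := by exact_mod_cast hn
    linarith
  have h5 : 2 * N < kk n := by exact_mod_cast h4
  refine ⟨h5, ?_⟩
  rw [Nat.cast_sub (by omega)]
  linarith

theorem rad_holds : S_RAD := by
  intro f q R N P L h
  obtain ⟨C, hC, hP1, hP2⟩ := lip_of_diff (R := 2) (by norm_num) h.P_diff.differentiableOn
  obtain ⟨Cq, hCq, -, hq2⟩ := lip_of_diff h.cls.hR h.cls.q_diff
  refine ⟨4 * Real.exp (Cq + (2 * C + 1)) * (1 + C), by positivity, ?_⟩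
  filter_upwards [eventually_kk N C, eventually_ge_atTop 2,
    tendsto_natCast_atTop_atTop.eventually_ge_atTop (C * 2 ^ N)] with n hkk hn hn1
  obtain ⟨hkk1, hkk2⟩ := hkk
  intro g R' hg θ hθ
  have hn' : (2 : ℝ) ≤ n := by exact_mod_cast hn
  set K := kk n with hK
  set M : ℝ := Real.exp (Cq + (2 * C + 1)) * (2 * (n + C) * (n : ℝ) ^ 4) with hM
  have hM0 : 0 ≤ M := by positivity
  have hball : ∀ x ∈ Icc (0 : ℝ) 1, (x : ℂ) * e θ ∈ ball (0 : ℂ) R' ∧
      (x : ℂ) * e θ ∈ ball (0 : ℂ) R ∧ ‖(x : ℂ) * e θ‖ ≤ 1 := by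
    intro x hx
    have h1 : ‖(x : ℂ) * e θ‖ ≤ 1 := by
      rw [norm_mul, norm_e, mul_one, Complex.norm_real, Real.norm_eq_abs, abs_of_nonneg hx.1]
      exact hx.2
    refine ⟨?_, ?_, h1⟩
    · rw [mem_ball_zero_iff]; exact lt_of_le_of_lt h1 hg.hR'
    · rw [mem_ball_zero_iff]; exact lt_of_le_of_lt h1 h.cls.hR
  have hder : ∀ x ∈ Icc (0 : ℝ) 1, HasDerivAt (fun y : ℝ => g (y * e θ) - f (y * e θ))
      (cexp (q (x * e θ) + pp N P n (x * e θ)) * e θ - cexp (q (x * e θ)) * e θ) x := by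
    intro x hx
    obtain ⟨h1, h2, -⟩ := hball x hx
    exact (rad_hasDerivAt (hg.der _ h1)).sub (rad_hasDerivAt (h.cls.f_der _ h2))
  have hbound : ∀ x ∈ Icc (0 : ℝ) 1,
      ‖cexp (q (x * e θ) + pp N P n (x * e θ)) * e θ - cexp (q (x * e θ)) * e θ‖ ≤
        M * x ^ (K - N) := by
    intro x hx
    obtain ⟨-, -, h3⟩ := hball x hx
    obtain ⟨hb1, hb2⟩ := rad_bounds h hC hP1 hP2 hn hn1 (by omega) hkk2 hθ hx.1 hx.2
    have h4 : cexp (q (x * e θ) + pp N P n (x * e θ)) * e θ - cexp (q (x * e θ)) * e θ =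
        cexp (q (x * e θ)) * (cexp (pp N P n (x * e θ)) - 1) * e θ := by
      rw [Complex.exp_add]; ring
    rw [h4, norm_mul, norm_mul, norm_e, mul_one, Complex.norm_exp]
    have h5 : (q (x * e θ)).re ≤ Cq := (Complex.re_le_norm _).trans (hq2 _ h3)
    have h6 := rad_exp_sub_one _ _ (by positivity) hb1
    calc Real.exp (q (x * e θ)).re * ‖cexp (pp N P n (x * e θ)) - 1‖
        ≤ Real.exp Cq * (Real.exp (2 * C + 1) *
          (2 * (n + C) * (n : ℝ) ^ 4 * x ^ (kk n - N))) := by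
          gcongr
          exact h6.trans (by gcongr)
      _ = M * x ^ (K - N) := by rw [hM, Real.exp_add Cq]; ring
  have hKN : (0 : ℝ) < ((K - N : ℕ) : ℝ) + 1 := by positivity
  have hmain := image_norm_le_of_norm_deriv_right_le_deriv_boundary
    (f := fun y : ℝ => g (y * e θ) - f (y * e θ)) (a := 0) (b := 1)
    (f' := fun x => cexp (q (x * e θ) + pp N P n (x * e θ)) * e θ - cexp (q (x * e θ)) * e θ)
    (fun x hx => (hder x hx).continuousAt.continuousWithinAt)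
    (fun x hx => (hder x (Ico_subset_Icc_self hx)).hasDerivWithinAt)
    (B := fun x => M * (x ^ (K - N + 1) / (((K - N : ℕ) : ℝ) + 1)))
    (B' := fun x => M * x ^ (K - N))
    (by simp [hg.g0, h.cls.f0])
    (fun x => by
      have h1 := ((hasDerivAt_pow (K - N + 1) x).div_const (((K - N : ℕ) : ℝ) + 1)).const_mul M
      refine h1.congr_deriv ?_
      push_cast
      field_simp
      try ring_nf)
    (fun x hx => hbound x (Ico_subset_Icc_self hx))
    (show (1 : ℝ) ∈ Icc (0 : ℝ) 1 by simp)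
  simp only [Complex.ofReal_one, one_mul, one_pow] at hmain
  refine hmain.trans ?_
  have hKpos : (0 : ℝ) < K := by
    have : 0 < K := by omega
    exact_mod_cast this
  have h1 : (K : ℝ) / 2 ≤ ((K - N : ℕ) : ℝ) + 1 := by
    have h2 : (2 * N : ℝ) ≤ K := by exact_mod_cast hkk1.le
    rw [Nat.cast_sub (by omega)]
    linarith
  have h2 : 1 / (((K - N : ℕ) : ℝ) + 1) ≤ 2 / K := by
    rw [div_le_div_iff₀ hKN hKpos]
    linarith
  calc M * (1 / (((K - N : ℕ) : ℝ) + 1)) ≤ M * (2 / K) := by gcongr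
    _ = 4 * Real.exp (Cq + (2 * C + 1)) * ((n + C) * (n : ℝ) ^ 4) / K := by rw [hM]; ring
    _ ≤ 4 * Real.exp (Cq + (2 * C + 1)) * ((1 + C) * (n : ℝ) ^ 6) / K := by
        have h4 : (1 : ℝ) ≤ (n : ℝ) ^ 2 := by nlinarith
        have h3 : (n : ℝ) + C ≤ (1 + C) * (n : ℝ) ^ 2 := by
          nlinarith [mul_nonneg hC.le (sub_nonneg.2 h4)]
        have h5 : ((n : ℝ) + C) * (n : ℝ) ^ 4 ≤ (1 + C) * (n : ℝ) ^ 6 := by
          calc ((n : ℝ) + C) * (n : ℝ) ^ 4 ≤ ((1 + C) * (n : ℝ) ^ 2) * (n : ℝ) ^ 4 :=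
                mul_le_mul_of_nonneg_right h3 (by positivity)
            _ = (1 + C) * (n : ℝ) ^ 6 := by ring
        exact div_le_div_of_nonneg_right (mul_le_mul_of_nonneg_left h5 (by positivity)) hKpos.le
    _ = 4 * Real.exp (Cq + (2 * C + 1)) * (1 + C) * (n : ℝ) ^ 6 / K := by ring

/-- the arc between a point near a node and the node -/
lemma node_arc {t α β : ℝ} (ht0 : 0 ≤ t) (m : ℤ) (hα : |α - m * (2 * Real.pi)| ≤ Real.pi)
    (hβ : |β - m * (2 * Real.pi)| ≤ |α - m * (2 * Real.pi)|) :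
    ‖1 - (t : ℂ) * e β‖ ^ 2 ≤ ‖1 - (t : ℂ) * e α‖ ^ 2 := by
  rw [normSq_one_sub, normSq_one_sub]
  have h1 : ∀ x : ℝ, Real.cos x = Real.cos |x - m * (2 * Real.pi)| := by
    intro x
    rw [Real.cos_abs, Real.cos_sub_int_mul_two_pi]
  have h2 : Real.cos α ≤ Real.cos β := by
    rw [h1 α, h1 β]
    exact Real.cos_le_cos_of_nonneg_of_le_pi (abs_nonneg _) hα hβ
  nlinarith

theorem node_holds (hR : S_RAD) : S_NODE := by
  intro f q R N P L h
  obtain ⟨C, hC, hrad⟩ := hR f q R N P L h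
  obtain ⟨Cq, hCq, -, hq2⟩ := lip_of_diff h.cls.hR h.cls.q_diff
  obtain ⟨CL, hCL, -, hL2⟩ := L_lip h
  refine ⟨C + 2 * Real.exp Cq * Real.pi, by positivity, ?_⟩
  filter_upwards [hrad, eventually_kk N 1, eventually_ge_atTop 2,
    tendsto_natCast_atTop_atTop.eventually_ge_atTop CL] with n hn1 hkk hn hnL
  intro g R' hg θ hθ
  have hn' : (2 : ℝ) ≤ n := by exact_mod_cast hn
  have ht0 : 0 ≤ tt n := by linarith [tt_ge hn]
  have ht1 : tt n < 1 := tt_lt (by omega)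
  have hKpos : (0 : ℝ) < kk n := by
    have : 0 < kk n := by omega
    exact_mod_cast this
  have hpi := Real.pi_pos
  -- the nearest node
  set m : ℤ := round (kk n * θ / (2 * Real.pi)) with hm
  set θ0 : ℝ := m * (2 * Real.pi) / kk n with hθ0
  have hKθ0 : kk n * θ0 = m * (2 * Real.pi) := by rw [hθ0]; field_simp
  have hnear : |kk n * θ - m * (2 * Real.pi)| ≤ Real.pi := by
    have h1 := abs_sub_round (kk n * θ / (2 * Real.pi))
    rw [← hm] at h1
    have h2 : kk n * θ - m * (2 * Real.pi) = (kk n * θ / (2 * Real.pi) - m) * (2 * Real.pi) := by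
      field_simp
    rw [h2, abs_mul, abs_of_pos (by positivity : 0 < 2 * Real.pi)]
    nlinarith
  have hnode : e (kk n * θ0) = 1 := by
    rw [hKθ0]
    unfold e
    rw [Complex.exp_eq_one_iff]
    exact ⟨m, by push_cast; ring⟩
  have hdist : |θ - θ0| ≤ Real.pi / kk n := by
    rw [le_div_iff₀ hKpos]
    have h2 : |θ - θ0| * kk n = |kk n * θ - m * (2 * Real.pi)| := by
      rw [← hKθ0, ← mul_sub, abs_mul, Nat.abs_cast]
      ring
    rw [h2]
    exact hnear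
  -- derivative bounds on the segment
  have hseg : ∀ y ∈ uIcc θ0 θ, ‖cexp (q (e y) + pp N P n (e y)) * (e y * I)‖ ≤ Real.exp Cq := by
    intro y hy
    have h1 : |y - θ0| ≤ |θ - θ0| := by
      have := abs_sub_left_of_mem_uIcc hy
      exact this
    have h2 : |kk n * y - m * (2 * Real.pi)| ≤ |kk n * θ - m * (2 * Real.pi)| := by
      rw [← hKθ0, ← mul_sub, ← mul_sub, abs_mul, abs_mul]
      gcongr
    have h3 := node_arc ht0 m hnear h2
    have h4 : ‖1 - (tt n : ℂ) * e (kk n * y)‖ ^ 2 ≤ 1 - tt n ^ 2 := h3.trans hθ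
    have h5 : 0 < ‖1 - (tt n : ℂ) * e (kk n * y)‖ ^ 2 := by
      have := one_sub_ne ht0 ht1 (kk n * y)
      positivity
    have h6 : (pp N P n (e y)).re ≤ 0 := by
      rw [pp_re h hn (by omega)]
      have h7 : 1 ≤ (1 - tt n ^ 2) / ‖1 - (tt n : ℂ) * e (kk n * y)‖ ^ 2 := by
        rwa [one_le_div h5]
      have h8 : 0 ≤ (n : ℝ) + L y := by
        have := (abs_le.1 (hL2 y)).1
        linarith
      exact mul_nonpos_of_nonneg_of_nonpos h8 (by linarith)
    rw [norm_mul, norm_mul, norm_e, Complex.norm_I, mul_one, mul_one, Complex.norm_exp,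
      Complex.add_re]
    have h9 : (q (e y)).re ≤ Cq := (Complex.re_le_norm _).trans (hq2 _ (norm_e y).le)
    exact Real.exp_le_exp.2 (by linarith)
  have hsegf : ∀ y ∈ uIcc θ0 θ, ‖cexp (q (e y)) * (e y * I)‖ ≤ Real.exp Cq := by
    intro y _
    rw [norm_mul, norm_mul, norm_e, Complex.norm_I, mul_one, mul_one, Complex.norm_exp]
    have h9 : (q (e y)).re ≤ Cq := (Complex.re_le_norm _).trans (hq2 _ (norm_e y).le)
    exact Real.exp_le_exp.2 h9
  have hballg : ∀ y : ℝ, e y ∈ ball (0 : ℂ) R' := fun y => by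
    rw [mem_ball_zero_iff, norm_e]; exact hg.hR'
  have hballf : ∀ y : ℝ, e y ∈ ball (0 : ℂ) R := fun y => by
    rw [mem_ball_zero_iff, norm_e]; exact h.cls.hR
  have hgd : ‖g (e θ) - g (e θ0)‖ ≤ Real.exp Cq * ‖θ - θ0‖ :=
    (convex_uIcc θ0 θ).norm_image_sub_le_of_norm_hasDerivWithin_le
      (fun y _ => (hasDerivAt_comp_e (hg.der _ (hballg y))).hasDerivWithinAt) hseg
      left_mem_uIcc right_mem_uIcc
  have hfd : ‖f (e θ) - f (e θ0)‖ ≤ Real.exp Cq * ‖θ - θ0‖ :=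
    (convex_uIcc θ0 θ).norm_image_sub_le_of_norm_hasDerivWithin_le
      (fun y _ => (hasDerivAt_comp_e (h.cls.f_der _ (hballf y))).hasDerivWithinAt) hsegf
      left_mem_uIcc right_mem_uIcc
  have hr := hn1 g R' hg θ0 hnode
  rw [Real.norm_eq_abs] at hgd hfd
  have h1 : g (e θ) - f (e θ) = (g (e θ) - g (e θ0)) + (g (e θ0) - f (e θ0)) -
      (f (e θ) - f (e θ0)) := by ring
  have h2 : ‖g (e θ) - f (e θ)‖ ≤ Real.exp Cq * |θ - θ0| + C * (n : ℝ) ^ 6 / kk n +
      Real.exp Cq * |θ - θ0| := by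
    rw [h1]
    refine (norm_sub_le _ _).trans (add_le_add ((norm_add_le _ _).trans (add_le_add hgd hr)) hfd)
  have h3 : Real.exp Cq * |θ - θ0| ≤ Real.exp Cq * (Real.pi / kk n) := by gcongr
  have h4 : (1 : ℝ) ≤ (n : ℝ) ^ 6 := one_le_pow₀ (by linarith)
  have h5 : Real.exp Cq * (Real.pi / kk n) ≤ Real.exp Cq * Real.pi * (n : ℝ) ^ 6 / kk n := by
    rw [← mul_div_assoc]
    exact div_le_div_of_nonneg_right (le_mul_of_one_le_right (by positivity) h4) hKpos.le
  calc ‖g (e θ) - f (e θ)‖ ≤ Real.exp Cq * Real.pi * (n : ℝ) ^ 6 / kk n +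
        C * (n : ℝ) ^ 6 / kk n + Real.exp Cq * Real.pi * (n : ℝ) ^ 6 / kk n := by linarith
    _ = (C + 2 * Real.exp Cq * Real.pi) * (n : ℝ) ^ 6 / kk n := by ring

end Pool.Agent.J4.H80.IB
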