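import Pool.Agent.J4.H80.IB.IBas

/-! # Piece H: stability of the potentials -/

set_option autoImplicit false

open Complex Metric Set Filter Topology MeasureTheory
open scoped ComplexConjugate ENNReal

namespace Pool.Agent.J4.H80.IB

/-- Green function truncated at distance `κ` -/
noncomputable def gk (κ : ℝ) (w x : ℂ) : ℝ := Real.log (‖1 - conj w * x‖ / max ‖x - w‖ κ)

lemma one_sub_lb {ρ : ℝ} {w x : ℂ} (hw : ‖w‖ ≤ ρ) (hx : ‖x‖ ≤ 1) :
    1 - ρ ≤ ‖1 - conj w * x‖ := by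
  have h := norm_sub_norm_le (1 : ℂ) (conj w * x)
  rw [norm_one, norm_mul, Complex.norm_conj] at h
  have : ‖w‖ * ‖x‖ ≤ ρ * 1 := mul_le_mul hw hx (norm_nonneg _) ((norm_nonneg w).trans hw)
  linarith

lemma gr_le {ρ κ : ℝ} (hκ : 0 < κ) (hκ1 : κ ≤ 1 - ρ) {w x : ℂ} (hw : ‖w‖ ≤ ρ) (hx : ‖x‖ ≤ 1) :
    gr w x ≤ gk κ w x + Real.posLog (κ / ‖x - w‖) := by
  have h1 := one_sub_lb hw hx
  have hA : 0 < ‖1 - conj w * x‖ := by linarith
  have hp : 0 ≤ Real.posLog (κ / ‖x - w‖) := Real.posLog_nonneg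
  rcases eq_or_ne x w with rfl | hne
  · have h2 : 0 ≤ gk κ x x := by
      unfold gk
      apply Real.log_nonneg
      rw [sub_self, norm_zero, max_eq_right hκ.le, one_le_div hκ]
      linarith
    have h3 : gr x x = 0 := by simp [gr]
    rw [h3]
    linarith
  · have hd : 0 < ‖x - w‖ := norm_pos_iff.2 (sub_ne_zero.2 hne)
    rcases le_total κ ‖x - w‖ with h2 | h2
    · have : gk κ w x = gr w x := by
        unfold gk gr
        rw [max_eq_left h2]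
      linarith
    · have h3 : Real.log (κ / ‖x - w‖) ≤ Real.posLog (κ / ‖x - w‖) := le_max_right _ _
      have h4 : gr w x = gk κ w x + Real.log (κ / ‖x - w‖) := by
        unfold gk gr
        rw [max_eq_right h2, Real.log_div hA.ne' hd.ne', Real.log_div hA.ne' hκ.ne',
          Real.log_div hκ.ne' hd.ne']
        ring
      linarith

lemma log_lip' {a b c : ℝ} (hc : 0 < c) (ha : c ≤ a) (hb : c ≤ b) :
    Real.log a - Real.log b ≤ |a - b| / c := by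
  have hb0 : 0 < b := by linarith
  have ha0 : 0 < a := by linarith
  rw [← Real.log_div ha0.ne' hb0.ne']
  have h1 := Real.log_le_sub_one_of_pos (div_pos ha0 hb0)
  have h2 : a / b - 1 = (a - b) / b := by field_simp
  rw [h2] at h1
  have h3 : (a - b) / b ≤ |a - b| / b := div_le_div_of_nonneg_right (le_abs_self _) hb0.le
  have h4 : |a - b| / b ≤ |a - b| / c := div_le_div_of_nonneg_left (abs_nonneg _) hc hb
  linarith

lemma gk_lip {ρ κ : ℝ} (hρ : ρ < 1) (hκ : 0 < κ) {w x y : ℂ} (hw : ‖w‖ ≤ ρ) (hx : ‖x‖ ≤ 1)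
    (hy : ‖y‖ ≤ 1) : gk κ w x ≤ gk κ w y + (1 / (1 - ρ) + 1 / κ) * ‖x - y‖ := by
  have hρ0 : 0 ≤ ρ := (norm_nonneg w).trans hw
  have h1 := one_sub_lb hw hx
  have h2 := one_sub_lb hw hy
  have hc : 0 < 1 - ρ := by linarith
  have hA : 0 < ‖1 - conj w * x‖ := by linarith
  have hB : 0 < ‖1 - conj w * y‖ := by linarith
  have hm : κ ≤ max ‖x - w‖ κ := le_max_right _ _
  have hn : κ ≤ max ‖y - w‖ κ := le_max_right _ _
  have h3 := log_lip' hc h1 h2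
  have h4 := log_lip' hκ hn hm
  have h5 : |‖1 - conj w * x‖ - ‖1 - conj w * y‖| ≤ ‖x - y‖ := by
    refine (abs_norm_sub_norm_le _ _).trans ?_
    have e1 : 1 - conj w * x - (1 - conj w * y) = -(conj w * (x - y)) := by ring
    rw [e1, norm_neg, norm_mul, Complex.norm_conj]
    have : ‖w‖ ≤ 1 := by linarith
    exact mul_le_of_le_one_left (norm_nonneg _) this
  have h6 : |max ‖y - w‖ κ - max ‖x - w‖ κ| ≤ ‖x - y‖ := by
    refine (abs_max_sub_max_le_abs _ _ _).trans ?_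
    refine (abs_norm_sub_norm_le _ _).trans ?_
    have e1 : y - w - (x - w) = -(x - y) := by ring
    rw [e1, norm_neg]
  have h7 := div_le_div_of_nonneg_right h5 hc.le
  have h8 := div_le_div_of_nonneg_right h6 hκ.le
  unfold gk
  rw [Real.log_div hA.ne' (by linarith), Real.log_div hB.ne' (by linarith)]
  have e2 : (1 / (1 - ρ) + 1 / κ) * ‖x - y‖ = ‖x - y‖ / (1 - ρ) + ‖x - y‖ / κ := by ring
  rw [e2]
  linarith

lemma gk_le_gr {ρ κ : ℝ} (hρ : ρ < 1) {w y : ℂ} (hw : ‖w‖ ≤ ρ) (hy : ‖y‖ ≤ 1)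
    (hne : y ≠ w) : gk κ w y ≤ gr w y := by
  have h2 := one_sub_lb hw hy
  have hB : 0 < ‖1 - conj w * y‖ := by linarith
  have hd : 0 < ‖y - w‖ := norm_pos_iff.2 (sub_ne_zero.2 hne)
  have hm : ‖y - w‖ ≤ max ‖y - w‖ κ := le_max_left _ _
  unfold gk gr
  exact Real.log_le_log (div_pos hB (by linarith)) (div_le_div_of_nonneg_left hB.le hd hm)

/-! ### covering by short intervals -/

lemma cover_icc {s : ℝ} (hs : 0 < s) : Ioc (0 : ℝ) (2 * Real.pi) ⊆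
    ⋃ j : Fin (⌈2 * Real.pi / s⌉₊ + 1), Icc ((j : ℕ) * s - s) ((j : ℕ) * s + s) := by
  intro θ hθ
  have h0 : 0 ≤ θ / s := div_nonneg hθ.1.le hs.le
  have h1 : ⌊θ / s⌋₊ < ⌈2 * Real.pi / s⌉₊ + 1 := by
    have h2 : θ / s ≤ 2 * Real.pi / s := div_le_div_of_nonneg_right hθ.2 hs.le
    have h3 : ⌊θ / s⌋₊ ≤ ⌈2 * Real.pi / s⌉₊ := by
      have : ((⌊θ / s⌋₊ : ℕ) : ℝ) ≤ (⌈2 * Real.pi / s⌉₊ : ℝ) :=
        (Nat.floor_le h0).trans (h2.trans (Nat.le_ceil _))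
      exact_mod_cast this
    omega
  refine mem_iUnion.2 ⟨⟨⌊θ / s⌋₊, h1⟩, ?_⟩
  have h4 := Nat.floor_le h0
  have h5 := Nat.lt_floor_add_one (θ / s)
  rw [le_div_iff₀ hs] at h4
  rw [div_lt_iff₀ hs] at h5
  simp only [mem_Icc]
  constructor
  · linarith
  · nlinarith

/-- the conclusion of `S_1D` with constant `C` -/
def OneD (C : ℝ) : Prop := ∀ (γ γ' : ℝ → ℂ) (a s : ℝ), 0 < s →
  (∀ θ ∈ Icc (a - s) (a + s), HasDerivAt γ (γ' θ) θ) → γ' a ≠ 0 →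
  (∀ θ ∈ Icc (a - s) (a + s), ‖γ' θ - γ' a‖ ≤ ‖γ' a‖ / 2) → ∀ (w : ℂ) (κ : ℝ), 0 < κ →
    (∫⁻ θ in Icc (a - s) (a + s), ENNReal.ofReal (Real.posLog (κ / ‖γ θ - w‖)) ≤
      ENNReal.ofReal (C * κ / ‖γ' a‖)) ∧
    (∫⁻ θ in Icc (a - s) (a + s), ENNReal.ofReal (Real.posLog (κ / ‖γ θ - w‖)) ≤
      ENNReal.ofReal (C * s * (1 + Real.posLog (κ / (‖γ' a‖ * s))))) ∧
    volume {θ | θ ∈ Icc (a - s) (a + s) ∧ ‖γ θ - w‖ ≤ κ} ≤ ENNReal.ofReal (C * κ / ‖γ' a‖)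

lemma cover_int {C : ℝ} (hC : 0 < C) (h1 : OneD C) {γ γ' : ℝ → ℂ} {m s : ℝ} (hm : 0 < m)
    (hs : 0 < s) (hd : ∀ θ, HasDerivAt γ (γ' θ) θ) (hb : ∀ θ, m ≤ ‖γ' θ‖)
    (hc : ∀ a, ∀ θ ∈ Icc (a - s) (a + s), ‖γ' θ - γ' a‖ ≤ ‖γ' a‖ / 2) (w : ℂ) {κ : ℝ}
    (hκ : 0 < κ) :
    ∫⁻ θ in Ioc (0 : ℝ) (2 * Real.pi), ENNReal.ofReal (Real.posLog (κ / ‖γ θ - w‖)) ≤
      ENNReal.ofReal ((⌈2 * Real.pi / s⌉₊ + 1 : ℕ) * (C * κ / m)) := by
  refine (lintegral_mono_set (cover_icc hs)).trans ?_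
  refine (lintegral_iUnion_le _ _).trans ?_
  rw [tsum_fintype]
  have h2 : ∀ j ∈ (Finset.univ : Finset (Fin (⌈2 * Real.pi / s⌉₊ + 1))),
      ∫⁻ θ in Icc ((j : ℕ) * s - s) ((j : ℕ) * s + s),
        ENNReal.ofReal (Real.posLog (κ / ‖γ θ - w‖)) ≤ ENNReal.ofReal (C * κ / m) := by
    intro j _
    have hne : γ' ((j : ℕ) * s) ≠ 0 := by
      rw [← norm_pos_iff]
      exact hm.trans_le (hb _)
    refine (h1 γ γ' _ s hs (fun θ _ => hd θ) hne (hc _) w κ hκ).1.trans ?_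
    apply ENNReal.ofReal_le_ofReal
    exact div_le_div_of_nonneg_left (by positivity) hm (hb _)
  refine (Finset.sum_le_card_nsmul _ _ _ h2).trans ?_
  rw [Finset.card_univ, Fintype.card_fin, nsmul_eq_mul, ENNReal.ofReal_mul (by positivity),
    ENNReal.ofReal_natCast]

lemma cover_null {C : ℝ} (h1 : OneD C) {γ γ' : ℝ → ℂ} {m s : ℝ} (hm : 0 < m)
    (hs : 0 < s) (hd : ∀ θ, HasDerivAt γ (γ' θ) θ) (hb : ∀ θ, m ≤ ‖γ' θ‖)
    (hc : ∀ a, ∀ θ ∈ Icc (a - s) (a + s), ‖γ' θ - γ' a‖ ≤ ‖γ' a‖ / 2) (w : ℂ) :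
    volume {θ | θ ∈ Ioc (0 : ℝ) (2 * Real.pi) ∧ γ θ = w} = 0 := by
  have h2 : {θ | θ ∈ Ioc (0 : ℝ) (2 * Real.pi) ∧ γ θ = w} ⊆
      ⋃ j : Fin (⌈2 * Real.pi / s⌉₊ + 1),
        {θ | θ ∈ Icc ((j : ℕ) * s - s) ((j : ℕ) * s + s) ∧ γ θ = w} := by
    rintro θ ⟨h3, h4⟩
    obtain ⟨j, hj⟩ := mem_iUnion.1 (cover_icc hs h3)
    exact mem_iUnion.2 ⟨j, hj, h4⟩
  refine measure_mono_null h2 (measure_iUnion_null fun j => ?_)
  have hne : γ' ((j : ℕ) * s) ≠ 0 := by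
    rw [← norm_pos_iff]
    exact hm.trans_le (hb _)
  have h5 : ∀ n : ℕ, volume {θ | θ ∈ Icc ((j : ℕ) * s - s) ((j : ℕ) * s + s) ∧ γ θ = w} ≤
      ENNReal.ofReal (C * (1 / ((n : ℝ) + 1)) / ‖γ' ((j : ℕ) * s)‖) := by
    intro n
    have hκ : (0 : ℝ) < 1 / ((n : ℝ) + 1) := by positivity
    refine le_trans (measure_mono ?_) (h1 γ γ' _ s hs (fun θ _ => hd θ) hne (hc _) w _ hκ).2.2
    rintro θ ⟨h6, h7⟩
    refine ⟨h6, ?_⟩
    rw [h7, sub_self, norm_zero]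
    exact hκ.le
  have h6 : Tendsto (fun n : ℕ => ENNReal.ofReal (C * (1 / ((n : ℝ) + 1)) / ‖γ' ((j : ℕ) * s)‖))
      atTop (𝓝 0) := by
    have h7 := (tendsto_one_div_add_atTop_nhds_zero_nat (𝕜 := ℝ)).const_mul C
    have h8 := h7.div_const ‖γ' ((j : ℕ) * s)‖
    have h9 := ENNReal.tendsto_ofReal h8
    simpa using h9
  exact le_antisymm (ge_of_tendsto' h6 h5) bot_le

/-! ### closeness of the curves -/

lemma E_diff {f q : ℂ → ℂ} {R : ℝ} (h : Cls f q R) :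
    DifferentiableOn ℂ (fun z => cexp (q z)) (ball 0 R) := h.q_diff.cexp

lemma stab_close {f q : ℂ → ℂ} {R : ℝ} (h : Cls f q R) {η r1 : ℝ} (hη : 0 < η) (hr1 : r1 < 1) :
    ∃ r r' δ : ℝ, 0 < r ∧ r1 < r ∧ r < r' ∧ r' < 1 ∧ 0 < δ ∧
    ∀ g qg : ℂ → ℂ, (∀ z ∈ ball (0 : ℂ) 1, HasDerivAt g (cexp (qg z)) z) → g 0 = 0 →
    (∀ z : ℂ, ‖z‖ ≤ r' → ‖qg z - q z‖ ≤ δ) → ∀ θ : ℝ,
    ‖g (r * e θ) - f (e θ)‖ ≤ η ∧
    ‖cexp (qg (r * e θ)) * (r * (e θ * I)) - cexp (q (e θ)) * (e θ * I)‖ ≤ η := by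
  obtain ⟨Cf, hCf, hf1, -⟩ := lip_of_diff h.hR (f_diff h)
  obtain ⟨CE, hCE, hE1, hE2⟩ := lip_of_diff h.hR (E_diff h)
  obtain ⟨d, hd⟩ : ∃ d : ℝ, d = min (1 / 2) (min ((1 - r1) / 2) (η / (4 * (Cf + CE)))) := ⟨_, rfl⟩
  have hd0 : 0 < d := by
    rw [hd]
    refine lt_min (by norm_num) (lt_min (by linarith) (by positivity))
  have hd1 : d ≤ 1 / 2 := by rw [hd]; exact min_le_left _ _
  have hd2 : d ≤ (1 - r1) / 2 := by rw [hd]; exact (min_le_right _ _).trans (min_le_left _ _)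
  have hd3 : d ≤ η / (4 * (Cf + CE)) := by
    rw [hd]; exact (min_le_right _ _).trans (min_le_right _ _)
  have hd4 : d * (4 * (Cf + CE)) ≤ η := by rwa [le_div_iff₀ (by positivity)] at hd3
  obtain ⟨δ, hδ⟩ : ∃ δ : ℝ, δ = min 1 (η / (4 * CE)) := ⟨_, rfl⟩
  have hδ0 : 0 < δ := by rw [hδ]; exact lt_min one_pos (by positivity)
  have hδ1 : δ ≤ 1 := by rw [hδ]; exact min_le_left _ _
  have hδ2 : δ ≤ η / (4 * CE) := by rw [hδ]; exact min_le_right _ _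
  have hδ3 : δ * (4 * CE) ≤ η := by rwa [le_div_iff₀ (by positivity)] at hδ2
  refine ⟨1 - d, 1 - d / 2, δ, by linarith, by linarith, by linarith, by linarith, hδ0, ?_⟩
  intro g qg hg hg0 hq θ
  have hr0 : (0:ℝ) ≤ 1 - d := by linarith
  have hne : ‖(((1 - d : ℝ) : ℂ)) * e θ‖ = 1 - d := by
    rw [norm_mul, norm_e, mul_one, Complex.norm_real, Real.norm_eq_abs, abs_of_nonneg hr0]
  have hcmp : ∀ z : ℂ, ‖z‖ ≤ 1 - d / 2 → ‖cexp (qg z) - cexp (q z)‖ ≤ η / 2 := by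
    intro z hz
    have h1 := hq z hz
    have e1 : cexp (qg z) - cexp (q z) = cexp (q z) * (cexp (qg z - q z) - 1) := by
      rw [mul_sub, ← Complex.exp_add, mul_one]
      congr 2
      ring
    rw [e1, norm_mul]
    have h2 := hE2 z (by linarith)
    have h3 := Complex.norm_exp_sub_one_le (x := qg z - q z) (by linarith)
    have h4 : ‖cexp (q z)‖ * ‖cexp (qg z - q z) - 1‖ ≤ CE * (2 * δ) :=
      mul_le_mul h2 (by linarith) (norm_nonneg _) hCE.le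
    linarith
  have hgf : ∀ z ∈ ball (0 : ℂ) (1 - d / 2), ‖g z - f z‖ ≤ η / 2 := by
    intro z hz
    have h1 := Convex.norm_image_sub_le_of_norm_hasDerivWithin_le (𝕜 := ℂ) (s := ball (0 : ℂ) (1 - d / 2))
      (f := fun z => g z - f z) (f' := fun z => cexp (qg z) - cexp (q z)) (C := η / 2)
      (fun x hx => ((hg x (ball_subset_ball (by linarith) hx)).sub
        (h.f_der x (ball_subset_ball (by linarith [h.hR]) hx))).hasDerivWithinAt)
      (fun x hx => hcmp x (by rw [mem_ball_zero_iff] at hx; exact hx.le)) (convex_ball _ _)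
      (mem_ball_self (by linarith)) hz
    simp only [hg0, h.f0, sub_zero] at h1
    rw [mem_ball_zero_iff] at hz
    nlinarith [norm_nonneg z]
  have hre : ‖(((1 - d : ℝ) : ℂ)) * e θ - e θ‖ = d := by
    have : (((1 - d : ℝ) : ℂ)) * e θ - e θ = -(((d : ℝ) : ℂ) * e θ) := by push_cast; ring
    rw [this, norm_neg, norm_mul, norm_e, mul_one, Complex.norm_real, Real.norm_eq_abs,
      abs_of_pos hd0]
  have hn1 : ‖e θ‖ ≤ 1 := (norm_e θ).le
  have hn2 : ‖(((1 - d : ℝ) : ℂ)) * e θ‖ ≤ 1 := by rw [hne]; linarith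
  constructor
  · have h1 := hgf ((((1 - d : ℝ) : ℂ)) * e θ) (by rw [mem_ball_zero_iff, hne]; linarith)
    have h2 := hf1 _ _ hn2 hn1
    rw [hre] at h2
    have e1 : g ((((1 - d : ℝ) : ℂ)) * e θ) - f (e θ) =
        (g ((((1 - d : ℝ) : ℂ)) * e θ) - f ((((1 - d : ℝ) : ℂ)) * e θ)) +
        (f ((((1 - d : ℝ) : ℂ)) * e θ) - f (e θ)) := by ring
    rw [e1]
    refine (norm_add_le _ _).trans ?_
    nlinarith
  · have h1 := hcmp ((((1 - d : ℝ) : ℂ)) * e θ) (by rw [hne]; linarith)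
    have h2 := hE1 _ _ hn2 hn1
    rw [hre] at h2
    have h3 := hE2 _ hn2
    have e1 : cexp (qg ((((1 - d : ℝ) : ℂ)) * e θ)) * ((((1 - d : ℝ) : ℂ)) * (e θ * I)) -
        cexp (q (e θ)) * (e θ * I) =
        ((cexp (qg ((((1 - d : ℝ) : ℂ)) * e θ)) - cexp (q ((((1 - d : ℝ) : ℂ)) * e θ))) *
          (((1 - d : ℝ) : ℂ)) +
        (cexp (q ((((1 - d : ℝ) : ℂ)) * e θ)) - cexp (q (e θ))) -
        ((d : ℝ) : ℂ) * cexp (q ((((1 - d : ℝ) : ℂ)) * e θ))) * (e θ * I) := by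
      push_cast
      ring
    rw [e1, norm_mul, norm_mul (e θ), norm_e, Complex.norm_I, mul_one, mul_one]
    refine (norm_sub_le _ _).trans ?_
    have h4 := norm_add_le ((cexp (qg ((((1 - d : ℝ) : ℂ)) * e θ)) -
      cexp (q ((((1 - d : ℝ) : ℂ)) * e θ))) * (((1 - d : ℝ) : ℂ)))
      (cexp (q ((((1 - d : ℝ) : ℂ)) * e θ)) - cexp (q (e θ)))
    rw [norm_mul, Complex.norm_real, Real.norm_eq_abs, abs_of_nonneg hr0] at h4
    rw [norm_mul ((d : ℝ) : ℂ), Complex.norm_real, Real.norm_eq_abs, abs_of_pos hd0]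
    have h5 : ‖cexp (qg ((((1 - d : ℝ) : ℂ)) * e θ)) - cexp (q ((((1 - d : ℝ) : ℂ)) * e θ))‖ *
        (1 - d) ≤ η / 2 * 1 := mul_le_mul h1 (by linarith) hr0 (by linarith)
    nlinarith

/-- H: stability -/
theorem stab_holds (h : S_1D) : S_STAB := by
  obtain ⟨C, hC, h1⟩ := h
  intro f q R hf ε hε r1 hr1 ρ hρ
  obtain ⟨Cq, hCq, -, hq2⟩ := lip_of_diff hf.hR hf.q_diff
  obtain ⟨CE, hCE, hE1, hE2⟩ := lip_of_diff hf.hR (E_diff hf)
  obtain ⟨m, hm⟩ : ∃ m : ℝ, m = Real.exp (-Cq) := ⟨_, rfl⟩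
  have hm0 : 0 < m := by rw [hm]; exact Real.exp_pos _
  have hn1 : ∀ θ, ‖e θ‖ ≤ 1 := fun θ => (norm_e θ).le
  have hlow : ∀ θ : ℝ, m ≤ ‖cexp (q (e θ)) * (e θ * I)‖ := by
    intro θ
    rw [norm_mul, norm_mul, norm_e, Complex.norm_I, mul_one, mul_one, Complex.norm_exp, hm,
      Real.exp_le_exp]
    have := (abs_le.1 ((Complex.abs_re_le_norm _).trans (hq2 _ (hn1 θ)))).1
    exact this
  have hlip : ∀ θ a : ℝ, ‖cexp (q (e θ)) * (e θ * I) - cexp (q (e a)) * (e a * I)‖ ≤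
      2 * CE * |θ - a| := by
    intro θ a
    have e1 : cexp (q (e θ)) * (e θ * I) - cexp (q (e a)) * (e a * I) =
        (cexp (q (e θ)) - cexp (q (e a))) * (e θ * I) + cexp (q (e a)) * I * (e θ - e a) := by ring
    rw [e1]
    refine (norm_add_le _ _).trans ?_
    rw [norm_mul, norm_mul, norm_mul, norm_mul, norm_e, Complex.norm_I, mul_one, mul_one, mul_one]
    have h2 := hE1 _ _ (hn1 θ) (hn1 a)
    have h3 := e_lip θ a
    have h4 := hE2 _ (hn1 a)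
    have h5 : ‖cexp (q (e a))‖ * ‖e θ - e a‖ ≤ CE * |θ - a| :=
      mul_le_mul h4 h3 (norm_nonneg _) hCE.le
    have h6 : CE * ‖e θ - e a‖ ≤ CE * |θ - a| := mul_le_mul_of_nonneg_left h3 hCE.le
    linarith
  obtain ⟨s, hs⟩ : ∃ s : ℝ, s = m / (16 * CE) := ⟨_, rfl⟩
  have hs0 : 0 < s := by rw [hs]; positivity
  have hs1 : 2 * CE * s = m / 8 := by rw [hs]; field_simp; norm_num
  obtain ⟨J, hJ⟩ : ∃ J : ℝ, J = ((⌈2 * Real.pi / s⌉₊ + 1 : ℕ) : ℝ) := ⟨_, rfl⟩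
  have hJ0 : 0 < J := by rw [hJ]; positivity
  obtain ⟨ρ', hρ'⟩ : ∃ ρ' : ℝ, ρ' = max ρ 0 := ⟨_, rfl⟩
  have hρ1 : ρ' < 1 := by rw [hρ']; exact max_lt hρ one_pos
  obtain ⟨κ, hκ⟩ : ∃ κ : ℝ, κ = min (1 - ρ') (ε * m / (4 * J * C)) := ⟨_, rfl⟩
  have hκ0 : 0 < κ := by rw [hκ]; exact lt_min (by linarith) (by positivity)
  have hκ1 : κ ≤ 1 - ρ' := by rw [hκ]; exact min_le_left _ _
  have hκ2 : κ ≤ ε * m / (4 * J * C) := by rw [hκ]; exact min_le_right _ _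
  have hκ3 : J * (C * κ / (m / 2)) ≤ ε / 2 := by
    rw [le_div_iff₀ (by positivity)] at hκ2
    have : J * (C * κ / (m / 2)) = κ * (4 * J * C) / (2 * m) := by field_simp; ring
    rw [this, div_le_iff₀ (by positivity)]
    linarith
  obtain ⟨D, hD⟩ : ∃ D : ℝ, D = 1 / (1 - ρ') + 1 / κ := ⟨_, rfl⟩
  have hD0 : 0 < D := by
    rw [hD]
    have : 0 < 1 - ρ' := by linarith
    positivity
  obtain ⟨η, hη⟩ : ∃ η : ℝ, η = min (m / 16) (ε / (4 * Real.pi * D)) := ⟨_, rfl⟩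
  have hπ := Real.pi_pos
  have hη0 : 0 < η := by rw [hη]; exact lt_min (by positivity) (by positivity)
  have hη1 : η ≤ m / 16 := by rw [hη]; exact min_le_left _ _
  have hη2 : η ≤ ε / (4 * Real.pi * D) := by rw [hη]; exact min_le_right _ _
  have hη3 : 2 * Real.pi * (D * η) ≤ ε / 2 := by
    rw [le_div_iff₀ (by positivity)] at hη2
    linarith
  obtain ⟨r, r', δ, g1, g2, g3, g4, g5, hcl⟩ := stab_close hf hη0 hr1
  refine ⟨r, r', δ, g1, g2, g3, g4, g5, ?_⟩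
  intro g qg hg hg0 _ hgb hqq w hw
  have hcl' := hcl g qg hg hg0 hqq
  have hw' : ‖w‖ ≤ ρ' := by rw [hρ']; exact hw.trans (le_max_left _ _)
  have hre : ∀ θ : ℝ, (r : ℂ) * e θ ∈ ball (0 : ℂ) 1 := by
    intro θ
    rw [mem_ball_zero_iff, norm_mul, norm_e, mul_one, Complex.norm_real, Real.norm_eq_abs,
      abs_of_pos g1]
    linarith
  -- the curves
  have d0 : ∀ θ, HasDerivAt (fun θ : ℝ => f (e θ)) (cexp (q (e θ)) * (e θ * I)) θ := fun θ =>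
    hasDerivAt_comp_e (hf.f_der _ (by rw [mem_ball_zero_iff, norm_e]; exact hf.hR))
  have d1 : ∀ θ, HasDerivAt (fun θ : ℝ => g (r * e θ)) (cexp (qg (r * e θ)) * (r * (e θ * I))) θ :=
    fun θ => (hg _ (hre θ)).comp_of_eq θ ((hasDerivAt_e θ).const_mul (r : ℂ)) rfl
  have c0 : ∀ a, ∀ θ ∈ Icc (a - s) (a + s),
      ‖cexp (q (e θ)) * (e θ * I) - cexp (q (e a)) * (e a * I)‖ ≤ m / 8 := by
    intro a θ hθ
    refine (hlip θ a).trans ?_
    rw [← hs1]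
    refine mul_le_mul_of_nonneg_left ?_ (by positivity)
    rw [abs_le]
    constructor <;> linarith [hθ.1, hθ.2]
  have b1 : ∀ θ, m / 2 ≤ ‖cexp (qg (r * e θ)) * (r * (e θ * I))‖ := by
    intro θ
    have h2 := (hcl' θ).2
    have h3 := hlow θ
    have h4 := norm_sub_norm_le (cexp (q (e θ)) * (e θ * I)) (cexp (qg (r * e θ)) * (r * (e θ * I)))
    rw [norm_sub_rev] at h4
    linarith
  have c1 : ∀ a, ∀ θ ∈ Icc (a - s) (a + s),
      ‖cexp (qg (r * e θ)) * (r * (e θ * I)) - cexp (qg (r * e a)) * (r * (e a * I))‖ ≤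
        ‖cexp (qg (r * e a)) * (r * (e a * I))‖ / 2 := by
    intro a θ hθ
    have h2 := (hcl' θ).2
    have h3 := (hcl' a).2
    have h4 := c0 a θ hθ
    have e1 : cexp (qg (r * e θ)) * (r * (e θ * I)) - cexp (qg (r * e a)) * (r * (e a * I)) =
        (cexp (qg (r * e θ)) * (r * (e θ * I)) - cexp (q (e θ)) * (e θ * I)) +
        (cexp (q (e θ)) * (e θ * I) - cexp (q (e a)) * (e a * I)) -
        (cexp (qg (r * e a)) * (r * (e a * I)) - cexp (q (e a)) * (e a * I)) := by ring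
    rw [e1]
    have h5 := b1 a
    refine (norm_sub_le _ _).trans ?_
    have h6 := norm_add_le (cexp (qg (r * e θ)) * (r * (e θ * I)) - cexp (q (e θ)) * (e θ * I))
      (cexp (q (e θ)) * (e θ * I) - cexp (q (e a)) * (e a * I))
    linarith
  have c0' : ∀ a, ∀ θ ∈ Icc (a - s) (a + s),
      ‖cexp (q (e θ)) * (e θ * I) - cexp (q (e a)) * (e a * I)‖ ≤
        ‖cexp (q (e a)) * (e a * I)‖ / 2 := by
    intro a θ hθ
    have h4 := c0 a θ hθ
    have h5 := hlow a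
    linarith
  have hnull := cover_null (C := C) h1 hm0 hs0 d0 hlow c0' w
  have hint := cover_int hC h1 (half_pos hm0) hs0 d1 b1 c1 w hκ0
  rw [← hJ] at hint
  have hcont : Continuous (fun θ : ℝ => g (r * e θ)) :=
    continuous_iff_continuousAt.2 fun θ => (d1 θ).continuousAt
  have hmeas : Measurable (fun θ : ℝ => ENNReal.ofReal (Real.posLog (κ / ‖g (r * e θ) - w‖))) := by
    refine ENNReal.measurable_ofReal.comp ?_
    have h2 : Measurable (fun θ : ℝ => κ / ‖g (r * e θ) - w‖) :=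
      measurable_const.div (hcont.measurable.sub measurable_const).norm
    exact measurable_const.max (Real.measurable_log.comp h2)
  have hae : ∀ᵐ θ ∂(volume.restrict (Ioc (0 : ℝ) (2 * Real.pi))),
      ENNReal.ofReal (gr w (g (r * e θ))) ≤ (ENNReal.ofReal (gr w (f (e θ))) +
        ENNReal.ofReal (D * η)) + ENNReal.ofReal (Real.posLog (κ / ‖g (r * e θ) - w‖)) := by
    rw [ae_restrict_iff' measurableSet_Ioc, ae_iff]
    refine measure_mono_null ?_ hnull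
    intro θ hθ
    simp only [mem_ofPred_eq, Classical.not_imp] at hθ
    refine ⟨hθ.1, ?_⟩
    by_contra hne
    refine hθ.2 ?_
    have h2 : ‖g (r * e θ)‖ ≤ 1 := hgb _ (hre θ)
    have h3 : ‖f (e θ)‖ ≤ 1 := (hf.lt1 _ (hn1 θ)).le
    have k1 := gr_le hκ0 hκ1 hw' h2
    have k2 := gk_lip hρ1 hκ0 hw' h2 h3
    have k3 := gk_le_gr (κ := κ) hρ1 hw' h3 hne
    rw [← hD] at k2
    have k4 : D * ‖g (r * e θ) - f (e θ)‖ ≤ D * η := mul_le_mul_of_nonneg_left (hcl' θ).1 hD0.le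
    have k5 : gr w (g (r * e θ)) ≤ (gr w (f (e θ)) + D * η) +
        Real.posLog (κ / ‖g (r * e θ) - w‖) := by linarith
    refine (ENNReal.ofReal_le_ofReal k5).trans (ENNReal.ofReal_add_le.trans ?_)
    gcongr
    exact ENNReal.ofReal_add_le
  unfold UL
  refine (lintegral_mono_ae hae).trans ?_
  rw [lintegral_add_right _ hmeas, lintegral_add_right _ measurable_const, setLIntegral_const,
    Real.volume_Ioc, sub_zero, ← ENNReal.ofReal_mul (by positivity), add_assoc]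
  gcongr
  refine (add_le_add le_rfl hint).trans ?_
  rw [← ENNReal.ofReal_add (by positivity) (by positivity)]
  apply ENNReal.ofReal_le_ofReal
  linarith

end Pool.Agent.J4.H80.IB
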