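import Pool.Agent.J4.H80.IB.IApx
import Pool.Agent.J4.H80.IB.IAvg
import Pool.Agent.J4.H80.IB.ICov
import Pool.Agent.J4.H80.IB.IEner
import Pool.Agent.J4.H80.IB.IEx
import Pool.Agent.J4.H80.IB.IExpd
import Pool.Agent.J4.H80.IB.ILim
import Pool.Agent.J4.H80.IB.IRad
import Pool.Agent.J4.H80.IB.IStab
import Pool.Agent.J4.H80.IB.IPot

set_option autoImplicit false

namespace Pool.Agent.J4.H80.IB

/-- The limit function exists: all pieces together. -/
theorem lim_all : S_LIM := by
  have hB := ex_holds
  have hR := rad_holds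
  have hC := expd_holds hR
  have hNd := node_holds hR
  have hE := ener_holds hB hC
  have h1 := oneD_holds
  have hG := pot_holds hC hNd (cov_holds h1) (sub_holds h1) avg_holds
  exact lim_holds (step_holds apx_holds hB hC hE hG) (stab_holds h1)

end Pool.Agent.J4.H80.IB
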