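import Pool.Agent.J4.H80.IB.IBas

set_option autoImplicit false

open Complex Metric Set Filter Topology MeasureTheory
open scoped ComplexConjugate ENNReal

namespace Pool.Agent.J4.H80.IB

instance fact2pi : Fact (0 < 2 * Real.pi) := ⟨Real.two_pi_pos⟩

lemma fourier_e (k : ℤ) (θ : ℝ) :
    (fourier k : C(AddCircle (2 * Real.pi), ℂ)) (θ : AddCircle (2 * Real.pi)) = e θ ^ k := by
  rw [fourier_coe_apply]
  unfold e
  rw [← Complex.exp_int_mul]
  congr 1
  have : (Real.pi : ℂ) ≠ 0 := by exact_mod_cast Real.pi_ne_zero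
  push_cast
  field_simp

lemma conj_e (θ : ℝ) : conj (e θ) = (e θ)⁻¹ := by
  unfold e
  rw [← Complex.exp_conj, ← Complex.exp_neg]
  congr 1
  simp

/-- trigonometric polynomials -/
lemma trig_aux (s : C(AddCircle (2 * Real.pi), ℂ))
    (hs : s ∈ Submodule.span ℂ (Set.range (fun k : ℤ => (fourier k :
      C(AddCircle (2 * Real.pi), ℂ))))) :
    ∃ (N : ℕ) (P P' : ℂ → ℂ), Differentiable ℂ P ∧ Differentiable ℂ P' ∧
      (∀ θ : ℝ, P (e θ) = e (N * θ) * s (θ : AddCircle (2 * Real.pi))) ∧
      (∀ θ : ℝ, P' (e θ) = e (N * θ) * conj (s (θ : AddCircle (2 * Real.pi)))) := by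
  induction hs using Submodule.span_induction with
  | mem x hx =>
    obtain ⟨k, rfl⟩ := hx
    refine ⟨k.natAbs, fun z => z ^ (k.natAbs + k).toNat, fun z => z ^ (k.natAbs - k).toNat,
      by fun_prop, by fun_prop, fun θ => ?_, fun θ => ?_⟩
    · simp only []
      rw [fourier_e, e_nat, ← zpow_natCast, ← zpow_natCast (e θ) k.natAbs,
        ← zpow_add₀ (e_ne θ)]
      congr 1
      omega
    · simp only []
      rw [fourier_e, e_nat, ← zpow_natCast, ← zpow_natCast (e θ) k.natAbs, map_zpow₀, conj_e,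
        inv_zpow, ← zpow_neg, ← zpow_add₀ (e_ne θ)]
      congr 1
      omega
  | zero =>
    exact ⟨0, 0, 0, differentiable_const 0, differentiable_const 0, by simp, by simp⟩
  | add x y _ _ hx hy =>
    obtain ⟨N1, P1, Q1, hP1, hQ1, h1, h1'⟩ := hx
    obtain ⟨N2, P2, Q2, hP2, hQ2, h2, h2'⟩ := hy
    refine ⟨N1 + N2, fun z => z ^ N2 * P1 z + z ^ N1 * P2 z,
      fun z => z ^ N2 * Q1 z + z ^ N1 * Q2 z, by fun_prop, by fun_prop, fun θ => ?_,
      fun θ => ?_⟩
    · have h3 : e ((N1 + N2 : ℕ) * θ) = e θ ^ N1 * e θ ^ N2 := by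
        rw [e_nat, pow_add]
      simp only []
      rw [h1, h2, h3, e_nat, e_nat, ContinuousMap.add_apply]
      ring
    · have h3 : e ((N1 + N2 : ℕ) * θ) = e θ ^ N1 * e θ ^ N2 := by
        rw [e_nat, pow_add]
      simp only []
      rw [h1', h2', h3, e_nat, e_nat, ContinuousMap.add_apply, map_add]
      ring
  | smul c x _ hx =>
    obtain ⟨N, P, Q, hP, hQ, h1, h1'⟩ := hx
    refine ⟨N, fun z => c * P z, fun z => conj c * Q z, by fun_prop, by fun_prop, fun θ => ?_,
      fun θ => ?_⟩
    · simp only []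
      rw [h1, ContinuousMap.smul_apply, smul_eq_mul]
      ring
    · simp only []
      rw [h1', ContinuousMap.smul_apply, smul_eq_mul, map_mul]
      ring

theorem apx_holds : S_APX := by
  intro f q R h
  obtain ⟨m, hm, hgap⟩ := exists_gap h
  have hsub : closedBall (0 : ℂ) 1 ⊆ ball 0 R := closedBall_subset_ball h.hR
  -- the function on the circle
  have hn1 : ∀ z : Circle, ‖(z : ℂ)‖ = 1 := fun z => Circle.norm_coe z
  have hcc : Continuous fun z : Circle => (z : ℂ) := continuous_subtype_val
  have hfc : Continuous fun z : Circle => f z := by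
    have h1 : ContinuousOn f (ball 0 R) := (f_diff h).continuousOn
    refine h1.comp_continuous hcc fun z => hsub ?_
    rw [mem_closedBall_zero_iff, hn1]
  have hqc : Continuous fun z : Circle => q z := by
    refine h.q_diff.continuousOn.comp_continuous hcc fun z => hsub ?_
    rw [mem_closedBall_zero_iff, hn1]
  have hg : ∀ z : Circle, 0 < 1 - ‖f z‖ := fun z =>
    hm.trans_le (hgap z (hn1 z).le)
  have hHc : Continuous fun x : AddCircle (2 * Real.pi) =>
      ((Real.log ((1 - ‖f (AddCircle.toCircle x)‖) / 8) - (q (AddCircle.toCircle x)).re : ℝ) : ℂ) := by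
    have ht : Continuous fun x : AddCircle (2 * Real.pi) => AddCircle.toCircle x :=
      AddCircle.continuous_toCircle
    refine Complex.continuous_ofReal.comp ?_
    refine Continuous.sub ?_ ?_
    · refine Continuous.log ?_ fun x => ?_
      · exact (continuous_const.sub (hfc.comp ht).norm).div_const 8
      · have := hg (AddCircle.toCircle x)
        positivity
    · exact Complex.continuous_re.comp (hqc.comp ht)
  let H : C(AddCircle (2 * Real.pi), ℂ) := ⟨_, hHc⟩
  have hH : H ∈ (Submodule.span ℂ (Set.range (fun k : ℤ => (fourier k :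
      C(AddCircle (2 * Real.pi), ℂ))))).topologicalClosure := by
    have := span_fourier_closure_eq_top (T := 2 * Real.pi)
    rw [this]
    trivial
  have hlog2 : 0 < Real.log 2 := Real.log_pos (by norm_num)
  obtain ⟨s, hs, hsH⟩ := Metric.mem_closure_iff.1 hH (Real.log 2) hlog2
  obtain ⟨N, P, P', hP, hP', h1, h2⟩ := trig_aux s hs
  refine ⟨N, fun z => (P z + P' z) / 2, fun θ => (s (θ : AddCircle (2 * Real.pi))).re,
    h, by fun_prop, fun θ => ?_, fun θ => ?_, fun θ => ?_⟩
  · rw [h1, h2, ← mul_add, Complex.add_conj]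
    push_cast
    ring
  all_goals
    have htc : ((AddCircle.toCircle (θ : AddCircle (2 * Real.pi)) : Circle) : ℂ) = e θ := by
      rw [AddCircle.toCircle_apply_mk, Circle.coe_exp]
      unfold e
      congr 1
      have : (Real.pi : ℂ) ≠ 0 := by exact_mod_cast Real.pi_ne_zero
      push_cast
      field_simp
    have h3 : |(s (θ : AddCircle (2 * Real.pi))).re -
        (Real.log ((1 - ‖f (e θ)‖) / 8) - (q (e θ)).re)| ≤ Real.log 2 := by
      have h4 : ‖s (θ : AddCircle (2 * Real.pi)) - H (θ : AddCircle (2 * Real.pi))‖ ≤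
          Real.log 2 := by
        rw [← dist_eq_norm, dist_comm]
        exact (ContinuousMap.dist_apply_le_dist _).trans hsH.le
      have h5 : H (θ : AddCircle (2 * Real.pi)) =
          ((Real.log ((1 - ‖f (e θ)‖) / 8) - (q (e θ)).re : ℝ) : ℂ) := by
        show ((Real.log ((1 - ‖f (AddCircle.toCircle (θ : AddCircle (2 * Real.pi)))‖) / 8) -
          (q (AddCircle.toCircle (θ : AddCircle (2 * Real.pi)))).re : ℝ) : ℂ) = _
        rw [htc]
      rw [h5] at h4
      have h6 := (Complex.abs_re_le_norm _).trans h4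
      rwa [Complex.sub_re, Complex.ofReal_re] at h6
    have h7 : 0 < (1 - ‖f (e θ)‖) / 8 := by
      have := hgap (e θ) (norm_e θ).le
      have : 0 < 1 - ‖f (e θ)‖ := hm.trans_le this
      positivity
    rw [abs_le] at h3
    unfold tau
  · have h8 : Real.log ((1 - ‖f (e θ)‖) / 8) - Real.log 2 ≤
        (q (e θ)).re + (s (θ : AddCircle (2 * Real.pi))).re := by linarith [h3.1]
    have h9 := Real.exp_le_exp.2 h8
    rw [Real.exp_sub, Real.exp_log h7, Real.exp_log (by norm_num)] at h9
    refine le_trans (le_of_eq ?_) h9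
    ring
  · have h8 : (q (e θ)).re + (s (θ : AddCircle (2 * Real.pi))).re ≤
        Real.log ((1 - ‖f (e θ)‖) / 8) + Real.log 2 := by linarith [h3.2]
    have h9 := Real.exp_le_exp.2 h8
    rw [Real.exp_add (Real.log _), Real.exp_log h7, Real.exp_log (by norm_num)] at h9
    refine h9.trans (le_of_eq ?_)
    ring

end Pool.Agent.J4.H80.IB
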