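import Pool.Agent.J4.H80.IB.IDef

set_option autoImplicit false

open Complex Metric Set Filter Topology MeasureTheory
open scoped ComplexConjugate ENNReal

namespace Pool.Agent.J4.H80.IB

lemma norm_e (θ : ℝ) : ‖e θ‖ = 1 := Complex.norm_exp_ofReal_mul_I θ

lemma e_ne (θ : ℝ) : e θ ≠ 0 := Complex.exp_ne_zero _

lemma e_zero : e 0 = 1 := by simp [e]

lemma e_add (a b : ℝ) : e (a + b) = e a * e b := by
  unfold e
  rw [← Complex.exp_add]
  congr 1
  push_cast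
  ring

lemma e_nat (k : ℕ) (θ : ℝ) : e (k * θ) = e θ ^ k := by
  unfold e
  rw [← Complex.exp_nat_mul]
  congr 1
  push_cast
  ring

lemma e_per (θ : ℝ) : e (θ + 2 * Real.pi) = e θ := by
  unfold e
  push_cast
  rw [add_mul, Complex.exp_add, Complex.exp_two_pi_mul_I, mul_one]

lemma e_cont : Continuous e := by
  unfold e
  fun_prop

lemma e_lip (a b : ℝ) : ‖e a - e b‖ ≤ |a - b| := by
  have h : e a - e b = e b * (cexp (I * ((a - b : ℝ) : ℂ)) - 1) := by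
    unfold e
    rw [mul_sub, ← Complex.exp_add, mul_one]
    congr 2
    push_cast
    ring
  rw [h, norm_mul, norm_e, one_mul]
  have := Real.norm_exp_I_mul_ofReal_sub_one_le (x := a - b)
  rwa [Real.norm_eq_abs] at this

lemma hasDerivAt_e (θ : ℝ) : HasDerivAt e (e θ * I) θ := by
  have h1 : HasDerivAt (fun x : ℝ => (x : ℂ) * I) (1 * I) θ :=
    (Complex.ofRealCLM.hasDerivAt (x := θ)).mul_const I
  have h2 := h1.cexp
  rw [one_mul] at h2
  exact h2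

lemma hasDerivAt_comp_e {g : ℂ → ℂ} {g' : ℂ} {θ : ℝ} (h : HasDerivAt g g' (e θ)) :
    HasDerivAt (fun x : ℝ => g (e x)) (g' * (e θ * I)) θ :=
  h.comp_of_eq θ (hasDerivAt_e θ) rfl

/-! ### the numbers -/

lemma kk_ge (n : ℕ) : Real.exp n / n ≤ kk n := Nat.le_ceil _

lemma kk_le (n : ℕ) : (kk n : ℝ) ≤ Real.exp n / n + 1 :=
  (Nat.ceil_lt_add_one (by positivity)).le

lemma exp_le_kk {n : ℕ} (hn : 0 < n) : Real.exp n ≤ n * kk n := by
  have h := kk_ge n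
  have hn' : (0 : ℝ) < n := by exact_mod_cast hn
  rw [div_le_iff₀ hn'] at h
  linarith

lemma kk_pos {n : ℕ} (hn : 0 < n) : 0 < kk n := by
  unfold kk
  rw [Nat.ceil_pos]
  have hn' : (0 : ℝ) < n := by exact_mod_cast hn
  positivity

lemma kk_mul_le {n : ℕ} (hn : 0 < n) : (n : ℝ) * kk n ≤ 2 * Real.exp n := by
  have h := kk_le n
  have hn' : (0 : ℝ) < n := by exact_mod_cast hn
  have h1 : (n : ℝ) * kk n ≤ n * (Real.exp n / n + 1) := by gcongr
  have h2 : (n : ℝ) * (Real.exp n / n + 1) = Real.exp n + n := by field_simp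
  have h3 := Real.add_one_le_exp (n : ℝ)
  linarith

/-- powers of n are negligible against kk n -/
lemma tendsto_pow_div_kk (j : ℕ) : Tendsto (fun n : ℕ => (n : ℝ) ^ j / kk n) atTop (𝓝 0) := by
  have h1 : Tendsto (fun x : ℝ => x ^ (j + 1) * Real.exp (-x)) atTop (𝓝 0) :=
    Real.tendsto_pow_mul_exp_neg_atTop_nhds_zero (j + 1)
  have h2 := h1.comp tendsto_natCast_atTop_atTop
  refine squeeze_zero' (Eventually.of_forall fun n => by positivity) ?_ h2
  filter_upwards [eventually_gt_atTop 0] with n hn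
  have hk : (0 : ℝ) < kk n := by exact_mod_cast kk_pos hn
  have h3 := exp_le_kk hn
  show (n : ℝ) ^ j / kk n ≤ (n : ℝ) ^ (j + 1) * Real.exp (-(n : ℝ))
  rw [div_le_iff₀ hk, Real.exp_neg]
  have h4 : (0 : ℝ) < Real.exp n := Real.exp_pos _
  have h5 : (n : ℝ) ^ (j + 1) * (Real.exp n)⁻¹ * kk n = (n : ℝ) ^ j * ((n * kk n) / Real.exp n) := by
    field_simp
    try ring
  rw [h5]
  have h6 : 1 ≤ (n * kk n : ℝ) / Real.exp n := by rwa [one_le_div h4]
  exact le_mul_of_one_le_right (by positivity) h6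

lemma tendsto_kk : Tendsto kk atTop atTop := by
  have h1 : Tendsto (fun n : ℕ => (kk n : ℝ)) atTop atTop := by
    have h2 := tendsto_pow_div_kk 0
    simp only [pow_zero, one_div] at h2
    have h3 : Tendsto (fun n : ℕ => ((kk n : ℝ)⁻¹)⁻¹) atTop atTop := by
      refine Tendsto.inv_tendsto_nhdsGT_zero ?_
      rw [tendsto_nhdsWithin_iff]
      refine ⟨h2, ?_⟩
      filter_upwards [eventually_gt_atTop 0] with n hn
      have hk : (0 : ℝ) < kk n := by exact_mod_cast kk_pos hn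
      exact inv_pos.2 hk
    simpa using h3
  exact tendsto_natCast_atTop_iff.1 h1

lemma tt_lt {n : ℕ} (hn : 0 < n) : tt n < 1 := by
  unfold tt
  have hn' : (0 : ℝ) < n := by exact_mod_cast hn
  have : 0 < 1 / (n : ℝ) ^ 4 := by positivity
  linarith

lemma tt_ge {n : ℕ} (hn : 2 ≤ n) : 15 / 16 ≤ tt n := by
  unfold tt
  have hn' : (2 : ℝ) ≤ n := by exact_mod_cast hn
  have h1 : (16 : ℝ) ≤ (n : ℝ) ^ 4 := by
    calc (16 : ℝ) = 2 ^ 4 := by norm_num
      _ ≤ (n : ℝ) ^ 4 := by gcongr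
  have : 1 / (n : ℝ) ^ 4 ≤ 1 / 16 := by gcongr
  linarith

lemma one_sub_tt (n : ℕ) : 1 - tt n = 1 / (n : ℝ) ^ 4 := by unfold tt; ring

/-! ### the perturbation on the circle -/

lemma one_sub_ne {t : ℝ} (h0 : 0 ≤ t) (h1 : t < 1) (α : ℝ) : 1 - (t : ℂ) * e α ≠ 0 := by
  intro h
  have h2 : (t : ℂ) * e α = 1 := by linear_combination -h
  have h3 : ‖(t : ℂ) * e α‖ = 1 := by rw [h2]; simp
  rw [norm_mul, norm_e, mul_one, Complex.norm_real, Real.norm_eq_abs, abs_of_nonneg h0] at h3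
  linarith

lemma one_sub_ge {t : ℝ} (h0 : 0 ≤ t) (α : ℝ) : 1 - t ≤ ‖1 - (t : ℂ) * e α‖ := by
  have h := norm_sub_norm_le (1 : ℂ) ((t : ℂ) * e α)
  rw [norm_one, norm_mul, norm_e, mul_one, Complex.norm_real, Real.norm_eq_abs,
    abs_of_nonneg h0] at h
  exact h

lemma one_sub_le {t : ℝ} (h0 : 0 ≤ t) (h1 : t < 1) (α : ℝ) : ‖1 - (t : ℂ) * e α‖ ≤ 2 := by
  have h := norm_sub_le (1 : ℂ) ((t : ℂ) * e α)
  rw [norm_one, norm_mul, norm_e, mul_one, Complex.norm_real, Real.norm_eq_abs,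
    abs_of_nonneg h0] at h
  linarith

/-- χ -/
noncomputable def chi (t α : ℝ) : ℂ := -2 * t * e α / (1 - t * e α)

lemma chi_eq {t : ℝ} (h0 : 0 ≤ t) (h1 : t < 1) (α : ℝ) :
    chi t α = 2 - 2 / (1 - t * e α) := by
  have h := one_sub_ne h0 h1 α
  unfold chi
  field_simp
  ring

lemma normSq_one_sub (t α : ℝ) :
    ‖1 - (t : ℂ) * e α‖ ^ 2 = 1 - 2 * t * Real.cos α + t ^ 2 := by
  rw [← Complex.normSq_eq_norm_sq, Complex.normSq_apply]
  unfold e
  simp only [Complex.sub_re, Complex.one_re, Complex.mul_re, Complex.ofReal_re,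
    Complex.exp_ofReal_mul_I_re, Complex.ofReal_im, Complex.exp_ofReal_mul_I_im, zero_mul,
    sub_zero, Complex.sub_im, Complex.one_im, Complex.mul_im, add_zero, zero_sub]
  have := Real.sin_sq_add_cos_sq α
  linear_combination t ^ 2 * this

lemma chi_re {t : ℝ} (h0 : 0 ≤ t) (h1 : t < 1) (α : ℝ) :
    (chi t α).re = 1 - (1 - t ^ 2) / ‖1 - (t : ℂ) * e α‖ ^ 2 := by
  have h := one_sub_ne h0 h1 α
  have h2 : 0 < ‖1 - (t : ℂ) * e α‖ ^ 2 := by positivity
  have h3 := normSq_one_sub t α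
  rw [chi_eq h0 h1, Complex.sub_re, Complex.div_re, Complex.normSq_eq_norm_sq]
  have h4 : (1 - (t : ℂ) * e α).re = 1 - t * Real.cos α := by
    unfold e
    simp [Complex.exp_ofReal_mul_I_re, Complex.exp_ofReal_mul_I_im]
  rw [h4]
  simp only [Complex.re_ofNat, Complex.im_ofNat, zero_mul, zero_div, add_zero]
  field_simp
  linarith

lemma pp_e {f q : ℂ → ℂ} {R : ℝ} {N : ℕ} {P : ℂ → ℂ} {L : ℝ → ℝ} (h : Dt f q R N P L) {n : ℕ}
    (hN : N ≤ kk n) (θ : ℝ) :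
    pp N P n (e θ) = ((n + L θ : ℝ) : ℂ) * chi (tt n) (kk n * θ) := by
  unfold pp chi
  have h1 : e θ ^ (kk n - N) * P (e θ) = e (kk n * θ) * (L θ : ℂ) := by
    rw [h.P_L, ← mul_assoc, e_nat, e_nat, ← pow_add, Nat.sub_add_cancel hN]
  rw [h1, ← e_nat]
  push_cast
  ring

lemma pp_re {f q : ℂ → ℂ} {R : ℝ} {N : ℕ} {P : ℂ → ℂ} {L : ℝ → ℝ} (h : Dt f q R N P L) {n : ℕ}
    (hn : 2 ≤ n) (hN : N ≤ kk n) (θ : ℝ) :
    (pp N P n (e θ)).re = (n + L θ) *
      (1 - (1 - tt n ^ 2) / ‖1 - (tt n : ℂ) * e (kk n * θ)‖ ^ 2) := by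
  rw [pp_e h hN, Complex.re_ofReal_mul, chi_re (by linarith [tt_ge hn]) (tt_lt (by omega))]

/-! ### regularity of the data -/

lemma L_eq {f q : ℂ → ℂ} {R : ℝ} {N : ℕ} {P : ℂ → ℂ} {L : ℝ → ℝ} (h : Dt f q R N P L) (θ : ℝ) :
    (L θ : ℂ) = e (-(N * θ)) * P (e θ) := by
  rw [h.P_L, ← mul_assoc, ← e_add]
  simp [e_zero]

lemma lip_of_diff {F : ℂ → ℂ} {R : ℝ} (hR : 1 < R) (hF : DifferentiableOn ℂ F (ball 0 R)) :
    ∃ C : ℝ, 0 < C ∧ (∀ z w : ℂ, ‖z‖ ≤ 1 → ‖w‖ ≤ 1 → ‖F z - F w‖ ≤ C * ‖z - w‖) ∧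
      ∀ z : ℂ, ‖z‖ ≤ 1 → ‖F z‖ ≤ C := by
  have hsub : closedBall (0 : ℂ) 1 ⊆ ball 0 R := closedBall_subset_ball hR
  have hd : ContinuousOn (deriv F) (closedBall 0 1) :=
    ((hF.deriv isOpen_ball).continuousOn).mono hsub
  obtain ⟨C1, hC1⟩ := (isCompact_closedBall (0 : ℂ) 1).exists_bound_of_continuousOn hd
  obtain ⟨C2, hC2⟩ := (isCompact_closedBall (0 : ℂ) 1).exists_bound_of_continuousOn
    (hF.continuousOn.mono hsub)
  have h0 : (0 : ℂ) ∈ closedBall (0 : ℂ) 1 := by simp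
  have hC1' : 0 ≤ C1 := (norm_nonneg _).trans (hC1 0 h0)
  have hC2' : 0 ≤ C2 := (norm_nonneg _).trans (hC2 0 h0)
  refine ⟨C1 + C2 + 1, by linarith, fun z w hz hw => ?_, fun z hz => ?_⟩
  · have h1 := (convex_closedBall (0 : ℂ) 1).norm_image_sub_le_of_norm_deriv_le (f := F) (C := C1)
      (fun x hx => hF.differentiableAt (isOpen_ball.mem_nhds (hsub hx))) hC1
      (mem_closedBall_zero_iff.2 hw) (mem_closedBall_zero_iff.2 hz)
    refine h1.trans ?_
    gcongr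
    linarith
  · have := hC2 z (mem_closedBall_zero_iff.2 hz)
    linarith

lemma L_lip {f q : ℂ → ℂ} {R : ℝ} {N : ℕ} {P : ℂ → ℂ} {L : ℝ → ℝ} (h : Dt f q R N P L) :
    ∃ C : ℝ, 0 < C ∧ (∀ a b : ℝ, |L a - L b| ≤ C * |a - b|) ∧ ∀ a, |L a| ≤ C := by
  obtain ⟨C, hC, h1, h2⟩ := lip_of_diff (R := 2) (by norm_num) h.P_diff.differentiableOn
  refine ⟨C * (N + 1), by positivity, fun a b => ?_, fun a => ?_⟩
  · have h3 : ((L a - L b : ℝ) : ℂ) = (e (-(N * a)) - e (-(N * b))) * P (e a) +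
        e (-(N * b)) * (P (e a) - P (e b)) := by
      push_cast
      rw [L_eq h a, L_eq h b]
      ring
    have h4 : |L a - L b| = ‖((L a - L b : ℝ) : ℂ)‖ := by
      rw [Complex.norm_real, Real.norm_eq_abs]
    rw [h4, h3]
    refine (norm_add_le _ _).trans ?_
    rw [norm_mul, norm_mul, norm_e, one_mul]
    have h5 := e_lip (-(N * a)) (-(N * b))
    have h6 : |(-(N * a) - -(N * b) : ℝ)| = N * |a - b| := by
      rw [show (-(N * a) - -(N * b) : ℝ) = -(N * (a - b)) by ring, abs_neg, abs_mul,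
        Nat.abs_cast]
    rw [h6] at h5
    have h7 := h1 (e a) (e b) (norm_e a).le (norm_e b).le
    have h8 := e_lip a b
    have h9 := h2 (e a) (norm_e a).le
    calc ‖e (-(N * a)) - e (-(N * b))‖ * ‖P (e a)‖ + ‖P (e a) - P (e b)‖
        ≤ (N * |a - b|) * C + C * |a - b| := by
          gcongr
          exact h7.trans (by gcongr)
      _ = C * (N + 1) * |a - b| := by ring
  · have h4 : |L a| = ‖(L a : ℂ)‖ := by rw [Complex.norm_real, Real.norm_eq_abs]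
    rw [h4, L_eq h a, norm_mul, norm_e, one_mul]
    refine (h2 _ (norm_e a).le).trans ?_
    nlinarith [hC, Nat.cast_nonneg (α := ℝ) N]

/-- the distance of the image of the closed disc to the circle -/
lemma exists_gap {f q : ℂ → ℂ} {R : ℝ} (h : Cls f q R) :
    ∃ m : ℝ, 0 < m ∧ ∀ z : ℂ, ‖z‖ ≤ 1 → m ≤ 1 - ‖f z‖ := by
  have hc : ContinuousOn (fun z => 1 - ‖f z‖) (closedBall (0 : ℂ) 1) := by
    refine continuousOn_const.sub (ContinuousOn.norm ?_)
    intro z hz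
    exact ((h.f_der z (closedBall_subset_ball h.hR hz)).continuousAt).continuousWithinAt
  obtain ⟨z0, hz0, hmin⟩ := (isCompact_closedBall (0 : ℂ) 1).exists_isMinOn
    ⟨0, by simp⟩ hc
  refine ⟨1 - ‖f z0‖, by
    have := h.lt1 z0 (mem_closedBall_zero_iff.1 hz0)
    linarith, fun z hz => ?_⟩
  exact hmin (mem_closedBall_zero_iff.2 hz)

lemma f_diff {f q : ℂ → ℂ} {R : ℝ} (h : Cls f q R) : DifferentiableOn ℂ f (ball 0 R) :=
  fun z hz => (h.f_der z hz).differentiableAt.differentiableWithinAt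

end Pool.Agent.J4.H80.IB
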