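import Mathlib

/-!
# A locally univalent indestructible Blaschke product: definitions and statements of the steps
-/

set_option autoImplicit false

open Complex Metric Set Filter Topology MeasureTheory
open scoped ComplexConjugate ENNReal

namespace Pool.Agent.J4.H80.IB

/-- `f' = exp q` on a disc larger than the unit disc, `f 0 = 0`, `|f| < 1` on the closed disc -/
structure Cls (f q : ℂ → ℂ) (R : ℝ) : Prop where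
  hR : 1 < R
  q_diff : DifferentiableOn ℂ q (ball 0 R)
  f_der : ∀ z ∈ ball (0 : ℂ) R, HasDerivAt f (cexp (q z)) z
  f0 : f 0 = 0
  lt1 : ∀ z : ℂ, ‖z‖ ≤ 1 → ‖f z‖ < 1

/-- points of the circle -/
noncomputable def e (θ : ℝ) : ℂ := cexp (θ * I)

/-- mean of `|f|^2` over the circle -/
noncomputable def M2 (f : ℂ → ℂ) : ℝ :=
  (2 * Real.pi)⁻¹ * ∫ θ in (0 : ℝ)..2 * Real.pi, ‖f (e θ)‖ ^ 2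

/-- Green function of the disc with pole `w` (the value at the pole is 0 by convention) -/
noncomputable def gr (w x : ℂ) : ℝ := Real.log (‖1 - conj w * x‖ / ‖x - w‖)

/-- Green potential at `w` of the curve `γ` -/
noncomputable def UL (γ : ℝ → ℂ) (w : ℂ) : ℝ≥0∞ :=
  ∫⁻ θ in Ioc (0 : ℝ) (2 * Real.pi), ENNReal.ofReal (gr w (γ θ))

/-- the frequency -/
noncomputable def kk (n : ℕ) : ℕ := ⌈Real.exp n / n⌉₊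

/-- the radius parameter -/
noncomputable def tt (n : ℕ) : ℝ := 1 - 1 / (n : ℝ) ^ 4

/-- the perturbation of `q` -/
noncomputable def pp (N : ℕ) (P : ℂ → ℂ) (n : ℕ) (z : ℂ) : ℂ :=
  -2 * (tt n : ℂ) * ((n : ℂ) * z ^ kk n + z ^ (kk n - N) * P z) / (1 - (tt n : ℂ) * z ^ kk n)

/-- step length: `|f'| exp L` on the circle -/
noncomputable def tau (q : ℂ → ℂ) (L : ℝ → ℝ) (θ : ℝ) : ℝ := Real.exp ((q (e θ)).re + L θ)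

/-- `f` with a real trigonometric polynomial `L = z^(-N) P` such that `tau` is comparable to
`1 - |f|` -/
structure Dt (f q : ℂ → ℂ) (R : ℝ) (N : ℕ) (P : ℂ → ℂ) (L : ℝ → ℝ) : Prop where
  cls : Cls f q R
  P_diff : Differentiable ℂ P
  P_L : ∀ θ : ℝ, P (e θ) = e (N * θ) * (L θ : ℂ)
  lo : ∀ θ : ℝ, (1 - ‖f (e θ)‖) / 16 ≤ tau q L θ
  hi : ∀ θ : ℝ, tau q L θ ≤ (1 - ‖f (e θ)‖) / 4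

/-- `g` is the perturbed function -/
structure IsG (q : ℂ → ℂ) (R : ℝ) (N : ℕ) (P : ℂ → ℂ) (n : ℕ) (g : ℂ → ℂ) (R' : ℝ) :
    Prop where
  hR' : 1 < R'
  hle : R' ≤ R
  ht : ∀ z ∈ ball (0 : ℂ) R', tt n * ‖z‖ ^ kk n < 1
  der : ∀ z ∈ ball (0 : ℂ) R', HasDerivAt g (cexp (q z + pp N P n z)) z
  g0 : g 0 = 0

/-- A: trigonometric approximation -/
def S_APX : Prop := ∀ (f q : ℂ → ℂ) (R : ℝ), Cls f q R → ∃ N P L, Dt f q R N P L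

/-- B1: existence of the perturbed function, vanishing at 0 and convergence in the disc -/
def S_EX : Prop := ∀ (f q : ℂ → ℂ) (R : ℝ) (N : ℕ) (P : ℂ → ℂ) (L : ℝ → ℝ), Dt f q R N P L →
  (∀ᶠ n : ℕ in atTop, (∃ g R', IsG q R N P n g R') ∧ pp N P n 0 = 0 ∧
    ∀ R' : ℝ, (∀ z ∈ ball (0 : ℂ) R', tt n * ‖z‖ ^ kk n < 1) →
      DifferentiableOn ℂ (pp N P n) (ball 0 R')) ∧
  ∀ r : ℝ, r < 1 → ∀ ε : ℝ, 0 < ε → ∀ᶠ n : ℕ in atTop, ∀ z : ℂ, ‖z‖ ≤ r → ‖pp N P n z‖ ≤ ε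

/-- D1: closeness at the nodes (the K-th roots of unity) -/
def S_RAD : Prop := ∀ (f q : ℂ → ℂ) (R : ℝ) (N : ℕ) (P : ℂ → ℂ) (L : ℝ → ℝ), Dt f q R N P L →
  ∃ C : ℝ, 0 < C ∧ ∀ᶠ n : ℕ in atTop, ∀ g R', IsG q R N P n g R' → ∀ θ : ℝ, e (kk n * θ) = 1 →
    ‖g (e θ) - f (e θ)‖ ≤ C * (n : ℝ) ^ 6 / kk n

/-- C: the boundary curve -/
def S_EXPD : Prop := ∀ (f q : ℂ → ℂ) (R : ℝ) (N : ℕ) (P : ℂ → ℂ) (L : ℝ → ℝ), Dt f q R N P L →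
  ∀ ε : ℝ, 0 < ε → ∀ᶠ n : ℕ in atTop, ∀ g R', IsG q R N P n g R' → ∀ θ : ℝ,
    ‖g (e θ) - f (e θ)‖ ≤ 2 * tau q L θ + ε ∧
    tau q L θ * (1 - Real.cos (kk n * θ)) / 2 ≤ ‖g (e θ) - f (e θ)‖ + ε

/-- D2: closeness near the nodes -/
def S_NODE : Prop := ∀ (f q : ℂ → ℂ) (R : ℝ) (N : ℕ) (P : ℂ → ℂ) (L : ℝ → ℝ), Dt f q R N P L →
  ∃ C : ℝ, 0 < C ∧ ∀ᶠ n : ℕ in atTop, ∀ g R', IsG q R N P n g R' → ∀ θ : ℝ,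
    ‖1 - (tt n : ℂ) * e (kk n * θ)‖ ^ 2 ≤ 1 - tt n ^ 2 →
    ‖g (e θ) - f (e θ)‖ ≤ C * (n : ℝ) ^ 6 / kk n

/-- E: energy -/
def S_ENER : Prop := ∀ (f q : ℂ → ℂ) (R : ℝ) (N : ℕ) (P : ℂ → ℂ) (L : ℝ → ℝ), Dt f q R N P L →
  ∀ ε : ℝ, 0 < ε → ∀ᶠ n : ℕ in atTop, ∀ g R', IsG q R N P n g R' →
    M2 f + (1 - M2 f) ^ 2 / 4096 - ε ≤ M2 g

/-- F1: logarithmic integrals over an almost straight arc -/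
def S_1D : Prop := ∃ C : ℝ, 0 < C ∧ ∀ (γ γ' : ℝ → ℂ) (a s : ℝ), 0 < s →
  (∀ θ ∈ Icc (a - s) (a + s), HasDerivAt γ (γ' θ) θ) → γ' a ≠ 0 →
  (∀ θ ∈ Icc (a - s) (a + s), ‖γ' θ - γ' a‖ ≤ ‖γ' a‖ / 2) → ∀ (w : ℂ) (κ : ℝ), 0 < κ →
    (∫⁻ θ in Icc (a - s) (a + s), ENNReal.ofReal (Real.posLog (κ / ‖γ θ - w‖)) ≤
      ENNReal.ofReal (C * κ / ‖γ' a‖)) ∧
    (∫⁻ θ in Icc (a - s) (a + s), ENNReal.ofReal (Real.posLog (κ / ‖γ θ - w‖)) ≤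
      ENNReal.ofReal (C * s * (1 + Real.posLog (κ / (‖γ' a‖ * s))))) ∧
    volume {θ | θ ∈ Icc (a - s) (a + s) ∧ ‖γ θ - w‖ ≤ κ} ≤ ENNReal.ofReal (C * κ / ‖γ' a‖)

/-- F2: covering lemma -/
def S_COV : Prop := ∃ C : ℝ, 0 < C ∧ ∀ (γ γ' : ℝ → ℂ) (s : ℝ → ℝ),
  (∀ θ, HasDerivAt γ (γ' θ) θ) → Continuous γ' → (∀ θ, γ' θ ≠ 0) → (∀ θ, 0 < s θ) →
  (∀ θ θ', |s θ - s θ'| ≤ |θ - θ'| / 2) →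
  (∀ θ θ', |θ' - θ| ≤ s θ → ‖γ' θ' - γ' θ‖ ≤ ‖γ' θ‖ / 2) →
  ∀ (w : ℂ) (Z Z' : Set ℝ), MeasurableSet Z → MeasurableSet Z' →
  (∀ θ' ∈ Z, ∀ θ, |θ' - θ| ≤ s θ → θ ∈ Z') →
  ∫⁻ θ in Z, ENNReal.ofReal (Real.posLog (1 / ‖γ θ - w‖)) ≤
    ∫⁻ θ in Z', ENNReal.ofReal (C * (1 + Real.posLog (1 / (‖γ' θ‖ * s θ))))

/-- F3: sublevel sets -/
def S_SUB : Prop := ∀ (f q : ℂ → ℂ) (R : ℝ), Cls f q R → ∃ C : ℝ, 0 < C ∧ ∀ (w : ℂ) (κ : ℝ), 0 < κ →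
  volume {θ | θ ∈ Icc (-10 : ℝ) 10 ∧ ‖f (e θ) - w‖ ≤ κ} ≤ ENNReal.ofReal (C * κ)

/-- K: averages of functions of `K θ` -/
def S_AVG : Prop := ∃ C : ℝ, 0 < C ∧
  (∀ (W : ℝ → ℝ) (l : ℝ), (∀ θ, 0 ≤ W θ) → (∀ θ, W (θ + 2 * Real.pi) = W θ) →
    (∀ a b, |W a - W b| ≤ l * |a - b|) → ∀ t : ℝ, 1 / 2 ≤ t → t < 1 → ∀ K : ℕ, 0 < K →
    ∫⁻ θ in Ioc (0 : ℝ) (2 * Real.pi),
      ENNReal.ofReal (W θ * ‖1 - (t : ℂ) * e (K * θ)‖ ^ (-(1 / 2) : ℝ)) ≤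
      ENNReal.ofReal (C * ((∫ θ in (0 : ℝ)..2 * Real.pi, W θ) + l / K))) ∧
  ∀ t : ℝ, 1 / 2 ≤ t → t < 1 → ∀ K : ℕ, 0 < K → ∀ δ : ℝ, 0 < δ →
    volume {θ | θ ∈ Ioc (0 : ℝ) (2 * Real.pi) ∧ ‖1 - (t : ℂ) * e (K * θ)‖ ≤ δ} ≤
      ENNReal.ofReal (C * δ)

/-- G: potentials -/
def S_POT : Prop := ∃ C : ℝ → ℝ, (∀ ρ, 0 ≤ C ρ) ∧ ∀ ρ : ℝ, 0 ≤ ρ → ρ < 1 →
  ∀ (f q : ℂ → ℂ) (R : ℝ) (N : ℕ) (P : ℂ → ℂ) (L : ℝ → ℝ), Dt f q R N P L →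
  ∀ ε : ℝ, 0 < ε → ∀ᶠ n : ℕ in atTop, ∀ g R', IsG q R N P n g R' → ∀ w : ℂ, ‖w‖ ≤ ρ →
    UL (fun θ => g (e θ)) w ≤ ENNReal.ofReal (C ρ * (1 - M2 f) + ε)

/-- one step -/
def S_STEP : Prop := ∃ c0 : ℝ, 0 < c0 ∧ ∃ C : ℕ → ℝ, (∀ i, 0 ≤ C i) ∧
  ∀ (f q : ℂ → ℂ) (R : ℝ), Cls f q R → ∀ r0 : ℝ, r0 < 1 → ∀ m : ℕ, ∀ ε : ℝ, 0 < ε →
  ∃ (g qg : ℂ → ℂ) (Rg : ℝ), Cls g qg Rg ∧ qg 0 = q 0 ∧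
    (∀ z : ℂ, ‖z‖ ≤ r0 → ‖qg z - q z‖ ≤ ε) ∧
    M2 f + c0 * (1 - M2 f) ^ 2 - ε ≤ M2 g ∧
    ∀ i ≤ m, ∀ w : ℂ, ‖w‖ ≤ 1 - 1 / ((i : ℝ) + 2) →
      UL (fun θ => g (e θ)) w ≤ ENNReal.ofReal (C i * (1 - M2 f) + ε)

/-- H: stability -/
def S_STAB : Prop := ∀ (f q : ℂ → ℂ) (R : ℝ), Cls f q R → ∀ ε : ℝ, 0 < ε → ∀ r1 : ℝ, r1 < 1 →
  ∀ ρ : ℝ, ρ < 1 → ∃ r r' δ : ℝ, 0 < r ∧ r1 < r ∧ r < r' ∧ r' < 1 ∧ 0 < δ ∧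
  ∀ g qg : ℂ → ℂ, (∀ z ∈ ball (0 : ℂ) 1, HasDerivAt g (cexp (qg z)) z) → g 0 = 0 →
    DifferentiableOn ℂ qg (ball 0 1) →
    (∀ z ∈ ball (0 : ℂ) 1, ‖g z‖ ≤ 1) → (∀ z : ℂ, ‖z‖ ≤ r' → ‖qg z - q z‖ ≤ δ) →
    ∀ w : ℂ, ‖w‖ ≤ ρ → UL (fun θ => g (r * e θ)) w ≤
      UL (fun θ => f (e θ)) w + ENNReal.ofReal ε

/-- I: the limit function -/
def S_LIM : Prop := ∃ B qB : ℂ → ℂ, (∀ z ∈ ball (0 : ℂ) 1, HasDerivAt B (cexp (qB z)) z) ∧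
  B 0 = 0 ∧ ‖cexp (qB 0)‖ = 1 / 2 ∧ (∀ z ∈ ball (0 : ℂ) 1, ‖B z‖ < 1) ∧
  ∀ w ∈ ball (0 : ℂ) 1, ∀ ε : ℝ, 0 < ε → ∀ r1 : ℝ, r1 < 1 → ∃ r : ℝ, 0 < r ∧ r1 < r ∧ r < 1 ∧
    UL (fun θ => B (r * e θ)) w ≤ ENNReal.ofReal ε

end Pool.Agent.J4.H80.IB
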