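import Pool.Agent.J4.H80.IB.IDef
import Pool.Agent.Helper34.Dg.Fact2
import Pool.Agent.Helper34.Dg.Bl
import Pool.Agent.N279.MBP.Defs

/-!
# Piece J: from the limit function to the final statement
-/

set_option autoImplicit false

open Complex Metric Set Filter Topology MeasureTheory
open scoped ComplexConjugate ENNReal

namespace Pool.Agent.J4.H80.IB

open Pool.Agent.Helper34.Dg (IsBlaschke bfac bprod)
open scoped Real

lemma fin_mob_le {a x : ℂ} (ha : ‖a‖ < 1) (hx : ‖x‖ ≤ 1) : ‖x - a‖ ≤ ‖1 - conj a * x‖ := by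
  have h1 : ‖1 - conj a * x‖ ^ 2 - ‖x - a‖ ^ 2 = (1 - ‖a‖ ^ 2) * (1 - ‖x‖ ^ 2) := by
    simp only [← Complex.normSq_eq_norm_sq, Complex.normSq_apply, Complex.sub_re, Complex.sub_im,
      Complex.mul_re, Complex.mul_im, Complex.conj_re, Complex.conj_im, Complex.one_re,
      Complex.one_im]
    ring
  have h2 : 0 ≤ (1 - ‖a‖ ^ 2) * (1 - ‖x‖ ^ 2) := by
    apply mul_nonneg
    · nlinarith [norm_nonneg a]
    · nlinarith [norm_nonneg x]
  exact le_of_sq_le_sq (by linarith) (norm_nonneg _)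

lemma fin_den_ne {a x : ℂ} (ha : ‖a‖ < 1) (hx : ‖x‖ ≤ 1) : 1 - conj a * x ≠ 0 := by
  intro h
  have h1 : conj a * x = 1 := by linear_combination -h
  have h2 : ‖conj a * x‖ = 1 := by rw [h1, norm_one]
  rw [norm_mul, Complex.norm_conj] at h2
  nlinarith [norm_nonneg a, norm_nonneg x]

lemma fin_blaschke {B : ℂ → ℂ} (hB : DifferentiableOn ℂ B (ball 0 1))
    (hB1 : ∀ z ∈ ball (0 : ℂ) 1, ‖B z‖ < 1) {a : ℂ} (ha : ‖a‖ < 1) {c : ℂ} (hc : ‖c‖ = 1)
    {z0 : ℂ} (hz0 : z0 ∈ ball (0 : ℂ) 1) (h0 : B z0 ≠ a)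
    (hUL : ∀ ε : ℝ, 0 < ε → ∃ r : ℝ, 0 < r ∧ r < 1 ∧
      UL (fun θ => B (r * e θ)) a ≤ ENNReal.ofReal ε) :
    IsBlaschke (fun z => c * ((B z - a) / (1 - conj a * B z))) := by
  set F : ℂ → ℂ := fun z => c * ((B z - a) / (1 - conj a * B z)) with hF
  have hden : ∀ z ∈ ball (0 : ℂ) 1, 1 - conj a * B z ≠ 0 := fun z hz =>
    fin_den_ne ha (hB1 z hz).le
  have hFd : DifferentiableOn ℂ F (ball 0 1) :=
    ((hB.sub_const a).div ((hB.const_mul (conj a)).const_sub 1) hden).const_mul c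
  have hFn : ∀ z ∈ ball (0 : ℂ) 1, ‖F z‖ = ‖B z - a‖ / ‖1 - conj a * B z‖ := fun z _ => by
    rw [hF]; simp only; rw [norm_mul, hc, one_mul, norm_div]
  have hF1 : ∀ z ∈ ball (0 : ℂ) 1, ‖F z‖ ≤ 1 := fun z hz => by
    rw [hFn z hz, div_le_one (norm_pos_iff.2 (hden z hz))]
    exact fin_mob_le ha (hB1 z hz).le
  have hc0 : c ≠ 0 := by
    intro h; rw [h, norm_zero] at hc; norm_num at hc
  have hFne : F z0 ≠ 0 :=
    mul_ne_zero hc0 (div_ne_zero (sub_ne_zero.2 h0) (hden z0 hz0))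
  obtain ⟨S, hSd, hS0, hS1, hFS, hbl⟩ := Pool.Agent.Helper34.Dg.factor hFd hF1 hz0 hFne
  apply hbl
  have h00 : (0 : ℂ) ∈ ball (0 : ℂ) 1 := mem_ball_self one_pos
  by_contra hne
  have hlt : ‖S 0‖ < 1 := lt_of_le_of_ne (hS1 0 h00) hne
  have hpos : 0 < ‖S 0‖ := norm_pos_iff.2 (hS0 0 h00)
  have hlog : Real.log ‖S 0‖ < 0 := Real.log_neg hpos hlt
  obtain ⟨r, hr0, hr1, hU⟩ := hUL (-Real.log ‖S 0‖) (by linarith)
  have habs : |r| = r := abs_of_pos hr0
  have hcb : closedBall (0 : ℂ) |r| ⊆ ball 0 1 := by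
    rw [habs]; exact closedBall_subset_ball hr1
  have hsp : sphere (0 : ℂ) |r| ⊆ ball 0 1 := sphere_subset_closedBall.trans hcb
  have hSan : AnalyticOnNhd ℂ S (closedBall 0 |r|) :=
    (hSd.analyticOnNhd isOpen_ball).mono hcb
  have hFan : AnalyticOnNhd ℂ F (ball 0 1) := hFd.analyticOnNhd isOpen_ball
  have e1 : Real.circleAverage (Real.log ‖S ·‖) 0 r = Real.log ‖S 0‖ :=
    hSan.circleAverage_log_norm_of_ne_zero fun u hu => hS0 u (hcb hu)
  have hFi : CircleIntegrable (Real.log ‖F ·‖) 0 r :=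
    MeromorphicOn.circleIntegrable_log_norm (hFan.mono hsp).meromorphicOn
  have hSi : CircleIntegrable (Real.log ‖S ·‖) 0 r :=
    MeromorphicOn.circleIntegrable_log_norm
      ((hSan.mono sphere_subset_closedBall).meromorphicOn)
  -- comparison
  have hco : F ⁻¹' {0}ᶜ ∈ codiscreteWithin (ball (0 : ℂ) 1) :=
    hFan.preimage_zero_mem_codiscreteWithin hFne hz0
      ⟨⟨0, h00⟩, (convex_ball _ _).isPreconnected⟩
  have hco2 : F ⁻¹' {0}ᶜ ∈ codiscreteWithin (sphere (0 : ℂ) |r|) :=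
    codiscreteWithin_mono hsp hco
  have hcongr : (fun z => Real.log ‖F z‖) =ᶠ[codiscreteWithin (sphere (0 : ℂ) |r|)]
      fun z => min (Real.log ‖F z‖) (Real.log ‖S z‖) := by
    have hsm : sphere (0 : ℂ) |r| ∈ codiscreteWithin (sphere (0 : ℂ) |r|) :=
      Filter.self_mem_codiscreteWithin _
    filter_upwards [hco2, hsm] with z hz hz2
    have hzne : F z ≠ 0 := by simpa using hz
    exact (min_eq_left (Real.log_le_log (norm_pos_iff.2 hzne) (hFS z (hsp hz2)))).symm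
  have e2 : Real.circleAverage (Real.log ‖F ·‖) 0 r ≤ Real.circleAverage (Real.log ‖S ·‖) 0 r := by
    rw [Real.circleAverage_congr_codiscreteWithin hcongr hr0.ne']
    apply Real.circleAverage_mono _ hSi
    · intro x _; exact min_le_right _ _
    · exact ⟨hFi.1.inf hSi.1, hFi.2.inf hSi.2⟩
  rw [e1] at e2
  have hint : IntegrableOn (fun θ : ℝ => Real.log ‖F (circleMap 0 r θ)‖)
      (Ioc (0 : ℝ) (2 * Real.pi)) volume := hFi.1
  have hval : ∀ θ : ℝ, Real.log ‖F (circleMap 0 r θ)‖ = -gr a (B (r * e θ)) := by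
    intro θ
    have hz : circleMap 0 r θ = (r : ℂ) * e θ := by simp [circleMap, e]
    have hzb : circleMap 0 r θ ∈ ball (0 : ℂ) 1 := hsp (by
      rw [habs]; exact circleMap_mem_sphere 0 hr0.le θ)
    rw [hFn _ hzb, hz, gr, ← Real.log_inv, inv_div]
  have hgr0 : ∀ θ : ℝ, 0 ≤ gr a (B (r * e θ)) := by
    intro θ
    have hzb : circleMap 0 r θ ∈ ball (0 : ℂ) 1 := hsp (by
      rw [habs]; exact circleMap_mem_sphere 0 hr0.le θ)
    have h1 := hval θ
    have h2 : Real.log ‖F (circleMap 0 r θ)‖ ≤ 0 :=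
      Real.log_nonpos (norm_nonneg _) (hF1 _ hzb)
    linarith
  have hint2 : IntegrableOn (fun θ : ℝ => gr a (B (r * e θ))) (Ioc (0 : ℝ) (2 * Real.pi))
      volume := by
    have h1 := hint.neg
    refine h1.congr (Filter.Eventually.of_forall fun θ => ?_)
    simp only [Pi.neg_apply]
    rw [hval θ, neg_neg]
  have e3 : ∫ θ in Ioc (0 : ℝ) (2 * Real.pi), gr a (B (r * e θ)) ≤ -Real.log ‖S 0‖ := by
    rw [integral_eq_lintegral_of_nonneg_ae (Filter.Eventually.of_forall hgr0)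
      hint2.aestronglyMeasurable]
    exact ENNReal.toReal_le_of_le_ofReal (by linarith) hU
  have e4 : Real.circleAverage (Real.log ‖F ·‖) 0 r =
      -((2 * Real.pi)⁻¹ * ∫ θ in Ioc (0 : ℝ) (2 * Real.pi), gr a (B (r * e θ))) := by
    rw [Real.circleAverage_def, smul_eq_mul,
      intervalIntegral.integral_of_le (by positivity)]
    simp only [hval]
    rw [integral_neg, mul_neg]
  rw [e4] at e2
  have hpi : (2 * Real.pi)⁻¹ < 1 := by
    have := Real.pi_gt_three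
    exact inv_lt_one_of_one_lt₀ (by linarith)
  have hpi0 : 0 < (2 * Real.pi)⁻¹ := by positivity
  have hI0 : 0 ≤ ∫ θ in Ioc (0 : ℝ) (2 * Real.pi), gr a (B (r * e θ)) :=
    integral_nonneg hgr0
  nlinarith

lemma fin_congr {u v : ℂ → ℂ} (h : ∀ z ∈ ball (0 : ℂ) 1, u z = v z) (hu : IsBlaschke u) :
    IsBlaschke v := by
  obtain ⟨c, ι, a, hc, ha, hs, hp⟩ := hu
  refine ⟨c, ι, a, hc, ha, hs, fun z hz => ?_⟩
  obtain ⟨p, hp1, hp2⟩ := hp z hz
  exact ⟨p, hp1, by rw [← h z hz, hp2]⟩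

lemma fin_not_inj {B : ℂ → ℂ} (h : IsBlaschke B) (h0 : B 0 = 0) (hd : deriv B 0 ≠ 0)
    (hd1 : ‖deriv B 0‖ ≠ 1) : ¬ InjOn B (ball 0 1) := by
  intro hinj
  obtain ⟨c, ι, a, hc, ha, hs, hb⟩ := h.data
  have h00 : (0 : ℂ) ∈ ball (0 : ℂ) 1 := mem_ball_self one_pos
  have hc0 : c ≠ 0 := by
    intro h; rw [h, norm_zero] at hc; norm_num at hc
  have hi : ∃ i, a i = 0 := by
    by_contra hno
    push Not at hno
    have h1 := Pool.Agent.Helper34.Dg.fam_ne ha hs h00 (fun i h => hno i h.symm)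
    have h2 := hb 0 h00
    rw [h0] at h2
    exact mul_ne_zero hc0 h1 h2.symm
  obtain ⟨i0, hi0⟩ := hi
  classical
  set R : Set ι := (((({i0} : Finset ι)) : Set ι)ᶜ : Set ι) with hR
  set G : ℂ → ℂ := bprod (fun i : R => a i) with hG
  have hsplit : ∀ z ∈ ball (0 : ℂ) 1, B z = c * (z * G z) := by
    intro z hz
    rw [hb z hz, Pool.Agent.Helper34.Dg.fam_split ha hs {i0} hz, Finset.prod_singleton]
    simp only [hi0, bfac, if_true]
    rfl
  have ha' : ∀ i : R, a i ∈ Pool.Agent.Helper34.Dg.disc := fun i => ha i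
  have hs' : Summable fun i : R => 1 - ‖a i‖ := hs.subtype _
  have hGd : DifferentiableOn ℂ G (ball 0 1) := Pool.Agent.Helper34.Dg.fam_diff ha' hs'
  have hder : deriv B 0 = c * G 0 := by
    have h1 : B =ᶠ[𝓝 0] fun z => c * (z * G z) := by
      filter_upwards [isOpen_ball.mem_nhds h00] with z hz using hsplit z hz
    rw [h1.deriv_eq]
    have h2 := (((hasDerivAt_id (0 : ℂ)).mul
      (hGd.differentiableAt (isOpen_ball.mem_nhds h00)).hasDerivAt).const_mul c).deriv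
    simp only [id, Pi.mul_apply, zero_mul, add_zero, one_mul] at h2
    exact h2
  by_cases hne : Nonempty R
  · obtain ⟨j⟩ := hne
    have hGj : G (a j) = 0 := by
      rw [hG, Pool.Agent.Helper34.Dg.fam_split ha' hs' {j} (ha j), Finset.prod_singleton]
      have : bfac (a j) (a j) = 0 := by
        unfold bfac
        split_ifs with h
        · exact h
        · simp
      rw [this, zero_mul]
    have hBj : B (a j) = B 0 := by
      rw [hsplit _ (ha j), hGj, h0, mul_zero, mul_zero]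
    have haj : a j = 0 := hinj (ha j) h00 hBj
    rw [haj] at hGj
    exact hd (by rw [hder, hGj, mul_zero])
  · rw [not_nonempty_iff] at hne
    have hG1 : G 0 = 1 := by
      rw [hG]; unfold bprod; exact tprod_empty
    rw [hG1, mul_one] at hder
    exact hd1 (by rw [hder, hc])

lemma fin_not_max {B : ℂ → ℂ} (h0 : B 0 = 0) (hd : ∀ z ∈ ball (0 : ℂ) 1, deriv B z ≠ 0)
    (hd1 : ‖deriv B 0‖ < 1) : ¬ Pool.Agent.N279.MBP.IsMaxBlaschke B := by
  rintro ⟨m, -, g, ⟨⟨⟨hgd, -⟩, hord⟩, hg1, hext⟩, c, a, hc, ha, hBg⟩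
  have h00 : (0 : ℂ) ∈ ball (0 : ℂ) 1 := mem_ball_self one_pos
  have hc0 : c ≠ 0 := by
    intro h; rw [h, norm_zero] at hc; norm_num at hc
  have hden : ∀ z ∈ ball (0 : ℂ) 1, 1 - conj a * g z ≠ 0 := fun z hz => fin_den_ne ha (hg1 z hz)
  have hder : ∀ z ∈ ball (0 : ℂ) 1, deriv B z =
      c * ((1 - conj a * a) / (1 - conj a * g z) ^ 2) * deriv g z := by
    intro z hz
    have h1 : B =ᶠ[𝓝 z] fun z => c * ((g z - a) / (1 - conj a * g z)) := by
      filter_upwards [isOpen_ball.mem_nhds hz] with w hw using hBg w hw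
    rw [h1.deriv_eq]
    have h2 := (hgd.differentiableAt (isOpen_ball.mem_nhds hz)).hasDerivAt
    have h3 := (((h2.sub_const a).div ((h2.const_mul (conj a)).const_sub 1)
      (hden z hz)).const_mul c).deriv
    rw [show (fun z => c * ((g z - a) / (1 - conj a * g z))) = (fun y => c *
      ((fun x => g x - a) / fun x => 1 - conj a * g x) y) from rfl, h3]
    have := hden z hz
    field_simp
    ring
  have hdg : ∀ z ∈ ball (0 : ℂ) 1, deriv g z ≠ 0 := by
    intro z hz h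
    apply hd z hz
    rw [hder z hz, h, mul_zero]
  have hm : ∀ z ∈ ball (0 : ℂ) 1, m z = 0 := by
    intro z hz
    have h1 := hord z hz
    rw [analyticOrderAt_eq_zero.2 (Or.inr (hdg z hz))] at h1
    exact_mod_cast nonpos_iff_eq_zero.1 h1
  have hid : Pool.Agent.N279.MBP.InF m id :=
    ⟨⟨differentiable_id.differentiableOn, 1, fun z hz => (mem_ball_zero_iff.1 hz).le⟩,
      fun z hz => by rw [hm z hz]; simp⟩
  have h1 := hext id hid fun z hz => (mem_ball_zero_iff.1 hz).le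
  rw [hm 0 h00, zero_add, iteratedDeriv_one, iteratedDeriv_one, deriv_id] at h1
  have hga : g 0 = a := by
    have h2 := hBg 0 h00
    rw [h0] at h2
    have h3 := (mul_eq_zero.1 h2.symm).resolve_left hc0
    rcases div_eq_zero_iff.1 h3 with h4 | h4
    · exact sub_eq_zero.1 h4
    · exact absurd h4 (hden 0 h00)
  have h5 := hder 0 h00
  have haa := hden 0 h00
  rw [hga] at h5 haa
  have h6 : deriv g 0 * c = deriv B 0 * (1 - conj a * a) := by
    rw [h5]
    field_simp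
  have h7 : ‖deriv g 0‖ = ‖deriv B 0‖ * (1 - ‖a‖ ^ 2) := by
    have h8 := congrArg norm h6
    rw [norm_mul, norm_mul, hc, mul_one] at h8
    rw [h8]
    congr 1
    rw [Complex.conj_mul', ← Complex.ofReal_pow, ← Complex.ofReal_one, ← Complex.ofReal_sub,
      Complex.norm_real, Real.norm_of_nonneg]
    nlinarith [norm_nonneg a]
  have h9 : (deriv g 0).re ≤ ‖deriv g 0‖ := Complex.re_le_norm _
  simp only [Complex.one_re] at h1
  nlinarith [norm_nonneg (deriv B 0), norm_nonneg a, sq_nonneg ‖a‖]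

theorem fin_holds (h : S_LIM) : ∃ B : ℂ → ℂ, DifferentiableOn ℂ B (ball 0 1) ∧
    (∀ z ∈ ball (0 : ℂ) 1, deriv B z ≠ 0) ∧ ¬ Set.InjOn B (ball 0 1) ∧
    (∀ c a : ℂ, ‖c‖ = 1 → ‖a‖ < 1 →
      Pool.Agent.Helper34.Dg.IsBlaschke (fun z => c * ((B z - a) / (1 - conj a * B z)))) ∧
    Pool.Agent.Helper34.Dg.IsBlaschke B ∧ ¬ Pool.Agent.N279.MBP.IsMaxBlaschke B := by
  obtain ⟨B, qB, hder, hB0, hq0, hB1, hlim⟩ := h
  have h00 : (0 : ℂ) ∈ ball (0 : ℂ) 1 := mem_ball_self one_pos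
  have hBd : DifferentiableOn ℂ B (ball 0 1) := fun z hz =>
    (hder z hz).differentiableAt.differentiableWithinAt
  have hd : ∀ z ∈ ball (0 : ℂ) 1, deriv B z ≠ 0 := fun z hz => by
    rw [(hder z hz).deriv]; exact Complex.exp_ne_zero _
  have hd0 : ‖deriv B 0‖ = 1 / 2 := by rw [(hder 0 h00).deriv]; exact hq0
  have hex : ∀ a : ℂ, ∃ z0 ∈ ball (0 : ℂ) 1, B z0 ≠ a := by
    intro a
    by_contra hno
    push Not at hno
    have h1 : B =ᶠ[𝓝 0] fun _ => a := by
      filter_upwards [isOpen_ball.mem_nhds h00] with z hz using hno z hz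
    exact hd 0 h00 (by rw [h1.deriv_eq, deriv_const])
  have hbl : ∀ c a : ℂ, ‖c‖ = 1 → ‖a‖ < 1 →
      IsBlaschke (fun z => c * ((B z - a) / (1 - conj a * B z))) := by
    intro c a hc ha
    obtain ⟨z0, hz0, hne⟩ := hex a
    refine fin_blaschke hBd hB1 ha hc hz0 hne fun ε hε => ?_
    obtain ⟨r, h1, -, h3, h4⟩ := hlim a (mem_ball_zero_iff.2 ha) ε hε 0 one_pos
    exact ⟨r, h1, h3, h4⟩
  have hblB : IsBlaschke B := by
    refine fin_congr (fun z _ => ?_) (hbl 1 0 norm_one (by simp))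
    simp
  refine ⟨B, hBd, hd, fin_not_inj hblB hB0 (hd 0 h00) (by rw [hd0]; norm_num), hbl, hblB,
    fin_not_max hB0 hd (by rw [hd0]; norm_num)⟩

end Pool.Agent.J4.H80.IB
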