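import Pool.Agent.Helper34.Dg.Bl
import Pool.Agent.N279.MBP.Defs

set_option autoImplicit false

open Complex Metric Set Filter Topology
open scoped ComplexConjugate

namespace Pool.Agent.J4.H80.IB

open Pool.Agent.Helper34.Dg

/-- A Blaschke product without critical points that fixes the origin, with multiplier of modulus
1/2 there, is not injective. -/
theorem not_inj {B : ℂ → ℂ} (hB0 : B 0 = 0) (hd0 : ‖deriv B 0‖ = 1 / 2)
    (hne : ∀ z ∈ ball (0 : ℂ) 1, deriv B z ≠ 0) (hBl : IsBlaschke B) :
    ¬ Set.InjOn B (ball 0 1) := by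
  intro hinj
  obtain ⟨c, ι, a, hc, ha, hs, hb⟩ := hBl.data
  have hc0 : c ≠ 0 := by
    intro h0
    rw [h0, norm_zero] at hc
    norm_num at hc
  -- zeros
  have hz : ∀ i, B (a i) = 0 := by
    intro i
    rw [hb _ (ha i), fam_split ha hs {i} (ha i), Finset.prod_singleton,
      (bfac_eq_zero (ha i) (ha i)).2 rfl]
    ring
  have h0 : (0 : ℂ) ∈ disc := mem_ball_self one_pos
  by_cases h2 : ∃ i j : ι, i ≠ j
  · obtain ⟨i, j, hij⟩ := h2
    have haij : a i = a j := hinj (ha i) (ha j) (by rw [hz i, hz j])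
    classical
    have hB : ∀ z ∈ disc, B z = c * ((bfac (a i) z * bfac (a i) z) *
        bprod (fun k : ((({i, j} : Finset ι) : Set ι)ᶜ : Set ι) => a k) z) := by
      intro z hz
      rw [hb z hz, fam_split ha hs {i, j} hz, Finset.prod_pair hij, ← haij]
    have hd1 : DifferentiableAt ℂ (bfac (a i)) (a i) :=
      (bfac_diff (ha i)).differentiableAt (isOpen_ball.mem_nhds (ha i))
    have hd2 : DifferentiableAt ℂ
        (bprod (fun k : ((({i, j} : Finset ι) : Set ι)ᶜ : Set ι) => a k)) (a i) :=
      (fam_diff (a := fun k : ((({i, j} : Finset ι) : Set ι)ᶜ : Set ι) => a k)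
        (fun k => ha k) (hs.subtype _)).differentiableAt (isOpen_ball.mem_nhds (ha i))
    have h3 : HasDerivAt B 0 (a i) := by
      have h4 := (((hd1.hasDerivAt.mul hd1.hasDerivAt).mul hd2.hasDerivAt).const_mul c)
      have h5 : bfac (a i) (a i) = 0 := (bfac_eq_zero (ha i) (ha i)).2 rfl
      have h6 := h4.congr_of_eventuallyEq (f₁ := B) (by
        filter_upwards [isOpen_ball.mem_nhds (ha i)] with z hz
        exact hB z hz)
      simp only [Pi.mul_apply, h5, mul_zero, zero_mul, add_zero] at h6
      exact h6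
    exact hne _ (ha i) h3.deriv
  · push Not at h2
    by_cases h3 : Nonempty ι
    · obtain ⟨i⟩ := h3
      have h4 : ∀ z ∈ disc, B z = c * bfac (a i) z := by
        intro z hz
        obtain ⟨p, hp1, hp2⟩ : ∃ p : ℂ, HasProd (fun i => bfac (a i) z) p ∧ B z = c * p :=
          ⟨_, fam_hasProd ha hs hz, hb z hz⟩
        have h5 : HasProd (fun i => bfac (a i) z) (bfac (a i) z) :=
          hasProd_single i fun j hj => absurd (h2 j i) hj
        rw [hp2, hp1.unique h5]
      have h5 : a i = 0 := by
        have h6 := h4 0 h0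
        rw [hB0] at h6
        have h7 : bfac (a i) 0 = 0 := by
          rcases mul_eq_zero.1 h6.symm with h | h
          · exact absurd h hc0
          · exact h
        exact ((bfac_eq_zero (ha i) h0).1 h7).symm
      have h6 : HasDerivAt B c 0 := by
        have h7 : HasDerivAt (fun z : ℂ => c * z) (c * 1) 0 := (hasDerivAt_id' 0).const_mul c
        rw [mul_one] at h7
        refine h7.congr_of_eventuallyEq ?_
        filter_upwards [isOpen_ball.mem_nhds h0] with z hz
        rw [h4 z hz, h5]
        simp [bfac]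
      rw [h6.deriv, hc] at hd0
      norm_num at hd0
    · rw [not_nonempty_iff] at h3
      have h4 : ∀ z ∈ disc, B z = c := by
        intro z hz
        have h5 : HasProd (fun i => bfac (a i) z) 1 := hasProd_empty
        rw [hb z hz, (fam_hasProd ha hs hz).unique h5, mul_one]
      have := h4 0 h0
      rw [hB0] at this
      exact hc0 this.symm

/-- A function without critical points that fixes the origin, with multiplier of modulus 1/2
there, is not a maximal Blaschke product. -/
theorem not_max {B : ℂ → ℂ} (hB0 : B 0 = 0) (hd0 : ‖deriv B 0‖ = 1 / 2)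
    (hne : ∀ z ∈ ball (0 : ℂ) 1, deriv B z ≠ 0) :
    ¬ Pool.Agent.N279.MBP.IsMaxBlaschke B := by
  rintro ⟨m, -, g, ⟨⟨⟨hgd, -⟩, hgm⟩, hg1, hext⟩, c, a, hc, ha, hB⟩
  have hden : ∀ z ∈ ball (0 : ℂ) 1, 1 - conj a * g z ≠ 0 := by
    intro z hz h
    have h1 : ‖conj a * g z‖ = 1 := by
      rw [← sub_eq_zero.1 h, norm_one]
    rw [norm_mul, Complex.norm_conj] at h1
    have h2 := hg1 z hz
    have h3 := norm_nonneg a
    have h4 := norm_nonneg (g z)
    nlinarith
  have hder : ∀ z ∈ ball (0 : ℂ) 1, deriv B z =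
      c * ((deriv g z * (1 - conj a * g z) - (g z - a) * (-(conj a * deriv g z))) /
        (1 - conj a * g z) ^ 2) := by
    intro z hz
    have h1 : HasDerivAt g (deriv g z) z :=
      (hgd.differentiableAt (isOpen_ball.mem_nhds hz)).hasDerivAt
    have h2 : HasDerivAt (fun z => g z - a) (deriv g z) z := h1.sub_const a
    have h3 : HasDerivAt (fun z => 1 - conj a * g z) (-(conj a * deriv g z)) z := by
      simpa using (h1.const_mul (conj a)).const_sub 1
    have h4 := (h2.div h3 (hden z hz)).const_mul c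
    have h5 := h4.congr_of_eventuallyEq (f₁ := B) (by
      filter_upwards [isOpen_ball.mem_nhds hz] with y hy
      exact hB y hy)
    exact h5.deriv
  have h0 : (0 : ℂ) ∈ ball (0 : ℂ) 1 := mem_ball_self one_pos
  have hm : ∀ z ∈ ball (0 : ℂ) 1, m z = 0 := by
    intro z hz
    have h1 : deriv g z ≠ 0 := by
      intro h
      apply hne z hz
      rw [hder z hz, h]
      simp
    have h2 : AnalyticAt ℂ (deriv g) z :=
      ((hgd.deriv isOpen_ball).analyticAt (isOpen_ball.mem_nhds hz))
    have h3 : analyticOrderAt (deriv g) z = 0 := h2.analyticOrderAt_eq_zero.2 h1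
    have h4 := hgm z hz
    rw [h3] at h4
    exact_mod_cast (nonpos_iff_eq_zero.1 h4)
  have h1 := hext (fun z => z) ⟨⟨differentiableOn_id, 1, fun z hz => (mem_ball_zero_iff.1 hz).le⟩,
    fun z hz => by rw [hm z hz]; simp⟩ (fun z hz => (mem_ball_zero_iff.1 hz).le)
  rw [hm 0 h0] at h1
  simp only [zero_add, iteratedDeriv_one, deriv_id'', Complex.one_re] at h1
  have h2 : 1 ≤ ‖deriv g 0‖ := h1.trans ((Complex.abs_re_le_norm _).trans' (le_abs_self _))
  have h3 : g 0 = a := by
    have h4 := hB 0 h0
    rw [hB0] at h4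
    have hc0 : c ≠ 0 := by
      intro h
      rw [h, norm_zero] at hc
      norm_num at hc
    rcases mul_eq_zero.1 h4.symm with h | h
    · exact absurd h hc0
    · rcases div_eq_zero_iff.1 h with h | h
      · exact sub_eq_zero.1 h
      · exact absurd h (hden 0 h0)
  have h4 := hder 0 h0
  rw [h3] at h4
  have h5 : (1 : ℂ) - conj a * a = ((1 - ‖a‖ ^ 2 : ℝ) : ℂ) := by
    rw [mul_comm, Complex.mul_conj, Complex.normSq_eq_norm_sq]
    push_cast
    ring
  have h6 : 0 < 1 - ‖a‖ ^ 2 := by nlinarith [norm_nonneg a]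
  have h7 : ‖deriv B 0‖ = ‖deriv g 0‖ / (1 - ‖a‖ ^ 2) := by
    rw [h4, sub_self, zero_mul, sub_zero, h5, norm_mul, hc, one_mul, norm_div, norm_mul, norm_pow,
      Complex.norm_real, Real.norm_of_nonneg h6.le]
    field_simp
  rw [hd0, eq_div_iff h6.ne'] at h7
  nlinarith [norm_nonneg a]

end Pool.Agent.J4.H80.IB
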