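import Pool.Agent.J4.H80.IB.IBas

set_option autoImplicit false

open Complex Metric Set Filter Topology MeasureTheory
open scoped ComplexConjugate ENNReal

namespace Pool.Agent.J4.H80.IB

lemma gr_id (w x : ℂ) : ‖1 - conj w * x‖ ^ 2 - ‖x - w‖ ^ 2 = (1 - ‖w‖ ^ 2) * (1 - ‖x‖ ^ 2) := by
  rw [← Complex.normSq_eq_norm_sq, ← Complex.normSq_eq_norm_sq, ← Complex.normSq_eq_norm_sq,
    ← Complex.normSq_eq_norm_sq]
  simp only [Complex.normSq_apply, Complex.sub_re, Complex.one_re, Complex.mul_re,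
    Complex.conj_re, Complex.conj_im, Complex.sub_im, Complex.one_im, Complex.mul_im]
  ring

lemma gr_le_log {w x : ℂ} (hw : ‖w‖ ≤ 1) (hx : ‖x‖ ≤ 1) :
    gr w x ≤ Real.log 2 + Real.posLog (1 / ‖x - w‖) := by
  have h2 : 0 ≤ Real.log 2 := Real.log_nonneg (by norm_num)
  have h3 : 0 ≤ Real.posLog (1 / ‖x - w‖) := Real.posLog_nonneg
  unfold gr
  by_cases hxw : x = w
  · subst hxw
    simp only [sub_self, norm_zero, div_zero, Real.log_zero] at h3 ⊢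
    linarith
  have hb : 0 < ‖x - w‖ := norm_pos_iff.2 (sub_ne_zero.2 hxw)
  by_cases ha : ‖1 - conj w * x‖ = 0
  · rw [ha]
    simp only [zero_div, Real.log_zero]
    linarith
  have ha' : 0 < ‖1 - conj w * x‖ := lt_of_le_of_ne (norm_nonneg _) (Ne.symm ha)
  have ha2 : ‖1 - conj w * x‖ ≤ 2 := by
    refine (norm_sub_le _ _).trans ?_
    rw [norm_one, norm_mul, RCLike.norm_conj]
    nlinarith [norm_nonneg w, norm_nonneg x]
  rw [div_eq_mul_one_div, Real.log_mul ha (by positivity)]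
  have h4 : Real.log ‖1 - conj w * x‖ ≤ Real.log 2 := Real.log_le_log ha' ha2
  have h5 : Real.log (1 / ‖x - w‖) ≤ Real.posLog (1 / ‖x - w‖) := by
    rw [Real.posLog_apply]
    exact le_max_right _ _
  linarith

lemma gr_le_near {ρ : ℝ} (hρ : ρ < 1) {w x : ℂ} (hw : ‖w‖ ≤ ρ) (hx : ‖x‖ ≤ 1)
    (h : 1 - ‖x‖ ≤ (1 - ρ) ^ 2 / 4) : gr w x ≤ 2 * (1 - ‖x‖) / (1 - ρ) ^ 2 := by
  have hρ0 : 0 ≤ ρ := (norm_nonneg w).trans hw
  have h1 : 0 < 1 - ρ := by linarith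
  have hA : 1 - ρ ≤ ‖1 - conj w * x‖ := by
    have := norm_sub_norm_le (1 : ℂ) (conj w * x)
    rw [norm_one, norm_mul, RCLike.norm_conj] at this
    have h2 : ‖w‖ * ‖x‖ ≤ ρ * 1 := mul_le_mul hw hx (norm_nonneg _) hρ0
    linarith
  have hA0 : 0 < ‖1 - conj w * x‖ := by linarith
  have hid := gr_id w x
  have hwn := norm_nonneg w
  have hxn := norm_nonneg x
  -- δ
  set A := ‖1 - conj w * x‖ with hAdef
  set B := ‖x - w‖ with hBdef
  have hB0 : 0 ≤ B := norm_nonneg _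
  have hδ : A ^ 2 - B ^ 2 ≤ 2 * (1 - ‖x‖) := by
    rw [hid]
    have e1 : (1 - ‖w‖ ^ 2) * (1 - ‖x‖ ^ 2) ≤ 1 * (1 - ‖x‖ ^ 2) := by
      gcongr
      · nlinarith
      · nlinarith
    nlinarith
  have hA2 : (1 - ρ) ^ 2 ≤ A ^ 2 := by gcongr
  have hB2 : A ^ 2 / 2 ≤ B ^ 2 := by nlinarith
  have hBpos : 0 < B := by
    rcases hB0.lt_or_eq with h3 | h3
    · exact h3
    · rw [← h3] at hB2
      nlinarith [sq_pos_of_pos hA0]
  -- log(A/B) = (1/2) log(A²/B²) ≤ (A²/B²-1)/2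
  unfold gr
  rw [← hAdef, ← hBdef]
  have e2 : Real.log (A / B) = Real.log ((A / B) ^ 2) / 2 := by
    rw [Real.log_pow]
    push_cast
    ring
  rw [e2]
  have e3 : Real.log ((A / B) ^ 2) ≤ (A / B) ^ 2 - 1 := Real.log_le_sub_one_of_pos (by positivity)
  have e4 : (A / B) ^ 2 - 1 = (A ^ 2 - B ^ 2) / B ^ 2 := by
    field_simp
  have e5 : (A ^ 2 - B ^ 2) / B ^ 2 ≤ (2 * (1 - ‖x‖)) / ((1 - ρ) ^ 2 / 2) := by
    have h6 : (1 - ρ) ^ 2 / 2 ≤ B ^ 2 := by linarith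
    have h7 : 0 ≤ 1 - ‖x‖ := by linarith
    gcongr
  have e6 : (2 * (1 - ‖x‖)) / ((1 - ρ) ^ 2 / 2) = 2 * (2 * (1 - ‖x‖) / (1 - ρ) ^ 2) := by
    field_simp
  rw [e6] at e5
  linarith

/-- scale -/
noncomputable def sc (n : ℕ) (θ : ℝ) : ℝ :=
  ‖1 - (tt n : ℂ) * e (kk n * θ)‖ ^ 2 / (64 * kk n * n)

/-- derivative of the curve -/
noncomputable def gp (q : ℂ → ℂ) (N : ℕ) (P : ℂ → ℂ) (n : ℕ) (θ : ℝ) : ℂ :=
  cexp (q (e θ) + pp N P n (e θ)) * (e θ * I)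

lemma sc_pos {n : ℕ} (hn : 2 ≤ n) (θ : ℝ) : 0 < sc n θ := by
  unfold sc
  have h1 := one_sub_ne (by linarith [tt_ge hn] : 0 ≤ tt n) (tt_lt (by omega)) (kk n * θ)
  have h2 : 0 < ‖1 - (tt n : ℂ) * e (kk n * θ)‖ := norm_pos_iff.2 h1
  have h3 : (0 : ℝ) < kk n := by exact_mod_cast kk_pos (by omega)
  have h4 : (0 : ℝ) < n := by exact_mod_cast (by omega : 0 < n)
  positivity

lemma e_kk_lip (n : ℕ) (θ θ' : ℝ) : ‖e (kk n * θ) - e (kk n * θ')‖ ≤ kk n * |θ - θ'| := by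
  refine (e_lip _ _).trans ?_
  rw [← mul_sub, abs_mul, Nat.abs_cast]

lemma sc_lip {n : ℕ} (hn : 2 ≤ n) (θ θ' : ℝ) : |sc n θ - sc n θ'| ≤ |θ - θ'| / 2 := by
  have ht := tt_ge hn
  have ht1 := tt_lt (by omega : 0 < n)
  have h3 : (0 : ℝ) < kk n := by exact_mod_cast kk_pos (by omega)
  have h4 : (2 : ℝ) ≤ n := by exact_mod_cast hn
  unfold sc
  set a := ‖1 - (tt n : ℂ) * e (kk n * θ)‖ with ha
  set b := ‖1 - (tt n : ℂ) * e (kk n * θ')‖ with hb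
  have ha2 : a ≤ 2 := one_sub_le (by linarith) ht1 _
  have hb2 : b ≤ 2 := one_sub_le (by linarith) ht1 _
  have ha0 : 0 ≤ a := norm_nonneg _
  have hb0 : 0 ≤ b := norm_nonneg _
  have hab : |a - b| ≤ kk n * |θ - θ'| := by
    refine (abs_norm_sub_norm_le _ _).trans ?_
    have h5 : (1 - (tt n : ℂ) * e (kk n * θ)) - (1 - (tt n : ℂ) * e (kk n * θ')) =
        (tt n : ℂ) * (e (kk n * θ') - e (kk n * θ)) := by ring
    rw [h5, norm_mul, Complex.norm_real, Real.norm_eq_abs, abs_of_nonneg (by linarith)]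
    have h6 := e_kk_lip n θ' θ
    rw [abs_sub_comm] at h6
    calc tt n * ‖e (kk n * θ') - e (kk n * θ)‖ ≤ 1 * (kk n * |θ - θ'|) := by gcongr
      _ = _ := one_mul _
  have h7 : a ^ 2 / (64 * kk n * n) - b ^ 2 / (64 * kk n * n) =
      (a + b) * (a - b) / (64 * kk n * n) := by ring
  rw [h7, abs_div, abs_mul, abs_of_nonneg (by linarith : 0 ≤ a + b),
    abs_of_pos (by positivity : (0 : ℝ) < 64 * kk n * n)]
  rw [div_le_iff₀ (by positivity)]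
  calc (a + b) * |a - b| ≤ 4 * (kk n * |θ - θ'|) := by
        have : a + b ≤ 4 := by linarith
        gcongr
    _ ≤ |θ - θ'| / 2 * (64 * kk n * n) := by
        have h8 : 0 ≤ kk n * |θ - θ'| := by positivity
        nlinarith

lemma gp_eq {f q : ℂ → ℂ} {R : ℝ} {N : ℕ} {P : ℂ → ℂ} {L : ℝ → ℝ} (h : Dt f q R N P L) {n : ℕ}
    (hN : N ≤ kk n) (θ : ℝ) :
    gp q N P n θ = I * cexp (θ * I + q (e θ) + ((n + L θ : ℝ) : ℂ) * chi (tt n) (kk n * θ)) := by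
  unfold gp
  rw [pp_e h hN]
  have : e θ = cexp (θ * I) := rfl
  rw [add_assoc, Complex.exp_add (θ * I), ← this]
  ring

lemma gp_ne (q : ℂ → ℂ) (N : ℕ) (P : ℂ → ℂ) (n : ℕ) (θ : ℝ) : gp q N P n θ ≠ 0 := by
  unfold gp
  have := e_ne θ
  have h2 := Complex.exp_ne_zero (q (e θ) + pp N P n (e θ))
  exact mul_ne_zero h2 (mul_ne_zero this Complex.I_ne_zero)

/-- the derivative varies little on the scale -/
lemma gp_var {f q : ℂ → ℂ} {R : ℝ} {N : ℕ} {P : ℂ → ℂ} {L : ℝ → ℝ} (h : Dt f q R N P L) :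
    ∀ᶠ n : ℕ in atTop, ∀ θ θ' : ℝ, |θ' - θ| ≤ sc n θ →
      ‖gp q N P n θ' - gp q N P n θ‖ ≤ ‖gp q N P n θ‖ / 2 ∧
      ‖1 - (tt n : ℂ) * e (kk n * θ)‖ ≤ 2 * ‖1 - (tt n : ℂ) * e (kk n * θ')‖ ∧
      ‖1 - (tt n : ℂ) * e (kk n * θ')‖ ≤ 3 / 2 * ‖1 - (tt n : ℂ) * e (kk n * θ)‖ := by
  obtain ⟨Cq, hCq, hq1, -⟩ := lip_of_diff h.cls.hR h.cls.q_diff
  obtain ⟨CL, hCL, hL1, hL2⟩ := L_lip h
  have hlarge : ∀ᶠ n : ℕ in atTop, 1 + Cq + CL ≤ n / 4 := by
    have := (tendsto_natCast_atTop_atTop (R := ℝ)).eventually_ge_atTop (4 * (1 + Cq + CL))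
    filter_upwards [this] with n hn
    linarith
  filter_upwards [hlarge, eventually_ge_atTop 2, tendsto_kk.eventually_ge_atTop N] with n hn1 hn2 hN
  intro θ θ' hθ
  have ht := tt_ge hn2
  have ht1 := tt_lt (by omega : 0 < n)
  have hk : (1 : ℝ) ≤ kk n := by exact_mod_cast kk_pos (by omega : 0 < n)
  have hn0 : (2 : ℝ) ≤ n := by exact_mod_cast hn2
  set d1 : ℂ := 1 - (tt n : ℂ) * e (kk n * θ) with hd1
  set d2 : ℂ := 1 - (tt n : ℂ) * e (kk n * θ') with hd2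
  have hd1' : d1 ≠ 0 := one_sub_ne (by linarith) ht1 _
  have hd2' : d2 ≠ 0 := one_sub_ne (by linarith) ht1 _
  have p1 : 0 < ‖d1‖ := norm_pos_iff.2 hd1'
  have p2 : 0 < ‖d2‖ := norm_pos_iff.2 hd2'
  have hd12 : ‖d1‖ ≤ 2 := one_sub_le (by linarith) ht1 _
  have hs : sc n θ = ‖d1‖ ^ 2 / (64 * kk n * n) := rfl
  have hz : ‖e (kk n * θ) - e (kk n * θ')‖ ≤ ‖d1‖ ^ 2 / (64 * n) := by
    refine (e_kk_lip n θ θ').trans ?_
    rw [abs_sub_comm]
    calc (kk n : ℝ) * |θ' - θ| ≤ kk n * (‖d1‖ ^ 2 / (64 * kk n * n)) := by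
          gcongr
          exact hθ.trans hs.le
      _ = ‖d1‖ ^ 2 / (64 * n) := by field_simp
  have hdd : d2 - d1 = (tt n : ℂ) * (e (kk n * θ) - e (kk n * θ')) := by
    rw [hd1, hd2]; ring
  have hdd' : ‖d2 - d1‖ ≤ ‖d1‖ ^ 2 / (64 * n) := by
    rw [hdd, norm_mul, Complex.norm_real, Real.norm_eq_abs, abs_of_nonneg (by linarith)]
    calc tt n * ‖e (kk n * θ) - e (kk n * θ')‖ ≤ 1 * (‖d1‖ ^ 2 / (64 * n)) := by gcongr
      _ = _ := one_mul _
  have hdd2 : ‖d2 - d1‖ ≤ ‖d1‖ / 2 := by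
    refine hdd'.trans ?_
    rw [div_le_iff₀ (by positivity)]
    nlinarith
  have hlow : ‖d1‖ ≤ 2 * ‖d2‖ := by
    have h3 : ‖d1‖ ≤ ‖d2‖ + ‖d2 - d1‖ := by
      have := norm_sub_le d2 (d2 - d1)
      rwa [sub_sub_cancel] at this
    linarith
  have hup : ‖d2‖ ≤ 3 / 2 * ‖d1‖ := by
    have h3 : ‖d2‖ ≤ ‖d1‖ + ‖d2 - d1‖ := by
      have := norm_add_le d1 (d2 - d1)
      rwa [add_sub_cancel] at this
    linarith
  refine ⟨?_, hlow, hup⟩
  rw [gp_eq h hN, gp_eq h hN]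
  set u : ℂ := (θ' * I + q (e θ') + ((n + L θ' : ℝ) : ℂ) * chi (tt n) (kk n * θ')) -
    (θ * I + q (e θ) + ((n + L θ : ℝ) : ℂ) * chi (tt n) (kk n * θ)) with hu
  have h1 : I * cexp (θ' * I + q (e θ') + ((n + L θ' : ℝ) : ℂ) * chi (tt n) (kk n * θ')) -
      I * cexp (θ * I + q (e θ) + ((n + L θ : ℝ) : ℂ) * chi (tt n) (kk n * θ)) =
      I * cexp (θ * I + q (e θ) + ((n + L θ : ℝ) : ℂ) * chi (tt n) (kk n * θ)) *
        (cexp u - 1) := by
    rw [mul_sub, mul_one, mul_assoc, ← Complex.exp_add, hu]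
    congr 3
    ring
  rw [h1, norm_mul]
  have hu1 : ‖u‖ ≤ 1 / 4 := by
    have hsle : sc n θ ≤ 1 / (16 * n) := by
      rw [hs, div_le_div_iff₀ (by positivity) (by positivity)]
      have : ‖d1‖ ^ 2 ≤ 4 := by nlinarith
      nlinarith [mul_nonneg (sub_nonneg.2 hk) (by linarith : (0 : ℝ) ≤ n)]
    have ec : chi (tt n) (kk n * θ') - chi (tt n) (kk n * θ) = 2 * (d2 - d1) / (d1 * d2) := by
      rw [chi_eq (by linarith) ht1, chi_eq (by linarith) ht1, ← hd1, ← hd2]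
      field_simp
      ring
    have ec' : ‖chi (tt n) (kk n * θ') - chi (tt n) (kk n * θ)‖ ≤ 1 / (16 * n) := by
      rw [ec, norm_div, norm_mul, norm_mul, Complex.norm_two]
      rw [div_le_iff₀ (by positivity)]
      have h5 : 2 * ‖d2 - d1‖ ≤ 2 * (‖d1‖ ^ 2 / (64 * n)) := by gcongr
      have h6 : 2 * (‖d1‖ ^ 2 / (64 * n)) = 1 / (16 * n) * (‖d1‖ * (‖d1‖ / 2)) := by
        field_simp
        norm_num
      have h7 : 1 / (16 * n) * (‖d1‖ * (‖d1‖ / 2)) ≤ 1 / (16 * n) * (‖d1‖ * ‖d2‖) := by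
        gcongr
        linarith
      linarith
    have ed : ‖chi (tt n) (kk n * θ)‖ ≤ 2 + 2 / ‖d1‖ := by
      rw [chi_eq (by linarith) ht1, ← hd1]
      refine (norm_sub_le _ _).trans ?_
      rw [norm_div, Complex.norm_two]
    have e0 : u = (θ' - θ) * I + (q (e θ') - q (e θ)) +
        ((n + L θ' : ℝ) : ℂ) * (chi (tt n) (kk n * θ') - chi (tt n) (kk n * θ)) +
        ((L θ' - L θ : ℝ) : ℂ) * chi (tt n) (kk n * θ) := by
      rw [hu]
      push_cast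
      ring
    rw [e0]
    have n1 : ‖((θ' : ℂ) - θ) * I‖ ≤ sc n θ := by
      rw [norm_mul, Complex.norm_I, mul_one, ← Complex.ofReal_sub, Complex.norm_real,
        Real.norm_eq_abs]
      exact hθ
    have n2 : ‖q (e θ') - q (e θ)‖ ≤ Cq * sc n θ := by
      refine (hq1 _ _ (norm_e _).le (norm_e _).le).trans ?_
      gcongr
      exact (e_lip _ _).trans hθ
    have n3 : ‖((n + L θ' : ℝ) : ℂ) * (chi (tt n) (kk n * θ') - chi (tt n) (kk n * θ))‖ ≤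
        (n + CL) * (1 / (16 * n)) := by
      rw [norm_mul, Complex.norm_real, Real.norm_eq_abs]
      have h8 : |(n : ℝ) + L θ'| ≤ n + CL := by
        refine (abs_add_le _ _).trans ?_
        rw [Nat.abs_cast]
        linarith [hL2 θ']
      exact mul_le_mul h8 ec' (norm_nonneg _) (by positivity)
    have n4 : ‖((L θ' - L θ : ℝ) : ℂ) * chi (tt n) (kk n * θ)‖ ≤ CL * (1 / (4 * n)) := by
      rw [norm_mul, Complex.norm_real, Real.norm_eq_abs]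
      have h8 : |L θ' - L θ| ≤ CL * sc n θ := (hL1 _ _).trans (by gcongr)
      calc |L θ' - L θ| * ‖chi (tt n) (kk n * θ)‖ ≤ (CL * sc n θ) * (2 + 2 / ‖d1‖) :=
            mul_le_mul h8 ed (norm_nonneg _) (by have := sc_pos hn2 θ; positivity)
        _ = CL * ((2 * ‖d1‖ ^ 2 + 2 * ‖d1‖) / (64 * kk n * n)) := by
            rw [hs]
            field_simp
        _ ≤ CL * (1 / (4 * n)) := by
            gcongr CL * ?_
            rw [div_le_div_iff₀ (by positivity) (by positivity)]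
            have : 2 * ‖d1‖ ^ 2 + 2 * ‖d1‖ ≤ 12 := by nlinarith
            nlinarith [mul_nonneg (sub_nonneg.2 hk) (by linarith : (0 : ℝ) ≤ n)]
    refine (norm_add_le _ _).trans ?_
    refine (add_le_add (norm_add_le _ _) le_rfl).trans ?_
    refine (add_le_add (add_le_add (norm_add_le _ _) le_rfl) le_rfl).trans ?_
    have hfin : sc n θ + Cq * sc n θ + (n + CL) * (1 / (16 * n)) + CL * (1 / (4 * n)) ≤ 1 / 4 := by
      have h9 : sc n θ + Cq * sc n θ ≤ (1 + Cq) * (1 / (16 * n)) := by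
        have : sc n θ + Cq * sc n θ = (1 + Cq) * sc n θ := by ring
        rw [this]
        gcongr
      have h10 : (1 + Cq) * (1 / (16 * n)) + (n + CL) * (1 / (16 * n)) + CL * (1 / (4 * n)) =
          1 / 16 + (1 + Cq + 5 * CL) / (16 * n) := by
        field_simp
        ring
      have h11 : (1 + Cq + 5 * CL) / (16 * n) ≤ 5 * (n / 4) / (16 * n) := by
        gcongr
        linarith
      have h12 : 5 * ((n : ℝ) / 4) / (16 * n) = 5 / 64 := by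
        field_simp
        norm_num
      linarith
    linarith
  have hexp := Complex.norm_exp_sub_one_le (x := u) (by linarith)
  have hpos := norm_nonneg (I * cexp (θ * I + q (e θ) + ((n + L θ : ℝ) : ℂ) *
    chi (tt n) (kk n * θ)))
  calc _ ≤ ‖I * cexp (θ * I + q (e θ) + ((n + L θ : ℝ) : ℂ) * chi (tt n) (kk n * θ))‖ *
        (2 * ‖u‖) := by gcongr
    _ ≤ _ := by nlinarith

/-- size of the derivative times the scale -/
lemma gp_sc {f q : ℂ → ℂ} {R : ℝ} {N : ℕ} {P : ℂ → ℂ} {L : ℝ → ℝ} (h : Dt f q R N P L) {n : ℕ}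
    (hn : 2 ≤ n) (hN : N ≤ kk n) (θ : ℝ) :
    tau q L θ * Real.exp (-((n + L θ) * ((1 - tt n ^ 2) / ‖1 - (tt n : ℂ) * e (kk n * θ)‖ ^ 2))) *
      ‖1 - (tt n : ℂ) * e (kk n * θ)‖ ^ 2 / 128 ≤ ‖gp q N P n θ‖ * sc n θ := by
  unfold gp sc
  rw [norm_mul, norm_mul, norm_e, Complex.norm_I, mul_one, mul_one, Complex.norm_exp,
    Complex.add_re, pp_re h hn hN]
  set Pn := (1 - tt n ^ 2) / ‖1 - (tt n : ℂ) * e (kk n * θ)‖ ^ 2 with hPn
  set D := ‖1 - (tt n : ℂ) * e (kk n * θ)‖ with hD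
  have hk : (0 : ℝ) < kk n := by exact_mod_cast kk_pos (by omega : 0 < n)
  have hn0 : (0 : ℝ) < n := by exact_mod_cast (by omega : 0 < n)
  have e1 : (q (e θ)).re + (n + L θ) * (1 - Pn) = ((q (e θ)).re + L θ) + n + -((n + L θ) * Pn) := by
    ring
  rw [e1, Real.exp_add, Real.exp_add]
  unfold tau
  have h2 := kk_mul_le (by omega : 0 < n)
  have h3 : (1 : ℝ) / 128 ≤ Real.exp n / (64 * kk n * n) := by
    rw [div_le_div_iff₀ (by norm_num) (by positivity)]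
    linarith
  have h4 : Real.exp ((q (e θ)).re + L θ) * Real.exp n * Real.exp (-((n + L θ) * Pn)) *
      (D ^ 2 / (64 * kk n * n)) = (Real.exp ((q (e θ)).re + L θ) * Real.exp (-((n + L θ) * Pn)) *
      D ^ 2) * (Real.exp n / (64 * kk n * n)) := by ring
  rw [h4]
  calc Real.exp ((q (e θ)).re + L θ) * Real.exp (-((n + L θ) * Pn)) * D ^ 2 / 128
      = (Real.exp ((q (e θ)).re + L θ) * Real.exp (-((n + L θ) * Pn)) * D ^ 2) * (1 / 128) := by
        ring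
    _ ≤ _ := by gcongr

end Pool.Agent.J4.H80.IB
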