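import Pool.Agent.J4.H80.IB.IPot1

set_option autoImplicit false

open Complex Metric Set Filter Topology MeasureTheory
open scoped ComplexConjugate ENNReal

namespace Pool.Agent.J4.H80.IB

/-- distance of `1` to `t ζ` -/
noncomputable def dd (n : ℕ) (θ : ℝ) : ℝ := ‖1 - (tt n : ℂ) * e (kk n * θ)‖

lemma dd_cont (n : ℕ) : Continuous (dd n) := by
  unfold dd
  exact (continuous_const.sub (continuous_const.mul (e_cont.comp (continuous_const.mul
    continuous_id)))).norm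

lemma dd_pos {n : ℕ} (hn : 2 ≤ n) (θ : ℝ) : 0 < dd n θ :=
  norm_pos_iff.2 (one_sub_ne (by linarith [tt_ge hn]) (tt_lt (by omega)) _)

lemma dd_le {n : ℕ} (hn : 2 ≤ n) (θ : ℝ) : dd n θ ≤ 2 :=
  one_sub_le (by linarith [tt_ge hn]) (tt_lt (by omega)) _

lemma dd_ge {n : ℕ} (hn : 2 ≤ n) (θ : ℝ) : 1 / (n : ℝ) ^ 4 ≤ dd n θ := by
  rw [← one_sub_tt]
  exact one_sub_ge (by linarith [tt_ge hn]) _

lemma dd_per (n : ℕ) (θ : ℝ) : dd n (θ + 2 * Real.pi) = dd n θ := by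
  unfold dd
  rw [e_nat, e_nat, e_per]

lemma sc_eq (n : ℕ) (θ : ℝ) : sc n θ = dd n θ ^ 2 / (64 * kk n * n) := rfl

lemma sc_le {n : ℕ} (hn : 2 ≤ n) (θ : ℝ) : sc n θ ≤ 1 / (16 * (kk n * n)) := by
  rw [sc_eq]
  have h1 := dd_le hn θ
  have h2 := (dd_pos hn θ).le
  have hk : (0 : ℝ) < kk n := by exact_mod_cast kk_pos (by omega : 0 < n)
  have hn0 : (0 : ℝ) < n := by exact_mod_cast (by omega : 0 < n)
  rw [div_le_div_iff₀ (by positivity) (by positivity)]
  have h3 : dd n θ ^ 2 ≤ 4 := by nlinarith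
  have h4 : 0 < (kk n : ℝ) * n := by positivity
  nlinarith

lemma posLog_le_sqrt {y : ℝ} (hy : 0 < y) : Real.posLog (1 / y) ≤ 2 * y ^ (-(1 / 2) : ℝ) := by
  rw [Real.posLog_apply]
  have h0 : 0 < y ^ (-(1 / 2) : ℝ) := Real.rpow_pos_of_pos hy _
  refine max_le (by positivity) ?_
  have h1 : Real.log (1 / y) = 2 * Real.log (y ^ (-(1 / 2) : ℝ)) := by
    rw [Real.log_rpow hy, one_div, Real.log_inv]
    ring
  rw [h1]
  have h2 := Real.log_le_sub_one_of_pos h0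
  linarith

lemma posLog_exp {x : ℝ} (hx : 0 ≤ x) : Real.posLog (Real.exp x) = x := by
  rw [Real.posLog_apply, Real.log_exp, max_eq_right hx]

/-- cost function -/
lemma cost {f q : ℂ → ℂ} {R : ℝ} {N : ℕ} {P : ℂ → ℂ} {L : ℝ → ℝ} (h : Dt f q R N P L) {n : ℕ}
    (hn : 2 ≤ n) (hN : N ≤ kk n) (θ : ℝ) {T : ℝ} (hT : 0 < T) (hτ : T ≤ tau q L θ)
    (hL : |L θ| ≤ n) :
    Real.posLog (1 / (‖gp q N P n θ‖ * sc n θ)) ≤ Real.posLog (128 / T) +
      2 * n * ((1 - tt n ^ 2) / dd n θ ^ 2) + 2 * Real.posLog (1 / dd n θ) := by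
  have h1 := gp_sc h hn hN θ
  have hD := dd_pos hn θ
  have ht := tt_ge hn
  have ht1 := tt_lt (by omega : 0 < n)
  set Pn := (1 - tt n ^ 2) / dd n θ ^ 2 with hPn
  have hPn0 : 0 ≤ Pn := by
    have : 0 ≤ 1 - tt n ^ 2 := by nlinarith
    positivity
  have hΛ : 0 ≤ (n + L θ) * Pn := by
    have := (abs_le.1 hL).1
    exact mul_nonneg (by linarith) hPn0
  have hΛ2 : (n + L θ) * Pn ≤ 2 * n * Pn := by
    have := (abs_le.1 hL).2
    gcongr
    linarith
  have h2 : T * Real.exp (-((n + L θ) * Pn)) * dd n θ ^ 2 / 128 ≤ ‖gp q N P n θ‖ * sc n θ := by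
    refine le_trans ?_ h1
    have : ‖1 - (tt n : ℂ) * e (kk n * θ)‖ = dd n θ := rfl
    rw [this]
    gcongr
  have hlb : 0 < T * Real.exp (-((n + L θ) * Pn)) * dd n θ ^ 2 / 128 := by positivity
  have h3 : 1 / (‖gp q N P n θ‖ * sc n θ) ≤
      1 / (T * Real.exp (-((n + L θ) * Pn)) * dd n θ ^ 2 / 128) := by
    gcongr
  have h4 : 1 / (T * Real.exp (-((n + L θ) * Pn)) * dd n θ ^ 2 / 128) =
      (128 / T * Real.exp ((n + L θ) * Pn)) * (1 / dd n θ) ^ 2 := by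
    rw [Real.exp_neg]
    field_simp
  have h5 : 0 ≤ 1 / (‖gp q N P n θ‖ * sc n θ) := by
    have := sc_pos hn θ
    positivity
  refine (Real.posLog_le_posLog h5 h3).trans ?_
  rw [h4]
  refine Real.posLog_mul.trans ?_
  rw [Real.posLog_pow]
  have h6 : Real.posLog (128 / T * Real.exp ((n + L θ) * Pn)) ≤
      Real.posLog (128 / T) + (n + L θ) * Pn := by
    refine Real.posLog_mul.trans ?_
    rw [posLog_exp hΛ]
  push_cast
  linarith

lemma gp_hasDeriv {q : ℂ → ℂ} {R : ℝ} {N : ℕ} {P : ℂ → ℂ} {n : ℕ} {g : ℂ → ℂ} {R' : ℝ}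
    (hG : IsG q R N P n g R') (θ : ℝ) :
    HasDerivAt (fun x : ℝ => g (e x)) (gp q N P n θ) θ := by
  have hmem : e θ ∈ ball (0 : ℂ) R' := by
    rw [mem_ball_zero_iff, norm_e]
    exact hG.hR'
  exact hasDerivAt_comp_e (hG.der _ hmem)

lemma gp_cont {f q : ℂ → ℂ} {R : ℝ} {N : ℕ} {P : ℂ → ℂ} {L : ℝ → ℝ} (h : Dt f q R N P L) {n : ℕ}
    (hn : 2 ≤ n) (hN : N ≤ kk n) : Continuous (gp q N P n) := by
  obtain ⟨CL, hCL, hL1, -⟩ := L_lip h
  have hLc : Continuous L := by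
    refine continuous_iff_continuousAt.2 fun a => ?_
    rw [Metric.continuousAt_iff]
    intro ε hε
    refine ⟨ε / CL, by positivity, fun x hx => ?_⟩
    rw [Real.dist_eq] at hx ⊢
    calc |L x - L a| ≤ CL * |x - a| := hL1 _ _
      _ < CL * (ε / CL) := by gcongr
      _ = ε := by field_simp
  have hqc : Continuous fun θ : ℝ => q (e θ) := by
    refine h.cls.q_diff.continuousOn.comp_continuous e_cont fun x => ?_
    rw [mem_ball_zero_iff, norm_e]
    exact h.cls.hR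
  have hchi : Continuous fun θ : ℝ => chi (tt n) (kk n * θ) := by
    unfold chi
    have h1 : Continuous fun θ : ℝ => e (kk n * θ) := e_cont.comp (continuous_const.mul
      continuous_id)
    refine Continuous.div (continuous_const.mul h1) (continuous_const.sub
      (continuous_const.mul h1)) fun θ => ?_
    exact one_sub_ne (by linarith [tt_ge hn]) (tt_lt (by omega)) _
  have h2 : gp q N P n = fun θ : ℝ => I * cexp (θ * I + q (e θ) +
      ((n + L θ : ℝ) : ℂ) * chi (tt n) (kk n * θ)) := funext fun θ => gp_eq h hN θ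
  rw [h2]
  refine continuous_const.mul (Complex.continuous_exp.comp ?_)
  refine (Continuous.add ?_ hqc).add (Continuous.mul ?_ hchi)
  · exact Complex.continuous_ofReal.mul continuous_const
  · exact Complex.continuous_ofReal.comp (continuous_const.add hLc)

lemma fe_cont {f q : ℂ → ℂ} {R : ℝ} (h : Cls f q R) : Continuous fun θ : ℝ => f (e θ) := by
  refine (f_diff h).continuousOn.comp_continuous e_cont fun x => ?_
  rw [mem_ball_zero_iff, norm_e]
  exact h.hR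

/-- the mean of `1 - |f|` -/
lemma int_gap {f q : ℂ → ℂ} {R : ℝ} (h : Cls f q R) :
    ∫ θ in (0 : ℝ)..2 * Real.pi, (1 - ‖f (e θ)‖) ≤ 2 * Real.pi * (1 - M2 f) := by
  have hc := fe_cont h
  have hpi := Real.pi_pos
  have h1 : 2 * Real.pi * (1 - M2 f) = ∫ θ in (0 : ℝ)..2 * Real.pi, (1 - ‖f (e θ)‖ ^ 2) := by
    unfold M2
    have hi : IntervalIntegrable (fun θ : ℝ => ‖f (e θ)‖ ^ 2) volume 0 (2 * Real.pi) :=
      (hc.norm.pow 2).intervalIntegrable _ _
    rw [intervalIntegral.integral_sub (by simp) hi]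
    simp only [intervalIntegral.integral_const, smul_eq_mul, mul_one, sub_zero]
    field_simp
  rw [h1]
  refine intervalIntegral.integral_mono_on (by positivity)
    ((continuous_const.sub hc.norm).intervalIntegrable _ _)
    ((continuous_const.sub (hc.norm.pow 2)).intervalIntegrable _ _) fun θ _ => ?_
  have h2 : ‖f (e θ)‖ < 1 := h.lt1 _ (norm_e θ).le
  have h3 := norm_nonneg (f (e θ))
  nlinarith

lemma lintegral_of_cont {F : ℝ → ℝ} (hF : Continuous F) (h0 : ∀ θ, 0 ≤ F θ) :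
    ∫⁻ θ in Ioc (0 : ℝ) (2 * Real.pi), ENNReal.ofReal (F θ) =
      ENNReal.ofReal (∫ θ in (0 : ℝ)..2 * Real.pi, F θ) := by
  rw [intervalIntegral.integral_of_le (by positivity : (0 : ℝ) ≤ 2 * Real.pi),
    ofReal_integral_eq_lintegral_ofReal]
  · exact (hF.integrableOn_Icc).mono_set Ioc_subset_Icc_self
  · exact Eventually.of_forall h0

/-- three periods -/
lemma lintegral_three {F : ℝ → ℝ≥0∞} (hF : ∀ θ, F (θ + 2 * Real.pi) = F θ) :
    ∫⁻ θ in Ioc (-(2 * Real.pi)) (4 * Real.pi), F θ ≤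
      3 * ∫⁻ θ in Ioc (0 : ℝ) (2 * Real.pi), F θ := by
  have hpi := Real.pi_pos
  have hsplit : Ioc (-(2 * Real.pi)) (4 * Real.pi) ⊆ (Ioc (-(2 * Real.pi)) 0 ∪
      Ioc (0 : ℝ) (2 * Real.pi)) ∪ Ioc (2 * Real.pi) (4 * Real.pi) := by
    intro x hx
    rcases le_or_gt x 0 with h | h
    · exact Or.inl (Or.inl ⟨hx.1, h⟩)
    · rcases le_or_gt x (2 * Real.pi) with h' | h'
      · exact Or.inl (Or.inr ⟨h, h'⟩)
      · exact Or.inr ⟨h', hx.2⟩
  have hshift : ∀ (a b c : ℝ), (∀ θ, F (θ + c) = F θ) →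
      ∫⁻ θ in Ioc (a + c) (b + c), F θ = ∫⁻ θ in Ioc a b, F θ := by
    intro a b c hc
    have h1 := (measurePreserving_add_right volume c).setLIntegral_comp_preimage_emb
      (measurableEmbedding_addRight c) F (Ioc (a + c) (b + c))
    rw [← h1]
    have h2 : (fun x : ℝ => x + c) ⁻¹' Ioc (a + c) (b + c) = Ioc a b := by
      ext x
      simp
    rw [h2]
    refine lintegral_congr fun x => hc x
  have e1 : ∫⁻ θ in Ioc (-(2 * Real.pi)) 0, F θ = ∫⁻ θ in Ioc (0 : ℝ) (2 * Real.pi), F θ := by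
    have := hshift (-(2 * Real.pi)) 0 (2 * Real.pi) hF
    rw [← this]
    congr 3
    · ring
    · ring
  have e2 : ∫⁻ θ in Ioc (2 * Real.pi) (4 * Real.pi), F θ =
      ∫⁻ θ in Ioc (0 : ℝ) (2 * Real.pi), F θ := by
    have := hshift 0 (2 * Real.pi) (2 * Real.pi) hF
    rw [← this]
    congr 3
    · ring
    · ring
  calc ∫⁻ θ in Ioc (-(2 * Real.pi)) (4 * Real.pi), F θ
      ≤ ∫⁻ θ in (Ioc (-(2 * Real.pi)) 0 ∪ Ioc (0 : ℝ) (2 * Real.pi)) ∪
          Ioc (2 * Real.pi) (4 * Real.pi), F θ := lintegral_mono_set hsplit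
    _ ≤ (∫⁻ θ in Ioc (-(2 * Real.pi)) 0 ∪ Ioc (0 : ℝ) (2 * Real.pi), F θ) +
          ∫⁻ θ in Ioc (2 * Real.pi) (4 * Real.pi), F θ := lintegral_union_le _ _ _
    _ ≤ ((∫⁻ θ in Ioc (-(2 * Real.pi)) 0, F θ) + ∫⁻ θ in Ioc (0 : ℝ) (2 * Real.pi), F θ) +
          ∫⁻ θ in Ioc (2 * Real.pi) (4 * Real.pi), F θ := by
        gcongr
        exact lintegral_union_le _ _ _
    _ = 3 * ∫⁻ θ in Ioc (0 : ℝ) (2 * Real.pi), F θ := by
        rw [e1, e2]
        ring

end Pool.Agent.J4.H80.IB
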