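import Pool.Agent.J4.H80.IB.IPot2

set_option autoImplicit false

open Complex Metric Set Filter Topology MeasureTheory
open scoped ComplexConjugate ENNReal

namespace Pool.Agent.J4.H80.IB

/-- the part treated with the covering lemma -/
def ZN (f : ℂ → ℂ) (n : ℕ) (w : ℂ) (r1 κ : ℝ) : Set ℝ :=
  {θ | θ ∈ Ioc (0 : ℝ) (2 * Real.pi) ∧ ‖f (e θ)‖ ≤ r1 ∧
    (1 - tt n ^ 2 < dd n θ ^ 2 ∨ ‖f (e θ) - w‖ < κ)}

def Z1 (f : ℂ → ℂ) (n : ℕ) (r2 : ℝ) : Set ℝ :=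
  {θ | θ ∈ Ioc (-(2 * Real.pi)) (4 * Real.pi) ∧ ‖f (e θ)‖ ≤ r2 ∧
    4 / 9 * (1 - tt n ^ 2) ≤ dd n θ ^ 2}

def Z3 (f : ℂ → ℂ) (w : ℂ) (κ : ℝ) : Set ℝ :=
  {θ | θ ∈ Icc (-10 : ℝ) 10 ∧ ‖f (e θ) - w‖ ≤ κ}

def BS (n : ℕ) : Set ℝ :=
  {θ | θ ∈ Ioc (0 : ℝ) (2 * Real.pi) ∧ ‖1 - (tt n : ℂ) * e (kk n * θ)‖ ≤ 2 / (n : ℝ) ^ 2}

section

variable {f q : ℂ → ℂ} {R : ℝ} {N : ℕ} {P : ℂ → ℂ} {L : ℝ → ℝ} (h : Dt f q R N P L)

include h

lemma ZN_meas (n : ℕ) (w : ℂ) (r1 κ : ℝ) : MeasurableSet (ZN f n w r1 κ) := by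
  have hc := fe_cont h.cls
  have h1 : MeasurableSet {θ : ℝ | ‖f (e θ)‖ ≤ r1} := (isClosed_le hc.norm continuous_const).measurableSet
  have h2 : MeasurableSet {θ : ℝ | 1 - tt n ^ 2 < dd n θ ^ 2} :=
    (isOpen_lt continuous_const ((dd_cont n).pow 2)).measurableSet
  have h3 : MeasurableSet {θ : ℝ | ‖f (e θ) - w‖ < κ} :=
    (isOpen_lt (hc.sub continuous_const).norm continuous_const).measurableSet
  exact measurableSet_Ioc.inter (h1.inter (h2.union h3))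

lemma Z1_meas (n : ℕ) (r2 : ℝ) : MeasurableSet (Z1 f n r2) := by
  have hc := fe_cont h.cls
  have h1 : MeasurableSet {θ : ℝ | ‖f (e θ)‖ ≤ r2} := (isClosed_le hc.norm continuous_const).measurableSet
  have h2 : MeasurableSet {θ : ℝ | 4 / 9 * (1 - tt n ^ 2) ≤ dd n θ ^ 2} :=
    (isClosed_le continuous_const ((dd_cont n).pow 2)).measurableSet
  exact measurableSet_Ioc.inter (h1.inter h2)

lemma Z3_meas (w : ℂ) (κ : ℝ) : MeasurableSet (Z3 f w κ) := by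
  have hc := fe_cont h.cls
  have h3 : MeasurableSet {θ : ℝ | ‖f (e θ) - w‖ ≤ κ} :=
    (isClosed_le (hc.sub continuous_const).norm continuous_const).measurableSet
  exact measurableSet_Icc.inter h3

omit h in
lemma BS_meas (n : ℕ) : MeasurableSet (BS n) := by
  have h3 : MeasurableSet {θ : ℝ | dd n θ ≤ 2 / (n : ℝ) ^ 2} :=
    (isClosed_le (dd_cont n) continuous_const).measurableSet
  exact measurableSet_Ioc.inter h3

omit h in
lemma one_sub_sq_le {n : ℕ} (hn : 2 ≤ n) : 1 - tt n ^ 2 ≤ 2 / (n : ℝ) ^ 4 := by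
  have h1 := one_sub_tt n
  have h2 := tt_lt (by omega : 0 < n)
  have h3 := tt_ge hn
  have h4 : 1 - tt n ^ 2 = (1 - tt n) * (1 + tt n) := by ring
  rw [h4, h1]
  have h5 : (0 : ℝ) ≤ 1 / (n : ℝ) ^ 4 := by positivity
  calc 1 / (n : ℝ) ^ 4 * (1 + tt n) ≤ 1 / (n : ℝ) ^ 4 * 2 := by gcongr; linarith
    _ = _ := by ring

/-- pointwise bound of the Green function -/
lemma pointwise {n : ℕ} (hn : 2 ≤ n) {g : ℂ → ℂ} {w : ℂ} {ρ : ℝ} (hρ0 : 0 ≤ ρ) (hρ : ρ < 1)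
    (hw : ‖w‖ ≤ ρ) {ε' : ℝ} (hε0 : 0 < ε') (hε' : ε' ≤ (1 - ρ) ^ 2 / 8)
    (hE1 : ∀ θ, ‖g (e θ) - f (e θ)‖ ≤ 2 * tau q L θ + ε') {CN : ℝ} (hCN : 0 < CN)
    (hE2 : ∀ θ, dd n θ ^ 2 ≤ 1 - tt n ^ 2 → ‖g (e θ) - f (e θ)‖ ≤ CN * (n : ℝ) ^ 6 / kk n)
    (hg1 : ∀ θ, ‖g (e θ)‖ ≤ 1) {θ : ℝ} (hθ : θ ∈ Ioc (0 : ℝ) (2 * Real.pi)) :
    ENNReal.ofReal (gr w (g (e θ))) ≤
      ENNReal.ofReal (2 / (1 - ρ) ^ 2 * (3 / 2 * (1 - ‖f (e θ)‖) + ε') +
        Real.log 2 * ((1 - ‖f (e θ)‖) / ((1 - ρ) ^ 2 / 16))) +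
      (BS n).indicator (fun _ => ENNReal.ofReal (n + 2)) θ +
      (ZN f n w (1 - (1 - ρ) ^ 2 / 16) ((CN + 1) * (n : ℝ) ^ 6 / kk n)).indicator
        (fun θ => ENNReal.ofReal (Real.posLog (1 / ‖g (e θ) - w‖))) θ := by
  have h1ρ : 0 < 1 - ρ := by linarith
  have hfθ : ‖f (e θ)‖ < 1 := h.cls.lt1 _ (norm_e θ).le
  have hτ := h.hi θ
  have hl2 : 0 < Real.log 2 := Real.log_pos (by norm_num)
  have hl21 : Real.log 2 ≤ 1 := by
    have := Real.log_le_sub_one_of_pos (by norm_num : (0 : ℝ) < 2)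
    linarith
  have hA0 : 0 ≤ 2 / (1 - ρ) ^ 2 * (3 / 2 * (1 - ‖f (e θ)‖) + ε') := by
    have : 0 ≤ 1 - ‖f (e θ)‖ := by linarith
    positivity
  have hB0 : 0 ≤ Real.log 2 * ((1 - ‖f (e θ)‖) / ((1 - ρ) ^ 2 / 16)) := by
    have : 0 ≤ 1 - ‖f (e θ)‖ := by linarith
    positivity
  have hk : (0 : ℝ) < kk n := by exact_mod_cast kk_pos (by omega : 0 < n)
  have hn0 : (2 : ℝ) ≤ n := by exact_mod_cast hn
  have hlog := gr_le_log (w := w) (x := g (e θ)) (by linarith) (hg1 θ)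
  rcases lt_or_ge (1 - (1 - ρ) ^ 2 / 16) ‖f (e θ)‖ with hf1 | hf1
  · -- near the circle
    have h2 : 1 - ‖g (e θ)‖ ≤ 3 / 2 * (1 - ‖f (e θ)‖) + ε' := by
      have h3 : ‖f (e θ)‖ ≤ ‖g (e θ)‖ + ‖g (e θ) - f (e θ)‖ := by
        have := norm_sub_le (g (e θ)) (g (e θ) - f (e θ))
        rwa [sub_sub_cancel] at this
      have h4 := hE1 θ
      linarith
    have h5 := gr_le_near hρ hw (hg1 θ) (by nlinarith)
    have h6 : gr w (g (e θ)) ≤ 2 / (1 - ρ) ^ 2 * (3 / 2 * (1 - ‖f (e θ)‖) + ε') := by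
      refine h5.trans ?_
      rw [mul_div_right_comm]
      gcongr
    refine le_add_right (le_add_right (ENNReal.ofReal_le_ofReal ?_))
    linarith
  · by_cases hP : 1 - tt n ^ 2 < dd n θ ^ 2 ∨ ‖f (e θ) - w‖ < (CN + 1) * (n : ℝ) ^ 6 / kk n
    · -- covering part
      have hmem : θ ∈ ZN f n w (1 - (1 - ρ) ^ 2 / 16) ((CN + 1) * (n : ℝ) ^ 6 / kk n) :=
        ⟨hθ, hf1, hP⟩
      rw [Set.indicator_of_mem hmem]
      have h7 : Real.log 2 ≤ Real.log 2 * ((1 - ‖f (e θ)‖) / ((1 - ρ) ^ 2 / 16)) := by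
        refine le_mul_of_one_le_right hl2.le ?_
        rw [one_le_div (by positivity)]
        linarith
      calc ENNReal.ofReal (gr w (g (e θ)))
          ≤ ENNReal.ofReal ((2 / (1 - ρ) ^ 2 * (3 / 2 * (1 - ‖f (e θ)‖) + ε') +
            Real.log 2 * ((1 - ‖f (e θ)‖) / ((1 - ρ) ^ 2 / 16))) +
            Real.posLog (1 / ‖g (e θ) - w‖)) := by
            apply ENNReal.ofReal_le_ofReal
            linarith
        _ ≤ ENNReal.ofReal (2 / (1 - ρ) ^ 2 * (3 / 2 * (1 - ‖f (e θ)‖) + ε') +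
            Real.log 2 * ((1 - ‖f (e θ)‖) / ((1 - ρ) ^ 2 / 16))) +
            ENNReal.ofReal (Real.posLog (1 / ‖g (e θ) - w‖)) := ENNReal.ofReal_add_le
        _ ≤ _ := by gcongr; exact le_self_add
    · -- near the nodes, far from w
      push Not at hP
      obtain ⟨hP1, hP2⟩ := hP
      have h8 := hE2 θ hP1
      have h9 : 1 / (kk n : ℝ) ≤ ‖g (e θ) - w‖ := by
        have h10 : ‖f (e θ) - w‖ ≤ ‖g (e θ) - w‖ + ‖g (e θ) - f (e θ)‖ := by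
          have := norm_sub_le (g (e θ) - w) (g (e θ) - f (e θ))
          rwa [show g (e θ) - w - (g (e θ) - f (e θ)) = f (e θ) - w by ring] at this
        have h11 : (CN + 1) * (n : ℝ) ^ 6 / kk n = CN * (n : ℝ) ^ 6 / kk n + (n : ℝ) ^ 6 / kk n := by
          ring
        have h12 : 1 / (kk n : ℝ) ≤ (n : ℝ) ^ 6 / kk n := by
          gcongr
          exact one_le_pow₀ (by linarith)
        linarith
      have h13 : 1 / ‖g (e θ) - w‖ ≤ kk n := by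
        rw [div_le_comm₀ (lt_of_lt_of_le (by positivity) h9) hk]
        exact h9
      have h14 : Real.posLog (1 / ‖g (e θ) - w‖) ≤ n := by
        refine (Real.posLog_le_posLog (by positivity) h13).trans ?_
        rw [Real.posLog_apply]
        refine max_le (by positivity) ?_
        rw [Real.log_le_iff_le_exp hk]
        have := kk_mul_le (by omega : 0 < n)
        nlinarith
      have hBm : θ ∈ BS n := by
        refine ⟨hθ, ?_⟩
        have h15 := one_sub_sq_le hn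
        have h16 : dd n θ ^ 2 ≤ (2 / (n : ℝ) ^ 2) ^ 2 := by
          have h17 : 2 / (n : ℝ) ^ 4 ≤ (2 / (n : ℝ) ^ 2) ^ 2 := by
            rw [div_pow, ← pow_mul]
            gcongr
            norm_num
          linarith
        exact (pow_le_pow_iff_left₀ (norm_nonneg _) (by positivity) two_ne_zero).1 h16
      rw [Set.indicator_of_mem hBm]
      refine le_add_right ?_
      refine le_add_left (ENNReal.ofReal_le_ofReal ?_)
      linarith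

/-- the cost in the regular part -/
lemma cost1 {n : ℕ} (hn : 2 ≤ n) (hN : N ≤ kk n) {m1 : ℝ} (hm : 0 < m1) {θ : ℝ}
    (hL : |L θ| ≤ n) (h1 : ‖f (e θ)‖ ≤ 1 - m1 / 2) (h2 : 4 / 9 * (1 - tt n ^ 2) ≤ dd n θ ^ 2) :
    1 + Real.posLog (1 / (‖gp q N P n θ‖ * sc n θ)) ≤
      (14 + 2 * Real.posLog (4096 / m1)) * dd n θ ^ (-(1 / 2) : ℝ) := by
  have hD := dd_pos hn θ
  have hD2 := dd_le hn θ
  have hn0 : (2 : ℝ) ≤ n := by exact_mod_cast hn
  have ht := tt_ge hn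
  have ht1 := tt_lt (by omega : 0 < n)
  have hc := cost h hn hN θ (T := m1 / 32) (by positivity) (by
    have := h.lo θ
    linarith) hL
  have e1 : 128 / (m1 / 32) = 4096 / m1 := by field_simp; norm_num
  rw [e1] at hc
  set y := dd n θ ^ (-(1 / 2) : ℝ) with hy
  have hy0 : 0 < y := Real.rpow_pos_of_pos hD _
  have hy2 : y ^ 2 = 1 / dd n θ := by
    rw [hy, ← Real.rpow_natCast, ← Real.rpow_mul hD.le]
    norm_num
    rw [Real.rpow_neg_one]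
  have hy4 : y ^ 4 = 1 / dd n θ ^ 2 := by
    calc y ^ 4 = (y ^ 2) ^ 2 := by ring
      _ = _ := by rw [hy2, one_div_pow]
  have hp := posLog_le_sqrt hD
  rw [← hy] at hp
  have hy1 : 1 ≤ 2 * y := by
    have h3 : 1 / 2 ≤ y ^ 2 := by
      rw [hy2]
      gcongr
    nlinarith
  have h4 : 0 < 1 - tt n ^ 2 := by nlinarith
  -- 2 n x ≤ 8 y
  have hx : 2 * n * ((1 - tt n ^ 2) / dd n θ ^ 2) ≤ 8 * y := by
    have e2 : (1 - tt n ^ 2) / dd n θ ^ 2 = (1 - tt n ^ 2) * y ^ 4 := by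
      rw [hy4]; ring
    rw [e2]
    have h5 : (1 - tt n ^ 2) * y ^ 4 ≤ 9 / 4 := by
      rw [← e2, div_le_iff₀ (by positivity)]
      linarith
    have h6 : n * (1 - tt n ^ 2) * y ^ 3 ≤ 4 := by
      have h7 : (n * (1 - tt n ^ 2) * y ^ 3) ^ 4 ≤ 4 ^ 4 := by
        have h8 : (n * (1 - tt n ^ 2) * y ^ 3) ^ 4 =
            ((n : ℝ) ^ 4 * (1 - tt n ^ 2)) * ((1 - tt n ^ 2) * y ^ 4) ^ 3 := by ring
        rw [h8]
        have h9 : (n : ℝ) ^ 4 * (1 - tt n ^ 2) ≤ 2 := by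
          have := one_sub_sq_le hn
          calc (n : ℝ) ^ 4 * (1 - tt n ^ 2) ≤ (n : ℝ) ^ 4 * (2 / (n : ℝ) ^ 4) := by gcongr
            _ = 2 := by field_simp
        have h10 : ((1 - tt n ^ 2) * y ^ 4) ^ 3 ≤ (9 / 4) ^ 3 := by gcongr
        have h11 : 0 ≤ ((1 - tt n ^ 2) * y ^ 4) ^ 3 := by positivity
        calc _ ≤ 2 * (9 / 4 : ℝ) ^ 3 := by gcongr
          _ ≤ 4 ^ 4 := by norm_num
      exact (pow_le_pow_iff_left₀ (by positivity) (by norm_num) (by norm_num)).1 h7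
    have h12 : 2 * n * ((1 - tt n ^ 2) * y ^ 4) = 2 * (n * (1 - tt n ^ 2) * y ^ 3) * y := by ring
    rw [h12]
    nlinarith
  have ha : 0 ≤ Real.posLog (4096 / m1) := Real.posLog_nonneg
  nlinarith

/-- the cost in the exceptional part -/
lemma cost3 {n : ℕ} (hn : 2 ≤ n) (hN : N ≤ kk n) {mf : ℝ} (hm : 0 < mf) {θ : ℝ}
    (hL : |L θ| ≤ n) (h1 : mf ≤ 1 - ‖f (e θ)‖) :
    1 + Real.posLog (1 / (‖gp q N P n θ‖ * sc n θ)) ≤
      (13 + Real.posLog (2048 / mf)) * (n : ℝ) ^ 5 := by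
  have hD := dd_pos hn θ
  have hn0 : (2 : ℝ) ≤ n := by exact_mod_cast hn
  have hc := cost h hn hN θ (T := mf / 16) (by positivity) (by
    have := h.lo θ
    linarith) hL
  have e1 : 128 / (mf / 16) = 2048 / mf := by field_simp; norm_num
  rw [e1] at hc
  have hge := dd_ge hn θ
  have h2 : 1 / dd n θ ≤ (n : ℝ) ^ 4 := by
    rw [div_le_comm₀ hD (by positivity)]
    exact hge
  have h3 : Real.posLog (1 / dd n θ) ≤ 4 * n := by
    refine (Real.posLog_le_posLog (by positivity) h2).trans ?_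
    rw [Real.posLog_pow]
    push_cast
    gcongr
    rw [Real.posLog_apply]
    refine max_le (by positivity) ?_
    have := Real.log_le_sub_one_of_pos (by linarith : (0 : ℝ) < n)
    linarith
  have h4 : (1 - tt n ^ 2) / dd n θ ^ 2 ≤ 2 * (n : ℝ) ^ 4 := by
    have h5 : (1 - tt n ^ 2) / dd n θ ^ 2 = (1 - tt n ^ 2) * (1 / dd n θ) ^ 2 := by
      rw [one_div_pow]; ring
    rw [h5]
    calc (1 - tt n ^ 2) * (1 / dd n θ) ^ 2 ≤ (2 / (n : ℝ) ^ 4) * ((n : ℝ) ^ 4) ^ 2 := by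
          gcongr
          exact one_sub_sq_le hn
      _ = _ := by field_simp
  have ha : 0 ≤ Real.posLog (2048 / mf) := Real.posLog_nonneg
  have h5 : (1 : ℝ) ≤ (n : ℝ) ^ 5 := one_le_pow₀ (by linarith)
  have h6 : (n : ℝ) ≤ (n : ℝ) ^ 5 := by
    calc (n : ℝ) = (n : ℝ) ^ 1 := (pow_one _).symm
      _ ≤ (n : ℝ) ^ 5 := pow_le_pow_right₀ (by linarith) (by norm_num)
  have h7 : 2 * (n : ℝ) * ((1 - tt n ^ 2) / dd n θ ^ 2) ≤ 4 * (n : ℝ) ^ 5 := by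
    calc 2 * (n : ℝ) * ((1 - tt n ^ 2) / dd n θ ^ 2) ≤ 2 * (n : ℝ) * (2 * (n : ℝ) ^ 4) := by gcongr
      _ = 4 * (n : ℝ) ^ 5 := by ring
  nlinarith [mul_nonneg ha (sub_nonneg.2 h5)]

end

end Pool.Agent.J4.H80.IB
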